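import Mathlib

/-!
# FOL (MP_f9b4a8_gt, r = 1): definitions of the foliation level

* `ClosedMfd n`: a closed smooth 3-manifold `M ⊂ ℝⁿ`, with its nearest point retraction.
* `Fol M`: co-oriented codimension-one foliations of `M` of class `C¹` (with `C¹` tangent plane
  field), with the `C¹` topology.
* `leaf F x`: the leaf through `x`.
* `comb`, `glued`: the plane model of the compact surface of genus two with one boundary circle.
* `GenusAtLeastTwo F x`: the leaf through `x` contains an embedded copy of that surface.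
-/

open Set Filter Topology
open scoped ContDiff

namespace Pool.Agent.helper35.FOL

/-- Euclidean space `ℝⁿ`. -/
abbrev E (n : ℕ) := EuclideanSpace ℝ (Fin n)

/-- A closed smooth 3-manifold in `ℝⁿ`, given together with a smooth retraction `π` of an open
neighbourhood `V` onto it whose derivative at the points of the manifold is the orthogonal
projection onto the (three-dimensional) tangent space. -/
structure ClosedMfd (n : ℕ) where
  carrier : Set (E n)
  V : Set (E n)
  π : E n → E n
  isOpen_V : IsOpen V
  subset_V : carrier ⊆ V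
  smooth : ContDiffOn ℝ ∞ π V
  image_eq : π '' V = carrier
  fix : ∀ x ∈ carrier, π x = x
  compact : IsCompact carrier
  rank : ∀ x ∈ carrier, Module.finrank ℝ (LinearMap.range (fderiv ℝ π x).toLinearMap) = 3
  symm : ∀ x ∈ carrier, ∀ u w : E n, inner ℝ (fderiv ℝ π x u) w = inner ℝ u (fderiv ℝ π x w)

variable {n : ℕ} {M : ClosedMfd n}

/-- A co-oriented foliation of codimension one and of class `C¹` of the closed 3-manifold `M`,
given by its unit normal vector field `N`: the tangent plane of the foliation at `x ∈ M` consists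
of the vectors of `T_x M` orthogonal to `N x`; the plane field is of class `C¹`, and near every
point the leaves are the level sets of a `C¹` function `u` on `M` whose gradient on `M` is a
positive multiple of `N`. -/
@[ext]
structure Fol (M : ClosedMfd n) where
  N : E n → E n
  off : ∀ x, x ∉ M.carrier → N x = 0
  tang : ∀ x ∈ M.carrier, fderiv ℝ M.π x (N x) = N x
  unit : ∀ x ∈ M.carrier, ‖N x‖ = 1
  c1 : ContDiffOn ℝ 1 (fun x => N (M.π x)) M.V
  integrable : ∀ x ∈ M.carrier, ∃ u : E n → ℝ, ContDiffAt ℝ 1 u x ∧
    ∀ᶠ y in 𝓝[M.carrier] x, ∃ c : ℝ, 0 < c ∧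
      ∀ v : E n, fderiv ℝ u y (fderiv ℝ M.π y v) = c * inner ℝ (N y) v

/-- The value and the derivative along `M` of the unit normal field. -/
noncomputable def Fol.jetFun (F : Fol M) (x : M.carrier) : E n × (E n →L[ℝ] E n) :=
  (F.N x, fderiv ℝ (fun y => F.N (M.π y)) x)

theorem Fol.continuous_jetFun (F : Fol M) : Continuous F.jetFun := by
  have h1 : ContinuousOn (fun x => F.N (M.π x)) M.V := F.c1.continuousOn
  have h2 : ContinuousOn (fderiv ℝ (fun y => F.N (M.π y))) M.V :=
    F.c1.continuousOn_fderiv_of_isOpen M.isOpen_V le_rfl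
  have h3 : Continuous (fun x : M.carrier => (⟨x.1, M.subset_V x.2⟩ : M.V)) := by fun_prop
  refine Continuous.prodMk ?_ ?_
  · have h4 : Continuous (fun x : M.V => F.N (M.π x)) := continuousOn_iff_continuous_domRestrict.1 h1
    have h5 := h4.comp h3
    refine h5.congr ?_
    intro x
    simp only [Function.comp]
    rw [M.fix x.1 x.2]
  · have h4 : Continuous (fun x : M.V => fderiv ℝ (fun y => F.N (M.π y)) x) :=
      continuousOn_iff_continuous_domRestrict.1 h2
    exact h4.comp h3

/-- The 1-jet along `M` of the unit normal field, as a continuous map on `M`. -/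
noncomputable def Fol.jet (F : Fol M) : C(M.carrier, E n × (E n →L[ℝ] E n)) :=
  ⟨F.jetFun, F.continuous_jetFun⟩

/-- The `C¹` topology on the space of foliations: uniform convergence on `M` of the unit normal
field and of its first derivatives. -/
noncomputable instance : TopologicalSpace (Fol M) := TopologicalSpace.induced Fol.jet inferInstance

/-- The leaf of `F` through `x`: the points of `M` joined to `x` by a `C¹` curve in `M` tangent to
the foliation. -/
def leaf (F : Fol M) (x : E n) : Set (E n) :=
  {y | ∃ γ : ℝ → E n, ContDiff ℝ 1 γ ∧ (∀ t, γ t ∈ M.carrier) ∧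
    (∀ t, inner ℝ (F.N (γ t)) (deriv γ t) = 0) ∧ γ 0 = x ∧ γ 1 = y}

/-- The open comb with margin `h`: a bar with eight vertical arms (numbered `0, …, 7`). -/
def combM (h : ℝ) : Set ℂ :=
  {z | -1 + h < z.re ∧ z.re < 8 - h ∧ -1 + h < z.im ∧ z.im < -h} ∪
    {z | ∃ k : ℕ, k < 8 ∧ |z.re - k| < 1 / 4 - h ∧ -1 + h < z.im ∧ z.im < 2 - h}

/-- The comb: the open bar `(-1,8) × (-1,0)` with the eight arms
`(k - 1/4, k + 1/4) × (-1, 2)`, `k = 0, …, 7`. -/
def comb : Set ℂ := combM 0

/-- The end of the arm `k`. -/
def tab (k : ℕ) : Set ℂ := {z | |z.re - k| < 1 / 4 ∧ 1 < z.im ∧ z.im < 2}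

/-- The point reflection which maps the end of the arm `j` onto the end of the arm `j + 2`. -/
noncomputable def rho (j : ℕ) (z : ℂ) : ℂ := (2 * j + 2 : ℂ) + 3 * Complex.I - z

/-- The ends of the arms `j` and `j + 2` are glued for `j = 0, 1, 4, 5`. -/
def handles : Finset ℕ := {0, 1, 4, 5}

/-- The gluing relation on the comb: the quotient is the (open) surface of genus two with one end:
a disc (the comb) with four bands attached in the cyclic pattern
`a b a⁻¹ b⁻¹ c d c⁻¹ d⁻¹`. -/
def glued (z w : ℂ) : Prop :=
  z = w ∨ ∃ j ∈ handles, (z ∈ tab j ∧ w = rho j z) ∨ (w ∈ tab j ∧ z = rho j w)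

/-- `κ` is an embedding of the open surface of genus two with one end into a leaf of `F`:
a `C²` immersion of the comb into `M`, tangent to the foliation, with `κ z = κ w` exactly if
`z` and `w` are glued. -/
structure IsGenusTwoPiece (F : Fol M) (κ : ℂ → E n) : Prop where
  smooth : ContDiffOn ℝ 2 κ comb
  mem : ∀ z ∈ comb, κ z ∈ M.carrier
  immersion : ∀ z ∈ comb, Function.Injective (fderiv ℝ κ z)
  tangent : ∀ z ∈ comb, ∀ v : ℂ, inner ℝ (F.N (κ z)) (fderiv ℝ κ z v) = 0
  glue : ∀ z ∈ comb, ∀ w ∈ comb, (κ z = κ w ↔ glued z w)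

/-- The leaf of `F` through `x` has genus at least two: it contains an embedded copy of the
surface of genus two with one end. -/
def GenusAtLeastTwo (F : Fol M) (x : E n) : Prop :=
  ∃ κ : ℂ → E n, IsGenusTwoPiece F κ ∧ ∀ z ∈ comb, κ z ∈ leaf F x

end Pool.Agent.helper35.FOL
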