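import Pool.Agent.helper35.FOL.PDefs

/-!
# FOL-F01: the retraction `π` and its derivative at the points of the manifold

`pi_mem`: `image_eq`.  `pi_contDiffAt`: `M.V` is an open neighbourhood.  `pi_idem`: differentiate
`π ∘ π = π` on `V` at `x = π x`.  `tangent_of_map`: differentiate `π ∘ g = g` (near the point).
`exists_preimage`: the range of `fderiv g y` (dimension 3, injective on a 3-dimensional space) is
contained in `range (fderiv π (g y))` (`tangent_of_map`), which has dimension 3 (`M.rank`), so they are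
equal; `v = fderiv π v` is in the range.  `inner_N`: `M.symm` and `F.tang`.
`N_lipschitz`: `N ∘ π` is `C¹` on `V`, hence locally Lipschitz; compactness of `M` (if `‖x - y‖` is
bounded below use `‖N‖ = 1`; Lebesgue number).
`pi_second`: `‖(y - x) - Dπ(x)(y - x)‖ ≤ C ‖y - x‖²` for `x, y ∈ M`: Taylor formula for `π` (`C²`) near
the compact set, and boundedness for `‖y - x‖` bounded below.
-/

open Set Filter Topology
open scoped ContDiff commutatorElement

namespace Pool.Agent.helper35.FOL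

variable {n : ℕ} {M : ClosedMfd n}

theorem pi_mem {x : E n} (hx : x ∈ M.V) : M.π x ∈ M.carrier := by
  rw [← M.image_eq]
  exact mem_image_of_mem M.π hx

theorem V_mem_nhds {x : E n} (hx : x ∈ M.carrier) : M.V ∈ 𝓝 x :=
  M.isOpen_V.mem_nhds (M.subset_V hx)

theorem pi_contDiffAt {x : E n} (hx : x ∈ M.carrier) : ContDiffAt ℝ ∞ M.π x :=
  M.smooth.contDiffAt (V_mem_nhds hx)

theorem pi_hasFDerivAt {x : E n} (hx : x ∈ M.carrier) :
    HasFDerivAt M.π (fderiv ℝ M.π x) x :=
  ((pi_contDiffAt hx).differentiableAt (by simp)).hasFDerivAt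

theorem tangent_of_map {X : Type*} [NormedAddCommGroup X] [NormedSpace ℝ X] {g : X → E n} {y : X}
    (hg : DifferentiableAt ℝ g y) (hmem : ∀ᶠ y' in 𝓝 y, g y' ∈ M.carrier) (v : X) :
    fderiv ℝ M.π (g y) (fderiv ℝ g y v) = fderiv ℝ g y v := by
  have hy : g y ∈ M.carrier := hmem.self_of_nhds
  have h1 : HasFDerivAt (fun y' => M.π (g y')) ((fderiv ℝ M.π (g y)).comp (fderiv ℝ g y)) y :=
    (pi_hasFDerivAt hy).comp y hg.hasFDerivAt
  have h2 : HasFDerivAt (fun y' => M.π (g y')) (fderiv ℝ g y) y := by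
    refine hg.hasFDerivAt.congr_of_eventuallyEq ?_
    filter_upwards [hmem] with y' hy'
    exact M.fix _ hy'
  have h3 := h1.unique h2
  exact congrArg (fun L : X →L[ℝ] E n => L v) h3

theorem pi_idem {x : E n} (hx : x ∈ M.carrier) (v : E n) :
    fderiv ℝ M.π x (fderiv ℝ M.π x v) = fderiv ℝ M.π x v := by
  have h1 : ∀ᶠ y in 𝓝 x, M.π y ∈ M.carrier := by
    filter_upwards [V_mem_nhds hx] with y hy
    exact pi_mem hy
  have h2 := tangent_of_map (pi_hasFDerivAt hx).differentiableAt h1 v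
  rwa [M.fix x hx] at h2

theorem exists_preimage {g : ℂ × ℝ → E n} {y : ℂ × ℝ} (hg : DifferentiableAt ℝ g y)
    (hmem : ∀ᶠ y' in 𝓝 y, g y' ∈ M.carrier) (himm : Function.Injective (fderiv ℝ g y))
    {v : E n} (hv : fderiv ℝ M.π (g y) v = v) : ∃ w, fderiv ℝ g y w = v := by
  have hy : g y ∈ M.carrier := hmem.self_of_nhds
  have hle : LinearMap.range (fderiv ℝ g y).toLinearMap ≤
      LinearMap.range (fderiv ℝ M.π (g y)).toLinearMap := by
    rintro _ ⟨w, rfl⟩
    exact ⟨fderiv ℝ g y w, tangent_of_map hg hmem w⟩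
  have hfr : Module.finrank ℝ (LinearMap.range (fderiv ℝ g y).toLinearMap) =
      Module.finrank ℝ (LinearMap.range (fderiv ℝ M.π (g y)).toLinearMap) := by
    rw [M.rank _ hy, LinearMap.finrank_range_of_inj himm, Module.finrank_prod,
      Complex.finrank_real_complex, Module.finrank_self]
  have heq := Submodule.eq_of_le_of_finrank_eq hle hfr
  have hmem' : v ∈ LinearMap.range (fderiv ℝ M.π (g y)).toLinearMap := ⟨v, hv⟩
  rw [← heq] at hmem'
  obtain ⟨w, hw⟩ := hmem'
  exact ⟨w, hw⟩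

theorem inner_N (F : Fol M) {x : E n} (hx : x ∈ M.carrier) (v : E n) :
    inner ℝ (F.N x) (fderiv ℝ M.π x v) = inner ℝ (F.N x) v := by
  rw [← M.symm x hx, F.tang x hx]

theorem compact_bound {X : Type*} [TopologicalSpace X] {K : Set X} (hK : IsCompact K)
    (a b : X → ℝ) (hb : ∀ p, 0 ≤ b p)
    (h : ∀ p ∈ K, ∃ C : ℝ, ∀ᶠ q in 𝓝[K] p, a q ≤ C * b q) :
    ∃ C : ℝ, 0 ≤ C ∧ ∀ q ∈ K, a q ≤ C * b q := by
  refine hK.induction_on (p := fun S => ∃ C : ℝ, 0 ≤ C ∧ ∀ q ∈ S, a q ≤ C * b q)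
    ⟨0, le_rfl, by simp⟩ ?_ ?_ ?_
  · rintro s t hst ⟨C, h0, hC⟩
    exact ⟨C, h0, fun q hq => hC q (hst hq)⟩
  · rintro s t ⟨C, h0, hC⟩ ⟨D, h1, hD⟩
    refine ⟨max C D, le_max_of_le_left h0, ?_⟩
    rintro q (hq | hq)
    · exact (hC q hq).trans (mul_le_mul_of_nonneg_right (le_max_left _ _) (hb q))
    · exact (hD q hq).trans (mul_le_mul_of_nonneg_right (le_max_right _ _) (hb q))
  · intro p hp
    obtain ⟨C, hC⟩ := h p hp
    refine ⟨_, hC, max C 0, le_max_right _ _, fun q hq => ?_⟩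
    exact le_trans hq (mul_le_mul_of_nonneg_right (le_max_left _ _) (hb q))

theorem bound_of_cont {X : Type*} [TopologicalSpace X] {K : Set X} {a b : X → ℝ} {p : X}
    (ha : ContinuousAt a p) (hb : ContinuousAt b p) (hp : 0 < b p) :
    ∃ C : ℝ, ∀ᶠ q in 𝓝[K] p, a q ≤ C * b q := by
  refine ⟨(a p + 1) / b p, ?_⟩
  have h1 : a p < (a p + 1) / b p * b p := by
    rw [div_mul_cancel₀ _ hp.ne']
    linarith
  have h2 : ContinuousAt (fun q => (a p + 1) / b p * b q) p := continuousAt_const.mul hb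
  have h3 : ∀ᶠ q in 𝓝 p, a q < (a p + 1) / b p * b q := ha.eventually_lt h2 h1
  exact (h3.filter_mono nhdsWithin_le_nhds).mono fun q hq => hq.le

theorem N_lipschitz (F : Fol M) :
    ∃ C : ℝ, 0 ≤ C ∧ ∀ x ∈ M.carrier, ∀ y ∈ M.carrier, ‖F.N x - F.N y‖ ≤ C * ‖x - y‖ := by
  have hcd : ∀ x ∈ M.carrier, ContDiffAt ℝ 1 (fun x => F.N (M.π x)) x := fun x hx =>
    F.c1.contDiffAt (V_mem_nhds hx)
  obtain ⟨C, hC0, hC⟩ := compact_bound (M.compact.prod M.compact)
    (fun p : E n × E n => ‖F.N (M.π p.1) - F.N (M.π p.2)‖) (fun p => ‖p.1 - p.2‖)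
    (fun p => norm_nonneg _) (by
      rintro ⟨x, y⟩ ⟨hx, hy⟩
      by_cases hxy : x = y
      · subst hxy
        obtain ⟨L, t, ht, hL⟩ := (hcd x hx).exists_lipschitzOnWith
        refine ⟨L, ?_⟩
        have h1 : t ×ˢ t ∈ 𝓝 (x, x) := prod_mem_nhds ht ht
        filter_upwards [nhdsWithin_le_nhds h1] with q hq
        have := hL.dist_le_mul q.1 hq.1 q.2 hq.2
        rwa [dist_eq_norm, dist_eq_norm] at this
      · refine bound_of_cont ?_ ?_ ?_
        · have e1 : ContinuousAt (fun p : E n × E n => F.N (M.π p.1)) (x, y) :=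
            (hcd x hx).continuousAt.tendsto.comp (continuous_fst.tendsto (x, y))
          have e2 : ContinuousAt (fun p : E n × E n => F.N (M.π p.2)) (x, y) :=
            (hcd y hy).continuousAt.tendsto.comp (continuous_snd.tendsto (x, y))
          exact (e1.sub e2).norm
        · fun_prop
        · exact norm_pos_iff.2 (sub_ne_zero.2 hxy))
  refine ⟨C, hC0, fun x hx y hy => ?_⟩
  have := hC (x, y) ⟨hx, hy⟩
  simpa only [M.fix x hx, M.fix y hy] using this

theorem pi_second (M : ClosedMfd n) :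
    ∃ C : ℝ, 0 ≤ C ∧ ∀ x ∈ M.carrier, ∀ y ∈ M.carrier,
      ‖(y - x) - fderiv ℝ M.π x (y - x)‖ ≤ C * ‖y - x‖ ^ 2 := by
  have hcd : ∀ x ∈ M.carrier, ContDiffAt ℝ 1 (fderiv ℝ M.π) x := by
    intro x hx
    exact (pi_contDiffAt hx).fderiv_right (m := 1) (by norm_cast)
  obtain ⟨C, hC0, hC⟩ := compact_bound (M.compact.prod M.compact)
    (fun p : E n × E n => ‖(p.2 - p.1) - fderiv ℝ M.π p.1 (p.2 - p.1)‖)
    (fun p => ‖p.2 - p.1‖ ^ 2) (fun p => by positivity) (by
      rintro ⟨x, y⟩ ⟨hx, hy⟩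
      by_cases hxy : x = y
      · subst hxy
        obtain ⟨L, t, ht, hL⟩ := (hcd x hx).exists_lipschitzOnWith
        obtain ⟨r, hr, hball⟩ := Metric.mem_nhds_iff.1 (Filter.inter_mem ht (V_mem_nhds hx))
        refine ⟨L, ?_⟩
        have h1 : Metric.ball x r ×ˢ Metric.ball x r ∈ 𝓝 (x, x) :=
          prod_mem_nhds (Metric.ball_mem_nhds x hr) (Metric.ball_mem_nhds x hr)
        filter_upwards [nhdsWithin_le_nhds h1, self_mem_nhdsWithin] with q hq hqK
        have hseg : segment ℝ q.1 q.2 ⊆ Metric.ball x r :=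
          (convex_ball x r).segment_subset hq.1 hq.2
        have h2 := Convex.norm_image_sub_le_of_norm_hasFDerivWithin_le' (𝕜 := ℝ) (f := M.π)
          (f' := fderiv ℝ M.π) (φ := fderiv ℝ M.π q.1) (C := L * ‖q.2 - q.1‖)
          (s := segment ℝ q.1 q.2) (x := q.1) (y := q.2)
          (fun z hz => by
            have hz' := hball (hseg hz)
            exact ((M.smooth.contDiffAt (M.isOpen_V.mem_nhds hz'.2)).differentiableAt
              (by simp)).hasFDerivAt.hasFDerivWithinAt)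
          (fun z hz => by
            have hz' := hball (hseg hz)
            have e1 := hL.dist_le_mul z hz'.1 q.1 (hball hq.1).1
            rw [dist_eq_norm, dist_eq_norm] at e1
            refine e1.trans (mul_le_mul_of_nonneg_left ?_ L.2)
            have := norm_sub_le_of_mem_segment hz
            exact this)
          (convex_segment _ _) (left_mem_segment _ _ _) (right_mem_segment _ _ _)
        rw [M.fix _ hqK.1, M.fix _ hqK.2] at h2
        calc ‖(q.2 - q.1) - fderiv ℝ M.π q.1 (q.2 - q.1)‖ ≤ L * ‖q.2 - q.1‖ * ‖q.2 - q.1‖ := h2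
          _ = L * ‖q.2 - q.1‖ ^ 2 := by ring
      · refine bound_of_cont ?_ ?_ ?_
        · have e1 : ContinuousAt (fun p : E n × E n => fderiv ℝ M.π p.1) (x, y) :=
            (hcd x hx).continuousAt.tendsto.comp (continuous_fst.tendsto (x, y))
          have e2 : ContinuousAt (fun p : E n × E n => p.2 - p.1) (x, y) := by fun_prop
          exact (e2.sub (e1.clm_apply e2)).norm
        · fun_prop
        · have := norm_pos_iff.2 (sub_ne_zero.2 (Ne.symm hxy))
          positivity)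
  exact ⟨C, hC0, fun x hx y hy => hC (x, y) ⟨hx, hy⟩⟩

end Pool.Agent.helper35.FOL
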