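import Pool.Agent.helper35.FOL.F01

/-!
(proof: helper51)
# FOL-F02: a smooth vector field transverse to the foliation

For every `x ∈ M` the constant vector `N x` satisfies `⟨N y, N x⟩ > 0` for `y ∈ M` near `x`; use a
smooth partition of unity (`exists_contMDiffOn_forall_mem_convex_of_local_const` /
`exists_contDiff_...` : the sets `t x = {v | x ∈ M → 0 < ⟨N x, v⟩}` are convex and locally constant
selections exist because `M` is closed and `N` is continuous on `M`).
-/

open Set Filter Topology
open scoped ContDiff commutatorElement Manifold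

namespace Pool.Agent.helper35.FOL

variable {n : ℕ} {M : ClosedMfd n}

theorem exists_transverse (F : Fol M) :
    ∃ v : E n → E n, ContDiff ℝ ∞ v ∧ ∀ x ∈ M.carrier, 0 < inner ℝ (F.N x) (v x) := by
  classical
  let t : E n → Set (E n) := fun x => {v | x ∈ M.carrier → 0 < inner ℝ (F.N x) v}
  have ht : ∀ x, Convex ℝ (t x) := by
    intro x v hv w hw a b ha hb hab
    intro hx
    have h1 := hv hx
    have h2 := hw hx
    rw [inner_add_right, inner_smul_right, inner_smul_right]
    rcases eq_or_lt_of_le ha with h3 | h3
    · rw [← h3, zero_add] at hab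
      rw [← h3, hab]
      linarith
    · have h4 : 0 < a * inner ℝ (F.N x) v := mul_pos h3 h1
      have h5 : 0 ≤ b * inner ℝ (F.N x) w := mul_nonneg hb h2.le
      linarith
  have Hloc : ∀ x : E n, ∃ c : E n, ∀ᶠ y in 𝓝 x, c ∈ t y := by
    intro x
    by_cases hx : x ∈ M.carrier
    · refine ⟨F.N x, ?_⟩
      have hV : M.V ∈ 𝓝 x := M.isOpen_V.mem_nhds (M.subset_V hx)
      have hc : ContinuousAt (fun y => inner ℝ (F.N (M.π y)) (F.N x)) x :=
        (F.c1.continuousOn.continuousAt hV).inner continuousAt_const
      have h0 : 0 < inner ℝ (F.N (M.π x)) (F.N x) := by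
        rw [M.fix x hx, real_inner_self_eq_norm_sq, F.unit x hx]
        norm_num
      filter_upwards [hc.eventually (lt_mem_nhds h0)] with y hy
      intro hyM
      rw [M.fix y hyM] at hy
      exact hy
    · refine ⟨0, ?_⟩
      filter_upwards [M.compact.isClosed.isOpen_compl.mem_nhds hx] with y hy
      intro hyM
      exact absurd hyM hy
  obtain ⟨g, hg⟩ := exists_contMDiffMap_forall_mem_convex_of_local_const (n := ⊤)
    𝓘(ℝ, E n) ht Hloc
  refine ⟨g, ?_, fun x hx => hg x hx⟩
  exact contMDiff_iff_contDiff.1 g.contMDiff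

end Pool.Agent.helper35.FOL
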