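import Pool.Agent.helper35.FOL.F01

/-!
# FOL-F03: local inverse of an immersion of a box into the 3-manifold

Proof. `L = fderiv g y0 : ℂ × ℝ → E n` is injective, so it has a continuous linear left inverse
`l : E n → ℂ × ℝ`, `l ∘ L = id`; `l ∘ g` is a local `C²` diffeomorphism at `y0`
(`ContDiffAt.toOpenPartialHomeomorph`, inverse `k`, `C²`), and `h = k ∘ l` on an open set `O ∋ g y0`.  Then
`h (g y) = y` near `y0`.  For `x ∈ O ∩ M`: `y = h x` satisfies `l (g y) = l x` with `g y, x ∈ M` close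
to `p = g y0`.  `l` is injective on `M` near `p`: for `x, x' ∈ M` near `p`,
`x - x' = π x - π x' = Dπ(p) (x - x') + o(‖x - x'‖)` and `Dπ(p) (x - x') ∈ range L` (`exists_preimage`) where
`‖l w‖ ≥ c ‖w‖`.  So `x = g (h x)`.  Shrink `O` so that `h x ∈ W`.
-/

open Set Filter Topology
open scoped ContDiff commutatorElement

namespace Pool.Agent.helper35.FOL

variable {n : ℕ} {M : ClosedMfd n}

/-- A linear map which is left inverse to the derivative of a parametrisation is injective on the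
manifold near the point. -/
private theorem F03_injOn {p : E n} (hp : p ∈ M.carrier) (L : ℂ × ℝ →L[ℝ] E n)
    (l : E n →L[ℝ] ℂ × ℝ) (hl : ∀ w, l (L w) = w)
    (hpre : ∀ v : E n, fderiv ℝ M.π p v = v → ∃ w, L w = v) :
    ∀ᶠ q in 𝓝 (p, p), q.1 ∈ M.carrier → q.2 ∈ M.carrier → l q.1 = l q.2 → q.1 = q.2 := by
  have hstrict : HasStrictFDerivAt M.π (fderiv ℝ M.π p) p :=
    (pi_contDiffAt hp).hasStrictFDerivAt (by simp)
  set c : ℝ := (‖L‖ * ‖l‖ + 1) with hc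
  have hc0 : 0 < c := by positivity
  have h1 := hstrict.isLittleO.def (c := 1 / (2 * c)) (by positivity)
  filter_upwards [h1] with q hq hq1 hq2 hql
  rw [M.fix _ hq1, M.fix _ hq2] at hq
  set u : E n := q.1 - q.2 with hu
  obtain ⟨w, hw⟩ := hpre (fderiv ℝ M.π p u) (pi_idem hp u)
  set r : E n := u - fderiv ℝ M.π p u with hr
  have hur : u = L w + r := by rw [hw, hr]; abel
  have hlu : l u = 0 := by rw [hu, map_sub, hql, sub_self]
  have hwr : w = - l r := by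
    rw [hur, map_add, hl] at hlu
    exact eq_neg_of_add_eq_zero_left hlu
  have h2 : ‖u‖ ≤ c * ‖r‖ := by
    calc ‖u‖ = ‖L w + r‖ := by rw [← hur]
      _ ≤ ‖L w‖ + ‖r‖ := norm_add_le _ _
      _ ≤ ‖L‖ * ‖w‖ + ‖r‖ := by gcongr; exact L.le_opNorm w
      _ ≤ ‖L‖ * (‖l‖ * ‖r‖) + ‖r‖ := by
          gcongr
          rw [hwr, norm_neg]
          exact l.le_opNorm r
      _ = c * ‖r‖ := by rw [hc]; ring
  have h3 : ‖u‖ ≤ 1 / 2 * ‖u‖ := by
    calc ‖u‖ ≤ c * ‖r‖ := h2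
      _ ≤ c * (1 / (2 * c) * ‖u‖) := by gcongr
      _ = 1 / 2 * ‖u‖ := by field_simp
  have h4 : ‖u‖ = 0 := by
    have := norm_nonneg u
    linarith
  rw [norm_eq_zero, hu, sub_eq_zero] at h4
  exact h4

theorem exists_local_inverse {g : ℂ × ℝ → E n} {y0 : ℂ × ℝ} (hg : ContDiffAt ℝ 2 g y0)
    (hmem : ∀ᶠ y in 𝓝 y0, g y ∈ M.carrier) (himm : Function.Injective (fderiv ℝ g y0))
    {W : Set (ℂ × ℝ)} (hW : W ∈ 𝓝 y0) :
    ∃ O : Set (E n), IsOpen O ∧ g y0 ∈ O ∧ ∃ h : E n → ℂ × ℝ, ContDiffOn ℝ 2 h O ∧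
      (∀ x ∈ O, x ∈ M.carrier → h x ∈ W ∧ g (h x) = x) ∧
      ∀ᶠ y in 𝓝 y0, g y ∈ O ∧ h (g y) = y := by
  set L : ℂ × ℝ →L[ℝ] E n := fderiv ℝ g y0 with hL
  obtain ⟨l', hl'⟩ := LinearMap.exists_leftInverse_of_injective (L : ℂ × ℝ →ₗ[ℝ] E n)
    (LinearMap.ker_eq_bot.2 himm)
  let l : E n →L[ℝ] ℂ × ℝ := LinearMap.toContinuousLinearMap l'
  have hl : ∀ w, l (L w) = w := fun w => LinearMap.congr_fun hl' w
  have hgd : HasFDerivAt g L y0 := (hg.differentiableAt (by norm_num)).hasFDerivAt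
  have hp : g y0 ∈ M.carrier := hmem.self_of_nhds
  let f : ℂ × ℝ → ℂ × ℝ := fun y => l (g y)
  have hf : ContDiffAt ℝ 2 f y0 := l.contDiff.contDiffAt.comp y0 hg
  have hLl : l.comp L = ((ContinuousLinearEquiv.refl ℝ (ℂ × ℝ) : (ℂ × ℝ) ≃L[ℝ] (ℂ × ℝ)) :
      (ℂ × ℝ) →L[ℝ] (ℂ × ℝ)) := ContinuousLinearMap.ext fun w => hl w
  have hfd : HasFDerivAt f ((ContinuousLinearEquiv.refl ℝ (ℂ × ℝ) : (ℂ × ℝ) ≃L[ℝ] (ℂ × ℝ)) :
      (ℂ × ℝ) →L[ℝ] (ℂ × ℝ)) y0 := by
    rw [← hLl]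
    exact l.hasFDerivAt.comp y0 hgd
  have hs := hf.hasStrictFDerivAt' hfd (by norm_num)
  set k : ℂ × ℝ → ℂ × ℝ := hf.localInverse hfd (by norm_num) with hk
  have hkc : ContDiffAt ℝ 2 k (f y0) := hf.to_localInverse hfd (by norm_num)
  have hk0 : k (f y0) = y0 := hs.localInverse_apply_image
  have hkl : ∀ᶠ y in 𝓝 y0, k (f y) = y := hs.eventually_left_inverse
  have hkr : ∀ᶠ u in 𝓝 (f y0), f (k u) = u := hs.eventually_right_inverse
  let h : E n → ℂ × ℝ := fun x => k (l x)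
  have hh0 : h (g y0) = y0 := hk0
  have hhc : ContDiffAt ℝ 2 h (g y0) := by
    have : ContDiffAt ℝ 2 k (l (g y0)) := hkc
    exact this.comp (g y0) l.contDiff.contDiffAt
  have hinj := F03_injOn (M := M) hp L l hl (fun v hv =>
    exists_preimage hgd.differentiableAt hmem himm hv)
  have hgc : ContinuousAt g (h (g y0)) := by rw [hh0]; exact hg.continuousAt
  have hgh : ContinuousAt (fun x => g (h x)) (g y0) :=
    ContinuousAt.comp (f := h) (g := g) hgc hhc.continuousAt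
  -- the conditions near `p`
  have hc1 : ∀ᶠ x in 𝓝 (g y0), ContDiffAt ℝ 2 h x := hhc.eventually (by norm_num)
  have hc2 : ∀ᶠ x in 𝓝 (g y0), h x ∈ W := by
    refine hhc.continuousAt.eventually ?_
    rw [hh0]
    exact hW
  have hc3 : ∀ᶠ x in 𝓝 (g y0), g (h x) ∈ M.carrier := by
    have := hmem
    rw [← hh0] at this
    exact hhc.continuousAt.eventually this
  have hc4 : ∀ᶠ x in 𝓝 (g y0), l (g (h x)) = l x :=
    (l.continuous.continuousAt (x := g y0)).eventually hkr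
  have hc5 : ∀ᶠ x in 𝓝 (g y0), g (h x) ∈ M.carrier → x ∈ M.carrier →
      l (g (h x)) = l x → g (h x) = x := by
    have h1 : ContinuousAt (fun x => (g (h x), x)) (g y0) := hgh.prodMk continuousAt_id
    have h2 : ∀ᶠ q in 𝓝 (g (h (g y0)), g y0), q.1 ∈ M.carrier → q.2 ∈ M.carrier →
        l q.1 = l q.2 → q.1 = q.2 := by
      rw [hh0]
      exact hinj
    exact h1.eventually (p := fun q : E n × E n => q.1 ∈ M.carrier → q.2 ∈ M.carrier →
        l q.1 = l q.2 → q.1 = q.2) h2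
  obtain ⟨O, hO, hOo, hpO⟩ := eventually_nhds_iff.1
    (hc1.and (hc2.and (hc3.and (hc4.and hc5))))
  refine ⟨O, hOo, hpO, h, ?_, ?_, ?_⟩
  · intro x hx
    exact (hO x hx).1.contDiffWithinAt
  · intro x hx hxM
    obtain ⟨-, h2, h3, h4, h5⟩ := hO x hx
    exact ⟨h2, h5 h3 hxM h4⟩
  · have h1 : ∀ᶠ y in 𝓝 y0, g y ∈ O := hg.continuousAt (hOo.mem_nhds hpO)
    exact h1.and hkl

end Pool.Agent.helper35.FOL
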