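import Pool.Agent.helper35.FOL.PDefs

/-!
# FOL-P01: elementary facts on the comb

All statements are elementary inequalities; `combM h` is a union of a rectangle and eight
rectangles.  (author: helper96)
-/

open Set Filter Topology
open scoped ContDiff

namespace Pool.Agent.helper35.FOL

theorem isOpen_combM (h : ℝ) : IsOpen (combM h) := by
  have e : {z : ℂ | ∃ k : ℕ, k < 8 ∧ |z.re - k| < 1 / 4 - h ∧ -1 + h < z.im ∧ z.im < 2 - h} =
      ⋃ k : ℕ, ⋃ _ : k < 8, {z : ℂ | |z.re - k| < 1 / 4 - h ∧ -1 + h < z.im ∧ z.im < 2 - h} := by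
    ext z
    simp only [mem_ofPred_eq, mem_iUnion, exists_prop]
  unfold combM
  rw [e]
  refine IsOpen.union ?_ (isOpen_iUnion fun k => isOpen_iUnion fun _ => ?_)
  · exact (isOpen_lt continuous_const Complex.continuous_re).inter
      ((isOpen_lt Complex.continuous_re continuous_const).inter
        ((isOpen_lt continuous_const Complex.continuous_im).inter
          (isOpen_lt Complex.continuous_im continuous_const)))
  · exact (isOpen_lt (Complex.continuous_re.sub continuous_const).abs continuous_const).inter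
      ((isOpen_lt continuous_const Complex.continuous_im).inter
        (isOpen_lt Complex.continuous_im continuous_const))

theorem isOpen_tabM (h : ℝ) (j : ℕ) : IsOpen (tabM h j) :=
  (isOpen_lt (Complex.continuous_re.sub continuous_const).abs continuous_const).inter
    ((isOpen_lt continuous_const Complex.continuous_im).inter
      (isOpen_lt Complex.continuous_im continuous_const))

theorem convex_tabM (h : ℝ) (j : ℕ) : Convex ℝ (tabM h j) := by
  rintro z ⟨z1, z2, z3⟩ w ⟨w1, w2, w3⟩ a b ha hb hab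
  rw [abs_lt] at z1 w1
  have hb' : b = 1 - a := by linarith
  subst hb'
  refine ⟨?_, ?_, ?_⟩
  · rw [abs_lt]
    simp only [Complex.add_re, Complex.smul_re, smul_eq_mul]
    constructor
    · nlinarith [mul_nonneg ha (sub_nonneg.2 z1.1.le), mul_nonneg hb (sub_nonneg.2 w1.1.le),
        z1.1, w1.1]
    · nlinarith [mul_nonneg ha (sub_nonneg.2 z1.2.le), mul_nonneg hb (sub_nonneg.2 w1.2.le),
        z1.2, w1.2]
  · simp only [Complex.add_im, Complex.smul_im, smul_eq_mul]
    nlinarith [mul_nonneg ha (sub_nonneg.2 z2.le), mul_nonneg hb (sub_nonneg.2 w2.le)]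
  · simp only [Complex.add_im, Complex.smul_im, smul_eq_mul]
    nlinarith [mul_nonneg ha (sub_nonneg.2 z3.le), mul_nonneg hb (sub_nonneg.2 w3.le)]

theorem isOpen_box (h d : ℝ) : IsOpen (box h d) := (isOpen_combM h).prod isOpen_Ioo

theorem combM_mono {h h' : ℝ} (hh : h ≤ h') : combM h' ⊆ combM h := by
  rintro z (⟨h1, h2, h3, h4⟩ | ⟨k, hk, h1, h2, h3⟩)
  · exact Or.inl ⟨by linarith, by linarith, by linarith, by linarith⟩
  · exact Or.inr ⟨k, hk, by linarith, by linarith, by linarith⟩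

theorem tabM_subset {h : ℝ} (h0 : 0 ≤ h) {j : ℕ} (hj : j < 8) : tabM h j ⊆ combM h := by
  rintro z ⟨h1, h2, h3⟩
  exact Or.inr ⟨j, hj, h1, by linarith, h3⟩

theorem P01_rho_re (j : ℕ) (z : ℂ) : (rho j z).re = 2 * j + 2 - z.re := by
  simp [rho]

theorem P01_rho_im (j : ℕ) (z : ℂ) : (rho j z).im = 3 - z.im := by
  simp [rho]

theorem rho_rho (j : ℕ) (z : ℂ) : rho j (rho j z) = z := by
  unfold rho
  ring

theorem rho_mem_tabM {h : ℝ} {j : ℕ} {z : ℂ} (hz : z ∈ tabM h j) : rho j z ∈ tabM h (j + 2) := by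
  obtain ⟨h1, h2, h3⟩ := hz
  refine ⟨?_, ?_, ?_⟩
  · rw [P01_rho_re, abs_lt] at *
    push_cast
    constructor <;> linarith [h1.1, h1.2]
  · rw [P01_rho_im]
    linarith
  · rw [P01_rho_im]
    linarith

theorem rho_mem_tabM' {h : ℝ} {j : ℕ} {z : ℂ} (hz : z ∈ tabM h (j + 2)) :
    rho j z ∈ tabM h j := by
  obtain ⟨h1, h2, h3⟩ := hz
  push_cast at h1
  refine ⟨?_, ?_, ?_⟩
  · rw [P01_rho_re, abs_lt] at *
    constructor <;> linarith [h1.1, h1.2]
  · rw [P01_rho_im]
    linarith
  · rw [P01_rho_im]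
    linarith

/-- A point of the comb above the bar lies in one of the arms. -/
theorem P01_arm {h : ℝ} (h0 : 0 ≤ h) {z : ℂ} (hz : z ∈ combM h) (h1 : 1 < z.im) {j : ℕ}
    (hj : |z.re - j| < 1 / 4) : |z.re - j| < 1 / 4 - h ∧ z.im < 2 - h := by
  rcases hz with ⟨-, -, -, h4⟩ | ⟨k, hk, h5, -, h6⟩
  · linarith
  · have hkj : k = j := by
      rw [abs_lt] at hj h5
      have a1 : (k : ℝ) < j + 1 := by linarith [hj.1, hj.2, h5.1, h5.2]
      have a2 : (j : ℝ) < k + 1 := by linarith [hj.1, hj.2, h5.1, h5.2]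
      have b1 : k < j + 1 := by exact_mod_cast a1
      have b2 : j < k + 1 := by exact_mod_cast a2
      omega
    subst hkj
    exact ⟨h5, h6⟩

theorem P01_tab {h : ℝ} (h0 : 0 ≤ h) {z w : ℂ} {j : ℕ} (hz : z ∈ combM h)
    (hw : w ∈ combM h) (h1 : z ∈ tab j) (h2 : w = rho j z) : z ∈ tabM h j := by
  obtain ⟨a1, a2, a3⟩ := h1
  obtain ⟨b1, b2⟩ := P01_arm h0 hz a2 a1
  have c1 : 1 < w.im := by
    rw [h2, P01_rho_im]
    linarith
  have c2 : |w.re - (j + 2 : ℕ)| < 1 / 4 := by
    rw [h2, P01_rho_re, abs_lt] at *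
    push_cast
    constructor <;> linarith [a1.1, a1.2]
  obtain ⟨d1, d2⟩ := P01_arm h0 hw c1 c2
  rw [h2, P01_rho_im] at d2
  exact ⟨b1, by linarith, b2⟩

/-- Two glued points of the comb with margin `h` are equal or lie in the ends with margin `h`. -/
theorem glued_combM {h : ℝ} (h0 : 0 ≤ h) (h1 : h < 1 / 8) {z w : ℂ} (hz : z ∈ combM h)
    (hw : w ∈ combM h) (hg : glued z w) :
    z = w ∨ ∃ j ∈ handles, (z ∈ tabM h j ∧ w = rho j z) ∨ (w ∈ tabM h j ∧ z = rho j w) := by
  rcases hg with hg | ⟨j, hj, ⟨a1, a2⟩ | ⟨a1, a2⟩⟩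
  · exact Or.inl hg
  · exact Or.inr ⟨j, hj, Or.inl ⟨P01_tab h0 hz hw a1 a2, a2⟩⟩
  · exact Or.inr ⟨j, hj, Or.inr ⟨P01_tab h0 hw hz a1 a2, a2⟩⟩

theorem glued_symm {z w : ℂ} (h : glued z w) : glued w z := by
  rcases h with h | ⟨j, hj, h | h⟩
  · exact Or.inl h.symm
  · exact Or.inr ⟨j, hj, Or.inr h⟩
  · exact Or.inr ⟨j, hj, Or.inl h⟩

/-- The closure of the comb with a larger margin is contained in the comb with a smaller one. -/
theorem closure_combM_subset {h h' : ℝ} (h0 : 0 ≤ h) (hh : h < h') (h1 : h' < 1 / 8) :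
    closure (combM h') ⊆ combM h := by
  have hcl : IsClosed ({z : ℂ | -1 + h' ≤ z.re ∧ z.re ≤ 8 - h' ∧ -1 + h' ≤ z.im ∧ z.im ≤ -h'} ∪
      ⋃ k ∈ Finset.range 8,
        {z : ℂ | |z.re - k| ≤ 1 / 4 - h' ∧ -1 + h' ≤ z.im ∧ z.im ≤ 2 - h'}) := by
    refine IsClosed.union ?_ ?_
    · exact (isClosed_le continuous_const Complex.continuous_re).inter
        ((isClosed_le Complex.continuous_re continuous_const).inter
          ((isClosed_le continuous_const Complex.continuous_im).inter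
            (isClosed_le Complex.continuous_im continuous_const)))
    · refine isClosed_biUnion_finset fun k _ => ?_
      exact (isClosed_le (Complex.continuous_re.sub continuous_const).abs
        continuous_const).inter
        ((isClosed_le continuous_const Complex.continuous_im).inter
          (isClosed_le Complex.continuous_im continuous_const))
  refine (closure_minimal ?_ hcl).trans ?_
  · rintro z (⟨h1, h2, h3, h4⟩ | ⟨k, hk, h1, h2, h3⟩)
    · exact Or.inl ⟨h1.le, h2.le, h3.le, h4.le⟩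
    · refine Or.inr ?_
      simp only [mem_iUnion]
      exact ⟨k, Finset.mem_range.2 hk, h1.le, h2.le, h3.le⟩
  · rintro z (⟨h1, h2, h3, h4⟩ | hz)
    · exact Or.inl ⟨by linarith, by linarith, by linarith, by linarith⟩
    · simp only [mem_iUnion] at hz
      obtain ⟨k, hk, h1, h2, h3⟩ := hz
      exact Or.inr ⟨k, Finset.mem_range.1 hk, by linarith, by linarith, by linarith⟩

theorem isCompact_closure_combM (h : ℝ) : IsCompact (closure (combM h)) := by
  have hc : IsCompact (Icc (-1 + h) (8 - h) ×ℂ Icc (-1 + h) (2 - h)) :=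
    isCompact_Icc.reProdIm isCompact_Icc
  refine hc.closure_of_subset ?_
  rintro z (⟨h1, h2, h3, h4⟩ | ⟨k, hk, h1, h2, h3⟩)
  · exact ⟨⟨h1.le, h2.le⟩, ⟨h3.le, by linarith⟩⟩
  · rw [abs_lt] at h1
    have a1 : (k : ℝ) ≤ 7 := by exact_mod_cast (by omega : k ≤ 7)
    have a2 : (0 : ℝ) ≤ k := Nat.cast_nonneg k
    exact ⟨⟨by linarith [h1.1], by linarith [h1.2]⟩, ⟨h2.le, h3.le⟩⟩

/-- Balls around the points of the comb with the larger margin are contained in the comb with the
smaller margin. -/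
theorem ball_subset_combM {h h' : ℝ} (h0 : 0 ≤ h) (hh : h < h') (h1 : h' < 1 / 8) {z : ℂ}
    (hz : z ∈ combM h') : Metric.ball z (h' - h) ⊆ combM h := by
  intro w hw
  rw [Metric.mem_ball, dist_eq_norm] at hw
  have hre := (Complex.abs_re_le_norm (w - z)).trans_lt hw
  have him := (Complex.abs_im_le_norm (w - z)).trans_lt hw
  rw [Complex.sub_re, abs_lt] at hre
  rw [Complex.sub_im, abs_lt] at him
  rcases hz with ⟨a1, a2, a3, a4⟩ | ⟨k, hk, a1, a2, a3⟩
  · exact Or.inl ⟨by linarith [hre.1], by linarith [hre.2], by linarith [him.1],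
      by linarith [him.2]⟩
  · refine Or.inr ⟨k, hk, ?_, by linarith [him.1], by linarith [him.2]⟩
    rw [abs_lt] at a1 ⊢
    constructor <;> linarith [hre.1, hre.2, a1.1, a1.2]

end Pool.Agent.helper35.FOL
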