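import Pool.Agent.helper35.FOL.F02
import Pool.Agent.helper35.FOL.F03
import Pool.Agent.helper35.FOL.P01

/-!
# FOL-F04: the fence

`e (z, x) = π (κ z + x • v (κ z))`, `v` from `exists_transverse`, for `z ∈ comb` and small `x`.
`D e (z, 0) (ζ, s) = Dκ(z) ζ + s • Dπ (v)`; it is injective: pair with `N (κ z)` (`hκ.tangent`, `inner_N`).
On the compact set `closure (combM (1/100)) × {0}` (`closure_combM_subset`): choose `d > 0` such that
`κ z + x v ∈ V`, `C²`, injective derivative and `⟨N, ∂ₓ e⟩ > 0` on `box (1/100) d`.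
`e (rho j z, x) = e (z, x)` because `κ (rho j z) = κ z` (`hκ.glue`).
Injectivity modulo gluing for small `d`: every pair `(z, w)` of points of `closure (combM (1/100)) ⊆ comb`
has neighbourhoods on which it holds (`κ z ≠ κ w`: continuity; `z = w`: local injectivity of `e` near
`(z, 0)` (`exists_local_inverse`); `w = rho j z`: replace `(z', x)` by `(rho j z', x)`, which has the same
image), and compactness.
-/

open Set Filter Topology
open scoped ContDiff commutatorElement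

namespace Pool.Agent.helper35.FOL

variable {n : ℕ} {M : ClosedMfd n}

theorem exists_fence_tab {j : ℕ} (hj : j < 8) : tab j ⊆ comb := by
  intro z hz
  have h : z ∈ tabM 0 j := by
    simpa [tabM, tab] using hz
  exact tabM_subset le_rfl hj h

theorem exists_fence_isOpen_tab (j : ℕ) : IsOpen (tab j) := by
  have h : tab j = tabM 0 j := by
    ext z
    simp [tabM, tab]
  rw [h]
  exact isOpen_tabM 0 j

theorem exists_fence_isOpen_comb : IsOpen comb := isOpen_combM 0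

theorem exists_fence_handles {j : ℕ} (hj : j ∈ handles) : j + 2 < 8 := by
  simp only [handles, Finset.mem_insert, Finset.mem_singleton] at hj
  omega

theorem exists_fence_rho_tab {j : ℕ} {z : ℂ} (hz : z ∈ tab j) : rho j z ∈ tab (j + 2) := by
  have h : z ∈ tabM 0 j := by
    simpa [tabM, tab] using hz
  have h2 := rho_mem_tabM h
  simpa [tabM, tab] using h2

theorem exists_fence_continuous_rho (j : ℕ) : Continuous (rho j) := by
  unfold rho
  fun_prop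

/-- Glued points of the comb have the same image. -/
theorem exists_fence_glue {F : Fol M} {κ : ℂ → E n} (hκ : IsGenusTwoPiece F κ) {j : ℕ}
    (hj : j ∈ handles) {z : ℂ} (hz : z ∈ tab j) : κ (rho j z) = κ z := by
  have h8 := exists_fence_handles hj
  have hz' : z ∈ comb := exists_fence_tab (by omega) hz
  have hw' : rho j z ∈ comb := exists_fence_tab h8 (exists_fence_rho_tab hz)
  exact ((hκ.glue z hz' (rho j z) hw').2 (Or.inr ⟨j, hj, Or.inl ⟨hz, rfl⟩⟩)).symm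

theorem F04_two_le : (2 : WithTop ℕ∞) ≤ ∞ := by
  have h : ((2 : ℕ∞) : WithTop ℕ∞) ≤ ((⊤ : ℕ∞) : WithTop ℕ∞) := WithTop.coe_le_coe.2 le_top
  exact h

/-- The map of the fence. -/
noncomputable def fenceMap (M : ClosedMfd n) (κ : ℂ → E n) (v : E n → E n) (y : ℂ × ℝ) : E n :=
  M.π (κ y.1 + y.2 • v (κ y.1))

/-- The domain of the map of the fence. -/
def fenceDom (M : ClosedMfd n) (κ : ℂ → E n) (v : E n → E n) : Set (ℂ × ℝ) :=
  {y | y.1 ∈ comb ∧ κ y.1 + y.2 • v (κ y.1) ∈ M.V}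

section

variable {F : Fol M} {κ : ℂ → E n} {v : E n → E n}

theorem fence_pre (hκ : IsGenusTwoPiece F κ) (hv : ContDiff ℝ ∞ v) :
    ContDiffOn ℝ 2 (fun y : ℂ × ℝ => κ y.1 + y.2 • v (κ y.1)) (comb ×ˢ univ) := by
  have h1 : ContDiffOn ℝ 2 (fun y : ℂ × ℝ => κ y.1) (comb ×ˢ univ) :=
    hκ.smooth.comp contDiff_fst.contDiffOn fun y hy => hy.1
  have h2 : ContDiffOn ℝ 2 (fun y : ℂ × ℝ => v (κ y.1)) (comb ×ˢ univ) :=
    (hv.of_le F04_two_le).comp_contDiffOn h1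
  exact h1.add (contDiff_snd.contDiffOn.smul h2)

theorem fenceDom_isOpen (hκ : IsGenusTwoPiece F κ) (hv : ContDiff ℝ ∞ v) :
    IsOpen (fenceDom M κ v) := by
  have h0 : IsOpen (comb ×ˢ (univ : Set ℝ)) := exists_fence_isOpen_comb.prod isOpen_univ
  have h1 := (fence_pre hκ hv).continuousOn.isOpen_inter_preimage h0 M.isOpen_V
  have h2 : fenceDom M κ v = comb ×ˢ univ ∩ (fun y => κ y.1 + y.2 • v (κ y.1)) ⁻¹' M.V := by
    ext y
    simp [fenceDom]
  rw [h2]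
  exact h1

theorem fenceMap_contDiffOn (hκ : IsGenusTwoPiece F κ) (hv : ContDiff ℝ ∞ v) :
    ContDiffOn ℝ 2 (fenceMap M κ v) (fenceDom M κ v) := by
  have h1 : ContDiffOn ℝ 2 (fun y : ℂ × ℝ => κ y.1 + y.2 • v (κ y.1)) (fenceDom M κ v) :=
    (fence_pre hκ hv).mono fun y hy => ⟨hy.1, mem_univ _⟩
  exact (M.smooth.of_le F04_two_le).comp h1 fun y hy => hy.2

theorem fenceMap_mem {y : ℂ × ℝ} (hy : y ∈ fenceDom M κ v) : fenceMap M κ v y ∈ M.carrier :=
  pi_mem hy.2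

theorem fenceDom_zero (hκ : IsGenusTwoPiece F κ) {z : ℂ} (hz : z ∈ comb) :
    (z, (0 : ℝ)) ∈ fenceDom M κ v := by
  refine ⟨hz, ?_⟩
  simp only [zero_smul, add_zero]
  exact M.subset_V (hκ.mem z hz)

theorem fenceMap_zero (hκ : IsGenusTwoPiece F κ) {z : ℂ} (hz : z ∈ comb) :
    fenceMap M κ v (z, (0 : ℝ)) = κ z := by
  unfold fenceMap
  simp only [zero_smul, add_zero]
  exact M.fix _ (hκ.mem z hz)

/-- The derivative of the fence map at height `0`. -/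
theorem fenceMap_fderiv (hκ : IsGenusTwoPiece F κ) (hv : ContDiff ℝ ∞ v) {z : ℂ} (hz : z ∈ comb)
    (ζ : ℂ) (s : ℝ) : fderiv ℝ (fenceMap M κ v) (z, (0 : ℝ)) (ζ, s) =
      fderiv ℝ κ z ζ + s • fderiv ℝ M.π (κ z) (v (κ z)) := by
  have hcomb : comb ∈ 𝓝 z := exists_fence_isOpen_comb.mem_nhds hz
  have hκd : HasFDerivAt κ (fderiv ℝ κ z) z :=
    ((hκ.smooth.differentiableOn (by norm_num)).differentiableAt hcomb).hasFDerivAt
  have hκ1 : HasFDerivAt (fun y : ℂ × ℝ => κ y.1)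
      ((fderiv ℝ κ z).comp (ContinuousLinearMap.fst ℝ ℂ ℝ)) (z, (0 : ℝ)) :=
    HasFDerivAt.comp (f := Prod.fst) (g := κ) (z, (0 : ℝ)) hκd hasFDerivAt_fst
  have hvd : HasFDerivAt v (fderiv ℝ v (κ z)) (κ z) :=
    (hv.differentiable (by simp) _).hasFDerivAt
  have hv1 : HasFDerivAt (fun y : ℂ × ℝ => v (κ y.1))
      ((fderiv ℝ v (κ z)).comp ((fderiv ℝ κ z).comp (ContinuousLinearMap.fst ℝ ℂ ℝ)))
      (z, (0 : ℝ)) :=
    HasFDerivAt.comp (f := fun y : ℂ × ℝ => κ y.1) (g := v) (z, (0 : ℝ)) hvd hκ1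
  have h2 := hκ1.add ((hasFDerivAt_snd (𝕜 := ℝ) (p := (z, (0 : ℝ)))).smul hv1)
  have hpi : HasFDerivAt M.π (fderiv ℝ M.π (κ z)) (κ z) :=
    ((pi_contDiffAt (hκ.mem z hz)).differentiableAt (by simp)).hasFDerivAt
  have h3 : HasFDerivAt (fenceMap M κ v) _ (z, (0 : ℝ)) :=
    HasFDerivAt.comp (f := fun y : ℂ × ℝ => κ y.1 + y.2 • v (κ y.1)) (g := M.π) (z, (0 : ℝ))
      (by simpa using hpi) h2
  rw [h3.fderiv]
  have ht : fderiv ℝ M.π (κ z) (fderiv ℝ κ z ζ) = fderiv ℝ κ z ζ :=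
    tangent_of_map hκd.differentiableAt
      (eventually_of_mem hcomb fun z' hz' => hκ.mem z' hz') ζ
  simp [ht]

theorem fenceMap_inner (hκ : IsGenusTwoPiece F κ) (hv : ContDiff ℝ ∞ v) {z : ℂ} (hz : z ∈ comb)
    (ζ : ℂ) (s : ℝ) :
    inner ℝ (F.N (κ z)) (fderiv ℝ (fenceMap M κ v) (z, (0 : ℝ)) (ζ, s)) =
      s * inner ℝ (F.N (κ z)) (v (κ z)) := by
  rw [fenceMap_fderiv hκ hv hz, inner_add_right, hκ.tangent z hz ζ, zero_add, inner_smul_right,
    inner_N F (hκ.mem z hz)]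

theorem fenceMap_injective (hκ : IsGenusTwoPiece F κ) (hv : ContDiff ℝ ∞ v)
    (hN : ∀ x ∈ M.carrier, 0 < inner ℝ (F.N x) (v x)) {z : ℂ} (hz : z ∈ comb) :
    Function.Injective (fderiv ℝ (fenceMap M κ v) (z, (0 : ℝ))) := by
  rw [injective_iff_map_eq_zero]
  rintro ⟨ζ, s⟩ h
  have h1 := fenceMap_inner hκ hv hz ζ s
  rw [h, inner_zero_right] at h1
  have hs : s = 0 := by
    rcases mul_eq_zero.1 h1.symm with h2 | h2
    · exact h2
    · exact absurd h2 (hN _ (hκ.mem z hz)).ne'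
  subst hs
  rw [fenceMap_fderiv hκ hv hz, zero_smul, add_zero] at h
  have h2 : ζ = 0 := by
    apply hκ.immersion z hz
    rw [h, map_zero]
  rw [h2]
  rfl

/-- Good points: injective derivative, positive transverse component. -/
theorem fence_good (hκ : IsGenusTwoPiece F κ) (hv : ContDiff ℝ ∞ v)
    (hN : ∀ x ∈ M.carrier, 0 < inner ℝ (F.N x) (v x)) :
    ∃ O : Set (ℂ × ℝ), IsOpen O ∧ (∀ z ∈ comb, (z, (0 : ℝ)) ∈ O) ∧ O ⊆ fenceDom M κ v ∧
      ∀ y ∈ O, Function.Injective (fderiv ℝ (fenceMap M κ v) y) ∧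
        0 < inner ℝ (F.N (fenceMap M κ v y)) (fderiv ℝ (fenceMap M κ v) y (0, 1)) := by
  have ho := fenceDom_isOpen (M := M) hκ hv
  have hc := fenceMap_contDiffOn (M := M) hκ hv
  have hd : ContinuousOn (fderiv ℝ (fenceMap M κ v)) (fenceDom M κ v) :=
    hc.continuousOn_fderiv_of_isOpen ho (by norm_num)
  have hNc : ContinuousOn (fun y => F.N (fenceMap M κ v y)) (fenceDom M κ v) := by
    have h1 : ContinuousOn (fun y => F.N (M.π (fenceMap M κ v y))) (fenceDom M κ v) :=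
      F.c1.continuousOn.comp hc.continuousOn fun y hy => M.subset_V (fenceMap_mem hy)
    refine h1.congr fun y hy => ?_
    simp only
    rw [M.fix _ (fenceMap_mem hy)]
  have h1 := hd.isOpen_inter_preimage ho
    (ContinuousLinearMap.isOpen_injective (𝕜 := ℝ) (E := ℂ × ℝ) (F := E n))
  have h2c : ContinuousOn (fun y => (inner ℝ (F.N (fenceMap M κ v y))
      (fderiv ℝ (fenceMap M κ v) y (0, 1)) : ℝ)) (fenceDom M κ v) :=
    hNc.inner (𝕜 := ℝ) (hd.clm_apply continuousOn_const)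
  have h2 := h2c.isOpen_inter_preimage ho (isOpen_Ioi (a := (0 : ℝ)))
  refine ⟨_, h1.inter h2, ?_, ?_, ?_⟩
  · intro z hz
    have hz0 := fenceDom_zero (M := M) (v := v) hκ hz
    refine ⟨⟨hz0, fenceMap_injective hκ hv hN hz⟩, ⟨hz0, ?_⟩⟩
    simp only [mem_preimage, mem_Ioi]
    rw [fenceMap_zero hκ hz, fenceMap_inner hκ hv hz, one_mul]
    exact hN _ (hκ.mem z hz)
  · intro y hy
    exact hy.1.1
  · intro y hy
    exact ⟨hy.1.2, hy.2.2⟩

theorem fence_locInj (hκ : IsGenusTwoPiece F κ) (hv : ContDiff ℝ ∞ v)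
    (hN : ∀ x ∈ M.carrier, 0 < inner ℝ (F.N x) (v x)) {z : ℂ} (hz : z ∈ comb) :
    ∃ W ∈ 𝓝 (z, (0 : ℝ)), ∀ y ∈ W, ∀ y' ∈ W, fenceMap M κ v y = fenceMap M κ v y' → y = y' := by
  have ho := fenceDom_isOpen (M := M) hκ hv
  have hz0 := fenceDom_zero (M := M) (v := v) hκ hz
  have hc := (fenceMap_contDiffOn (M := M) hκ hv).contDiffAt (ho.mem_nhds hz0)
  obtain ⟨O, -, -, h, -, -, hh⟩ := exists_local_inverse hc
    (eventually_of_mem (ho.mem_nhds hz0) fun y hy => fenceMap_mem hy)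
    (fenceMap_injective hκ hv hN hz) (W := univ) univ_mem
  refine ⟨_, hh, fun y hy y' hy' he => ?_⟩
  rw [← hy.2, ← hy'.2, he]

/-- The local statement at a pair of points. -/
theorem fence_pair (hκ : IsGenusTwoPiece F κ) (hv : ContDiff ℝ ∞ v)
    (hN : ∀ x ∈ M.carrier, 0 < inner ℝ (F.N x) (v x)) {z w : ℂ} (hz : z ∈ comb) (hw : w ∈ comb) :
    ∀ᶠ p : (ℂ × ℝ) × (ℂ × ℝ) in 𝓝 ((z, (0 : ℝ)), (w, (0 : ℝ))),
      fenceMap M κ v p.1 = fenceMap M κ v p.2 → p.1.2 = p.2.2 ∧ glued p.1.1 p.2.1 := by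
  have ho := fenceDom_isOpen (M := M) hκ hv
  have hz0 := fenceDom_zero (M := M) (v := v) hκ hz
  have hw0 := fenceDom_zero (M := M) (v := v) hκ hw
  have hc := (fenceMap_contDiffOn (M := M) hκ hv).continuousOn
  have hcz := hc.continuousAt (ho.mem_nhds hz0)
  have hcw := hc.continuousAt (ho.mem_nhds hw0)
  have key : ∀ (j : ℕ), j ∈ handles → ∀ a ∈ tab j,
      ∀ᶠ p : (ℂ × ℝ) × (ℂ × ℝ) in 𝓝 ((a, (0 : ℝ)), (rho j a, (0 : ℝ))),
        fenceMap M κ v p.1 = fenceMap M κ v p.2 → p.1.2 = p.2.2 ∧ p.1.1 ∈ tab j ∧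
          p.2.1 = rho j p.1.1 := by
    intro j hj a ha
    have h8 := exists_fence_handles hj
    have hb : rho j a ∈ comb := exists_fence_tab h8 (exists_fence_rho_tab ha)
    obtain ⟨W, hW, hinj⟩ := fence_locInj hκ hv hN hb
    have hR : Continuous fun y : ℂ × ℝ => (rho j y.1, y.2) :=
      ((exists_fence_continuous_rho j).comp continuous_fst).prodMk continuous_snd
    have h1 : ∀ᶠ y : ℂ × ℝ in 𝓝 (a, (0 : ℝ)), y.1 ∈ tab j :=
      continuous_fst.continuousAt.eventually ((exists_fence_isOpen_tab j).mem_nhds ha)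
    have h2 : ∀ᶠ y : ℂ × ℝ in 𝓝 (a, (0 : ℝ)), (rho j y.1, y.2) ∈ W :=
      hR.continuousAt.eventually hW
    have h3 : ∀ᶠ y : ℂ × ℝ in 𝓝 (rho j a, (0 : ℝ)), y ∈ W := hW
    have h12 := (h1.and h2).prodMk_nhds h3
    refine h12.mono fun p hp he => ?_
    obtain ⟨⟨hp1, hp2⟩, hp3⟩ := hp
    have he' : fenceMap M κ v (rho j p.1.1, p.1.2) = fenceMap M κ v p.1 := by
      unfold fenceMap
      simp only
      rw [exists_fence_glue hκ hj hp1]
    have h4 := hinj _ hp2 _ hp3 (he'.trans he)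
    have h5 := congrArg Prod.snd h4
    have h6 := congrArg Prod.fst h4
    exact ⟨h5, hp1, h6.symm⟩
  by_cases hg : glued z w
  · rcases hg with h | ⟨j, hj, ⟨hzj, hwj⟩ | ⟨hwj, hzj⟩⟩
    · subst h
      obtain ⟨W, hW, hinj⟩ := fence_locInj hκ hv hN hz
      have h1 : ∀ᶠ y : ℂ × ℝ in 𝓝 (z, (0 : ℝ)), y ∈ W := hW
      refine (h1.prodMk_nhds h1).mono fun p hp he => ?_
      have h4 := hinj _ hp.1 _ hp.2 he
      rw [h4]
      exact ⟨rfl, Or.inl rfl⟩
    · subst hwj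
      refine (key j hj z hzj).mono fun p hp he => ?_
      obtain ⟨h1, h2, h3⟩ := hp he
      exact ⟨h1, Or.inr ⟨j, hj, Or.inl ⟨h2, h3⟩⟩⟩
    · subst hzj
      have hsw : Tendsto (Prod.swap : (ℂ × ℝ) × (ℂ × ℝ) → (ℂ × ℝ) × (ℂ × ℝ))
          (𝓝 ((rho j w, (0 : ℝ)), (w, (0 : ℝ)))) (𝓝 ((w, (0 : ℝ)), (rho j w, (0 : ℝ)))) :=
        continuous_swap.tendsto _
      refine (hsw.eventually (key j hj w hwj)).mono fun p hp he => ?_
      obtain ⟨h1, h2, h3⟩ := hp he.symm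
      exact ⟨h1.symm, Or.inr ⟨j, hj, Or.inr ⟨h2, h3⟩⟩⟩
  · have hne : fenceMap M κ v (z, (0 : ℝ)) ≠ fenceMap M κ v (w, (0 : ℝ)) := by
      rw [fenceMap_zero hκ hz, fenceMap_zero hκ hw]
      exact fun h => hg ((hκ.glue z hz w hw).1 h)
    have hcp : ContinuousAt (fun p : (ℂ × ℝ) × (ℂ × ℝ) => (fenceMap M κ v p.1, fenceMap M κ v p.2))
        ((z, (0 : ℝ)), (w, (0 : ℝ))) :=
      ContinuousAt.prodMk
        (ContinuousAt.comp (f := Prod.fst) (g := fenceMap M κ v)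
          (x := ((z, (0 : ℝ)), (w, (0 : ℝ)))) hcz continuousAt_fst)
        (ContinuousAt.comp (f := Prod.snd) (g := fenceMap M κ v)
          (x := ((z, (0 : ℝ)), (w, (0 : ℝ)))) hcw continuousAt_snd)
    have h5 : ∀ᶠ q : E n × E n in 𝓝 (fenceMap M κ v (z, (0 : ℝ)), fenceMap M κ v (w, (0 : ℝ))),
        q.1 ≠ q.2 := (isOpen_ne_fun continuous_fst continuous_snd).mem_nhds hne
    refine (hcp.eventually h5).mono fun p hp he => absurd he hp

end

theorem exists_fence {F : Fol M} {κ : ℂ → E n} (hκ : IsGenusTwoPiece F κ) :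
    ∃ (e : ℂ × ℝ → E n) (d : ℝ), IsFence M e d ∧ (∀ z ∈ combM (1 / 100), e (z, 0) = κ z) ∧
      ∀ y ∈ box (1 / 100) d, 0 < inner ℝ (F.N (e y)) (fderiv ℝ e y (0, 1)) := by
  obtain ⟨v, hv, hN⟩ := exists_transverse F
  obtain ⟨O, hO, hO0, hOd, hOg⟩ := fence_good hκ hv hN
  have hKsub : closure (combM (1 / 100)) ⊆ comb :=
    closure_combM_subset le_rfl (by norm_num) (by norm_num)
  have hK : IsCompact (closure (combM (1 / 100))) := isCompact_closure_combM _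
  have hK1 : IsCompact (closure (combM (1 / 100)) ×ˢ ({0} : Set ℝ)) := hK.prod isCompact_singleton
  have hK1O : closure (combM (1 / 100)) ×ˢ ({0} : Set ℝ) ⊆ O := by
    rintro ⟨z, x⟩ ⟨hz, hx⟩
    simp only [mem_singleton_iff] at hx
    subst hx
    exact hO0 z (hKsub hz)
  obtain ⟨d1, hd1, hd1O⟩ := hK1.exists_thickening_subset_open hO hK1O
  have hK2 : IsCompact ((closure (combM (1 / 100)) ×ˢ ({0} : Set ℝ)) ×ˢ
      (closure (combM (1 / 100)) ×ˢ ({0} : Set ℝ))) := hK1.prod hK1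
  have hK2G : (closure (combM (1 / 100)) ×ˢ ({0} : Set ℝ)) ×ˢ
      (closure (combM (1 / 100)) ×ˢ ({0} : Set ℝ)) ⊆
      interior {p : (ℂ × ℝ) × (ℂ × ℝ) | fenceMap M κ v p.1 = fenceMap M κ v p.2 →
        p.1.2 = p.2.2 ∧ glued p.1.1 p.2.1} := by
    rintro ⟨⟨z, x⟩, ⟨w, x'⟩⟩ ⟨⟨hz, hx⟩, ⟨hw, hx'⟩⟩
    simp only [mem_singleton_iff] at hx hx'
    subst hx
    subst hx'
    rw [mem_interior_iff_mem_nhds]
    exact fence_pair hκ hv hN (hKsub hz) (hKsub hw)
  obtain ⟨d2, hd2, hd2O⟩ := hK2.exists_thickening_subset_open isOpen_interior hK2G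
  have hmin1 : min d1 d2 ≤ d1 := min_le_left _ _
  have hmin2 : min d1 d2 ≤ d2 := min_le_right _ _
  have hbox : ∀ y ∈ box (1 / 100) (min d1 d2), y.1 ∈ closure (combM (1 / 100)) ∧
      dist y (y.1, (0 : ℝ)) < min d1 d2 := by
    rintro ⟨z, x⟩ ⟨hz, hx⟩
    refine ⟨subset_closure hz, ?_⟩
    simp only [mem_Ioo] at hx
    rw [Prod.dist_eq, dist_self, Real.dist_eq, sub_zero, max_eq_right (abs_nonneg _)]
    exact abs_lt.2 hx
  have hboxO : ∀ y ∈ box (1 / 100) (min d1 d2), y ∈ O := by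
    intro y hy
    obtain ⟨h1, h2⟩ := hbox y hy
    apply hd1O
    rw [Metric.mem_thickening_iff]
    exact ⟨(y.1, (0 : ℝ)), ⟨h1, rfl⟩, h2.trans_le hmin1⟩
  refine ⟨fenceMap M κ v, min d1 d2, ⟨lt_min hd1 hd2, ?_, ?_, ?_, ?_⟩, ?_, ?_⟩
  · exact (fenceMap_contDiffOn hκ hv).mono fun y hy => hOd (hboxO y hy)
  · exact fun y hy => fenceMap_mem (hOd (hboxO y hy))
  · exact fun y hy => (hOg y (hboxO y hy)).1
  · intro y hy y' hy'
    constructor
    · intro he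
      obtain ⟨h1, h2⟩ := hbox y hy
      obtain ⟨h1', h2'⟩ := hbox y' hy'
      have hmem : (y, y') ∈ Metric.thickening d2 ((closure (combM (1 / 100)) ×ˢ ({0} : Set ℝ)) ×ˢ
          (closure (combM (1 / 100)) ×ˢ ({0} : Set ℝ))) := by
        rw [Metric.mem_thickening_iff]
        refine ⟨((y.1, (0 : ℝ)), (y'.1, (0 : ℝ))), ⟨⟨h1, rfl⟩, ⟨h1', rfl⟩⟩, ?_⟩
        rw [Prod.dist_eq]
        exact max_lt (h2.trans_le hmin2) (h2'.trans_le hmin2)
      exact interior_subset (hd2O hmem) he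
    · rintro ⟨h2, hg⟩
      have hz : y.1 ∈ comb := hKsub (hbox y hy).1
      have hw : y'.1 ∈ comb := hKsub (hbox y' hy').1
      unfold fenceMap
      rw [(hκ.glue _ hz _ hw).2 hg, h2]
  · exact fun z hz => fenceMap_zero hκ (hKsub (subset_closure hz))
  · exact fun y hy => (hOg y (hboxO y hy)).2

end Pool.Agent.helper35.FOL
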