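import Pool.Agent.helper35.FOL.P01

/-!
# FOL-P02: paths in the comb, the compact set `Scpt`

author of the proofs: helper56

Elementary inequalities. `gam i s` has `im = -9/10` for `s ≤ 1/2` and `re = i` for `s ≥ 1/2`
(`Real.smoothTransition` is `0` on `(-∞,0]` and `1` on `[1,∞)`).
`Ssupp_glued`: a point of `Ssupp ∩ combM (1/50)` with `im > 3/2` lies in an arm `k` with
`|re - k| ≤ 1/8`; take `w = rho k z` if `k ∈ handles`, `w = rho (k-2) z` if `k - 2 ∈ handles`.
-/

open Set Filter Topology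
open scoped ContDiff

namespace Pool.Agent.helper35.FOL

private theorem P02_conv {a x y s : ℝ} (hx : a < x) (hy : a < y) (h0 : 0 ≤ s) (h1 : s ≤ 1) :
    a < x + s * (y - x) := by
  rcases eq_or_lt_of_le h0 with h | h
  · rw [← h]
    linarith
  · nlinarith [mul_pos h (sub_pos.2 hy), mul_nonneg (sub_nonneg.2 h1) (sub_pos.2 hx).le]

private theorem P02_conv' {b x y s : ℝ} (hx : x < b) (hy : y < b) (h0 : 0 ≤ s) (h1 : s ≤ 1) :
    x + s * (y - x) < b := by
  have := P02_conv (a := -b) (x := -x) (y := -y) (s := s) (by linarith) (by linarith) h0 h1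
  nlinarith

private theorem P02_nat {k : ℕ} (hk : k < 8) : (k : ℝ) ≤ 7 := by
  have : k ≤ 7 := by omega
  exact_mod_cast this

private theorem P02_re {h : ℝ} (h0 : 0 ≤ h) (h1 : h < 1 / 20) {z : ℂ} (hz : z ∈ combM h) :
    -1 + h < z.re ∧ z.re < 8 - h := by
  rcases hz with hz | ⟨k, hk, hk1, hk2, hk3⟩
  · exact ⟨hz.1, hz.2.1⟩
  · have h2 := P02_nat hk
    have h3 : (0 : ℝ) ≤ k := Nat.cast_nonneg k
    have h4 := abs_lt.1 hk1
    constructor <;> linarith [h4.1, h4.2]

private theorem P02_natEq {j k : ℕ} {x : ℝ} (h1 : |x - k| < 1 / 2) (h2 : |x - j| < 1 / 2) :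
    j = k := by
  have h3 := abs_lt.1 h1
  have h4 := abs_lt.1 h2
  have h5 : (j : ℝ) < k + 1 := by linarith [h3.2, h4.1, h3.1, h4.2]
  have h6 : (k : ℝ) < j + 1 := by linarith [h3.2, h4.1, h3.1, h4.2]
  have h7 : j < k + 1 := by exact_mod_cast h5
  have h8 : k < j + 1 := by exact_mod_cast h6
  omega

private theorem P02_rho_re (j : ℕ) (z : ℂ) : (rho j z).re = 2 * j + 2 - z.re := by
  unfold rho
  simp

private theorem P02_rho_im (j : ℕ) (z : ℂ) : (rho j z).im = 3 - z.im := by
  unfold rho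
  simp

private theorem P02_handles {j : ℕ} (hj : j ∈ handles) : j ≤ 5 := by
  simp only [handles, Finset.mem_insert, Finset.mem_singleton] at hj
  omega

theorem z0_mem {h : ℝ} (h0 : 0 ≤ h) (h1 : h < 1 / 20) : z0 ∈ combM h := by
  left
  simp only [z0, Set.mem_setOf_eq]
  refine ⟨by linarith, by linarith, by linarith, by linarith⟩

/-- The L-shaped path from `z0` to `z` stays in the comb: first horizontally to `(z.re, -9/10)`,
then vertically to `z`. -/
theorem path_mem {h : ℝ} (h0 : 0 ≤ h) (h1 : h < 1 / 20) {z : ℂ} (hz : z ∈ combM h) {s : ℝ}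
    (hs0 : 0 ≤ s) (hs1 : s ≤ 1) :
    (⟨7 / 2 + s * (z.re - 7 / 2), -9 / 10⟩ : ℂ) ∈ combM h ∧
      (⟨z.re, -9 / 10 + s * (z.im + 9 / 10)⟩ : ℂ) ∈ combM h := by
  have hre := P02_re h0 h1 hz
  constructor
  · left
    simp only [Set.mem_setOf_eq]
    exact ⟨P02_conv (by linarith) hre.1 hs0 hs1, P02_conv' (by linarith) hre.2 hs0 hs1,
      by linarith, by linarith⟩
  · have h2 : -9 / 10 + s * (z.im + 9 / 10) = -9 / 10 + s * (z.im - (-9 / 10)) := by ring
    rw [h2]
    rcases hz with hz | ⟨k, hk, hk1, hk2, hk3⟩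
    · left
      simp only [Set.mem_setOf_eq]
      exact ⟨hre.1, hre.2, P02_conv (by linarith) hz.2.2.1 hs0 hs1,
        P02_conv' (by linarith) hz.2.2.2 hs0 hs1⟩
    · right
      refine ⟨k, hk, hk1, ?_, ?_⟩
      · exact P02_conv (by linarith) hk2 hs0 hs1
      · exact P02_conv' (by linarith) hk3 hs0 hs1

/-- The path `gam i` stays in the comb. -/
theorem gam_mem {h : ℝ} (h0 : 0 ≤ h) (h1 : h < 1 / 20) {i : ℕ} (hi : i < 8) (s : ℝ) :
    gam i s ∈ combM h := by
  have hi7 := P02_nat hi
  have hi0 : (0 : ℝ) ≤ i := Nat.cast_nonneg i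
  rcases le_total s (1 / 2) with hs | hs
  · have h2 : Real.smoothTransition (2 * s - 1) = 0 :=
      Real.smoothTransition.zero_of_nonpos (by linarith)
    have h3 := Real.smoothTransition.nonneg (2 * s)
    have h4 := Real.smoothTransition.le_one (2 * s)
    left
    simp only [gam, h2, mul_zero, add_zero, Set.mem_setOf_eq]
    have h5 : (7 / 2 : ℝ) + (i - 7 / 2) * Real.smoothTransition (2 * s) =
      7 / 2 + Real.smoothTransition (2 * s) * (i - 7 / 2) := by ring
    rw [h5]
    exact ⟨P02_conv (by linarith) (by linarith) h3 h4, P02_conv' (by linarith) (by linarith) h3 h4,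
      by linarith, by linarith⟩
  · have h2 : Real.smoothTransition (2 * s) = 1 :=
      Real.smoothTransition.one_of_one_le (by linarith)
    have h3 := Real.smoothTransition.nonneg (2 * s - 1)
    have h4 := Real.smoothTransition.le_one (2 * s - 1)
    right
    refine ⟨i, hi, ?_, ?_, ?_⟩
    · simp only [gam, h2, mul_one]
      have h5 : (7 / 2 : ℝ) + (i - 7 / 2) - i = 0 := by ring
      rw [h5, abs_zero]
      linarith
    · simp only [gam]
      linarith
    · simp only [gam]
      linarith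

theorem gam_zero (i : ℕ) : gam i 0 = z0 := by
  have h2 : Real.smoothTransition (2 * 0 - 1) = 0 :=
    Real.smoothTransition.zero_of_nonpos (by norm_num)
  have h3 : Real.smoothTransition (2 * 0) = 0 :=
    Real.smoothTransition.zero_of_nonpos (by norm_num)
  unfold gam z0
  rw [h2, h3]
  simp

theorem gam_one (i : ℕ) : gam i 1 = ⟨i, 3 / 2⟩ := by
  have h2 : Real.smoothTransition (2 * 1 - 1) = 1 :=
    Real.smoothTransition.one_of_one_le (by norm_num)
  have h3 : Real.smoothTransition (2 * 1) = 1 :=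
    Real.smoothTransition.one_of_one_le (by norm_num)
  unfold gam
  rw [h2, h3]
  congr 1
  · ring
  · norm_num

theorem contDiff_gam (i : ℕ) : ContDiff ℝ ∞ (gam i) := by
  have h1 : ContDiff ℝ ∞ (fun s : ℝ => 7 / 2 + ((i : ℝ) - 7 / 2) * Real.smoothTransition (2 * s)) := by
    have h2 : ContDiff ℝ ∞ Real.smoothTransition := Real.smoothTransition.contDiff
    exact contDiff_const.add (contDiff_const.mul (h2.comp (contDiff_const.mul contDiff_id)))
  have h3 : ContDiff ℝ ∞ (fun s : ℝ => -9 / 10 + (12 / 5) * Real.smoothTransition (2 * s - 1)) := by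
    have h2 : ContDiff ℝ ∞ Real.smoothTransition := Real.smoothTransition.contDiff
    exact contDiff_const.add (contDiff_const.mul
      (h2.comp ((contDiff_const.mul contDiff_id).sub contDiff_const)))
  have h4 := Complex.equivRealProdCLM.symm.contDiff (n := ∞)
  have h5 := h4.comp (h1.prodMk h3)
  have h6 : gam i = Complex.equivRealProdCLM.symm ∘ (fun s : ℝ =>
      (7 / 2 + ((i : ℝ) - 7 / 2) * Real.smoothTransition (2 * s),
        -9 / 10 + (12 / 5) * Real.smoothTransition (2 * s - 1))) := by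
    funext s
    apply Complex.ext
    · simp [gam]
    · simp [gam]
  rw [h6]
  exact h5

theorem isClosed_Ssupp : IsClosed Ssupp := by
  have h1 : Ssupp = {z : ℂ | -3 / 4 ≤ z.im} ∩
      ((⋃ k ∈ Finset.range 8, {z : ℂ | |z.re - (k : ℕ)| ≤ 1 / 8}) ∪
        ({z : ℂ | z.im ≤ -1 / 4} ∩ ({z : ℂ | -1 / 8 ≤ z.re} ∩ {z : ℂ | z.re ≤ 7 + 1 / 8}))) := by
    ext z
    simp only [Ssupp, Set.mem_setOf_eq, Set.mem_inter_iff, Set.mem_union, Set.mem_iUnion,
      Finset.mem_range, exists_prop]
  rw [h1]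
  refine IsClosed.inter (isClosed_le continuous_const Complex.continuous_im) (IsClosed.union ?_ ?_)
  · refine isClosed_biUnion_finset fun k _ => ?_
    exact isClosed_le ((Complex.continuous_re.sub continuous_const).abs) continuous_const
  · exact (isClosed_le Complex.continuous_im continuous_const).inter
      ((isClosed_le continuous_const Complex.continuous_re).inter
        (isClosed_le Complex.continuous_re continuous_const))

private theorem P02_Ssupp_re {z : ℂ} (hz : z ∈ Ssupp) : -1 / 8 ≤ z.re ∧ z.re ≤ 7 + 1 / 8 := by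
  rcases hz.2 with ⟨k, hk, hk1⟩ | ⟨_, h1, h2⟩
  · have h2 := P02_nat hk
    have h3 : (0 : ℝ) ≤ k := Nat.cast_nonneg k
    have h4 := abs_le.1 hk1
    constructor <;> linarith [h4.1, h4.2]
  · exact ⟨h1, h2⟩

private theorem P02_compact {c : ℝ} : IsCompact (Ssupp ∩ {z : ℂ | z.im ≤ c}) := by
  have h1 : IsCompact (Icc (-1 / 8 : ℝ) (7 + 1 / 8) ×ℂ Icc (-3 / 4 : ℝ) c) :=
    isCompact_Icc.reProdIm isCompact_Icc
  refine h1.of_isClosed_subset
    (isClosed_Ssupp.inter (isClosed_le Complex.continuous_im continuous_const)) ?_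
  rintro z ⟨hz, hc⟩
  rw [Complex.mem_reProdIm]
  exact ⟨P02_Ssupp_re hz, hz.1, hc⟩

private theorem P02_sub {c : ℝ} (hc : c ≤ 7 / 4) {z : ℂ} (hz : z ∈ Ssupp) (hi : z.im ≤ c) :
    z ∈ combM (1 / 50) := by
  have h1 := hz.1
  rcases hz.2 with ⟨k, hk, hk1⟩ | ⟨h2, h3, h4⟩
  · right
    exact ⟨k, hk, by linarith, by linarith, by linarith⟩
  · left
    exact ⟨by linarith, by linarith, by linarith, by linarith⟩

/-- `Scpt` is a compact subset of the comb with margin `1/50`. -/
theorem isCompact_Scpt : IsCompact Scpt := P02_compact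

theorem Scpt_subset : Scpt ⊆ combM (1 / 50) := by
  rintro z ⟨hz, hc⟩
  exact P02_sub (c := 3 / 2) (by norm_num) hz hc

theorem isCompact_Scpt2 : IsCompact Scpt2 := P02_compact

theorem Scpt2_subset : Scpt2 ⊆ combM (1 / 50) := by
  rintro z ⟨hz, hc⟩
  exact P02_sub (c := 7 / 4) (by norm_num) hz hc

theorem Scpt_subset_Scpt2 : Scpt ⊆ Scpt2 := by
  rintro z ⟨hz, hc⟩
  refine ⟨hz, ?_⟩
  simp only [Set.mem_setOf_eq] at hc ⊢
  linarith

/-- A point glued to a point of `Scpt` and with `im ≤ 7/4` is in `Scpt2`. -/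
theorem glued_Scpt2 {z w : ℂ} (hz : z ∈ Scpt) (hw : w.im ≤ 7 / 4) (hg : glued z w) :
    w ∈ Scpt2 := by
  rcases hg with h | ⟨j, hj, ⟨h1, h2⟩ | ⟨h1, h2⟩⟩
  · rw [← h]
    exact Scpt_subset_Scpt2 hz
  · obtain ⟨hS, hi⟩ := hz
    simp only [Set.mem_setOf_eq] at hi
    obtain ⟨h3, h4, h5⟩ := h1
    have hj5 := P02_handles hj
    rcases hS.2 with ⟨k, hk, hk1⟩ | ⟨h6, _⟩
    · have hjk : j = k := P02_natEq (x := z.re) (by linarith) (by linarith)
      subst hjk
      refine ⟨⟨?_, Or.inl ⟨j + 2, by omega, ?_⟩⟩, hw⟩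
      · rw [h2, P02_rho_im]
        linarith
      · rw [h2, P02_rho_re]
        push_cast
        have h7 : 2 * (j : ℝ) + 2 - z.re - (j + 2) = -(z.re - j) := by ring
        rw [h7, abs_neg]
        exact hk1
    · linarith
  · obtain ⟨hS, hi⟩ := hz
    simp only [Set.mem_setOf_eq] at hi
    obtain ⟨h3, h4, h5⟩ := h1
    have hj5 := P02_handles hj
    have hre : z.re = 2 * j + 2 - w.re := by rw [h2, P02_rho_re]
    have him : z.im = 3 - w.im := by rw [h2, P02_rho_im]
    rcases hS.2 with ⟨k, hk, hk1⟩ | ⟨h6, _⟩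
    · have h8 : z.re - ((j + 2 : ℕ) : ℝ) = -(w.re - j) := by
        rw [hre]
        push_cast
        ring
      have hjk : j + 2 = k := P02_natEq (x := z.re) (by linarith) (by
        rw [h8, abs_neg]
        linarith)
      subst hjk
      rw [h8, abs_neg] at hk1
      exact ⟨⟨by linarith, Or.inl ⟨j, by omega, hk1⟩⟩, hw⟩
    · linarith

/-- The points of `Ssupp` in the comb which are not in `Scpt` are glued to points of `Scpt`. -/
theorem Ssupp_glued {z : ℂ} (hz : z ∈ combM (1 / 50)) (hS : z ∈ Ssupp) (h : z ∉ Scpt) :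
    ∃ w ∈ Scpt, glued z w := by
  have him : 3 / 2 < z.im := by
    by_contra hcon
    rw [not_lt] at hcon
    exact h ⟨hS, hcon⟩
  have him2 : z.im < 2 - 1 / 50 := by
    rcases hz with hz | ⟨k, hk, hk1, hk2, hk3⟩
    · linarith [hz.2.2.2]
    · exact hk3
  rcases hS.2 with ⟨k, hk, hk1⟩ | ⟨h6, _⟩
  · by_cases hkh : k ∈ handles
    · have hk5 := P02_handles hkh
      refine ⟨rho k z, ⟨⟨?_, Or.inl ⟨k + 2, by omega, ?_⟩⟩, ?_⟩, Or.inr ⟨k, hkh, Or.inl ⟨?_, rfl⟩⟩⟩
      · rw [P02_rho_im]
        linarith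
      · rw [P02_rho_re]
        push_cast
        have h7 : 2 * (k : ℝ) + 2 - z.re - (k + 2) = -(z.re - k) := by ring
        rw [h7, abs_neg]
        exact hk1
      · simp only [Set.mem_setOf_eq]
        rw [P02_rho_im]
        linarith
      · exact ⟨by linarith, by linarith, by linarith⟩
    · have hk2 : ∃ j, j ∈ handles ∧ k = j + 2 := by
        simp only [handles, Finset.mem_insert, Finset.mem_singleton, not_or] at hkh
        have h8 : k = 2 ∨ k = 3 ∨ k = 6 ∨ k = 7 := by omega
        rcases h8 with h8 | h8 | h8 | h8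
        · exact ⟨0, by decide, h8⟩
        · exact ⟨1, by decide, h8⟩
        · exact ⟨4, by decide, h8⟩
        · exact ⟨5, by decide, h8⟩
      obtain ⟨j, hj, rfl⟩ := hk2
      have h9 : |(rho j z).re - j| ≤ 1 / 8 := by
        rw [P02_rho_re]
        push_cast at hk1
        have h7 : 2 * (j : ℝ) + 2 - z.re - j = -(z.re - (j + 2)) := by ring
        rw [h7, abs_neg]
        exact hk1
      refine ⟨rho j z, ⟨⟨?_, Or.inl ⟨j, by omega, h9⟩⟩, ?_⟩,
        Or.inr ⟨j, hj, Or.inr ⟨⟨by linarith, ?_, ?_⟩, ?_⟩⟩⟩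
      · rw [P02_rho_im]
        linarith
      · simp only [Set.mem_setOf_eq]
        rw [P02_rho_im]
        linarith
      · rw [P02_rho_im]
        linarith
      · rw [P02_rho_im]
        linarith
      · rw [rho_rho]
  · linarith

private theorem P02_near {i : ℕ} {s : ℝ} {z : ℂ} (hz : ‖z - gam i s‖ < 1 / 8) (h : 1 < z.im) :
    |z.re - i| < 1 / 8 := by
  have h1 : |z.im - (gam i s).im| < 1 / 8 := by
    have := Complex.abs_im_le_norm (z - gam i s)
    rw [Complex.sub_im] at this
    linarith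
  have h2 : |z.re - (gam i s).re| < 1 / 8 := by
    have := Complex.abs_re_le_norm (z - gam i s)
    rw [Complex.sub_re] at this
    linarith
  have h3 := abs_lt.1 h1
  rcases le_total s (1 / 2) with hs | hs
  · have h4 : Real.smoothTransition (2 * s - 1) = 0 :=
      Real.smoothTransition.zero_of_nonpos (by linarith)
    have h5 : (gam i s).im = -9 / 10 := by
      simp only [gam, h4, mul_zero, add_zero]
    rw [h5] at h3
    linarith [h3.2]
  · have h4 : Real.smoothTransition (2 * s) = 1 :=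
      Real.smoothTransition.one_of_one_le (by linarith)
    have h5 : (gam i s).re = i := by
      simp only [gam, h4, mul_one]
      ring
    rw [h5] at h2
    exact h2

/-- Two glued points which are both `1/8`-close to the path `gam i`, `i < 8`, are equal. -/
theorem glued_near_gam {i : ℕ} (hi : i < 8) {s t : ℝ} {z w : ℂ} (hz : ‖z - gam i s‖ < 1 / 8)
    (hw : ‖w - gam i t‖ < 1 / 8) (hg : glued z w) : z = w := by
  rcases hg with h | ⟨j, hj, ⟨h1, h2⟩ | ⟨h1, h2⟩⟩
  · exact h
  · exfalso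
    obtain ⟨h3, h4, h5⟩ := h1
    have hre : w.re = 2 * j + 2 - z.re := by rw [h2, P02_rho_re]
    have him : w.im = 3 - z.im := by rw [h2, P02_rho_im]
    have h6 := P02_near hz h4
    have h7 := P02_near hw (by rw [him]; linarith)
    have h8 : j = i := P02_natEq (x := z.re) (by linarith) (by linarith)
    have h9 : w.re - ((j + 2 : ℕ) : ℝ) = -(z.re - j) := by
      rw [hre]
      push_cast
      ring
    have h10 : j + 2 = i := P02_natEq (x := w.re) (by linarith) (by
      rw [h9, abs_neg]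
      linarith)
    omega
  · exfalso
    obtain ⟨h3, h4, h5⟩ := h1
    have hre : z.re = 2 * j + 2 - w.re := by rw [h2, P02_rho_re]
    have him : z.im = 3 - w.im := by rw [h2, P02_rho_im]
    have h6 := P02_near hw h4
    have h7 := P02_near hz (by rw [him]; linarith)
    have h8 : j = i := P02_natEq (x := w.re) (by linarith) (by linarith)
    have h9 : z.re - ((j + 2 : ℕ) : ℝ) = -(w.re - j) := by
      rw [hre]
      push_cast
      ring
    have h10 : j + 2 = i := P02_natEq (x := z.re) (by linarith) (by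
      rw [h9, abs_neg]
      linarith)
    omega

end Pool.Agent.helper35.FOL
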