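import Pool.Agent.helper35.FOL.F06
import Pool.Agent.helper35.FOL.P02

/-!
# FOL-F07: the perturbed foliation

Let `P = e '' box (1/50) d2` (relatively open in `M`: `exists_local_inverse`/`exists_normal`) and
`Q = e '' (Scpt ×ˢ Icc (-d3) d3)` (compact, `Q ⊆ P`).  Define `N' p` for `p = e y`, `y ∈ box (1/50) d2`, as the
unique unit tangent vector with `⟨N' p, D e y (ζ, s)⟩ = τ (s - A' y ζ)`, `τ > 0` (`exists_normal`), and
`N' p = N p` for the other points.  It does not depend on `y`: if `e y = e y'`, `y ≠ y'`, then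
`y.2 = y'.2`, `y'.1 = rho j y.1` with `y.1 ∈ tabM (1/50) j` (`he.inj`, `glued_combM`) and
`D e (y') (-ζ, s) = D e y (ζ, s)`, `A' y' = - A' y` (`hrefl`).  For `p = e y ∈ P \ Q`: `A' y = A y`: otherwise
`y.1 ∈ Ssupp` and `|y.2| ≤ d3`, `y.1 ∉ Scpt`, and then `y.1` is glued to a point of `Scpt`
(`Ssupp_glued`), so `p ∈ Q`.  Hence `N' = N` on `M \ Q` (uniqueness in `exists_normal`).
`c1`: near `p ∈ Q`: `N' (π x) = R (π x, A' (h (π x)))`; near `p ∉ Q`: `N' = N` (Q is closed).  `integrable`: near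
`p = e y ∈ P`: `u = c' ∘ h`, `D u x (Dπ x v) = c ⟨N' x, v⟩` since `D c' y (ζ, A' y ζ) = 0`, `∂ₓ c' > 0`: `u ∘ e = c'` and
`D c' y (ζ, s) = ∂ₓ c' y (s - A' y ζ)`; otherwise `F.integrable`.
-/

open Set Filter Topology
open scoped ContDiff commutatorElement

namespace Pool.Agent.helper35.FOL

variable {n : ℕ} {M : ClosedMfd n}

/-- `w` is the unit normal at `e y` of the plane of slope `a`. -/
def IsNorm (M : ClosedMfd n) (e : ℂ × ℝ → E n) (y : ℂ × ℝ) (a : ℂ →L[ℝ] ℝ) (w : E n) : Prop :=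
  fderiv ℝ M.π (e y) w = w ∧ ‖w‖ = 1 ∧ ∃ τ : ℝ, 0 < τ ∧ ∀ (ζ : ℂ) (s : ℝ),
    inner ℝ w (fderiv ℝ e y (ζ, s)) = τ * (s - a ζ)

theorem combM_50_subset : combM (1 / 50) ⊆ combM (1 / 100) := combM_mono (by norm_num)

theorem box_50_subset {d d2 : ℝ} (h2 : d2 ≤ d) : box (1 / 50) d2 ⊆ box (1 / 100) d := by
  rintro y ⟨h1, h3, h4⟩
  exact ⟨combM_50_subset h1, by linarith, by linarith⟩

theorem exists_isNorm {e : ℂ × ℝ → E n} {d : ℝ} (he : IsFence M e d) {y : ℂ × ℝ}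
    (hy : y ∈ box (1 / 100) d) (a : ℂ →L[ℝ] ℝ) :
    ∃ w, IsNorm M e y a w ∧ ∀ w', IsNorm M e y a w' → w' = w := by
  obtain ⟨O, -, -, hyO, h, -, hO, hhy, R, -, hR⟩ := exists_normal he hy univ_mem
  have h1 := hhy.self_of_nhds.2
  obtain ⟨h2, h3, h4, h5⟩ := hR (e y) hyO (he.mem y hy) a
  rw [h1] at h4 h5
  exact ⟨R (e y, a), ⟨h2, h3, h4⟩, fun w' hw' => h5 w' hw'.1 hw'.2.1 hw'.2.2⟩

theorem isNorm_unique {e : ℂ × ℝ → E n} {d : ℝ} (he : IsFence M e d) {y : ℂ × ℝ}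
    (hy : y ∈ box (1 / 100) d) {a : ℂ →L[ℝ] ℝ} {w w' : E n} (hw : IsNorm M e y a w)
    (hw' : IsNorm M e y a w') : w = w' := by
  obtain ⟨w0, -, h0⟩ := exists_isNorm he hy a
  rw [h0 w hw, h0 w' hw']

theorem isNorm_of_isSlope {F : Fol M} {e : ℂ × ℝ → E n} {d : ℝ} (he : IsFence M e d)
    {W : Set (ℂ × ℝ)} {A : ℂ × ℝ → ℂ →L[ℝ] ℝ} (hs : IsSlope F e A W) (hW : W ⊆ box (1 / 100) d)
    {y : ℂ × ℝ} (hy : y ∈ W) : IsNorm M e y (A y) (F.N (e y)) := by
  have hm := he.mem y (hW hy)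
  obtain ⟨h1, h2⟩ := hs y hy
  exact ⟨F.tang _ hm, F.unit _ hm, _, h1, h2⟩

theorem isSlope_of_isNorm {F : Fol M} {e : ℂ × ℝ → E n}
    {W : Set (ℂ × ℝ)} {A : ℂ × ℝ → ℂ →L[ℝ] ℝ} (h : ∀ y ∈ W, IsNorm M e y (A y) (F.N (e y))) :
    IsSlope F e A W := by
  intro y hy
  obtain ⟨-, -, τ, hτ, h1⟩ := h y hy
  have h0 : inner ℝ (F.N (e y)) (fderiv ℝ e y (0, 1)) = τ := by
    rw [h1, map_zero]; ring
  rw [h0]
  exact ⟨hτ, h1⟩

/-- the fence is invariant under the gluing -/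
theorem fence_rho {e : ℂ × ℝ → E n} {d : ℝ} (he : IsFence M e d) {j : ℕ} (hj : j ∈ handles) {z : ℂ}
    (hz : z ∈ tabM (1 / 100) j) {x : ℝ} (hx : |x| < d) : e (rho j z, x) = e (z, x) := by
  have hj8 : j < 8 ∧ j + 2 < 8 := by
    simp only [handles, Finset.mem_insert, Finset.mem_singleton] at hj
    omega
  have h1 : rho j z ∈ combM (1 / 100) :=
    tabM_subset (by norm_num) hj8.2 (rho_mem_tabM hz)
  have h2 : z ∈ combM (1 / 100) := tabM_subset (by norm_num) hj8.1 hz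
  have h3 : z ∈ tab j := by
    obtain ⟨a, b, c⟩ := hz
    exact ⟨by linarith, by linarith, by linarith⟩
  refine (he.inj _ ⟨h1, abs_lt.1 hx⟩ _ ⟨h2, abs_lt.1 hx⟩).2 ⟨rfl, ?_⟩
  exact Or.inr ⟨j, hj, Or.inr ⟨h3, rfl⟩⟩

theorem hasFDerivAt_rho (j : ℕ) (z : ℂ) :
    HasFDerivAt (rho j) (-(ContinuousLinearMap.id ℝ ℂ)) z := by
  have : rho j = fun w => ((2 * j + 2 : ℂ) + 3 * Complex.I) - w := rfl
  rw [this]
  exact (hasFDerivAt_id z).const_sub _

/-- the derivative of the fence at glued points -/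
theorem fderiv_fence_rho {e : ℂ × ℝ → E n} {d : ℝ} (he : IsFence M e d) {j : ℕ}
    (hj : j ∈ handles) {z : ℂ} (hz : z ∈ tabM (1 / 100) j) {x : ℝ} (hx : |x| < d) (ζ : ℂ) (s : ℝ) :
    fderiv ℝ e (rho j z, x) (ζ, s) = fderiv ℝ e (z, x) (-ζ, s) := by
  have hj8 : j < 8 ∧ j + 2 < 8 := by
    simp only [handles, Finset.mem_insert, Finset.mem_singleton] at hj
    omega
  have h1 : rho j z ∈ combM (1 / 100) :=
    tabM_subset (by norm_num) hj8.2 (rho_mem_tabM hz)
  have hopen := isOpen_box (1 / 100) d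
  have hd : DifferentiableAt ℝ e (rho j z, x) :=
    (he.smooth.contDiffAt (hopen.mem_nhds ⟨h1, abs_lt.1 hx⟩)).differentiableAt two_ne_zero
  have hg : HasFDerivAt (fun y : ℂ × ℝ => (rho j y.1, y.2))
      (((-(ContinuousLinearMap.id ℝ ℂ)).comp (ContinuousLinearMap.fst ℝ ℂ ℝ)).prod
        (ContinuousLinearMap.snd ℝ ℂ ℝ)) (z, x) := by
    refine HasFDerivAt.prodMk ?_ hasFDerivAt_snd
    exact (hasFDerivAt_rho j z).comp (z, x) hasFDerivAt_fst
  have hcomp : HasFDerivAt (fun y : ℂ × ℝ => e (rho j y.1, y.2)) _ (z, x) :=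
    HasFDerivAt.comp (f := fun y : ℂ × ℝ => (rho j y.1, y.2)) (z, x) hd.hasFDerivAt hg
  have heq : (fun y : ℂ × ℝ => e (rho j y.1, y.2)) =ᶠ[𝓝 (z, x)] e := by
    have hO : tabM (1 / 100) j ×ˢ Ioo (-d) d ∈ 𝓝 (z, x) :=
      ((isOpen_tabM _ _).prod isOpen_Ioo).mem_nhds ⟨hz, abs_lt.1 hx⟩
    filter_upwards [hO] with y hy
    exact fence_rho he hj hy.1 (abs_lt.2 hy.2)
  have h2 : fderiv ℝ e (z, x) = (fderiv ℝ e (rho j z, x)).comp
      (((-(ContinuousLinearMap.id ℝ ℂ)).comp (ContinuousLinearMap.fst ℝ ℂ ℝ)).prod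
        (ContinuousLinearMap.snd ℝ ℂ ℝ)) := by
    rw [← heq.fderiv_eq]
    exact hcomp.fderiv
  rw [h2]
  simp

theorem isNorm_rho {e : ℂ × ℝ → E n} {d : ℝ} (he : IsFence M e d) {j : ℕ}
    (hj : j ∈ handles) {z : ℂ} (hz : z ∈ tabM (1 / 100) j) {x : ℝ} (hx : |x| < d)
    (a : ℂ →L[ℝ] ℝ) (w : E n) : IsNorm M e (rho j z, x) (-a) w ↔ IsNorm M e (z, x) a w := by
  unfold IsNorm
  rw [fence_rho he hj hz hx]
  refine and_congr Iff.rfl (and_congr Iff.rfl (exists_congr fun τ => and_congr Iff.rfl ?_))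
  constructor
  · intro h ζ s
    have := h (-ζ) s
    rw [fderiv_fence_rho he hj hz hx, neg_neg] at this
    rw [this]
    simp
  · intro h ζ s
    rw [fderiv_fence_rho he hj hz hx, h]
    simp


section Pert

variable {F : Fol M} {e : ℂ × ℝ → E n} {d d2 d3 : ℝ} {A A' : ℂ × ℝ → ℂ →L[ℝ] ℝ} {c' : ℂ × ℝ → ℝ}

theorem isNorm_congr (he : IsFence M e d) (h2 : d2 ≤ d)
    (hrefl : ∀ j ∈ handles, ∀ z ∈ tabM (1 / 50) j, ∀ x, |x| < d2 → A' (rho j z, x) = -A' (z, x))
    {y y' : ℂ × ℝ} (hy : y ∈ box (1 / 50) d2) (hy' : y' ∈ box (1 / 50) d2) (h : e y = e y')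
    (w : E n) (hw : IsNorm M e y (A' y) w) : IsNorm M e y' (A' y') w := by
  have hsub := box_50_subset h2
  obtain ⟨h1, h3⟩ := (he.inj y (hsub hy) y' (hsub hy')).1 h
  obtain ⟨z, x⟩ := y
  obtain ⟨z', x'⟩ := y'
  dsimp only at h1 h3
  subst h1
  have hx : |x| < d2 := abs_lt.2 hy.2
  have htab : ∀ j, tabM (1 / 50) j ⊆ tabM (1 / 100) j := by
    rintro j z ⟨a, b, c⟩
    exact ⟨by linarith, by linarith, by linarith⟩
  rcases glued_combM (by norm_num) (by norm_num) hy.1 hy'.1 h3 with h4 | ⟨j, hj, h4 | h4⟩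
  · have h4' : z = z' := h4
    rw [← h4']; exact hw
  · obtain ⟨h5, rfl⟩ := h4
    rw [hrefl j hj z h5 x hx]
    exact (isNorm_rho he hj (htab j h5) (hx.trans_le h2) _ w).2 hw
  · obtain ⟨h5, rfl⟩ := h4
    rw [hrefl j hj z' h5 x hx] at hw
    exact (isNorm_rho he hj (htab j h5) (hx.trans_le h2) _ w).1 hw

open Classical in
/-- the unit normal of the perturbed foliation -/
noncomputable def pertN (F : Fol M) (e : ℂ × ℝ → E n) (d2 : ℝ) (A' : ℂ × ℝ → ℂ →L[ℝ] ℝ)
    (x : E n) : E n :=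
  if h : ∃ w, ∃ y ∈ box (1 / 50) d2, e y = x ∧ IsNorm M e y (A' y) w then Classical.choose h
  else F.N x

theorem pertN_spec (he : IsFence M e d) (h2 : d2 ≤ d)
    (hrefl : ∀ j ∈ handles, ∀ z ∈ tabM (1 / 50) j, ∀ x, |x| < d2 → A' (rho j z, x) = -A' (z, x))
    {y : ℂ × ℝ} (hy : y ∈ box (1 / 50) d2) : IsNorm M e y (A' y) (pertN F e d2 A' (e y)) := by
  obtain ⟨w, hw, -⟩ := exists_isNorm he (box_50_subset h2 hy) (A' y)
  have h : ∃ w, ∃ y' ∈ box (1 / 50) d2, e y' = e y ∧ IsNorm M e y' (A' y') w :=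
    ⟨w, y, hy, rfl, hw⟩
  obtain ⟨y', hy', h3, h4⟩ := Classical.choose_spec h
  have h5 : pertN F e d2 A' (e y) = Classical.choose h := by
    unfold pertN
    rw [dif_pos h]
  rw [h5]
  exact isNorm_congr he h2 hrefl hy' hy h3 _ h4

theorem pertN_off {x : E n} (hx : x ∉ e '' box (1 / 50) d2) : pertN F e d2 A' x = F.N x := by
  unfold pertN
  rw [dif_neg]
  rintro ⟨w, y, hy, h, -⟩
  exact hx ⟨y, hy, h⟩

theorem pertN_eq (he : IsFence M e d) (hs : IsSlope F e A (box (1 / 100) d))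
    (h2 : d2 ≤ d)
    (hrefl : ∀ j ∈ handles, ∀ z ∈ tabM (1 / 50) j, ∀ x, |x| < d2 → A' (rho j z, x) = -A' (z, x))
    (hagree : ∀ y ∈ box (1 / 50) d2, (y.1 ∉ Ssupp ∨ d3 < |y.2|) → A' y = A y)
    {x : E n} (hx : x ∉ e '' (Scpt ×ˢ Icc (-d3) d3)) : pertN F e d2 A' x = F.N x := by
  by_cases h : x ∈ e '' box (1 / 50) d2
  · obtain ⟨y, hy, rfl⟩ := h
    have hy1 := box_50_subset h2 hy
    have h1 : A' y = A y := by
      apply hagree y hy
      by_contra hc
      push Not at hc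
      obtain ⟨hc1, hc2⟩ := hc
      have hI : y.2 ∈ Icc (-d3) d3 := abs_le.1 hc2
      by_cases h3 : y.1 ∈ Scpt
      · exact hx ⟨y, ⟨h3, hI⟩, rfl⟩
      · obtain ⟨w, hw, hg⟩ := Ssupp_glued hy.1 hc1 h3
        have hw1 : (w, y.2) ∈ box (1 / 50) d2 := ⟨Scpt_subset hw, hy.2⟩
        refine hx ⟨(w, y.2), ⟨hw, hI⟩, ?_⟩
        exact ((he.inj y hy1 _ (box_50_subset h2 hw1)).2 ⟨rfl, hg⟩).symm
    have h3 := pertN_spec (F := F) he h2 hrefl hy
    rw [h1] at h3
    exact isNorm_unique he hy1 h3 (isNorm_of_isSlope he hs le_rfl hy1)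
  · exact pertN_off h

theorem isCompact_Q (he : IsFence M e d) (h32 : d3 < d2) (h2 : d2 ≤ d) :
    IsCompact (e '' (Scpt ×ˢ Icc (-d3) d3)) := by
  refine (isCompact_Scpt.prod isCompact_Icc).image_of_continuousOn ?_
  refine he.smooth.continuousOn.mono ?_
  rintro y ⟨h1, h3, h4⟩
  exact ⟨combM_50_subset (Scpt_subset h1), by linarith, by linarith⟩

theorem Q_subset (h32 : d3 < d2) :
    Scpt ×ˢ Icc (-d3) d3 ⊆ box (1 / 50) d2 := by
  rintro y ⟨h1, h3, h4⟩
  exact ⟨Scpt_subset h1, by linarith, by linarith⟩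

/-- the local formula for the perturbed normal field -/
theorem pertN_local (he : IsFence M e d) (h2 : d2 ≤ d)
    (hrefl : ∀ j ∈ handles, ∀ z ∈ tabM (1 / 50) j, ∀ x, |x| < d2 → A' (rho j z, x) = -A' (z, x))
    {y0 : ℂ × ℝ} (hy0 : y0 ∈ box (1 / 50) d2) :
    ∃ O : Set (E n), IsOpen O ∧ O ⊆ M.V ∧ e y0 ∈ O ∧ ∃ h : E n → ℂ × ℝ, ContDiffOn ℝ 2 h O ∧
      (∀ x ∈ O, x ∈ M.carrier → h x ∈ box (1 / 50) d2 ∧ e (h x) = x) ∧
      (∀ᶠ y in 𝓝 y0, e y ∈ O ∧ h (e y) = y) ∧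
      ∃ R : E n × (ℂ →L[ℝ] ℝ) → E n, ContDiffOn ℝ 1 R (O ×ˢ univ) ∧
        ∀ x ∈ O, x ∈ M.carrier → pertN F e d2 A' x = R (x, A' (h x)) := by
  have hW : box (1 / 50) d2 ∈ 𝓝 y0 := (isOpen_box _ _).mem_nhds hy0
  obtain ⟨O, hO, hOV, hyO, h, hh, hOM, hhy, R, hR, hR'⟩ :=
    exists_normal he (box_50_subset h2 hy0) hW
  refine ⟨O, hO, hOV, hyO, h, hh, fun x hx hxM => ⟨(hOM x hx hxM).1, (hOM x hx hxM).2.2⟩, hhy,
    R, hR, fun x hx hxM => ?_⟩
  obtain ⟨h3, -, h5⟩ := hOM x hx hxM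
  have h6 := pertN_spec (F := F) he h2 hrefl h3
  obtain ⟨-, -, -, h7⟩ := hR' x hx hxM (A' (h x))
  obtain ⟨h8, h9, h10⟩ := h6
  rw [h5] at h8 h9 h10
  exact h7 _ h8 h9 h10

end Pert

theorem exists_pert {F : Fol M} {e : ℂ × ℝ → E n} {d d2 d3 : ℝ} {A A' : ℂ × ℝ → ℂ →L[ℝ] ℝ}
    {c' : ℂ × ℝ → ℝ} (he : IsFence M e d) (hs : IsSlope F e A (box (1 / 100) d))
    (h3 : 0 < d3) (h32 : d3 < d2) (h2 : d2 ≤ d) (hA' : ContDiffOn ℝ 1 A' (box (1 / 50) d2))
    (hrefl : ∀ j ∈ handles, ∀ z ∈ tabM (1 / 50) j, ∀ x, |x| < d2 → A' (rho j z, x) = -A' (z, x))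
    (hagree : ∀ y ∈ box (1 / 50) d2, (y.1 ∉ Ssupp ∨ d3 < |y.2|) → A' y = A y)
    (hFI : IsFI A' c' (box (1 / 50) d2)) :
    ∃ F' : Fol M, IsSlope F' e A' (box (1 / 50) d2) ∧
      ∀ x, x ∉ e '' (Scpt ×ˢ Icc (-d3) d3) → F'.N x = F.N x := by
  set Q := e '' (Scpt ×ˢ Icc (-d3) d3) with hQ
  have hQc : IsClosed Q := (isCompact_Q he h32 h2).isClosed
  have hQM : Q ⊆ M.carrier := by
    rintro _ ⟨y, hy, rfl⟩
    exact he.mem y (box_50_subset h2 (Q_subset h32 hy))
  have hoff : ∀ x, x ∉ Q → pertN F e d2 A' x = F.N x := fun x hx =>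
    pertN_eq he hs h2 hrefl hagree hx
  have hbo : IsOpen (box (1 / 50) d2) := isOpen_box _ _
  let F' : Fol M :=
    { N := pertN F e d2 A'
      off := fun x hx => by rw [hoff x fun h => hx (hQM h)]; exact F.off x hx
      tang := fun x hx => by
        by_cases hxQ : x ∈ Q
        · obtain ⟨y, hy, rfl⟩ := hxQ
          exact (pertN_spec (F := F) he h2 hrefl (Q_subset h32 hy)).1
        · rw [hoff x hxQ]; exact F.tang x hx
      unit := fun x hx => by
        by_cases hxQ : x ∈ Q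
        · obtain ⟨y, hy, rfl⟩ := hxQ
          exact (pertN_spec (F := F) he h2 hrefl (Q_subset h32 hy)).2.1
        · rw [hoff x hxQ]; exact F.unit x hx
      c1 := by
        intro x hx
        apply ContDiffAt.contDiffWithinAt
        have hπ : ContDiffAt ℝ 1 M.π x :=
          ((M.smooth.contDiffAt (M.isOpen_V.mem_nhds hx)).of_le (by exact_mod_cast le_top))
        by_cases hxQ : M.π x ∈ Q
        · obtain ⟨y0, hy0, hy0x⟩ := hxQ
          obtain ⟨O, hO, hOV, hyO, h, hh, hOM, hhy, R, hR, hR'⟩ :=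
            pertN_local (F := F) he h2 hrefl (Q_subset h32 hy0)
          rw [hy0x] at hyO
          have hev : (fun x => pertN F e d2 A' (M.π x)) =ᶠ[𝓝 x]
              fun x => R (M.π x, A' (h (M.π x))) := by
            filter_upwards [M.isOpen_V.mem_nhds hx, hπ.continuousAt.preimage_mem_nhds
              (hO.mem_nhds hyO)] with x' hx' hx'O
            exact hR' _ hx'O (pi_mem hx')
          refine ContDiffAt.congr_of_eventuallyEq ?_ hev
          have hb := hOM _ hyO (pi_mem hx)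
          have h4 : ContDiffAt ℝ 1 (fun x => h (M.π x)) x :=
            ((hh.contDiffAt (hO.mem_nhds hyO)).of_le (by norm_num)).comp x hπ
          have h5 : ContDiffAt ℝ 1 (fun x => A' (h (M.π x))) x :=
            (hA'.contDiffAt (hbo.mem_nhds hb.1)).comp x h4
          have h6 : ContDiffAt ℝ 1 R (M.π x, A' (h (M.π x))) :=
            hR.contDiffAt ((hO.prod isOpen_univ).mem_nhds ⟨hyO, mem_univ _⟩)
          exact h6.comp x (hπ.prodMk h5)
        · have hev : (fun x => pertN F e d2 A' (M.π x)) =ᶠ[𝓝 x] fun x => F.N (M.π x) := by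
            filter_upwards [hπ.continuousAt.preimage_mem_nhds (hQc.isOpen_compl.mem_nhds hxQ)]
              with x' hx'
            exact hoff _ hx'
          exact (F.c1.contDiffAt (M.isOpen_V.mem_nhds hx)).congr_of_eventuallyEq hev
      integrable := by
        intro x hx
        by_cases hxQ : x ∈ Q
        · obtain ⟨y0, hy0, rfl⟩ := hxQ
          have hy0b := Q_subset h32 hy0
          obtain ⟨O, hO, hOV, hyO, h, hh, hOM, hhy, -⟩ :=
            pertN_local (F := F) he h2 hrefl hy0b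
          have hhy0 : h (e y0) = y0 := hhy.self_of_nhds.2
          have hhc : ContinuousAt h (e y0) :=
            (hh.contDiffAt (hO.mem_nhds hyO)).continuousAt
          refine ⟨fun x => c' (h x), ?_, ?_⟩
          · have h4 : ContDiffAt ℝ 1 c' (h (e y0)) := by
              rw [hhy0]
              exact hFI.c1.contDiffAt (hbo.mem_nhds hy0b)
            exact h4.comp _ ((hh.contDiffAt (hO.mem_nhds hyO)).of_le (by norm_num))
          · have hev2 : ∀ᶠ q in 𝓝 (e y0), ∀ᶠ y in 𝓝 (h q), e y ∈ O ∧ h (e y) = y := by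
              have : ∀ᶠ y in 𝓝 (h (e y0)), ∀ᶠ y' in 𝓝 y, e y' ∈ O ∧ h (e y') = y' := by
                rw [hhy0]
                exact hhy.eventually_nhds
              exact hhc.eventually this
            filter_upwards [mem_nhdsWithin_of_mem_nhds hev2,
              mem_nhdsWithin_of_mem_nhds (hO.mem_nhds hyO), self_mem_nhdsWithin] with q hq1 hq2 hq3
            obtain ⟨hb, heq⟩ := hOM q hq2 hq3
            have hsp := pertN_spec (F := F) he h2 hrefl hb
            have hb1 := box_50_subset h2 hb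
            have hde : DifferentiableAt ℝ e (h q) :=
              (he.smooth.contDiffAt ((isOpen_box _ _).mem_nhds hb1)).differentiableAt two_ne_zero
            have hmemev : ∀ᶠ y' in 𝓝 (h q), e y' ∈ M.carrier := by
              filter_upwards [(isOpen_box _ _).mem_nhds hb1] with y' hy'
              exact he.mem y' hy'
            rw [heq] at hsp
            obtain ⟨hn1, hn2, τ, hτ, hn3⟩ := hsp
            rw [heq] at hn1
            have hc1 : DifferentiableAt ℝ c' (h q) :=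
              (hFI.c1.contDiffAt (hbo.mem_nhds hb)).differentiableAt one_ne_zero
            have hh1 : DifferentiableAt ℝ h q :=
              (hh.contDiffAt (hO.mem_nhds hq2)).differentiableAt two_ne_zero
            have hu : DifferentiableAt ℝ (fun x => c' (h x)) (e (h q)) := by
              rw [heq]
              exact hc1.comp q hh1
            have hcomp : fderiv ℝ (fun y => c' (h (e y))) (h q) =
                (fderiv ℝ (fun x => c' (h x)) q).comp (fderiv ℝ e (h q)) := by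
              have := (hu.hasFDerivAt.comp (h q) hde.hasFDerivAt).fderiv
              rw [heq] at this
              exact this
            have hcc : fderiv ℝ (fun y => c' (h (e y))) (h q) = fderiv ℝ c' (h q) := by
              apply Filter.EventuallyEq.fderiv_eq
              filter_upwards [hq1] with y hy
              rw [hy.2]
            refine ⟨fderiv ℝ c' (h q) (0, 1) / τ, div_pos (hFI.pos _ hb) hτ, fun v => ?_⟩
            have htan : fderiv ℝ M.π (e (h q)) (fderiv ℝ M.π q v) = fderiv ℝ M.π q v := by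
              rw [heq]; exact pi_idem hq3 v
            obtain ⟨⟨ζ, s⟩, hv⟩ := exists_preimage hde hmemev (he.imm _ hb1) htan
            have hl : fderiv ℝ (fun x => c' (h x)) q (fderiv ℝ M.π q v) =
                (s - A' (h q) ζ) * fderiv ℝ c' (h q) (0, 1) := by
              rw [← hv]
              have h5 : fderiv ℝ c' (h q) (ζ, s) =
                  fderiv ℝ (fun x => c' (h x)) q (fderiv ℝ e (h q) (ζ, s)) := by
                rw [← hcc, hcomp]; rfl
              rw [← h5]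
              have h6 : ((ζ, s) : ℂ × ℝ) = (ζ, A' (h q) ζ) + (s - A' (h q) ζ) • (0, 1) := by
                ext <;> simp
              rw [h6, map_add, hFI.ker _ hb, map_smul, zero_add, smul_eq_mul]
            have hr : inner ℝ (pertN F e d2 A' q) v = τ * (s - A' (h q) ζ) := by
              rw [← hn3, hv]
              conv_lhs => rw [← hn1]
              exact M.symm q hq3 _ _
            rw [hl, hr]
            field_simp
        · obtain ⟨u, hu1, hu2⟩ := F.integrable x hx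
          refine ⟨u, hu1, ?_⟩
          filter_upwards [hu2, mem_nhdsWithin_of_mem_nhds (hQc.isOpen_compl.mem_nhds hxQ)]
            with q hq1 hq2
          rw [hoff q hq2]
          exact hq1 }
  refine ⟨F', ?_, hoff⟩
  apply isSlope_of_isNorm
  intro y hy
  exact pertN_spec (F := F) he h2 hrefl hy

end Pool.Agent.helper35.FOL
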