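import Pool.Agent.helper35.FOL.F01
import Pool.Agent.helper35.FOL.F07

/-!
# FOL-F05: the slope of the foliation in the fence

author: helper78

`A y ζ = - ⟨N (e y), D e y (ζ, 0)⟩ / ⟨N (e y), D e y (0, 1)⟩`.  `C¹`: `N ∘ e = (N ∘ π) ∘ e` near every point,
`D e` is `C¹`.  `A (z, 0) = 0`: `e (z, 0) = κ z` and `hκ.tangent`.  `refl`: `e (rho j z, x) = e (z, x)` on
`tabM (1/100) j` (`he.inj`), differentiate: `D e (rho j z, x) (-ζ, s) = D e (z, x) (ζ, s)`.
`integrable`: `u ∘ e` for the local first integral `u` of `F` at `e y` (`F.integrable`; the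
neighbourhood `𝓝[M.carrier]` is pulled back by the continuous map `e`), using
`D(u ∘ e)(y)(ζ, s) = Du (De (ζ, s)) = Du (Dπ (De (ζ,s))) = c ⟨N, De (ζ, s)⟩` (`tangent_of_map`).
-/

open Set Filter Topology
open scoped ContDiff commutatorElement

namespace Pool.Agent.helper35.FOL

variable {n : ℕ} {M : ClosedMfd n}

/-- the slope -/
noncomputable def F05_A (F : Fol M) (e : ℂ × ℝ → E n) (y : ℂ × ℝ) : ℂ →L[ℝ] ℝ :=
  (-(inner ℝ (F.N (e y)) (fderiv ℝ e y (0, 1)))⁻¹) •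
    ((innerSL ℝ (F.N (e y))).comp ((fderiv ℝ e y).comp (ContinuousLinearMap.inl ℝ ℂ ℝ)))

theorem F05_A_apply (F : Fol M) (e : ℂ × ℝ → E n) (y : ℂ × ℝ) (ζ : ℂ) :
    F05_A F e y ζ = -(inner ℝ (F.N (e y)) (fderiv ℝ e y (0, 1)))⁻¹ *
      inner ℝ (F.N (e y)) (fderiv ℝ e y (ζ, 0)) := by
  unfold F05_A
  simp

theorem F05_slope {F : Fol M} {e : ℂ × ℝ → E n} {y : ℂ × ℝ}
    (hpos : 0 < inner ℝ (F.N (e y)) (fderiv ℝ e y (0, 1))) (ζ : ℂ) (s : ℝ) :
    inner ℝ (F.N (e y)) (fderiv ℝ e y (ζ, s)) =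
      inner ℝ (F.N (e y)) (fderiv ℝ e y (0, 1)) * (s - F05_A F e y ζ) := by
  have h1 : ((ζ, s) : ℂ × ℝ) = (ζ, 0) + s • ((0 : ℂ), (1 : ℝ)) := by
    ext <;> simp
  rw [h1, map_add, map_smul, inner_add_right, inner_smul_right, F05_A_apply]
  have h2 := hpos.ne'
  field_simp
  ring

theorem F05_c1 {F : Fol M} {e : ℂ × ℝ → E n} {d : ℝ} (he : IsFence M e d)
    (hpos : ∀ y ∈ box (1 / 100) d, 0 < inner ℝ (F.N (e y)) (fderiv ℝ e y (0, 1))) :
    ContDiffOn ℝ 1 (F05_A F e) (box (1 / 100) d) := by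
  have hopen := isOpen_box (1 / 100) d
  have hN : ContDiffOn ℝ 1 (fun y => F.N (e y)) (box (1 / 100) d) := by
    have h1 : ContDiffOn ℝ 1 (fun y => F.N (M.π (e y))) (box (1 / 100) d) :=
      F.c1.comp (he.smooth.of_le (by norm_num)) fun y hy => M.subset_V (he.mem y hy)
    refine h1.congr fun y hy => ?_
    rw [M.fix _ (he.mem y hy)]
  have hD : ContDiffOn ℝ 1 (fderiv ℝ e) (box (1 / 100) d) :=
    he.smooth.fderiv_of_isOpen hopen (by norm_num)
  have hDv : ∀ v : ℂ × ℝ, ContDiffOn ℝ 1 (fun y => fderiv ℝ e y v) (box (1 / 100) d) :=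
    fun v => hD.clm_apply contDiffOn_const
  have hI : ∀ v : ℂ × ℝ, ContDiffOn ℝ 1 (fun y => inner ℝ (F.N (e y)) (fderiv ℝ e y v))
      (box (1 / 100) d) := fun v => hN.inner ℝ (hDv v)
  rw [contDiffOn_clm_apply]
  intro ζ
  have h1 : ContDiffOn ℝ 1 (fun y => -(inner ℝ (F.N (e y)) (fderiv ℝ e y (0, 1)))⁻¹ *
      inner ℝ (F.N (e y)) (fderiv ℝ e y (ζ, 0))) (box (1 / 100) d) :=
    (((hI (0, 1)).inv fun y hy => (hpos y hy).ne').neg).mul (hI (ζ, 0))
  exact h1.congr fun y _ => F05_A_apply F e y ζ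

theorem exists_slope {F : Fol M} {κ : ℂ → E n} (hκ : IsGenusTwoPiece F κ) {e : ℂ × ℝ → E n}
    {d : ℝ} (he : IsFence M e d) (h0 : ∀ z ∈ combM (1 / 100), e (z, 0) = κ z)
    (hpos : ∀ y ∈ box (1 / 100) d, 0 < inner ℝ (F.N (e y)) (fderiv ℝ e y (0, 1))) :
    ∃ A : ℂ × ℝ → ℂ →L[ℝ] ℝ, PlaneData d A ∧ IsSlope F e A (box (1 / 100) d) := by
  have hopen := isOpen_box (1 / 100) d
  have hdiff : ∀ y ∈ box (1 / 100) d, DifferentiableAt ℝ e y := fun y hy =>
    (he.smooth.contDiffAt (hopen.mem_nhds hy)).differentiableAt two_ne_zero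
  refine ⟨F05_A F e, ⟨he.pos, F05_c1 he hpos, ?_, ?_, ?_⟩,
    fun y hy => ⟨hpos y hy, fun ζ s => F05_slope (hpos y hy) ζ s⟩⟩
  · -- the zero section
    intro z hz
    have hy : (z, (0 : ℝ)) ∈ box (1 / 100) d := ⟨hz, by
      have := he.pos
      exact ⟨by linarith, this⟩⟩
    have hzc : z ∈ comb := combM_mono (h := 0) (h' := 1 / 100) (by norm_num) hz
    have h1 : ∀ ζ : ℂ, fderiv ℝ e (z, 0) (ζ, 0) = fderiv ℝ κ z ζ := by
      intro ζ
      have h2 : HasFDerivAt (fun w : ℂ => (w, (0 : ℝ))) (ContinuousLinearMap.inl ℝ ℂ ℝ) z :=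
        (hasFDerivAt_id z).prodMk (hasFDerivAt_const (0 : ℝ) z)
      have h3 : HasFDerivAt (fun w : ℂ => e (w, 0)) _ z :=
        HasFDerivAt.comp (f := fun w : ℂ => (w, (0 : ℝ))) z (hdiff _ hy).hasFDerivAt h2
      have h4 : (fun w : ℂ => e (w, 0)) =ᶠ[𝓝 z] κ := by
        filter_upwards [(isOpen_combM (1 / 100)).mem_nhds hz] with w hw
        exact h0 w hw
      rw [← h4.fderiv_eq, h3.fderiv]
      simp
    ext ζ
    rw [F05_A_apply, h1, h0 z hz, hκ.tangent z hzc ζ, mul_zero]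
    rfl
  · -- the gluing
    intro j hj z hz x hx
    ext ζ
    rw [ContinuousLinearMap.neg_apply, F05_A_apply, F05_A_apply, fence_rho he hj hz hx,
      fderiv_fence_rho he hj hz hx, fderiv_fence_rho he hj hz hx, neg_zero]
    have h1 : fderiv ℝ e (z, x) (-ζ, 0) = -fderiv ℝ e (z, x) (ζ, 0) := by
      rw [← map_neg]
      congr 1
      ext <;> simp
    rw [h1, inner_neg_right]
    ring
  · -- first integrals
    intro y hy
    obtain ⟨u, hu, hev⟩ := F.integrable (e y) (he.mem y hy)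
    have hey : ContDiffAt ℝ 2 e y := he.smooth.contDiffAt (hopen.mem_nhds hy)
    have hcont : ContinuousAt e y := hey.continuousAt
    refine ⟨fun y' => u (e y'), hu.comp y (hey.of_le (by norm_num)), ?_⟩
    have hbox : ∀ᶠ y' in 𝓝 y, y' ∈ box (1 / 100) d := hopen.mem_nhds hy
    have ht : Tendsto e (𝓝 y) (𝓝[M.carrier] (e y)) := by
      refine tendsto_nhdsWithin_iff.2 ⟨hcont, ?_⟩
      filter_upwards [hbox] with y' hy'
      exact he.mem y' hy'
    have hud : ∀ᶠ x in 𝓝 (e y), DifferentiableAt ℝ u x := by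
      filter_upwards [hu.eventually (by norm_num)] with x hx
      exact hx.differentiableAt one_ne_zero
    filter_upwards [hbox, ht.eventually hev, hcont.eventually hud] with y' hy' h1 h2
    obtain ⟨c, hc, h3⟩ := h1
    have hmem : ∀ᶠ y'' in 𝓝 y', e y'' ∈ M.carrier := by
      filter_upwards [hopen.mem_nhds hy'] with y'' hy''
      exact he.mem y'' hy''
    have h4 : ∀ w : ℂ × ℝ, fderiv ℝ (fun y' => u (e y')) y' w =
        c * inner ℝ (F.N (e y')) (fderiv ℝ e y' w) := by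
      intro w
      have h5 : HasFDerivAt (fun y' => u (e y')) _ y' :=
        h2.hasFDerivAt.comp y' (hdiff y' hy').hasFDerivAt
      rw [h5.fderiv, ContinuousLinearMap.comp_apply, ← h3,
        tangent_of_map (hdiff y' hy') hmem]
    refine ⟨?_, fun ζ => ?_⟩
    · rw [h4]
      exact mul_pos hc (hpos y' hy')
    · rw [h4, F05_slope (hpos y' hy'), sub_self, mul_zero, mul_zero]

end Pool.Agent.helper35.FOL
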