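import Pool.Agent.helper35.FOL.F03
import Pool.Agent.helper35.FOL.P01

/-!
# FOL-F06: the unit normal of a plane given by its slope

With the local inverse `h` (`exists_local_inverse`) put, for `x ∈ O` and `a : ℂ →L[ℝ] ℝ`,
`ℓ(x,a) v = (D h x (Dπ x v)).2 - a (D h x (Dπ x v)).1` (a continuous linear functional on `E n`),
`r (x, a) =` the vector representing it (`InnerProductSpace.toDual`), `R = r / ‖r‖`.  For `x = e y ∈ O ∩ M`
and `v = D e y (ζ, s)`: `ℓ v = s - a ζ` (`D h ∘ D e = id`, `tangent_of_map`).  `Dπ x r = r` by `M.symm` and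
`pi_idem`.  `r ≠ 0` (take `(ζ, s) = (0, 1)`).  Uniqueness: `w - R` … both are tangent, and tangent
vectors are `D e y (ζ, s)` (`exists_preimage`), so `w = τ' r` with `τ' > 0`, `‖w‖ = 1`.
-/

open Set Filter Topology
open scoped ContDiff commutatorElement

namespace Pool.Agent.helper35.FOL

variable {n : ℕ} {M : ClosedMfd n}

/-- The vector representing a linear functional. -/
noncomputable def F06vec (n : ℕ) (ℓ : E n →L[ℝ] ℝ) : E n :=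
  ∑ i, ℓ (EuclideanSpace.basisFun (Fin n) ℝ i) • EuclideanSpace.basisFun (Fin n) ℝ i

theorem F06_inner (ℓ : E n →L[ℝ] ℝ) (v : E n) : inner ℝ (F06vec n ℓ) v = ℓ v := by
  conv_rhs => rw [← (EuclideanSpace.basisFun (Fin n) ℝ).sum_repr' v]
  rw [F06vec, sum_inner, map_sum]
  refine Finset.sum_congr rfl fun i _ => ?_
  rw [real_inner_smul_left, map_smul, smul_eq_mul, mul_comm]

theorem F06_contDiff : ContDiff ℝ 1 (F06vec n) := by
  unfold F06vec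
  refine ContDiff.sum fun i _ => ?_
  exact (ContDiff.clm_apply contDiff_id contDiff_const).smul contDiff_const

theorem F06_le : (1 : WithTop ℕ∞) + 1 ≤ ∞ := by
  have h : ((2 : ℕ∞) : WithTop ℕ∞) ≤ ((⊤ : ℕ∞) : WithTop ℕ∞) := WithTop.coe_le_coe.2 le_top
  rw [one_add_one_eq_two]
  exact h

/-- The linear functional. -/
noncomputable def F06ell (M : ClosedMfd n) (h : E n → ℂ × ℝ) (p : E n × (ℂ →L[ℝ] ℝ)) :
    E n →L[ℝ] ℝ :=
  (ContinuousLinearMap.snd ℝ ℂ ℝ - p.2.comp (ContinuousLinearMap.fst ℝ ℂ ℝ)).comp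
    ((fderiv ℝ h (M.π p.1)).comp (fderiv ℝ M.π (M.π p.1)))

theorem F06_ell_apply (h : E n → ℂ × ℝ) (x : E n) (a : ℂ →L[ℝ] ℝ) (v : E n) :
    F06ell M h (x, a) v = (fderiv ℝ h (M.π x) (fderiv ℝ M.π (M.π x) v)).2 -
      a (fderiv ℝ h (M.π x) (fderiv ℝ M.π (M.π x) v)).1 := by
  simp [F06ell]

theorem F06_ell_contDiff {h : E n → ℂ × ℝ} {O O2 : Set (E n)} (hO2 : IsOpen O2)
    (hh : ContDiffOn ℝ 2 h O2) (hOV : O ⊆ M.V) (hO : ∀ x ∈ O, M.π x ∈ O2) :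
    ContDiffOn ℝ 1 (F06ell M h) (O ×ˢ univ) := by
  have hp : ContDiffOn ℝ 1 (fun p : E n × (ℂ →L[ℝ] ℝ) => M.π p.1) (O ×ˢ univ) := by
    have h1 : ContDiffOn ℝ 1 M.π M.V := M.smooth.of_le (by exact_mod_cast le_top)
    exact h1.comp contDiff_fst.contDiffOn fun p hp => hOV hp.1
  have h1 : ContDiffOn ℝ 1 (fderiv ℝ h) O2 := hh.fderiv_of_isOpen hO2 (by norm_num)
  have h2 : ContDiffOn ℝ 1 (fderiv ℝ M.π) M.V :=
    M.smooth.fderiv_of_isOpen M.isOpen_V F06_le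
  have h3 : ContDiffOn ℝ 1 (fun p : E n × (ℂ →L[ℝ] ℝ) => fderiv ℝ h (M.π p.1)) (O ×ˢ univ) :=
    h1.comp hp fun p hp => hO _ hp.1
  have h4 : ContDiffOn ℝ 1 (fun p : E n × (ℂ →L[ℝ] ℝ) => fderiv ℝ M.π (M.π p.1)) (O ×ˢ univ) :=
    h2.comp hp fun p hp => M.subset_V (pi_mem (hOV hp.1))
  have h5 : ContDiffOn ℝ 1 (fun p : E n × (ℂ →L[ℝ] ℝ) =>
      ContinuousLinearMap.snd ℝ ℂ ℝ - p.2.comp (ContinuousLinearMap.fst ℝ ℂ ℝ)) (O ×ˢ univ) := by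
    refine contDiffOn_const.sub ?_
    exact contDiff_snd.contDiffOn.clm_comp contDiffOn_const
  exact h5.clm_comp (h3.clm_comp h4)

theorem exists_normal {e : ℂ × ℝ → E n} {d : ℝ} (he : IsFence M e d) {y0 : ℂ × ℝ}
    (hy0 : y0 ∈ box (1 / 100) d) {W : Set (ℂ × ℝ)} (hW : W ∈ 𝓝 y0) :
    ∃ O : Set (E n), IsOpen O ∧ O ⊆ M.V ∧ e y0 ∈ O ∧ ∃ h : E n → ℂ × ℝ, ContDiffOn ℝ 2 h O ∧
      (∀ x ∈ O, x ∈ M.carrier → h x ∈ W ∧ h x ∈ box (1 / 100) d ∧ e (h x) = x) ∧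
      (∀ᶠ y in 𝓝 y0, e y ∈ O ∧ h (e y) = y) ∧
      ∃ R : E n × (ℂ →L[ℝ] ℝ) → E n, ContDiffOn ℝ 1 R (O ×ˢ univ) ∧
        ∀ x ∈ O, x ∈ M.carrier → ∀ a : ℂ →L[ℝ] ℝ,
          fderiv ℝ M.π x (R (x, a)) = R (x, a) ∧ ‖R (x, a)‖ = 1 ∧
          (∃ τ : ℝ, 0 < τ ∧ ∀ (ζ : ℂ) (s : ℝ),
            inner ℝ (R (x, a)) (fderiv ℝ e (h x) (ζ, s)) = τ * (s - a ζ)) ∧
          ∀ w : E n, fderiv ℝ M.π x w = w → ‖w‖ = 1 →
            (∃ τ : ℝ, 0 < τ ∧ ∀ (ζ : ℂ) (s : ℝ),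
              inner ℝ w (fderiv ℝ e (h x) (ζ, s)) = τ * (s - a ζ)) → w = R (x, a) := by
  have hbox : box (1 / 100) d ∈ 𝓝 y0 := (isOpen_box (1 / 100) d).mem_nhds hy0
  have hmem : ∀ᶠ y in 𝓝 y0, e y ∈ M.carrier := eventually_of_mem hbox fun y hy => he.mem y hy
  obtain ⟨O1, hO1, hy1, h, hh, hOM, hev⟩ := exists_local_inverse (he.smooth.contDiffAt hbox) hmem
    (he.imm y0 hy0) (inter_mem hW hbox)
  -- an open set on which `h ∘ e = id`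
  obtain ⟨W2, hW2s, hW2o, hy2⟩ := mem_nhds_iff.1 (inter_mem hev (inter_mem hW hbox))
  have hO2o : IsOpen (O1 ∩ h ⁻¹' W2) := hh.continuousOn.isOpen_inter_preimage hO1 hW2o
  have hπc : ContinuousOn M.π M.V := M.smooth.continuousOn
  have hOo : IsOpen (M.V ∩ M.π ⁻¹' (O1 ∩ h ⁻¹' W2)) := hπc.isOpen_inter_preimage M.isOpen_V hO2o
  have hy0M := he.mem y0 hy0
  have hy00 := hev.self_of_nhds
  have hx2 : e y0 ∈ O1 ∩ h ⁻¹' W2 := by
    refine ⟨hy1, ?_⟩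
    rw [mem_preimage, hy00.2]
    exact hy2
  -- the derivative of `h` on the tangent vectors
  have key : ∀ x ∈ O1 ∩ h ⁻¹' W2, x ∈ M.carrier → ∀ w : ℂ × ℝ,
      fderiv ℝ h x (fderiv ℝ M.π x (fderiv ℝ e (h x) w)) = w := by
    intro x hx hxM w
    obtain ⟨⟨-, hb⟩, hex⟩ := hOM x hx.1 hxM
    have hbn : box (1 / 100) d ∈ 𝓝 (h x) := (isOpen_box (1 / 100) d).mem_nhds hb
    have hed : DifferentiableAt ℝ e (h x) := (he.smooth.contDiffAt hbn).differentiableAt (by norm_num)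
    have h1 := tangent_of_map (M := M) hed (eventually_of_mem hbn fun y hy => he.mem y hy) w
    rw [hex] at h1
    rw [h1]
    have hhd : DifferentiableAt ℝ h x :=
      (hh.contDiffAt (hO1.mem_nhds hx.1)).differentiableAt (by norm_num)
    have hhd' : DifferentiableAt ℝ h (e (h x)) := by rw [hex]; exact hhd
    have h2 : (h ∘ e) =ᶠ[𝓝 (h x)] id := by
      filter_upwards [hW2o.mem_nhds hx.2] with y hy
      exact (hW2s hy).1.2
    have h3 := h2.fderiv_eq (𝕜 := ℝ)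
    rw [fderiv_comp (h x) hhd' hed, fderiv_id, hex] at h3
    have := DFunLike.congr_fun h3 w
    simpa using this
  have hOM' : ∀ x ∈ (M.V ∩ M.π ⁻¹' (O1 ∩ h ⁻¹' W2)) ∩ (O1 ∩ h ⁻¹' W2), x ∈ M.carrier →
      h x ∈ W ∧ h x ∈ box (1 / 100) d ∧ e (h x) = x := by
    intro x hx hxM
    obtain ⟨⟨h1, h2⟩, h3⟩ := hOM x hx.2.1 hxM
    exact ⟨h1, h2, h3⟩
  -- the functional on `M`
  have hell : ∀ x ∈ (M.V ∩ M.π ⁻¹' (O1 ∩ h ⁻¹' W2)), ∀ (a : ℂ →L[ℝ] ℝ) (ζ : ℂ) (s : ℝ),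
      F06ell M h (x, a) (fderiv ℝ e (h (M.π x)) (ζ, s)) = s - a ζ := by
    intro x hx a ζ s
    rw [F06_ell_apply, key _ hx.2 (pi_mem hx.1)]
  have hne : ∀ x ∈ (M.V ∩ M.π ⁻¹' (O1 ∩ h ⁻¹' W2)), ∀ a : ℂ →L[ℝ] ℝ,
      F06vec n (F06ell M h (x, a)) ≠ 0 := by
    intro x hx a h0
    have h1 := hell x hx a 0 1
    rw [← F06_inner, h0, inner_zero_left, map_zero] at h1
    norm_num at h1
  refine ⟨(M.V ∩ M.π ⁻¹' (O1 ∩ h ⁻¹' W2)) ∩ (O1 ∩ h ⁻¹' W2), hOo.inter hO2o, fun x hx => hx.1.1,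
    ⟨⟨M.subset_V hy0M, ?_⟩, hx2⟩, h, hh.mono fun x hx => hx.2.1, hOM', ?_,
    fun p => ‖F06vec n (F06ell M h p)‖⁻¹ • F06vec n (F06ell M h p), ?_, ?_⟩
  · rw [mem_preimage, M.fix _ hy0M]
    exact hx2
  · filter_upwards [hev, hbox, hW2o.mem_nhds hy2] with y hy hyb hyW
    have hyM := he.mem y hyb
    have h1 : e y ∈ O1 ∩ h ⁻¹' W2 := ⟨hy.1, by rw [mem_preimage, hy.2]; exact hyW⟩
    refine ⟨⟨⟨M.subset_V hyM, ?_⟩, h1⟩, hy.2⟩
    rw [mem_preimage, M.fix _ hyM]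
    exact h1
  · have h1 : ContDiffOn ℝ 1 (F06ell M h)
        (((M.V ∩ M.π ⁻¹' (O1 ∩ h ⁻¹' W2)) ∩ (O1 ∩ h ⁻¹' W2)) ×ˢ univ) :=
      F06_ell_contDiff hO1 hh (fun x hx => hx.1.1) fun x hx => hx.1.2.1
    have h2 : ContDiffOn ℝ 1 (fun p => F06vec n (F06ell M h p))
        (((M.V ∩ M.π ⁻¹' (O1 ∩ h ⁻¹' W2)) ∩ (O1 ∩ h ⁻¹' W2)) ×ˢ univ) :=
      F06_contDiff.comp_contDiffOn h1
    have h3 : ∀ p ∈ (((M.V ∩ M.π ⁻¹' (O1 ∩ h ⁻¹' W2)) ∩ (O1 ∩ h ⁻¹' W2)) ×ˢ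
        (univ : Set (ℂ →L[ℝ] ℝ))), F06vec n (F06ell M h p) ≠ 0 :=
      fun p hp => hne p.1 hp.1.1 p.2
    exact ((h2.norm ℝ h3).inv fun p hp => norm_ne_zero_iff.2 (h3 p hp)).smul h2
  · intro x hx hxM a
    have hπx : M.π x = x := M.fix x hxM
    obtain ⟨-, hb, hex⟩ := hOM' x hx hxM
    have hr := hne x hx.1 a
    have hl := hell x hx.1 a
    rw [hπx] at hl
    set r := F06vec n (F06ell M h (x, a)) with hrdef
    have hrn : 0 < ‖r‖ := norm_pos_iff.2 hr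
    have hrv : ∀ v, inner ℝ r v = F06ell M h (x, a) v := fun v => F06_inner _ v
    have hproj : fderiv ℝ M.π x r = r := by
      refine ext_inner_right ℝ fun v => ?_
      rw [M.symm x hxM, hrv, hrv, F06_ell_apply, F06_ell_apply, hπx, pi_idem hxM]
    have hin : ∀ (ζ : ℂ) (s : ℝ), inner ℝ r (fderiv ℝ e (h x) (ζ, s)) = s - a ζ := by
      intro ζ s
      rw [hrv, hl]
    refine ⟨?_, ?_, ⟨‖r‖⁻¹, inv_pos.2 hrn, fun ζ s => ?_⟩, ?_⟩
    · dsimp only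
      rw [map_smul, hproj]
    · dsimp only
      rw [norm_smul, norm_inv, norm_norm, inv_mul_cancel₀ hrn.ne']
    · dsimp only
      rw [real_inner_smul_left, hin]
    · rintro w hw hwn ⟨τ, hτ, hwt⟩
      dsimp only
      have hbn : box (1 / 100) d ∈ 𝓝 (h x) := (isOpen_box (1 / 100) d).mem_nhds hb
      have hed : DifferentiableAt ℝ e (h x) :=
        (he.smooth.contDiffAt hbn).differentiableAt (by norm_num)
      have h1 : fderiv ℝ M.π (e (h x)) (w - τ • r) = w - τ • r := by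
        rw [hex, map_sub, map_smul, hw, hproj]
      obtain ⟨⟨ζ, s⟩, h2⟩ := exists_preimage (M := M) hed
        (eventually_of_mem hbn fun y hy => he.mem y hy) (he.imm _ hb) h1
      have h3 : inner ℝ (w - τ • r) (w - τ • r) = 0 := by
        have h30 : inner ℝ (w - τ • r) (fderiv ℝ e (h x) (ζ, s)) = 0 := by
          rw [inner_sub_left, real_inner_smul_left, hin, hwt, sub_self]
        rwa [h2] at h30
      have h4 : w = τ • r := by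
        rw [inner_self_eq_zero] at h3
        exact sub_eq_zero.1 h3
      have h5 : τ * ‖r‖ = 1 := by
        rw [← hwn, h4, norm_smul, Real.norm_of_nonneg hτ.le]
      have h6 : τ = ‖r‖⁻¹ := by
        field_simp
        exact h5
      rw [h4, h6]

end Pool.Agent.helper35.FOL
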