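import Pool.Agent.helper35.FOL.PDefs

/-!
(proofs: helper51)
# FOL-P12: calculus of `C¹` convergence `C1T`

`comp`: values: `‖f m (h m x) - f (h x)‖ ≤ ‖f m (h m x) - f (h m x)‖ + ‖f (h m x) - f (h x)‖`, uniform
convergence on `K'` and uniform continuity of `f` on the compact set `K'` (`h m x ∈ K'` for large
`m`, because `h '' K` is a compact subset of the open set `U' ⊆ K'`).  Derivatives: chain rule
`fderiv (f m ∘ h m) x = (fderiv (f m) (h m x)).comp (fderiv (h m) x)`, same argument, plus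
boundedness of `fderiv f` on `K'` and of `fderiv h` on `K`.
-/

open Set Filter Topology
open scoped ContDiff commutatorElement

namespace Pool.Agent.helper35.FOL

variable {X Y Z : Type*} [NormedAddCommGroup X] [NormedSpace ℝ X] [NormedAddCommGroup Y]
  [NormedSpace ℝ Y] [NormedAddCommGroup Z] [NormedSpace ℝ Z]

theorem P12_iff {f : ℕ → X → Y} {g : X → Y} {K : Set X} : C1T f g K ↔
    ∀ ε : ℝ, 0 < ε → ∀ᶠ m in atTop, ∀ x ∈ K,
      ‖f m x - g x‖ < ε ∧ ‖fderiv ℝ (f m) x - fderiv ℝ g x‖ < ε := by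
  unfold C1T
  rw [Metric.tendstoUniformlyOn_iff, Metric.tendstoUniformlyOn_iff]
  constructor
  · rintro ⟨h1, h2⟩ ε hε
    filter_upwards [h1 ε hε, h2 ε hε] with m hm1 hm2 x hx
    have e1 := hm1 x hx
    have e2 := hm2 x hx
    rw [dist_comm, dist_eq_norm] at e1 e2
    exact ⟨e1, e2⟩
  · intro h
    constructor
    · intro ε hε
      filter_upwards [h ε hε] with m hm x hx
      rw [dist_comm, dist_eq_norm]
      exact (hm x hx).1
    · intro ε hε
      filter_upwards [h ε hε] with m hm x hx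
      rw [dist_comm, dist_eq_norm]
      exact (hm x hx).2

theorem P12_add {f : ℕ → X → Y} {g : X → Y} {f' : ℕ → X → Y} {g' : X → Y} {K : Set X}
    (h : C1T f g K) (h' : C1T f' g' K) (hf : ∀ m, ∀ x ∈ K, DifferentiableAt ℝ (f m) x)
    (hg : ∀ x ∈ K, DifferentiableAt ℝ g x) (hf' : ∀ m, ∀ x ∈ K, DifferentiableAt ℝ (f' m) x)
    (hg' : ∀ x ∈ K, DifferentiableAt ℝ g' x) :
    C1T (fun m x => f m x + f' m x) (fun x => g x + g' x) K := by
  rw [P12_iff] at h h' ⊢
  intro ε hε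
  filter_upwards [h (ε / 2) (half_pos hε), h' (ε / 2) (half_pos hε)] with m hm hm' x hx
  obtain ⟨a1, a2⟩ := hm x hx
  obtain ⟨b1, b2⟩ := hm' x hx
  constructor
  · have e : f m x + f' m x - (g x + g' x) = (f m x - g x) + (f' m x - g' x) := by abel
    rw [e]
    refine lt_of_le_of_lt (norm_add_le _ _) ?_
    linarith
  · have e1 : fderiv ℝ (fun x => f m x + f' m x) x = fderiv ℝ (f m) x + fderiv ℝ (f' m) x :=
      fderiv_add (hf m x hx) (hf' m x hx)
    have e2 : fderiv ℝ (fun x => g x + g' x) x = fderiv ℝ g x + fderiv ℝ g' x :=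
      fderiv_add (hg x hx) (hg' x hx)
    have e : fderiv ℝ (f m) x + fderiv ℝ (f' m) x - (fderiv ℝ g x + fderiv ℝ g' x) =
        (fderiv ℝ (f m) x - fderiv ℝ g x) + (fderiv ℝ (f' m) x - fderiv ℝ g' x) := by abel
    rw [e1, e2, e]
    refine lt_of_le_of_lt (norm_add_le _ _) ?_
    linarith

theorem C1T.const (f : X → Y) (K : Set X) : C1T (fun _ => f) f K := by
  exact ⟨fun u hu => Eventually.of_forall fun _ x _ => refl_mem_uniformity hu,
    fun u hu => Eventually.of_forall fun _ x _ => refl_mem_uniformity hu⟩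

theorem C1T.mono {f : ℕ → X → Y} {g : X → Y} {K K' : Set X} (h : C1T f g K) (hK : K' ⊆ K) :
    C1T f g K' := by
  exact ⟨h.1.mono hK, h.2.mono hK⟩

/-- Equality near `K` may be used to replace the maps. -/
theorem C1T.congr {f f' : ℕ → X → Y} {g g' : X → Y} {U K : Set X} (hU : IsOpen U) (hK : K ⊆ U)
    (h : C1T f g K) (hf : ∀ m, ∀ x ∈ U, f m x = f' m x) (hg : ∀ x ∈ U, g x = g' x) :
    C1T f' g' K := by
  have e1 : ∀ m, ∀ x ∈ K, fderiv ℝ (f m) x = fderiv ℝ (f' m) x := by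
    intro m x hx
    refine Filter.EventuallyEq.fderiv_eq ?_
    filter_upwards [hU.mem_nhds (hK hx)] with y hy
    exact hf m y hy
  have e2 : ∀ x ∈ K, fderiv ℝ g x = fderiv ℝ g' x := by
    intro x hx
    refine Filter.EventuallyEq.fderiv_eq ?_
    filter_upwards [hU.mem_nhds (hK hx)] with y hy
    exact hg y hy
  rw [P12_iff] at h ⊢
  intro ε hε
  filter_upwards [h ε hε] with m hm x hx
  rw [← e1 m x hx, ← e2 x hx, ← hf m x (hK hx), ← hg x (hK hx)]
  exact hm x hx

theorem C1T.prodMk {f : ℕ → X → Y} {g : X → Y} {f' : ℕ → X → Z} {g' : X → Z} {K : Set X}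
    (h : C1T f g K) (h' : C1T f' g' K) (hf : ∀ m, ∀ x ∈ K, DifferentiableAt ℝ (f m) x)
    (hg : ∀ x ∈ K, DifferentiableAt ℝ g x) (hf' : ∀ m, ∀ x ∈ K, DifferentiableAt ℝ (f' m) x)
    (hg' : ∀ x ∈ K, DifferentiableAt ℝ g' x) :
    C1T (fun m x => (f m x, f' m x)) (fun x => (g x, g' x)) K := by
  rw [P12_iff] at h h' ⊢
  intro ε hε
  filter_upwards [h ε hε, h' ε hε] with m hm hm' x hx
  obtain ⟨a1, a2⟩ := hm x hx
  obtain ⟨b1, b2⟩ := hm' x hx
  constructor
  · have e : (f m x, f' m x) - (g x, g' x) = (f m x - g x, f' m x - g' x) := rfl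
    rw [e, Prod.norm_def]
    exact max_lt a1 b1
  · have e1 : fderiv ℝ (fun x => (f m x, f' m x)) x =
        (fderiv ℝ (f m) x).prod (fderiv ℝ (f' m) x) :=
      ((hf m x hx).hasFDerivAt.prodMk (hf' m x hx).hasFDerivAt).fderiv
    have e2 : fderiv ℝ (fun x => (g x, g' x)) x = (fderiv ℝ g x).prod (fderiv ℝ g' x) :=
      ((hg x hx).hasFDerivAt.prodMk (hg' x hx).hasFDerivAt).fderiv
    have e : (fderiv ℝ (f m) x).prod (fderiv ℝ (f' m) x) - (fderiv ℝ g x).prod (fderiv ℝ g' x) =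
        (fderiv ℝ (f m) x - fderiv ℝ g x).prod (fderiv ℝ (f' m) x - fderiv ℝ g' x) := by
      ext v <;> simp
    rw [e1, e2, e, ContinuousLinearMap.opNorm_prod, Prod.norm_def]
    exact max_lt a2 b2

theorem C1T.comp {f : ℕ → Y → Z} {g : Y → Z} {h : ℕ → X → Y} {k : X → Y} {K : Set X}
    {U' K' : Set Y} {U : Set X} (hU : IsOpen U) (hKU : K ⊆ U) (hU' : IsOpen U') (hUK : U' ⊆ K')
    (hK : IsCompact K) (hK' : IsCompact K') (hm : ∀ x ∈ K, k x ∈ U')
    (hf : ∀ m, ∀ y ∈ U', DifferentiableAt ℝ (f m) y)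
    (hh : ∀ m, ∀ x ∈ K, DifferentiableAt ℝ (h m) x)
    (hg : ∀ y ∈ K', ContDiffAt ℝ 1 g y) (hk : ∀ x ∈ U, ContDiffAt ℝ 1 k x)
    (h1 : C1T f g K') (h2 : C1T h k K) :
    C1T (fun m x => f m (h m x)) (fun x => g (k x)) K := by
  have hkc : ContinuousOn k K := fun x hx => (hk x (hKU hx)).continuousAt.continuousWithinAt
  have himg : IsCompact (k '' K) := hK.image_of_continuousOn hkc
  have hsub : k '' K ⊆ U' := by
    rintro _ ⟨x, hx, rfl⟩
    exact hm x hx
  obtain ⟨δ, hδ, hthick⟩ := himg.exists_thickening_subset_open hU' hsub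
  have hgc : ContinuousOn g K' := fun y hy => (hg y hy).continuousAt.continuousWithinAt
  have hgd : ContinuousOn (fderiv ℝ g) K' := fun y hy =>
    ((hg y hy).fderiv_right (m := 0) (by norm_num)).continuousAt.continuousWithinAt
  have hkd : ContinuousOn (fderiv ℝ k) K := fun x hx =>
    ((hk x (hKU hx)).fderiv_right (m := 0) (by norm_num)).continuousAt.continuousWithinAt
  obtain ⟨Mc, hMc⟩ := hK.exists_bound_of_continuousOn hkd
  obtain ⟨Mb, hMb⟩ := hK'.exists_bound_of_continuousOn hgd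
  have hu1 := hK'.uniformContinuousOn_of_continuous hgc
  have hu2 := hK'.uniformContinuousOn_of_continuous hgd
  rw [Metric.uniformContinuousOn_iff] at hu1 hu2
  rw [P12_iff] at h1 h2 ⊢
  intro ε hε
  set η : ℝ := min (ε / 2) (ε / (4 * (|Mc| + 1))) with hη
  have hη0 : 0 < η := lt_min (by positivity) (by positivity)
  have hη1 : η ≤ ε / 2 := min_le_left _ _
  have hη2 : η * (|Mc| + 1) ≤ ε / 4 := by
    have h3 : η ≤ ε / (4 * (|Mc| + 1)) := min_le_right _ _
    have h4 : (0 : ℝ) < |Mc| + 1 := by positivity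
    calc η * (|Mc| + 1) ≤ ε / (4 * (|Mc| + 1)) * (|Mc| + 1) :=
          mul_le_mul_of_nonneg_right h3 h4.le
      _ = ε / 4 := by field_simp
  set θ : ℝ := min 1 (ε / (4 * (|Mb| + 1))) with hθ
  have hθ0 : 0 < θ := lt_min one_pos (by positivity)
  have hθ1 : θ ≤ 1 := min_le_left _ _
  have hθ2 : (|Mb| + 1) * θ ≤ ε / 4 := by
    have h3 : θ ≤ ε / (4 * (|Mb| + 1)) := min_le_right _ _
    have h4 : (0 : ℝ) < |Mb| + 1 := by positivity
    calc (|Mb| + 1) * θ ≤ (|Mb| + 1) * (ε / (4 * (|Mb| + 1))) :=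
          mul_le_mul_of_nonneg_left h3 h4.le
      _ = ε / 4 := by field_simp
  obtain ⟨δ₁, hδ₁, hun1⟩ := hu1 η hη0
  obtain ⟨δ₂, hδ₂, hun2⟩ := hu2 η hη0
  filter_upwards [h1 η hη0, h2 (min δ (min δ₁ (min δ₂ θ)))
    (lt_min hδ (lt_min hδ₁ (lt_min hδ₂ hθ0)))] with m hm1 hm2 x hx
  obtain ⟨a1, a2⟩ := hm2 x hx
  have b1 : ‖h m x - k x‖ < δ := lt_of_lt_of_le a1 (min_le_left _ _)
  have b2 : ‖h m x - k x‖ < δ₁ :=
    lt_of_lt_of_le a1 ((min_le_right _ _).trans (min_le_left _ _))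
  have b3 : ‖h m x - k x‖ < δ₂ := lt_of_lt_of_le a1
    ((min_le_right _ _).trans ((min_le_right _ _).trans (min_le_left _ _)))
  have b4 : ‖fderiv ℝ (h m) x - fderiv ℝ k x‖ < θ := lt_of_lt_of_le a2
    ((min_le_right _ _).trans ((min_le_right _ _).trans (min_le_right _ _)))
  have hmem : h m x ∈ U' := by
    refine hthick ?_
    rw [Metric.mem_thickening_iff]
    exact ⟨k x, ⟨x, hx, rfl⟩, by rw [dist_eq_norm]; exact b1⟩
  have hmem' : h m x ∈ K' := hUK hmem
  have hkm : k x ∈ K' := hUK (hm x hx)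
  obtain ⟨c1, c2⟩ := hm1 _ hmem'
  have d1 : ‖g (h m x) - g (k x)‖ < η := by
    have := hun1 _ hmem' _ hkm (by rw [dist_eq_norm]; exact b2)
    rwa [dist_eq_norm] at this
  have d2 : ‖fderiv ℝ g (h m x) - fderiv ℝ g (k x)‖ < η := by
    have := hun2 _ hmem' _ hkm (by rw [dist_eq_norm]; exact b3)
    rwa [dist_eq_norm] at this
  constructor
  · have e : f m (h m x) - g (k x) = (f m (h m x) - g (h m x)) + (g (h m x) - g (k x)) := by abel
    rw [e]
    refine lt_of_le_of_lt (norm_add_le _ _) ?_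
    linarith
  · have e1 : fderiv ℝ (fun x => f m (h m x)) x =
        (fderiv ℝ (f m) (h m x)).comp (fderiv ℝ (h m) x) :=
      fderiv_comp x (hf m _ hmem) (hh m x hx)
    have e2 : fderiv ℝ (fun x => g (k x)) x = (fderiv ℝ g (k x)).comp (fderiv ℝ k x) :=
      fderiv_comp x ((hg _ hkm).differentiableAt one_ne_zero)
        ((hk x (hKU hx)).differentiableAt one_ne_zero)
    rw [e1, e2]
    have hC : ‖fderiv ℝ (h m) x‖ ≤ |Mc| + 1 := by
      have e3 : fderiv ℝ (h m) x = (fderiv ℝ (h m) x - fderiv ℝ k x) + fderiv ℝ k x := by abel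
      rw [e3]
      refine (norm_add_le _ _).trans ?_
      have h5 := hMc x hx
      have h6 := le_abs_self Mc
      linarith
    have hB : ‖fderiv ℝ g (k x)‖ ≤ |Mb| + 1 := by
      have h5 := hMb _ hkm
      have h6 := le_abs_self Mb
      linarith
    generalize fderiv ℝ (f m) (h m x) = A' at *
    generalize fderiv ℝ g (h m x) = B' at *
    generalize fderiv ℝ g (k x) = B at *
    generalize fderiv ℝ (h m) x = C' at *
    generalize fderiv ℝ k x = C at *
    have e : A'.comp C' - B.comp C = ((A' - B').comp C' + (B' - B).comp C') +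
        B.comp (C' - C) := by
      ext v
      simp
    rw [e]
    have n1 : ‖(A' - B').comp C'‖ ≤ η * (|Mc| + 1) :=
      (ContinuousLinearMap.opNorm_comp_le _ _).trans
        (mul_le_mul c2.le hC (norm_nonneg _) hη0.le)
    have n2 : ‖(B' - B).comp C'‖ ≤ η * (|Mc| + 1) :=
      (ContinuousLinearMap.opNorm_comp_le _ _).trans
        (mul_le_mul d2.le hC (norm_nonneg _) hη0.le)
    have n3 : ‖B.comp (C' - C)‖ ≤ (|Mb| + 1) * θ :=
      (ContinuousLinearMap.opNorm_comp_le _ _).trans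
        (mul_le_mul hB b4.le (norm_nonneg _) (by positivity))
    have n4 := norm_add_le ((A' - B').comp C' + (B' - B).comp C') (B.comp (C' - C))
    have n5 := norm_add_le ((A' - B').comp C') ((B' - B).comp C')
    linarith

theorem C1T.sum {ι : Type*} (s : Finset ι) {f : ι → ℕ → X → Y} {g : ι → X → Y} {K : Set X}
    (h : ∀ i ∈ s, C1T (f i) (g i) K) (hf : ∀ i ∈ s, ∀ m, ∀ x ∈ K, DifferentiableAt ℝ (f i m) x)
    (hg : ∀ i ∈ s, ∀ x ∈ K, DifferentiableAt ℝ (g i) x) :
    C1T (fun m x => ∑ i ∈ s, f i m x) (fun x => ∑ i ∈ s, g i x) K := by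
  classical
  have key : ∀ t : Finset ι, t ⊆ s → C1T (fun m x => ∑ i ∈ t, f i m x) (fun x => ∑ i ∈ t, g i x) K ∧
      (∀ m, ∀ x ∈ K, DifferentiableAt ℝ (fun x => ∑ i ∈ t, f i m x) x) ∧
      ∀ x ∈ K, DifferentiableAt ℝ (fun x => ∑ i ∈ t, g i x) x := by
    intro t
    induction t using Finset.induction_on with
    | empty =>
      intro _
      simp only [Finset.sum_empty]
      exact ⟨C1T.const _ _, fun _ _ _ => differentiableAt_const _,
        fun _ _ => differentiableAt_const _⟩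
    | insert a t ha ih =>
      intro hts
      obtain ⟨i1, i2, i3⟩ := ih ((Finset.subset_insert a t).trans hts)
      have has : a ∈ s := hts (Finset.mem_insert_self a t)
      simp only [Finset.sum_insert ha]
      refine ⟨P12_add (h a has) i1 (hf a has) (hg a has) i2 i3, ?_, ?_⟩
      · intro m x hx
        exact (hf a has m x hx).add (i2 m x hx)
      · intro x hx
        exact (hg a has x hx).add (i3 x hx)
  exact (key s (Finset.Subset.refl s)).1

end Pool.Agent.helper35.FOL
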