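import Pool.Agent.helper35.FOL.F07
import Pool.Agent.helper35.FOL.P12

/-!
# FOL-F08: the perturbed foliations converge

The topology of `Fol M` is induced by `jet`; `C(M, ·)` has the compact-open topology = uniform
convergence (`ContinuousMap.tendsto_iff_tendstoUniformly`).  Off the compact set
`Q = e '' (Scpt ×ˢ Icc (-d3) d3)` the fields agree, so do the derivatives (Q closed; at the points of
`Q` continuity is not needed, they are covered by the local formula).  Near `p0 = e y0 ∈ Q`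
(`exists_normal`, with `W ⊆ box (1/50) d2`): `F'_m.N (π x) = R (π x, A'_m (h (π x)))` and
`F.N (π x) = R (π x, A (h (π x)))` for `x` near `p0` (uniqueness clause).  For `x ∈ Q` near `p0` the value and the derivative at `x` only involve `A'_m` and
`D A'_m` at `y = h x`, and `y ∈ Scpt2 ×ˢ Icc (-d3) d3` if `W` is a small neighbourhood of `y0 ∈ Scpt ×ˢ Icc (-d3) d3`
(`y` is equal or glued to a point of `Scpt ×ˢ Icc (-d3) d3`; `glued_Scpt2`).  So (`D` of
`x ↦ R (π x, A'_m (h (π x)))` by the chain rule, `R` is `C¹`) uniform convergence on `Q ∩ (small compact ball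
around p0)` follows from `hconv` and uniform continuity of `R`, `D R` on compact sets; finite cover of `Q`.
-/

open Set Filter Topology
open scoped ContDiff commutatorElement

namespace Pool.Agent.helper35.FOL

variable {n : ℕ} {M : ClosedMfd n}

/-- composition with a fixed inner map -/
theorem C1T.comp_fixed {X Y Z : Type*} [NormedAddCommGroup X] [NormedSpace ℝ X]
    [NormedAddCommGroup Y] [NormedSpace ℝ Y] [NormedAddCommGroup Z] [NormedSpace ℝ Z]
    {f : ℕ → Y → Z} {g : Y → Z} {k : X → Y} {K : Set X} {K' : Set Y}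
    (h1 : C1T f g K') (hk : ∀ x ∈ K, DifferentiableAt ℝ k x)
    {C : ℝ} (hC : ∀ x ∈ K, ‖fderiv ℝ k x‖ ≤ C) (hm : ∀ x ∈ K, k x ∈ K')
    (hf : ∀ m, ∀ y ∈ K', DifferentiableAt ℝ (f m) y) (hg : ∀ y ∈ K', DifferentiableAt ℝ g y) :
    C1T (fun m x => f m (k x)) (fun x => g (k x)) K := by
  refine ⟨?_, ?_⟩
  · rw [Metric.tendstoUniformlyOn_iff]
    intro ε hε
    filter_upwards [(Metric.tendstoUniformlyOn_iff.1 h1.1) ε hε] with m hm' x hx
    exact hm' _ (hm x hx)
  · rw [Metric.tendstoUniformlyOn_iff]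
    intro ε hε
    have hC' : 0 < |C| + 1 := by positivity
    filter_upwards [(Metric.tendstoUniformlyOn_iff.1 h1.2) (ε / (|C| + 1)) (by positivity)]
      with m hm' x hx
    have h2 : fderiv ℝ (fun x => f m (k x)) x = (fderiv ℝ (f m) (k x)).comp (fderiv ℝ k x) :=
      ((hf m _ (hm x hx)).hasFDerivAt.comp x (hk x hx).hasFDerivAt).fderiv
    have h3 : fderiv ℝ (fun x => g (k x)) x = (fderiv ℝ g (k x)).comp (fderiv ℝ k x) :=
      ((hg _ (hm x hx)).hasFDerivAt.comp x (hk x hx).hasFDerivAt).fderiv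
    rw [h2, h3, dist_eq_norm, ← ContinuousLinearMap.sub_comp]
    have h4 := hm' _ (hm x hx)
    rw [dist_eq_norm] at h4
    calc ‖(fderiv ℝ g (k x) - fderiv ℝ (f m) (k x)).comp (fderiv ℝ k x)‖
        ≤ ‖fderiv ℝ g (k x) - fderiv ℝ (f m) (k x)‖ * ‖fderiv ℝ k x‖ :=
          ContinuousLinearMap.opNorm_comp_le _ _
      _ ≤ ‖fderiv ℝ g (k x) - fderiv ℝ (f m) (k x)‖ * (|C| + 1) := by
          gcongr
          exact (hC x hx).trans ((le_abs_self C).trans (by linarith))
      _ < ε / (|C| + 1) * (|C| + 1) := by gcongr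
      _ = ε := by field_simp

/-- the local formula -/
theorem local_formula {F : Fol M} {e : ℂ × ℝ → E n} {d2 : ℝ} {A : ℂ × ℝ → ℂ →L[ℝ] ℝ}
    (hs : IsSlope F e A (box (1 / 50) d2))
    {O : Set (E n)} {h : E n → ℂ × ℝ}
    (hOM : ∀ x ∈ O, x ∈ M.carrier → h x ∈ box (1 / 50) d2 ∧ e (h x) = x)
    {R : E n × (ℂ →L[ℝ] ℝ) → E n}
    (hR : ∀ x ∈ O, x ∈ M.carrier → ∀ a : ℂ →L[ℝ] ℝ,
          fderiv ℝ M.π x (R (x, a)) = R (x, a) ∧ ‖R (x, a)‖ = 1 ∧
          (∃ τ : ℝ, 0 < τ ∧ ∀ (ζ : ℂ) (s : ℝ),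
            inner ℝ (R (x, a)) (fderiv ℝ e (h x) (ζ, s)) = τ * (s - a ζ)) ∧
          ∀ w : E n, fderiv ℝ M.π x w = w → ‖w‖ = 1 →
            (∃ τ : ℝ, 0 < τ ∧ ∀ (ζ : ℂ) (s : ℝ),
              inner ℝ w (fderiv ℝ e (h x) (ζ, s)) = τ * (s - a ζ)) → w = R (x, a))
    {x : E n} (hx : x ∈ O) (hxM : x ∈ M.carrier) : R (x, A (h x)) = F.N x := by
  obtain ⟨h1, h2⟩ := hOM x hx hxM
  obtain ⟨h3, h4⟩ := hs (h x) h1
  rw [h2] at h3 h4
  exact ((hR x hx hxM (A (h x))).2.2.2 (F.N x) (F.tang x hxM) (F.unit x hxM) ⟨_, h3, h4⟩).symm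

theorem pert_tendsto {F : Fol M} {e : ℂ × ℝ → E n} {d d2 d3 : ℝ} {A : ℂ × ℝ → ℂ →L[ℝ] ℝ}
    {A' : ℕ → ℂ × ℝ → ℂ →L[ℝ] ℝ} {F' : ℕ → Fol M}
    (he : IsFence M e d) (hs : IsSlope F e A (box (1 / 100) d))
    (hA : ContDiffOn ℝ 1 A (box (1 / 100) d))
    (h3 : 0 < d3) (h32 : d3 < d2) (h2 : d2 ≤ d)
    (hA' : ∀ m, ContDiffOn ℝ 1 (A' m) (box (1 / 50) d2))
    (hagree : ∀ m, ∀ y ∈ box (1 / 50) d2, (y.1 ∉ Ssupp ∨ d3 < |y.2|) → A' m y = A y)
    (hs' : ∀ m, IsSlope (F' m) e (A' m) (box (1 / 50) d2))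
    (hoff : ∀ m, ∀ x, x ∉ e '' (Scpt ×ˢ Icc (-d3) d3) → (F' m).N x = F.N x)
    (hconv : C1T A' A (Scpt2 ×ˢ Icc (-d3) d3)) :
    Tendsto F' atTop (𝓝 F) := by
  have : CompactSpace M.carrier := isCompact_iff_compactSpace.1 M.compact
  set Q := e '' (Scpt ×ˢ Icc (-d3) d3) with hQ
  have hQk : IsCompact Q := isCompact_Q he h32 h2
  have hQc : IsClosed Q := hQk.isClosed
  have hbo : IsOpen (box (1 / 50) d2) := isOpen_box _ _
  have hbsub := box_50_subset h2
  have hs2 : IsSlope F e A (box (1 / 50) d2) := fun y hy => hs y (hbsub hy)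
  rw [(Topology.IsInducing.mk rfl : Topology.IsInducing (Fol.jet : Fol M → _)).tendsto_nhds_iff,
    ContinuousMap.tendsto_iff_tendstoUniformly,
    ← tendstoLocallyUniformly_iff_tendstoUniformly_of_compactSpace]
  rw [Metric.tendstoLocallyUniformly_iff]
  intro ε hε x
  -- equality of the jets off `Q`
  have hjet : ∀ m, ∀ y : M.carrier, (y : E n) ∉ Q → (F' m).jet y = F.jet y := by
    intro m y hy
    have hπ : ContinuousAt M.π y := (pi_contDiffAt y.2).continuousAt
    have hev : (fun x => (F' m).N (M.π x)) =ᶠ[𝓝 (y : E n)] fun x => F.N (M.π x) := by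
      have hy' : M.π y ∈ Qᶜ := by rw [M.fix y y.2]; exact hy
      filter_upwards [hπ.preimage_mem_nhds (hQc.isOpen_compl.mem_nhds hy')] with x' hx'
      exact hoff m _ hx'
    exact Prod.ext (hoff m y hy) hev.fderiv_eq
  by_cases hxQ : (x : E n) ∈ Q
  · obtain ⟨y0, hy0, hy0x⟩ := hxQ
    have hy0b := Q_subset h32 hy0
    have hW : box (1 / 50) d2 ∩ {y | y.1.im < 7 / 4} ∈ 𝓝 y0 := by
      refine inter_mem (hbo.mem_nhds hy0b) ?_
      have : IsOpen {y : ℂ × ℝ | y.1.im < 7 / 4} :=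
        isOpen_lt (Complex.continuous_im.comp continuous_fst) continuous_const
      refine this.mem_nhds ?_
      have h5 : y0.1.im ≤ 3 / 2 := hy0.1.2
      change y0.1.im < 7 / 4
      linarith
    obtain ⟨O, hO, hOV, hyO, h, hh, hOM, hhy, R, hR, hR'⟩ := exists_normal he (hbsub hy0b) hW
    rw [hy0x] at hyO
    have hOM' : ∀ x ∈ O, x ∈ M.carrier → h x ∈ box (1 / 50) d2 ∧ e (h x) = x :=
      fun x hx hxM => ⟨(hOM x hx hxM).1.1, (hOM x hx hxM).2.2⟩
    -- a compact neighbourhood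
    obtain ⟨K0, hK0n, hK0O, hK0⟩ := local_compact_nhds (hO.mem_nhds hyO)
    set K := Q ∩ K0 with hK
    have hKc : IsCompact K := hK0.inter_left hQc
    have hKM : ∀ x ∈ K, x ∈ M.carrier := by
      rintro _ ⟨⟨y, hy, rfl⟩, -⟩
      exact he.mem y (hbsub (Q_subset h32 hy))
    have hKO : K ⊆ O := fun x hx => hK0O hx.2
    have hKh : ∀ x ∈ K, h x ∈ Scpt2 ×ˢ Icc (-d3) d3 := by
      intro x hx
      have hxO := hKO hx
      have hxM := hKM x hx
      obtain ⟨⟨y1, hy1, hy1x⟩, -⟩ := hx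
      obtain ⟨h5, -⟩ := hOM x hxO hxM
      obtain ⟨h6, h7⟩ := hOM' x hxO hxM
      have h8 : e (h x) = e y1 := by rw [h7, hy1x]
      obtain ⟨h9, h10⟩ := (he.inj _ (hbsub h6) _ (hbsub (Q_subset h32 hy1))).1 h8
      refine ⟨glued_Scpt2 hy1.1 (le_of_lt h5.2) (glued_symm h10), ?_⟩
      rw [h9]; exact hy1.2
    -- the open set
    set U : Set (E n) := M.V ∩ M.π ⁻¹' O with hU
    have hUo : IsOpen U := M.smooth.continuousOn.isOpen_inter_preimage M.isOpen_V hO
    have hKU : K ⊆ U := fun x hx =>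
      ⟨M.subset_V (hKM x hx), by change M.π x ∈ O; rw [M.fix x (hKM x hx)]; exact hKO hx⟩
    have hπU : ∀ x ∈ U, ContDiffAt ℝ 1 M.π x := fun x hx =>
      (M.smooth.contDiffAt (M.isOpen_V.mem_nhds hx.1)).of_le (by exact_mod_cast le_top)
    have hhU : ∀ x ∈ U, ContDiffAt ℝ 1 (fun x => h (M.π x)) x := fun x hx =>
      ((hh.contDiffAt (hO.mem_nhds hx.2)).of_le (by norm_num)).comp x (hπU x hx)
    have hhb : ∀ x ∈ U, h (M.π x) ∈ box (1 / 50) d2 := fun x hx =>
      (hOM' _ hx.2 (pi_mem hx.1)).1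
    -- step 1
    have hc1 : ContinuousOn (fderiv ℝ fun x => h (M.π x)) K := by
      have : ContDiffOn ℝ 1 (fun x => h (M.π x)) U := fun x hx => (hhU x hx).contDiffWithinAt
      exact (this.continuousOn_fderiv_of_isOpen hUo le_rfl).mono hKU
    obtain ⟨C, hC⟩ := hKc.exists_bound_of_continuousOn hc1
    have hsub2 : Scpt2 ×ˢ Icc (-d3) d3 ⊆ box (1 / 50) d2 := by
      rintro y ⟨h1, h4, h5⟩
      exact ⟨Scpt2_subset h1, by linarith, by linarith⟩
    have step1 : C1T (fun m x => A' m (h (M.π x))) (fun x => A (h (M.π x))) K := by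
      refine C1T.comp_fixed hconv (fun x hx => (hhU x (hKU hx)).differentiableAt one_ne_zero)
        hC ?_ ?_ ?_
      · intro x hx
        rw [M.fix x (hKM x hx)]
        exact hKh x hx
      · intro m y hy
        exact ((hA' m).contDiffAt (hbo.mem_nhds (hsub2 hy))).differentiableAt one_ne_zero
      · intro y hy
        exact (hA.contDiffAt ((isOpen_box _ _).mem_nhds (hbsub (hsub2 hy)))).differentiableAt
          one_ne_zero
    have hAU : ∀ x ∈ U, ContDiffAt ℝ 1 (fun x => A (h (M.π x))) x := fun x hx =>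
      (hA.contDiffAt ((isOpen_box _ _).mem_nhds (hbsub (hhb x hx)))).comp x (hhU x hx)
    have hAU' : ∀ m, ∀ x ∈ U, ContDiffAt ℝ 1 (fun x => A' m (h (M.π x))) x := fun m x hx =>
      ((hA' m).contDiffAt (hbo.mem_nhds (hhb x hx))).comp x (hhU x hx)
    have step2 : C1T (fun m x => (M.π x, A' m (h (M.π x)))) (fun x => (M.π x, A (h (M.π x)))) K :=
      C1T.prodMk (C1T.const _ _) step1
        (fun m x hx => (hπU x (hKU hx)).differentiableAt one_ne_zero)
        (fun x hx => (hπU x (hKU hx)).differentiableAt one_ne_zero)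
        (fun m x hx => (hAU' m x (hKU hx)).differentiableAt one_ne_zero)
        (fun x hx => (hAU x (hKU hx)).differentiableAt one_ne_zero)
    -- step 3
    have hko : ContinuousOn (fun x => (M.π x, A (h (M.π x)))) K := fun x hx =>
      ((hπU x (hKU hx)).continuousAt.prodMk (hAU x (hKU hx)).continuousAt).continuousWithinAt
    have him : IsCompact ((fun x => (M.π x, A (h (M.π x)))) '' K) :=
      hKc.image_of_continuousOn hko
    have himO : ((fun x => (M.π x, A (h (M.π x)))) '' K) ⊆ O ×ˢ (univ : Set (ℂ →L[ℝ] ℝ)) := by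
      rintro _ ⟨x, hx, rfl⟩
      exact ⟨(hKU hx).2, mem_univ _⟩
    obtain ⟨L, hLc, hL1, hL2⟩ := exists_compact_between him (hO.prod isOpen_univ) himO
    have step3 : C1T (fun m x => R (M.π x, A' m (h (M.π x)))) (fun x => R (M.π x, A (h (M.π x)))) K := by
      refine C1T.comp (f := fun _ => R) (g := R) hUo hKU isOpen_interior interior_subset hKc hLc
        (fun x hx => hL1 (mem_image_of_mem _ hx)) ?_ ?_ ?_ ?_ (C1T.const _ _) step2
      · intro m y hy
        exact (hR.contDiffAt ((hO.prod isOpen_univ).mem_nhds (hL2 (interior_subset hy)))).differentiableAt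
          one_ne_zero
      · intro m x hx
        exact ((hπU x (hKU hx)).prodMk (hAU' m x (hKU hx))).differentiableAt one_ne_zero
      · intro y hy
        exact hR.contDiffAt ((hO.prod isOpen_univ).mem_nhds (hL2 hy))
      · intro x hx
        exact (hπU x hx).prodMk (hAU x hx)
    have step4 : C1T (fun m x => (F' m).N (M.π x)) (fun x => F.N (M.π x)) K := by
      refine C1T.congr hUo hKU step3 ?_ ?_
      · intro m x hx
        exact local_formula (hs' m) hOM' hR' hx.2 (pi_mem hx.1)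
      · intro x hx
        exact local_formula hs2 hOM' hR' hx.2 (pi_mem hx.1)
    refine ⟨(↑) ⁻¹' K0, continuous_subtype_val.continuousAt.preimage_mem_nhds hK0n, ?_⟩
    filter_upwards [(Metric.tendstoUniformlyOn_iff.1 step4.1) ε hε,
      (Metric.tendstoUniformlyOn_iff.1 step4.2) ε hε] with m hm1 hm2 y hy
    by_cases hyQ : (y : E n) ∈ Q
    · have hyK : (y : E n) ∈ K := ⟨hyQ, hy⟩
      have e1 := hm1 y hyK
      have e2 := hm2 y hyK
      rw [M.fix y y.2] at e1
      exact max_lt e1 e2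
    · rw [show ((Fol.jet ∘ F') m) y = F.jet y from hjet m y hyQ]
      simpa using hε
  · refine ⟨(↑) ⁻¹' Qᶜ, continuous_subtype_val.continuousAt.preimage_mem_nhds
      (hQc.isOpen_compl.mem_nhds hxQ), Eventually.of_forall fun m y hy => ?_⟩
    rw [show ((Fol.jet ∘ F') m) y = F.jet y from hjet m y hy]
    simpa using hε

end Pool.Agent.helper35.FOL
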