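import Pool.Agent.helper35.FOL.F01

/-!
# FOL-F09: a `C¹` curve tangent to the foliation is `k`-tangent for some `k`

`‖g t - g s‖ ≤ K |t - s|` (bounded derivative on `[0,1]`, mean value).  With `C` from `N_lipschitz`:
`⟨N (g s), g t - g s⟩ = ∫_s^t ⟨N (g s) - N (g r), g' r⟩ dr` is at most `C K² |t - s|²` (mean value
inequality for `r ↦ ⟨N (g s), g r⟩`: derivative `⟨N (g s) - N (g r), g' r⟩`).
-/

open Set Filter Topology
open scoped ContDiff commutatorElement

namespace Pool.Agent.helper35.FOL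

variable {n : ℕ} {M : ClosedMfd n}

theorem ktan_of_tangent (F : Fol M) {g : ℝ → E n} (hg : ContDiff ℝ 1 g)
    (hmem : ∀ t, g t ∈ M.carrier) (htan : ∀ t, inner ℝ (F.N (g t)) (deriv g t) = 0)
    (γ : C(unitInterval, E n)) (hγ : ∀ t : unitInterval, γ t = g t) : ∃ k : ℕ, KTan F k γ := by
  obtain ⟨K, hK⟩ := (isCompact_Icc (a := (0 : ℝ)) (b := 1)).exists_bound_of_continuousOn
    (hg.continuous_deriv le_rfl).continuousOn
  obtain ⟨C, hC0, hC⟩ := N_lipschitz F
  have hgd : ∀ t, DifferentiableAt ℝ g t := fun t => hg.differentiable (by norm_num) t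
  have hK0 : 0 ≤ K := (norm_nonneg _).trans (hK 0 (by constructor <;> norm_num))
  have hlip : ∀ s ∈ Icc (0 : ℝ) 1, ∀ t ∈ Icc (0 : ℝ) 1, ‖g t - g s‖ ≤ K * |t - s| := by
    intro s hs t ht
    have h := Convex.norm_image_sub_le_of_norm_deriv_le (f := g) (s := Icc (0 : ℝ) 1) (C := K)
      (fun x _ => hgd x) hK (convex_Icc 0 1) hs ht
    rwa [Real.norm_eq_abs] at h
  refine ⟨⌈max K (C * K * K)⌉₊, ?_⟩
  have hk := Nat.le_ceil (max K (C * K * K))
  have hk1 : K ≤ (⌈max K (C * K * K)⌉₊ : ℝ) := (le_max_left _ _).trans hk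
  have hk2 : C * K * K ≤ (⌈max K (C * K * K)⌉₊ : ℝ) := (le_max_right _ _).trans hk
  intro s
  refine ⟨by rw [hγ]; exact hmem _, fun t => ⟨?_, ?_⟩⟩
  · rw [hγ, hγ]
    exact (hlip s s.2 t t.2).trans (mul_le_mul_of_nonneg_right hk1 (abs_nonneg _))
  · rw [hγ, hγ]
    have hd : ∀ r, HasDerivAt (fun r => inner ℝ (F.N (g s)) (g r))
        (inner ℝ (F.N (g s)) (deriv g r)) r := by
      intro r
      have h := (hasDerivAt_const r (F.N (g s))).inner ℝ (hgd r).hasDerivAt
      simpa using h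
    have hb : ∀ r ∈ uIcc (s : ℝ) t,
        ‖deriv (fun r => inner ℝ (F.N (g s)) (g r)) r‖ ≤ C * K * K * |(t : ℝ) - s| := by
      intro r hr
      have hr01 : r ∈ Icc (0 : ℝ) 1 := uIcc_subset_Icc s.2 t.2 hr
      rw [(hd r).deriv]
      have h1 : inner ℝ (F.N (g s)) (deriv g r) =
          inner ℝ (F.N (g s) - F.N (g r)) (deriv g r) := by
        rw [inner_sub_left, htan r, sub_zero]
      rw [h1]
      have h2 : |r - s| ≤ |(t : ℝ) - s| := by
        have := abs_sub_left_of_mem_uIcc hr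
        exact this
      calc ‖inner ℝ (F.N (g s) - F.N (g r)) (deriv g r)‖
          ≤ ‖F.N (g s) - F.N (g r)‖ * ‖deriv g r‖ := norm_inner_le_norm _ _
        _ ≤ (C * (K * |(t : ℝ) - s|)) * K := by
            refine mul_le_mul ?_ (hK r hr01) (norm_nonneg _) (by positivity)
            refine (hC _ (hmem _) _ (hmem _)).trans (mul_le_mul_of_nonneg_left ?_ hC0)
            rw [norm_sub_rev]
            exact (hlip s s.2 r hr01).trans (mul_le_mul_of_nonneg_left h2 hK0)
        _ = C * K * K * |(t : ℝ) - s| := by ring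
    have h3 := Convex.norm_image_sub_le_of_norm_deriv_le
      (f := fun r => inner ℝ (F.N (g s)) (g r)) (s := uIcc (s : ℝ) t)
      (C := C * K * K * |(t : ℝ) - s|) (fun x _ => (hd x).differentiableAt) hb (convex_uIcc _ _)
      left_mem_uIcc right_mem_uIcc
    rw [Real.norm_eq_abs, Real.norm_eq_abs] at h3
    rw [inner_sub_right]
    calc |inner ℝ (F.N (g s)) (g t) - inner ℝ (F.N (g s)) (g s)|
        ≤ C * K * K * |(t : ℝ) - s| * |(t : ℝ) - s| := h3
      _ = C * K * K * |(t : ℝ) - s| ^ 2 := by ring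
      _ ≤ _ := mul_le_mul_of_nonneg_right hk2 (by positivity)

theorem KTan.mono {F : Fol M} {k k' : ℕ} {g : C(unitInterval, E n)} (h : KTan F k g)
    (hk : k ≤ k') : KTan F k' g := by
  have hk' : (k : ℝ) ≤ k' := by exact_mod_cast hk
  intro s
  obtain ⟨h1, h2⟩ := h s
  refine ⟨h1, fun t => ?_⟩
  obtain ⟨h3, h4⟩ := h2 t
  exact ⟨h3.trans (mul_le_mul_of_nonneg_right hk' (abs_nonneg _)),
    h4.trans (mul_le_mul_of_nonneg_right hk' (by positivity))⟩

end Pool.Agent.helper35.FOL
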