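import Pool.Agent.helper35.FOL.F03
import Pool.Agent.helper35.FOL.P02

/-!
# FOL-F10: points of `M` near the model curves have fence coordinates near the path `gam i`

Compactness of `[0,1]`: for every `t0` the map `e` is locally open at `(gam i t0, X (gam i t0))`
(`exists_local_inverse` with `W` = the ball of radius `ρ / 2`), and `t ↦ e (gam i t, X (gam i t))` is
continuous; Lebesgue number.
-/

open Set Filter Topology
open scoped ContDiff commutatorElement

namespace Pool.Agent.helper35.FOL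

variable {n : ℕ} {M : ClosedMfd n}

theorem exists_near {e : ℂ × ℝ → E n} {d d2 : ℝ} (he : IsFence M e d) (h2 : d2 ≤ d) {X : ℂ → ℝ}
    (hX : ContinuousOn X (combM (1 / 50))) (hXd : ∀ z ∈ combM (1 / 50), |X z| < d2)
    {ρ : ℝ} (hρ : 0 < ρ) :
    ∃ ε0 > 0, ∀ i < 8, ∀ t : unitInterval, ∀ q ∈ M.carrier,
      dist q (e (gam i t, X (gam i t))) < ε0 →
      ∃ z x, z ∈ combM (1 / 50) ∧ |x| < d2 ∧ ‖z - gam i t‖ < ρ ∧ |x - X (gam i t)| < ρ ∧
        e (z, x) = q := by
  have key : ∀ i ∈ Finset.range 8, ∀ᶠ ε : ℝ in 𝓝 0, ∀ t ∈ (univ : Set unitInterval),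
      ∀ q ∈ M.carrier, dist q (e (gam i t, X (gam i t))) < ε →
      ∃ z x, z ∈ combM (1 / 50) ∧ |x| < d2 ∧ ‖z - gam i t‖ < ρ ∧ |x - X (gam i t)| < ρ ∧
        e (z, x) = q := by
    intro i hi
    have hi8 : i < 8 := Finset.mem_range.1 hi
    refine isCompact_univ.eventually_forall_of_forall_eventually (fun t0 _ => ?_)
    have hg0 : gam i t0 ∈ combM (1 / 50) := gam_mem (by norm_num) (by norm_num) hi8 _
    have hopen := isOpen_combM (1 / 50)
    have hXc : ContinuousAt X (gam i t0) := hX.continuousAt (hopen.mem_nhds hg0)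
    have hy0 : (gam i t0, X (gam i t0)) ∈ box (1 / 100) d :=
      ⟨combM_mono (by norm_num) hg0, abs_lt.1 ((hXd _ hg0).trans_le h2)⟩
    have hboxn : box (1 / 100) d ∈ 𝓝 (gam i t0, X (gam i t0)) := (isOpen_box _ _).mem_nhds hy0
    have heC : ContDiffAt ℝ 2 e (gam i t0, X (gam i t0)) := he.smooth.contDiffAt hboxn
    have hW : (combM (1 / 50) ∩ Metric.ball (gam i t0) (ρ / 2)) ×ˢ
        (Ioo (-d2) d2 ∩ Metric.ball (X (gam i t0)) (ρ / 2)) ∈ 𝓝 (gam i t0, X (gam i t0)) :=
      prod_mem_nhds (inter_mem (hopen.mem_nhds hg0) (Metric.ball_mem_nhds _ (half_pos hρ)))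
        (inter_mem (isOpen_Ioo.mem_nhds (abs_lt.1 (hXd _ hg0)))
          (Metric.ball_mem_nhds _ (half_pos hρ)))
    obtain ⟨O, hO, hyO, h, -, hOM, -⟩ := exists_local_inverse heC
      (by filter_upwards [hboxn] with y hy using he.mem y hy) (he.imm _ hy0) hW
    obtain ⟨r, hr, hrO⟩ := Metric.isOpen_iff.1 hO _ hyO
    have hgc : Continuous fun t : unitInterval => gam i t :=
      (contDiff_gam i).continuous.comp continuous_subtype_val
    have hXt : ContinuousAt (fun t : unitInterval => X (gam i t)) t0 :=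
      ContinuousAt.comp (f := fun t : unitInterval => gam i t) (g := X) hXc hgc.continuousAt
    have het : ContinuousAt (fun t : unitInterval => e (gam i t, X (gam i t))) t0 :=
      ContinuousAt.comp (f := fun t : unitInterval => (gam i t, X (gam i t))) (g := e)
        heC.continuousAt (hgc.continuousAt.prodMk hXt)
    have h1 : ∀ᶠ t : unitInterval in 𝓝 t0, dist (gam i t) (gam i t0) < ρ / 2 :=
      (hgc.continuousAt (x := t0)).eventually (Metric.ball_mem_nhds _ (half_pos hρ))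
    have h2 : ∀ᶠ t : unitInterval in 𝓝 t0, dist (X (gam i t)) (X (gam i t0)) < ρ / 2 :=
      hXt.eventually (Metric.ball_mem_nhds _ (half_pos hρ))
    have h3 : ∀ᶠ t : unitInterval in 𝓝 t0,
        dist (e (gam i t, X (gam i t))) (e (gam i t0, X (gam i t0))) < r / 2 :=
      het.eventually (Metric.ball_mem_nhds _ (half_pos hr))
    have h0 : ∀ᶠ ε : ℝ in 𝓝 0, ε < r / 2 := Iio_mem_nhds (half_pos hr)
    filter_upwards [h0.prod_nhds (h1.and (h2.and h3))] with z hz q hq hd
    obtain ⟨hz1, hz2, hz3, hz4⟩ := hz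
    have hqO : q ∈ O := by
      apply hrO
      rw [Metric.mem_ball]
      have := dist_triangle q (e (gam i z.2, X (gam i z.2))) (e (gam i t0, X (gam i t0)))
      linarith
    obtain ⟨hW', hq'⟩ := hOM q hqO hq
    have hw1 : dist (h q).1 (gam i t0) < ρ / 2 := hW'.1.2
    have hw2 : dist (h q).2 (X (gam i t0)) < ρ / 2 := hW'.2.2
    refine ⟨(h q).1, (h q).2, hW'.1.1, abs_lt.2 hW'.2.1, ?_, ?_, hq'⟩
    · rw [← dist_eq_norm]
      have := dist_triangle (h q).1 (gam i t0) (gam i z.2)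
      rw [dist_comm (gam i t0)] at this
      linarith
    · rw [← Real.dist_eq]
      have := dist_triangle (h q).2 (X (gam i t0)) (X (gam i z.2))
      rw [dist_comm (X (gam i t0))] at this
      linarith
  have key2 : ∀ᶠ ε : ℝ in 𝓝[>] 0, ∀ i ∈ Finset.range 8, ∀ t ∈ (univ : Set unitInterval),
      ∀ q ∈ M.carrier, dist q (e (gam i t, X (gam i t))) < ε →
      ∃ z x, z ∈ combM (1 / 50) ∧ |x| < d2 ∧ ‖z - gam i t‖ < ρ ∧ |x - X (gam i t)| < ρ ∧
        e (z, x) = q :=
    (((Finset.range 8).eventually_all).2 key).filter_mono nhdsWithin_le_nhds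
  obtain ⟨ε, hε, hpos⟩ := (key2.and self_mem_nhdsWithin).exists
  exact ⟨ε, hpos, fun i hi t q hq hd => hε i (Finset.mem_range.2 hi) t (mem_univ t) q hq hd⟩

end Pool.Agent.helper35.FOL
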