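import Pool.Agent.helper35.FOL.F03
import Pool.Agent.helper35.FOL.P01

/-!
author: helper41
# FOL-F11: a first integral is constant along a `k`-tangent curve

`y t ∈ box (1/50) d2` with `e (y t) = g t`, `y` continuous.  Fix `s`.  Near `g s` the local inverse `h`
(`exists_local_inverse`) is `C²` (in particular Lipschitz) and `h (g t) = y t` for `t` near `s` (`y` is continuous and `h (e y') = y'`
for `y'` near `y s`), so `‖y t - y s‖ ≤ C |t - s|`.  `g t - g s = e (y t) - e (y s) = D e (y s) (y t - y s) + O(|t - s|²)`,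
hence with `y t - y s = (ζ, σ)`: `|⟨N', D e (y s) (ζ, σ)⟩| ≤ C' |t - s|²`, that is (`IsSlope`)
`|σ - A' (y s) ζ| ≤ C'' |t - s|²`, and `c' (y t) - c' (y s) = D c' (y s) (ζ, σ) + o(|t - s|) = o(|t - s|)`
(`D c' (ζ, σ) = ∂ₓ c' (σ - A' ζ)` by `IsFI.ker`).  So `t ↦ c' (y t)` has derivative zero (within `[0,1]`) everywhere: constant
(`constant_of_derivWithin_zero` or similar).
-/

open Set Filter Topology
open scoped ContDiff commutatorElement

namespace Pool.Agent.helper35.FOL

variable {n : ℕ} {M : ClosedMfd n}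

theorem const_along {F' : Fol M} {e : ℂ × ℝ → E n} {d d2 : ℝ} (he : IsFence M e d) (h2 : d2 ≤ d)
    {A' : ℂ × ℝ → ℂ →L[ℝ] ℝ} {c' : ℂ × ℝ → ℝ} (hs : IsSlope F' e A' (box (1 / 50) d2))
    (hFI : IsFI A' c' (box (1 / 50) d2)) {k : ℕ} {g : C(unitInterval, E n)} (hg : KTan F' k g)
    {y : unitInterval → ℂ × ℝ} (hy : Continuous y) (hyb : ∀ t, y t ∈ box (1 / 50) d2)
    (hye : ∀ t, e (y t) = g t) (t : unitInterval) : c' (y t) = c' (y 0) := by
  set I : Set ℝ := Icc 0 1 with hI
  set pr : ℝ → unitInterval := fun r => projIcc 0 1 zero_le_one r with hpr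
  have hprc : Continuous pr := continuous_projIcc
  set Y : ℝ → ℂ × ℝ := fun r => y (pr r) with hYd
  set G : ℝ → E n := fun r => g (pr r) with hGd
  have hYc : Continuous Y := hy.comp hprc
  have hGc : Continuous G := g.continuous.comp hprc
  have hprI : ∀ r (hr : r ∈ I), pr r = ⟨r, hr⟩ := fun r hr => projIcc_of_mem zero_le_one hr
  have hbox : box (1 / 50) d2 ⊆ box (1 / 100) d := by
    refine Set.prod_mono (combM_mono (by norm_num)) ?_
    exact Ioo_subset_Ioo (neg_le_neg h2) h2
  have main : ∀ s ∈ I, HasDerivWithinAt (fun r => c' (Y r)) 0 I s := by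
    intro s hs'
    have hys : Y s ∈ box (1 / 50) d2 := hyb _
    have hnb : box (1 / 100) d ∈ 𝓝 (Y s) := (isOpen_box _ _).mem_nhds (hbox hys)
    have hnb2 : box (1 / 50) d2 ∈ 𝓝 (Y s) := (isOpen_box _ _).mem_nhds hys
    have hec : ContDiffAt ℝ 2 e (Y s) := he.smooth.contDiffAt hnb
    have hmem : ∀ᶠ z in 𝓝 (Y s), e z ∈ M.carrier :=
      Filter.mem_of_superset hnb fun z hz => he.mem z hz
    obtain ⟨O, hOo, hOs, h, hh, -, hinv⟩ := exists_local_inverse hec hmem (he.imm _ (hbox hys))
      (W := univ) univ_mem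
    have hGs : G s = e (Y s) := (hye _).symm
    set l := 𝓝[I] s with hl
    have tG : Tendsto G l (𝓝 (e (Y s))) := by
      rw [← hGs]
      exact (hGc.tendsto s).mono_left nhdsWithin_le_nhds
    have tY : Tendsto Y l (𝓝 (Y s)) := (hYc.tendsto s).mono_left nhdsWithin_le_nhds
    -- the curve is Lipschitz
    have bG : (fun r => G r - G s) =O[l] (fun r => r - s) := by
      refine Asymptotics.IsBigO.of_bound k ?_
      filter_upwards [self_mem_nhdsWithin] with r hr
      have h1 := ((hg (pr s)).2 (pr r)).1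
      rw [hprI r hr, hprI s hs'] at h1
      rw [Real.norm_eq_abs, hGd]
      simp only
      rw [hprI r hr, hprI s hs']
      exact h1
    have hhd : DifferentiableAt ℝ h (e (Y s)) :=
      ((hh.contDiffAt (hOo.mem_nhds hOs)).differentiableAt (by norm_num))
    have bY : (fun r => Y r - Y s) =O[l] (fun r => r - s) := by
      have h1 := (hhd.hasFDerivAt.isBigO_sub).comp_tendsto tG
      have h2 : (fun r => Y r - Y s) =ᶠ[l] ((fun x => h x - h (e (Y s))) ∘ G) := by
        have h3 := tY.eventually hinv
        have h4 := hinv.self_of_nhds.2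
        filter_upwards [h3] with r hr
        have h5 : G r = e (Y r) := (hye _).symm
        simp only [Function.comp]
        rw [h4, h5, hr.2]
      have h6 : ((fun x => x - e (Y s)) ∘ G) = fun r => G r - G s := by
        funext r
        simp only [Function.comp, hGs]
      rw [h6] at h1
      exact (h1.congr' h2.symm (EventuallyEq.refl _ _)).trans bG
    -- first order expansions
    have hed : HasFDerivAt e (fderiv ℝ e (Y s)) (Y s) :=
      (hec.differentiableAt (by norm_num)).hasFDerivAt
    have oe : (fun r => e (Y r) - e (Y s) - fderiv ℝ e (Y s) (Y r - Y s)) =o[l]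
        (fun r => r - s) :=
      (hed.isLittleO.comp_tendsto tY).trans_isBigO bY
    have hcd : HasFDerivAt c' (fderiv ℝ c' (Y s)) (Y s) :=
      ((hFI.c1.contDiffAt hnb2).differentiableAt (by norm_num)).hasFDerivAt
    have oc : (fun r => c' (Y r) - c' (Y s) - fderiv ℝ c' (Y s) (Y r - Y s)) =o[l]
        (fun r => r - s) :=
      (hcd.isLittleO.comp_tendsto tY).trans_isBigO bY
    -- tangency
    set N := F'.N (G s) with hN
    have oN : (fun r => inner ℝ N (G r - G s)) =o[l] (fun r => r - s) := by
      have h1 : (fun r => inner ℝ N (G r - G s)) =O[l] (fun r => (r - s) ^ 2) := by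
        refine Asymptotics.IsBigO.of_bound k ?_
        filter_upwards [self_mem_nhdsWithin] with r hr
        have h1 := ((hg (pr s)).2 (pr r)).2
        rw [Real.norm_eq_abs, Real.norm_eq_abs, abs_pow, hN, hGd]
        simp only
        rw [hprI r hr, hprI s hs'] at h1 ⊢
        exact h1
      have h2 : (fun r : ℝ => (r - s) ^ 2) =o[l] (fun r => r - s) := by
        have h3 : Tendsto (fun r : ℝ => r - s) l (𝓝 0) := by
          have : Tendsto (fun r : ℝ => r - s) (𝓝 s) (𝓝 (s - s)) :=
            (continuous_id.sub continuous_const).tendsto s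
          rw [sub_self] at this
          exact this.mono_left nhdsWithin_le_nhds
        have h4 : (fun r : ℝ => (r - s) * (r - s)) =o[l] (fun r => 1 * (r - s)) :=
          ((Asymptotics.isLittleO_one_iff ℝ).2 h3).mul_isBigO (Asymptotics.isBigO_refl _ _)
        refine h4.congr (fun r => ?_) (fun r => ?_)
        · ring
        · ring
      exact h1.trans_isLittleO h2
    have oNe : (fun r => inner ℝ N (fderiv ℝ e (Y s) (Y r - Y s))) =o[l] (fun r => r - s) := by
      have h1 : (fun r => inner ℝ N (e (Y r) - e (Y s) - fderiv ℝ e (Y s) (Y r - Y s))) =o[l]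
          (fun r => r - s) :=
        ((innerSL ℝ N).isBigO_comp _ l).trans_isLittleO oe
      have h2 := oN.sub h1
      refine h2.congr_left fun r => ?_
      have h3 : G r = e (Y r) := (hye _).symm
      rw [h3, hGs]
      simp only [inner_sub_right]
      ring
    obtain ⟨ha, hsl⟩ := hs (Y s) hys
    rw [← hGs, ← hN] at ha hsl
    set a := inner ℝ N (fderiv ℝ e (Y s) (0, 1)) with had
    have oσ : (fun r => (Y r - Y s).2 - A' (Y s) (Y r - Y s).1) =o[l] (fun r => r - s) := by
      have h1 := oNe.const_mul_left a⁻¹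
      refine h1.congr_left fun r => ?_
      have h3 := hsl (Y r - Y s).1 (Y r - Y s).2
      rw [Prod.mk.eta] at h3
      rw [h3, ← mul_assoc, inv_mul_cancel₀ ha.ne', one_mul]
    have oDc : (fun r => fderiv ℝ c' (Y s) (Y r - Y s)) =o[l] (fun r => r - s) := by
      have h1 := oσ.const_mul_left (fderiv ℝ c' (Y s) (0, 1))
      refine h1.congr_left fun r => ?_
      have h3 : Y r - Y s = ((Y r - Y s).1, A' (Y s) (Y r - Y s).1) +
          ((Y r - Y s).2 - A' (Y s) (Y r - Y s).1) • ((0 : ℂ), (1 : ℝ)) := by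
        ext <;> simp
      have h4 := hFI.ker (Y s) hys (Y r - Y s).1
      conv_rhs => rw [h3]
      rw [map_add, h4, map_smul, zero_add, smul_eq_mul]
      ring
    rw [hasDerivWithinAt_iff_isLittleO]
    refine (oc.add oDc).congr_left fun r => ?_
    simp
  have hconst := constant_of_derivWithin_zero (f := fun r => c' (Y r)) (a := 0) (b := 1)
    (fun s hs' => (main s hs').differentiableWithinAt)
    (fun s hs' => (main s ⟨hs'.1, hs'.2.le⟩).derivWithin
      (uniqueDiffOn_Icc zero_lt_one s ⟨hs'.1, hs'.2.le⟩))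
  have h1 := hconst t.1 t.2
  have h2 : pr t.1 = t := by rw [hprI _ t.2]
  have h3 : pr 0 = 0 := by
    rw [hprI 0 ⟨le_rfl, zero_le_one⟩]
    rfl
  simp only [hYd] at h1
  rw [h2, h3] at h1
  exact h1

end Pool.Agent.helper35.FOL
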