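import Pool.Agent.helper35.FOL.F01

/-!
# FOL-F12: the sets `ASet` are closed

The set `𝒦` of tuples of `k`-Lipschitz curves in the compact set `M` is compact (Arzelà–Ascoli; only
`g 0, …, g 7` matter, so one may work with `Fin 8 → C(unitInterval, E n)`), and the set of pairs `(F, g)` with
all conditions is closed in `Fol M × 𝒦`: the map `(F, g) ↦ F.N (g s)` is continuous on pairs with
`g s ∈ M.carrier` (evaluation `C(M.carrier, _) × M.carrier → _` is continuous, `jet` is continuous by the
definition of the topology).  The projection of a closed set along a compact space is closed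
(`isClosedMap_fst_of_compactSpace`).

author: helper59
-/

open Set Filter Topology
open scoped ContDiff commutatorElement

namespace Pool.Agent.helper35.FOL

variable {n : ℕ} {M : ClosedMfd n}

/-- the `k`-Lipschitz curves in `M` -/
def F12S (M : ClosedMfd n) (k : ℕ) : Set C(unitInterval, E n) :=
  {g | ∀ s : unitInterval, g s ∈ M.carrier ∧ ∀ t : unitInterval,
    ‖g t - g s‖ ≤ k * |(t : ℝ) - s|}

theorem isCompact_F12S (M : ClosedMfd n) (k : ℕ) : IsCompact (F12S M k) := by
  apply ArzelaAscoli.isCompact_of_equicontinuous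
  · have himg : ContinuousMap.toFun '' (F12S M k) =
        {f : unitInterval → E n | ∀ s : unitInterval, f s ∈ M.carrier ∧
          ∀ t : unitInterval, ‖f t - f s‖ ≤ k * |(t : ℝ) - s|} := by
      ext f
      constructor
      · rintro ⟨g, hg, rfl⟩
        exact hg
      · intro hf
        have hL : LipschitzWith (k : NNReal) f := LipschitzWith.of_dist_le_mul fun x y => by
          rw [dist_eq_norm, Subtype.dist_eq, Real.dist_eq]
          exact (hf y).2 x
        exact ⟨⟨f, hL.continuous⟩, hf, rfl⟩
    rw [himg]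
    refine (isCompact_univ_pi fun _ => M.compact).of_isClosed_subset ?_ ?_
    · simp only [ofPred_forall, ofPred_and]
      refine isClosed_iInter fun s => IsClosed.inter ?_ (isClosed_iInter fun t => ?_)
      · exact M.compact.isClosed.preimage (continuous_apply s)
      · exact isClosed_le ((continuous_apply t).sub (continuous_apply s)).norm continuous_const
    · intro f hf s _
      exact (hf s).1
  · refine Metric.equicontinuous_of_continuity_modulus (fun x => k * x) ?_ _ ?_
    · have : Tendsto (fun x : ℝ => (k : ℝ) * x) (𝓝 0) (𝓝 (k * 0)) :=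
        (continuous_const.mul continuous_id).tendsto 0
      simpa using this
    · intro x y g
      rw [dist_eq_norm, Subtype.dist_eq, Real.dist_eq]
      exact (g.2 y).2 x

theorem continuous_jet : Continuous (Fol.jet : Fol M → _) := continuous_induced_dom

theorem handles_lt {j : ℕ} (hj : j ∈ handles) : j + 2 < 8 := by
  simp only [handles, Finset.mem_insert, Finset.mem_singleton] at hj
  omega

theorem isClosed_ASet (φ : ℕ → C(unitInterval, E n)) (ε : ℝ) (k : ℕ) :
    IsClosed (ASet M φ ε k) := by
  have : CompactSpace M.carrier := isCompact_iff_compactSpace.1 M.compact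
  have : CompactSpace (F12S M k) := isCompact_iff_compactSpace.1 (isCompact_F12S M k)
  have hT : IsClosed {p : Fol M × (ℕ → F12S M k) | (∀ i < 8, ∀ s t : unitInterval,
      |inner ℝ (p.1.N ((p.2 i).1 s)) ((p.2 i).1 t - (p.2 i).1 s)| ≤ k * |(t : ℝ) - s| ^ 2) ∧
      (∀ i < 8, (p.2 i).1 0 = (p.2 0).1 0) ∧
      (∀ j ∈ handles, (p.2 j).1 1 = (p.2 (j + 2)).1 1) ∧
      ∀ i < 8, dist (p.2 i).1 (φ i) ≤ ε} := by
    have hcm : ∀ i : ℕ, Continuous fun p : Fol M × (ℕ → F12S M k) => (p.2 i).1 := fun i =>
      continuous_subtype_val.comp ((continuous_apply i).comp continuous_snd)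
    have hce : ∀ (i : ℕ) (s : unitInterval),
        Continuous fun p : Fol M × (ℕ → F12S M k) => (p.2 i).1 s := fun i s =>
      (hcm i).eval continuous_const
    have hN : ∀ (i : ℕ) (s : unitInterval),
        Continuous fun p : Fol M × (ℕ → F12S M k) => p.1.N ((p.2 i).1 s) := by
      intro i s
      have h1 : Continuous fun p : Fol M × (ℕ → F12S M k) =>
          p.1.jet ⟨(p.2 i).1 s, ((p.2 i).2 s).1⟩ :=
        (continuous_jet.comp continuous_fst).eval ((hce i s).subtype_mk _)
      exact h1.fst
    simp only [ofPred_and, ofPred_forall]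
    refine IsClosed.inter ?_ (IsClosed.inter ?_ (IsClosed.inter ?_ ?_))
    · refine isClosed_iInter fun i => isClosed_iInter fun _ => isClosed_iInter fun s =>
        isClosed_iInter fun t => ?_
      exact isClosed_le ((hN i s).inner ((hce i t).sub (hce i s))).abs continuous_const
    · exact isClosed_iInter fun i => isClosed_iInter fun _ => isClosed_eq (hce i 0) (hce 0 0)
    · exact isClosed_iInter fun j => isClosed_iInter fun _ => isClosed_eq (hce j 1) (hce (j + 2) 1)
    · exact isClosed_iInter fun i => isClosed_iInter fun _ =>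
        isClosed_le ((hcm i).dist continuous_const) continuous_const
  have himg := isClosedMap_fst_of_compactSpace _ hT
  convert himg using 1
  ext F
  constructor
  · rintro ⟨g, hg, hg0, hg1, hgd⟩
    have hmem : ∀ i < 8, g i ∈ F12S M k := fun i hi s =>
      ⟨(hg i hi s).1, fun t => ((hg i hi s).2 t).1⟩
    have h0 : g 0 ∈ F12S M k := hmem 0 (by norm_num)
    have hval : ∀ i < 8, ((if h : i < 8 then (⟨g i, hmem i h⟩ : F12S M k) else ⟨g 0, h0⟩) :
        F12S M k).1 = g i := by
      intro i hi
      rw [dif_pos hi]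
    refine ⟨(F, fun i => if h : i < 8 then ⟨g i, hmem i h⟩ else ⟨g 0, h0⟩),
      ⟨fun i hi s t => ?_, fun i hi => ?_, fun j hj => ?_, fun i hi => ?_⟩, rfl⟩
    · show |inner ℝ (F.N (_ : E n)) (_ : E n)| ≤ _
      rw [hval i hi]
      exact ((hg i hi s).2 t).2
    · show ((if h : i < 8 then (⟨g i, hmem i h⟩ : F12S M k) else ⟨g 0, h0⟩) : F12S M k).1 0 =
        ((if h : 0 < 8 then (⟨g 0, hmem 0 h⟩ : F12S M k) else ⟨g 0, h0⟩) : F12S M k).1 0
      rw [hval i hi, hval 0 (by norm_num)]
      exact hg0 i hi
    · have hj2 := handles_lt hj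
      show ((if h : j < 8 then (⟨g j, hmem j h⟩ : F12S M k) else ⟨g 0, h0⟩) : F12S M k).1 1 =
        ((if h : j + 2 < 8 then (⟨g (j + 2), hmem (j + 2) h⟩ : F12S M k) else ⟨g 0, h0⟩) :
          F12S M k).1 1
      rw [hval j (by omega), hval (j + 2) hj2]
      exact hg1 j hj
    · show dist ((if h : i < 8 then (⟨g i, hmem i h⟩ : F12S M k) else ⟨g 0, h0⟩) : F12S M k).1
        (φ i) ≤ ε
      rw [hval i hi]
      exact hgd i hi
  · rintro ⟨⟨F', g⟩, ⟨h1, h2, h3, h4⟩, rfl⟩
    exact ⟨fun i => (g i).1, fun i hi s => ⟨((g i).2 s).1, fun t => ⟨((g i).2 s).2 t,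
      h1 i hi s t⟩⟩, h2, h3, h4⟩

end Pool.Agent.helper35.FOL
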