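import Pool.Agent.helper35.FOL.F10
import Pool.Agent.helper35.FOL.F11
import Pool.Agent.helper35.FOL.P01
import Pool.Agent.helper35.FOL.P02

/-!
# FOL-F13: the perturbed foliations are not in the sets `ASet`

Choose `ρ ≤ 1/100` so small that for `‖z - z0‖ < ρ`, `|x - X z0| < ρ`: `z.im < -3/4` and `c (z, x) ∈ [α, β]` (continuity of `c` at
`(z0, X z0)`, `c = p` there), and `ρ ≤ 1/16`.  `ε0` = half of the number given by `exists_near`.  Let `F' ∈ ASet M φ ε k`,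
tuple `g i`; `dist (g i t) (e (gam i t, X (gam i t))) ≤ 2 ε < 2 ε0`.  By `exists_near` there are (unique: `he.inj`,
`glued_near_gam`) `y i t = (z, x)` with `e (y i t) = g i t`; `t ↦ y i t` is continuous (local inverse, uniqueness).
By `const_along`, `c' (y i 1) = c' (y i 0)`.  `g i 0 = g 0 0`: `y i 0 = y 0 0` (uniqueness near `z0`, as
`gam i 0 = z0`), so `c' (y i 0) = c' (y 0 0) = c (y 0 0) =: c0 ∈ [α, β]` (`hbot`).  `g j 1 = g (j+2) 1`: the points `y j 1` near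
`(j, 3/2)` and `y (j+2) 1` near `(j+2, 3/2)` have the same image, so equal heights and
`z' = rho j z`, `z ∈ tabM (1/50) j`.  So `c' (z, x) = c0 = c' (rho j z, x)` for all `j ∈ handles`: contradiction to `hkey`.
-/

open Set Filter Topology
open scoped ContDiff commutatorElement

namespace Pool.Agent.helper35.FOL

variable {n : ℕ} {M : ClosedMfd n}

private theorem F13_box {d d2 : ℝ} (h2 : d2 ≤ d) : box (1 / 50) d2 ⊆ box (1 / 100) d := by
  rintro y ⟨h1, h3⟩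
  refine ⟨combM_mono (by norm_num) h1, ?_, ?_⟩
  · have := h3.1; linarith
  · have := h3.2; linarith

/-- uniqueness of the coordinates near the path -/
private theorem F13_unique {e : ℂ × ℝ → E n} {d d2 : ℝ} (he : IsFence M e d) (h2 : d2 ≤ d) {i : ℕ}
    (hi : i < 8) {s t : ℝ} {y y' : ℂ × ℝ} (hy : y ∈ box (1 / 50) d2) (hy' : y' ∈ box (1 / 50) d2)
    (hs : ‖y.1 - gam i s‖ < 1 / 8) (ht : ‖y'.1 - gam i t‖ < 1 / 8) (heq : e y = e y') : y = y' := by
  obtain ⟨h3, h4⟩ := (he.inj y (F13_box h2 hy) y' (F13_box h2 hy')).1 heq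
  exact Prod.ext (glued_near_gam hi hs ht h4) h3

/-- continuity of the coordinates -/
private theorem F13_continuous {e : ℂ × ℝ → E n} {d d2 : ℝ} (he : IsFence M e d) (h2 : d2 ≤ d)
    {i : ℕ} (hi : i < 8) {ρ : ℝ} (hρ : ρ ≤ 1 / 16) {g : C(unitInterval, E n)}
    (hg : ∀ t, g t ∈ M.carrier) {Y : unitInterval → ℂ × ℝ} (hYb : ∀ t, Y t ∈ box (1 / 50) d2)
    (hY : ∀ t : unitInterval, ‖(Y t).1 - gam i t‖ < ρ) (hYe : ∀ t, e (Y t) = g t) :
    Continuous Y := by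
  rw [continuous_iff_continuousAt]
  intro t
  have hopen : IsOpen (box (1 / 100) d) := isOpen_box _ _
  have hyt : Y t ∈ box (1 / 100) d := F13_box h2 (hYb t)
  have hc : ContDiffAt ℝ 2 e (Y t) := he.smooth.contDiffAt (hopen.mem_nhds hyt)
  have hm : ∀ᶠ y in 𝓝 (Y t), e y ∈ M.carrier := by
    filter_upwards [hopen.mem_nhds hyt] with y hy
    exact he.mem y hy
  have hW : (box (1 / 50) d2 ∩ {y : ℂ × ℝ | ‖y.1 - gam i t‖ < 1 / 8}) ∈ 𝓝 (Y t) := by
    refine ((isOpen_box _ _).inter (isOpen_lt (by fun_prop) continuous_const)).mem_nhds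
      ⟨hYb t, ?_⟩
    show ‖(Y t).1 - gam i t‖ < 1 / 8
    linarith [hY t]
  obtain ⟨O, hO, hyO, h, hh, hhW, hhe⟩ := exists_local_inverse hc hm (he.imm _ hyt) hW
  rw [hYe t] at hyO
  have hgO : ∀ᶠ s in 𝓝 t, g s ∈ O := g.continuous.continuousAt (hO.mem_nhds hyO)
  have key : ∀ s, g s ∈ O → h (g s) = Y s := by
    intro s hs
    obtain ⟨⟨h3, h4⟩, h5⟩ := hhW (g s) hs (hg s)
    refine F13_unique he h2 hi h3 (hYb s) h4 (s := t) (t := s) (by linarith [hY s]) ?_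
    rw [h5, hYe s]
  have hcont : ContinuousAt (fun s => h (g s)) t := by
    have h6 : ContinuousAt h (g t) := (hh.continuousOn.continuousAt (hO.mem_nhds hyO))
    exact ContinuousAt.comp (f := g) (g := h) h6 g.continuous.continuousAt
  have heq : (fun s => h (g s)) =ᶠ[𝓝 t] Y := hgO.mono fun s hs => key s hs
  exact hcont.congr heq

theorem not_mem_ASet {e : ℂ × ℝ → E n} {d d2 α β p : ℝ} (he : IsFence M e d) (h2 : d2 ≤ d)
    {X : ℂ → ℝ} {c : ℂ × ℝ → ℝ} (hX : ContinuousOn X (combM (1 / 50)))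
    (hXd : ∀ z ∈ combM (1 / 50), |X z| < d2 ∧ c (z, X z) = p) (hαp : α < p) (hpβ : p < β)
    (hc : ContinuousOn c (box (1 / 50) d2)) :
    ∃ ε0 > 0, ∀ (F' : Fol M) (A' : ℂ × ℝ → ℂ →L[ℝ] ℝ) (c' : ℂ × ℝ → ℝ),
      IsSlope F' e A' (box (1 / 50) d2) → IsFI A' c' (box (1 / 50) d2) →
      (∀ y ∈ box (1 / 50) d2, y.1.im < -3 / 4 → c' y = c y) →
      (∀ c0, α ≤ c0 → c0 ≤ β → ¬ ∀ j ∈ handles, ∃ z ∈ tabM (1 / 50) j, ∃ x, |x| < d2 ∧
        c' (z, x) = c0 ∧ c' (rho j z, x) = c0) →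
      ∀ (φ : ℕ → C(unitInterval, E n)) (ε : ℝ) (k : ℕ), ε < ε0 →
        (∀ i < 8, ∀ t : unitInterval, dist (φ i t) (e (gam i t, X (gam i t))) ≤ ε) →
        F' ∉ ASet M φ ε k := by
  have hz0 : z0 ∈ combM (1 / 50) := z0_mem (by norm_num) (by norm_num)
  have hy0 : ((z0, X z0) : ℂ × ℝ) ∈ box (1 / 50) d2 :=
    ⟨hz0, abs_lt.1 (hXd z0 hz0).1⟩
  -- the radius
  have hcat : ContinuousAt c (z0, X z0) := hc.continuousAt ((isOpen_box _ _).mem_nhds hy0)
  have hev : ∀ᶠ y in 𝓝 ((z0, X z0) : ℂ × ℝ), α < c y ∧ c y < β := by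
    have h3 : c (z0, X z0) = p := (hXd z0 hz0).2
    exact (hcat.eventually (lt_mem_nhds (h3 ▸ hαp))).and
      (hcat.eventually (gt_mem_nhds (h3 ▸ hpβ)))
  obtain ⟨ρ1, hρ1, hev⟩ := Metric.eventually_nhds_iff.1 hev
  set ρ : ℝ := min ρ1 (1 / 16) with hρdef
  have hρ : 0 < ρ := lt_min hρ1 (by norm_num)
  have hρ16 : ρ ≤ 1 / 16 := min_le_right _ _
  obtain ⟨ε1, hε1, hnear⟩ := exists_near he h2 hX (fun z hz => (hXd z hz).1) hρ
  refine ⟨ε1 / 2, by positivity, ?_⟩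
  rintro F' A' c' hs hFI hbot hkey φ ε k hε hφ ⟨g, hK, hg0, hg1, hgφ⟩
  have hgM : ∀ i < 8, ∀ t, g i t ∈ M.carrier := fun i hi t => (hK i hi t).1
  have hdist : ∀ i < 8, ∀ t : unitInterval,
      dist (g i t) (e (gam i t, X (gam i t))) < ε1 := by
    intro i hi t
    have h3 : dist (g i t) (φ i t) ≤ ε := (ContinuousMap.dist_apply_le_dist t).trans (hgφ i hi)
    have h4 := hφ i hi t
    have h5 := dist_triangle (g i t) (φ i t) (e (gam i t, X (gam i t)))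
    linarith
  have hex : ∀ i : ℕ, ∀ t : unitInterval, ∃ y : ℂ × ℝ, i < 8 → y ∈ box (1 / 50) d2 ∧
      ‖y.1 - gam i t‖ < ρ ∧ |y.2 - X (gam i t)| < ρ ∧ e y = g i t := by
    intro i t
    by_cases hi : i < 8
    · obtain ⟨z, x, h3, h4, h5, h6, h7⟩ := hnear i hi t (g i t) (hgM i hi t) (hdist i hi t)
      exact ⟨(z, x), fun _ => ⟨⟨h3, abs_lt.1 h4⟩, h5, h6, h7⟩⟩
    · exact ⟨0, fun h => absurd h hi⟩
  choose Y hY using hex
  have hYb : ∀ i < 8, ∀ t, Y i t ∈ box (1 / 50) d2 := fun i hi t => (hY i t hi).1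
  have hYg : ∀ i < 8, ∀ t : unitInterval, ‖(Y i t).1 - gam i t‖ < ρ := fun i hi t =>
    (hY i t hi).2.1
  have hYe : ∀ i < 8, ∀ t, e (Y i t) = g i t := fun i hi t => (hY i t hi).2.2.2
  have hYc : ∀ i < 8, Continuous (Y i) := fun i hi =>
    F13_continuous he h2 hi hρ16 (hgM i hi) (hYb i hi) (hYg i hi) (hYe i hi)
  have hconst : ∀ i < 8, c' (Y i 1) = c' (Y i 0) := fun i hi =>
    const_along he h2 hs hFI (hK i hi) (hYc i hi) (hYb i hi) (hYe i hi) 1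
  have hgam0 : ∀ i : ℕ, gam i ((0 : unitInterval) : ℝ) = z0 := fun i => by
    exact gam_zero i
  have hgam1 : ∀ i : ℕ, gam i ((1 : unitInterval) : ℝ) = ⟨i, 3 / 2⟩ := fun i => by
    exact gam_one i
  have h08 : (0 : ℕ) < 8 := by norm_num
  have hstart : ∀ i < 8, Y i 0 = Y 0 0 := by
    intro i hi
    refine F13_unique he h2 h08 (hYb i hi 0) (hYb 0 h08 0) (s := 0) (t := 0) ?_ ?_ ?_
    · have h3 := hYg i hi 0
      rw [hgam0] at h3
      rw [gam_zero]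
      linarith
    · have h3 := hYg 0 h08 0
      rw [hgam0] at h3
      rw [gam_zero]
      linarith
    · rw [hYe i hi, hYe 0 h08, hg0 i hi]
  set c0 : ℝ := c (Y 0 0) with hc0
  have hYz0 : ‖(Y 0 0).1 - z0‖ < ρ := by
    have h3 := hYg 0 h08 0
    rwa [hgam0] at h3
  have hYx0 : |(Y 0 0).2 - X z0| < ρ := by
    have h3 := (hY 0 0 h08).2.2.1
    rwa [hgam0] at h3
  have hc0' : c' (Y 0 0) = c0 := by
    refine hbot _ (hYb 0 h08 0) ?_
    have h3 : |((Y 0 0).1 - z0).im| ≤ ‖(Y 0 0).1 - z0‖ := Complex.abs_im_le_norm _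
    rw [Complex.sub_im] at h3
    have h4 : z0.im = -9 / 10 := rfl
    have h5 := (abs_le.1 h3).2
    linarith
  have hc0m : α < c0 ∧ c0 < β := by
    refine hev ?_
    rw [Prod.dist_eq, max_lt_iff, dist_eq_norm, Real.dist_eq]
    exact ⟨lt_of_lt_of_le hYz0 (min_le_left _ _), lt_of_lt_of_le hYx0 (min_le_left _ _)⟩
  have hc'1 : ∀ i < 8, c' (Y i 1) = c0 := fun i hi => by
    rw [hconst i hi, hstart i hi, hc0']
  refine hkey c0 hc0m.1.le hc0m.2.le fun j hj => ?_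
  have hj8 : j + 2 < 8 := by
    simp only [handles, Finset.mem_insert, Finset.mem_singleton] at hj
    omega
  have hj8' : j < 8 := by omega
  have heq : e (Y j 1) = e (Y (j + 2) 1) := by
    rw [hYe j hj8', hYe (j + 2) hj8, hg1 j hj]
  obtain ⟨h3, h4⟩ := (he.inj _ (F13_box h2 (hYb j hj8' 1)) _ (F13_box h2 (hYb (j + 2) hj8 1))).1 heq
  have hre1 : |(Y j 1).1.re - j| < 1 / 16 := by
    have h5 := hYg j hj8' 1
    rw [hgam1] at h5
    have h6 := Complex.abs_re_le_norm ((Y j 1).1 - (⟨j, 3 / 2⟩ : ℂ))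
    rw [Complex.sub_re] at h6
    have h7 : (⟨(j : ℝ), 3 / 2⟩ : ℂ).re = j := rfl
    rw [h7] at h6
    linarith
  have hre2 : |(Y (j + 2) 1).1.re - (j + 2)| < 1 / 16 := by
    have h5 := hYg (j + 2) hj8 1
    rw [hgam1] at h5
    have h6 := Complex.abs_re_le_norm ((Y (j + 2) 1).1 - (⟨((j + 2 : ℕ) : ℝ), 3 / 2⟩ : ℂ))
    rw [Complex.sub_re] at h6
    have h7 : (⟨((j + 2 : ℕ) : ℝ), 3 / 2⟩ : ℂ).re = j + 2 := by push_cast; rfl
    rw [h7] at h6
    linarith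
  have hnat : ∀ (a b : ℕ) (r s : ℝ), |r - a| < 1 / 4 → |r - b| < 1 / 16 → a = b := by
    intro a b r _ h5 h6
    have h7 : |(a : ℝ) - b| < 1 := by
      rw [abs_lt] at h5 h6 ⊢
      constructor <;> linarith [h5.1, h5.2, h6.1, h6.2]
    have h8 : |(a : ℤ) - b| < 1 := by exact_mod_cast h7
    rw [Int.abs_lt_one_iff] at h8
    omega
  rcases glued_combM (by norm_num) (by norm_num) (hYb j hj8' 1).1 (hYb (j + 2) hj8 1).1 h4 with
    h5 | ⟨j', hj', ⟨h5, h6⟩ | ⟨h5, h6⟩⟩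
  · exfalso
    rw [h5] at hre1
    rw [abs_lt] at hre1 hre2
    linarith [hre1.1, hre1.2, hre2.1, hre2.2]
  · have hjj : j' = j := hnat j' j (Y j 1).1.re 0 (by have := h5.1; linarith) hre1
    subst hjj
    refine ⟨(Y j' 1).1, h5, (Y j' 1).2, abs_lt.2 (hYb j' hj8' 1).2, hc'1 j' hj8', ?_⟩
    rw [← h6, h3]
    exact hc'1 (j' + 2) hj8
  · exfalso
    have hjj : j' = j + 2 := by
      refine hnat j' (j + 2) (Y (j + 2) 1).1.re 0 (by have := h5.1; linarith) ?_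
      push_cast
      exact hre2
    have h7 : (Y j 1).1.re = 2 * j' + 2 - (Y (j + 2) 1).1.re := by
      rw [h6]; simp [rho]
    rw [hjj] at h7
    push_cast at h7
    rw [abs_lt] at hre1 hre2
    linarith [hre1.1, hre1.2, hre2.1, hre2.2]

end Pool.Agent.helper35.FOL
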