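import Pool.Agent.helper35.FOL.P17
import Pool.Agent.helper35.FOL.F04
import Pool.Agent.helper35.FOL.F05
import Pool.Agent.helper35.FOL.F07
import Pool.Agent.helper35.FOL.F08
import Pool.Agent.helper35.FOL.F09
import Pool.Agent.helper35.FOL.F13

/-!
# FOL-F14: a foliation with a genus-two piece is a frontier point

Assembly: `exists_fence`, `exists_slope`, `planar`, `exists_pert` for every `m`, `pert_tendsto`, `not_mem_ASet`.
Model curves `g i t = e (gam i t, X (gam i t))`: `C¹` on `ℝ` (`contDiff_gam`, `gam_mem`), tangent to `F` (`IsSlope` and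
`fderiv X = A (z, X z)`), so `k`-tangent for some `k` (`ktan_of_tangent`, take the maximum over `i < 8`,
`KTan.mono`); `g i 0 = e (z0, X z0)`; `g j 1 = g (j+2) 1` by `X (rho j z) = X z` and `he.inj` (`gam j 1 = (j, 3/2)`,
`rho j (j, 3/2) = (j+2, 3/2)`).  So `F ∈ ASet M φ ε k` whenever `dist (g i) (φ i) ≤ ε`.  And `F' m ∉ ASet M φ ε k'` for all
`m`, `k'` if `ε < ε0`, `F' m → F`: `F ∈ closure (ASet M φ ε k')ᶜ`.
-/

open Set Filter Topology
open scoped ContDiff commutatorElement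

namespace Pool.Agent.helper35.FOL

variable {n : ℕ} {M : ClosedMfd n}

/-- the model curve -/
noncomputable def F14_curve (e : ℂ × ℝ → E n) (X : ℂ → ℝ) (i : ℕ) (s : ℝ) : E n :=
  e (gam i s, X (gam i s))

theorem F14_box {d d2 : ℝ} (h2 : d2 ≤ d) {X : ℂ → ℝ} (hXd : ∀ z ∈ combM (1 / 50), |X z| < d2)
    {i : ℕ} (hi : i < 8) (s : ℝ) : (gam i s, X (gam i s)) ∈ box (1 / 100) d := by
  have h1 : gam i s ∈ combM (1 / 50) := gam_mem (by norm_num) (by norm_num) hi s
  refine ⟨combM_50_subset h1, ?_⟩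
  have h3 := abs_lt.1 (hXd _ h1)
  exact ⟨by linarith [h3.1], by linarith [h3.2]⟩

theorem F14_contDiff_pair {X : ℂ → ℝ} (hX : ContDiffOn ℝ 1 X (combM (1 / 50)))
    {i : ℕ} (hi : i < 8) (s : ℝ) :
    ContDiffAt ℝ 1 (fun s => (gam i s, X (gam i s))) s := by
  have h1 : gam i s ∈ combM (1 / 50) := gam_mem (by norm_num) (by norm_num) hi s
  have h2 : ContDiffAt ℝ 1 X (gam i s) := hX.contDiffAt ((isOpen_combM _).mem_nhds h1)
  have h3 : ContDiffAt ℝ 1 (gam i) s := ((contDiff_gam i).of_le (by exact_mod_cast le_top)).contDiffAt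
  exact h3.prodMk (h2.comp s h3)

theorem F14_contDiff {e : ℂ × ℝ → E n} {d d2 : ℝ} (he : IsFence M e d) (h2 : d2 ≤ d)
    {X : ℂ → ℝ} (hX : ContDiffOn ℝ 1 X (combM (1 / 50)))
    (hXd : ∀ z ∈ combM (1 / 50), |X z| < d2) {i : ℕ} (hi : i < 8) :
    ContDiff ℝ 1 (F14_curve e X i) := by
  rw [contDiff_iff_contDiffAt]
  intro s
  have h3 : ContDiffAt ℝ 1 e (gam i s, X (gam i s)) :=
    (he.smooth.contDiffAt ((isOpen_box _ _).mem_nhds (F14_box h2 hXd hi s))).of_le one_le_two
  exact h3.comp s (F14_contDiff_pair hX hi s)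

theorem F14_tangent {F : Fol M} {e : ℂ × ℝ → E n} {d d2 : ℝ} (he : IsFence M e d) (h2 : d2 ≤ d)
    {A : ℂ × ℝ → ℂ →L[ℝ] ℝ} (hs : IsSlope F e A (box (1 / 100) d))
    {X : ℂ → ℝ} (hX : ContDiffOn ℝ 1 X (combM (1 / 50)))
    (hXd : ∀ z ∈ combM (1 / 50), |X z| < d2)
    (hXA : ∀ z ∈ combM (1 / 50), ∀ ζ : ℂ, fderiv ℝ X z ζ = A (z, X z) ζ) {i : ℕ} (hi : i < 8)
    (s : ℝ) : inner ℝ (F.N (F14_curve e X i s)) (deriv (F14_curve e X i) s) = 0 := by
  have h1 : gam i s ∈ combM (1 / 50) := gam_mem (by norm_num) (by norm_num) hi s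
  have hb := F14_box h2 hXd hi s
  have h3 : DifferentiableAt ℝ e (gam i s, X (gam i s)) :=
    (he.smooth.contDiffAt ((isOpen_box _ _).mem_nhds hb)).differentiableAt (by norm_num)
  have h4 : HasDerivAt (gam i) (deriv (gam i) s) s :=
    (((contDiff_gam i).differentiable (by simp)) s).hasDerivAt
  have h5 : HasFDerivAt X (fderiv ℝ X (gam i s)) (gam i s) :=
    ((hX.contDiffAt ((isOpen_combM _).mem_nhds h1)).differentiableAt one_ne_zero).hasFDerivAt
  have h6 : HasDerivAt (fun s => X (gam i s)) (fderiv ℝ X (gam i s) (deriv (gam i) s)) s :=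
    h5.comp_hasDerivAt s h4
  have h7 : HasDerivAt (fun s => (gam i s, X (gam i s)))
      (deriv (gam i) s, fderiv ℝ X (gam i s) (deriv (gam i) s)) s := h4.prodMk h6
  have h8 : HasDerivAt (F14_curve e X i)
      (fderiv ℝ e (gam i s, X (gam i s)) (deriv (gam i) s, fderiv ℝ X (gam i s) (deriv (gam i) s)))
      s := h3.hasFDerivAt.comp_hasDerivAt s h7
  rw [h8.deriv]
  show inner ℝ (F.N (e (gam i s, X (gam i s)))) _ = 0
  rw [(hs _ hb).2, hXA _ h1, sub_self, mul_zero]

theorem frontier_of_piece (hG : TheoremG) {F : Fol M} {κ : ℂ → E n}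
    (hκ : IsGenusTwoPiece F κ) :
    ∃ (g : ℕ → C(unitInterval, E n)) (ε0 : ℝ) (k : ℕ), 0 < ε0 ∧
      ∀ (φ : ℕ → C(unitInterval, E n)) (ε : ℝ), ε < ε0 → (∀ i < 8, dist (φ i) (g i) ≤ ε) →
        F ∈ ASet M φ ε k ∧ F ∈ closure (ASet M φ ε k)ᶜ := by
  classical
  obtain ⟨e, d, he, he0, hepos⟩ := exists_fence hκ
  obtain ⟨A, hA, hs⟩ := exists_slope hκ he he0 hepos
  obtain ⟨d2, d3, α, β, p, X, c, A', c', h3, h32, h2, hαp, hpβ, hX1, hXd, hXrho, hc1, hA'1,
    hA'refl, hA'agree, hFI, hbot, hkey, hconv⟩ := planar hG hA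
  have hpert : ∀ m, ∃ F' : Fol M, IsSlope F' e (A' m) (box (1 / 50) d2) ∧
      ∀ x, x ∉ e '' (Scpt ×ˢ Icc (-d3) d3) → F'.N x = F.N x := fun m =>
    exists_pert he hs h3 h32 h2 (hA'1 m) (hA'refl m) (hA'agree m) (hFI m)
  choose F' hs' hoff using hpert
  have htend := pert_tendsto he hs hA.c1 h3 h32 h2 hA'1 hA'agree hs' hoff hconv
  obtain ⟨ε0, hε0, hnot⟩ := not_mem_ASet he h2 hX1.continuousOn
    (fun z hz => ⟨(hXd z hz).1, (hXd z hz).2.1⟩) hαp hpβ hc1.continuousOn
  have hXd' : ∀ z ∈ combM (1 / 50), |X z| < d2 := fun z hz => (hXd z hz).1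
  -- the model curves
  have hcont : ∀ i < 8, Continuous (F14_curve e X i) := fun i hi =>
    (F14_contDiff he h2 hX1 hXd' hi).continuous
  let g : ℕ → C(unitInterval, E n) := fun i =>
    if hi : i < 8 then ⟨fun t => F14_curve e X i t, (hcont i hi).comp continuous_subtype_val⟩ else
      ContinuousMap.const _ 0
  have hg : ∀ i < 8, ∀ t : unitInterval, g i t = F14_curve e X i t := by
    intro i hi t
    simp only [g, dif_pos hi]
    rfl
  have hmem : ∀ i < 8, ∀ t : ℝ, F14_curve e X i t ∈ M.carrier := fun i hi t =>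
    he.mem _ (F14_box h2 hXd' hi t)
  have hk : ∀ i, ∃ k : ℕ, i < 8 → KTan F k (g i) := by
    intro i
    by_cases hi : i < 8
    · obtain ⟨k, hk⟩ := ktan_of_tangent F (F14_contDiff he h2 hX1 hXd' hi) (hmem i hi)
        (F14_tangent he h2 hs hX1 hXd' (fun z hz => (hXd z hz).2.2) hi) (g i) (hg i hi)
      exact ⟨k, fun _ => hk⟩
    · exact ⟨0, fun h => absurd h hi⟩
  choose k hk using hk
  refine ⟨g, ε0, (Finset.range 8).sup k, hε0, fun φ ε hε hφ => ⟨?_, ?_⟩⟩
  · refine ⟨g, fun i hi => (hk i hi).mono (Finset.le_sup (Finset.mem_range.2 hi)), ?_, ?_,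
      fun i hi => by rw [dist_comm]; exact hφ i hi⟩
    · intro i hi
      rw [hg i hi, hg 0 (by norm_num)]
      show e (gam i ((0 : unitInterval) : ℝ), _) = e (gam 0 ((0 : unitInterval) : ℝ), _)
      simp only [Set.Icc.coe_zero, gam_zero]
    · intro j hj
      have hj2 : j + 2 < 8 := exists_fence_handles hj
      have hj8 : j < 8 := by omega
      rw [hg j hj8, hg (j + 2) hj2]
      have h5 : gam (j + 2) ((1 : unitInterval) : ℝ) = rho j (gam j ((1 : unitInterval) : ℝ)) := by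
        simp only [Set.Icc.coe_one, gam_one]
        apply Complex.ext
        · rw [P01_rho_re]
          push_cast
          ring
        · rw [P01_rho_im]
          norm_num
      have h6 : ∀ h : ℝ, h < 1 / 4 → gam j ((1 : unitInterval) : ℝ) ∈ tabM h j := by
        intro h hh
        simp only [Set.Icc.coe_one, gam_one]
        refine ⟨?_, ?_, ?_⟩
        · simp only [sub_self, abs_zero]
          linarith
        · show 1 + h < 3 / 2
          linarith
        · show (3 / 2 : ℝ) < 2 - h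
          linarith
      unfold F14_curve
      rw [h5, hXrho j hj _ (h6 (1 / 50) (by norm_num))]
      refine (fence_rho he hj (h6 (1 / 100) (by norm_num)) ?_).symm
      have h7 : gam j ((1 : unitInterval) : ℝ) ∈ combM (1 / 50) :=
        gam_mem (by norm_num) (by norm_num) hj8 _
      exact (hXd' _ h7).trans_le h2
  · refine mem_closure_of_tendsto htend (Eventually.of_forall fun m => ?_)
    refine hnot (F' m) (A' m) (c' m) (hs' m) (hFI m) (hbot m) (hkey m) φ ε _ hε ?_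
    intro i hi t
    have h5 := (ContinuousMap.dist_apply_le_dist (f := φ i) (g := g i) t).trans (hφ i hi)
    rw [hg i hi] at h5
    exact h5

end Pool.Agent.helper35.FOL
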