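import Pool.Agent.helper35.FOL.F12
import Pool.Agent.helper35.FOL.F14

/-!
# FOL-F15: the Baire argument

`C(unitInterval, E n)` is separable (second countable: `ContinuousMap` on a compact metrizable
space), so there is a countable dense set `D` (or a dense sequence); consider the countably many sets
`ASet M φ ε k` with `φ i ∈ D` for `i < 8` (`φ i = φ 0` for `i ≥ 8`), `ε > 0` rational, `k : ℕ`.  Each is
closed (`isClosed_ASet`), so its frontier is closed with empty interior, hence nowhere dense.  By
`frontier_of_piece` every `F` with a genus-two piece lies in one of these frontiers (choose `ε < ε0` rational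
and `φ i ∈ D` with `dist (φ i) (g i) ≤ ε`).  The complement of a countable union of nowhere dense closed
sets is residual (`residual_of_dense_open`, countable intersection).
-/

open Set Filter Topology
open scoped ContDiff commutatorElement

namespace Pool.Agent.helper35.FOL

variable {n : ℕ}

theorem main (hG : TheoremG) (M : ClosedMfd n) :
    {F : Fol M | ∀ κ : ℂ → E n, ¬ IsGenusTwoPiece F κ} ∈ residual (Fol M) := by
  set d : ℕ → C(unitInterval, E n) := TopologicalSpace.denseSeq C(unitInterval, E n) with hd
  have hdr : DenseRange d := TopologicalSpace.denseRange_denseSeq _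
  set S : (Fin 8 → ℕ) × ℚ × ℕ → Set (Fol M) := fun p =>
    (frontier (ASet M (fun i => if h : i < 8 then d (p.1 ⟨i, h⟩) else d 0) (p.2.1 : ℝ) p.2.2))ᶜ
    with hS
  have h1 : ∀ p, S p ∈ residual (Fol M) := by
    intro p
    refine residual_of_dense_open isClosed_frontier.isOpen_compl ?_
    exact interior_eq_empty_iff_dense_compl.1 (interior_frontier (isClosed_ASet _ _ _))
  have h2 : (⋂ p, S p) ∈ residual (Fol M) := countable_iInter_mem.2 h1
  refine mem_of_superset h2 ?_
  intro F hF κ hκ
  obtain ⟨g, ε0, k, hε0, hg⟩ := frontier_of_piece hG hκ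
  obtain ⟨q, hq0, hq⟩ := exists_rat_btwn hε0
  have hf : ∀ i : Fin 8, ∃ m : ℕ, dist (d m) (g i) < (q : ℝ) := by
    intro i
    obtain ⟨m, hm⟩ := hdr.exists_dist_lt (g i) hq0
    exact ⟨m, by rwa [dist_comm]⟩
  choose f hf using hf
  obtain ⟨hA, hB⟩ := hg (fun i => if h : i < 8 then d (f ⟨i, h⟩) else d 0) (q : ℝ) hq (by
    intro i hi
    simp only [hi, dif_pos]
    exact (hf ⟨i, hi⟩).le)
  have h3 := Set.mem_iInter.1 hF (f, q, k)
  refine h3 ?_
  show F ∈ frontier (ASet M (fun i => if h : i < 8 then d (f ⟨i, h⟩) else d 0) (q : ℝ) k)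
  rw [(isClosed_ASet _ _ _).frontier_eq]
  refine ⟨hA, ?_⟩
  rw [closure_compl] at hB
  exact hB

end Pool.Agent.helper35.FOL
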