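import Mathlib

/-!
# FOL (MP_f9b4a8_gt, r = 1): definitions of the group level and the statement of Theorem G
-/

open Set Filter Topology
open scoped commutatorElement

namespace Pool.Agent.helper35.FOL

/-- The group of increasing `C¹` diffeomorphisms of the line. -/
def Dd : Subgroup (ℝ ≃o ℝ) where
  carrier := {g | ContDiff ℝ 1 g ∧ ∀ x, 0 < deriv g x}
  one_mem' := by
    refine ⟨contDiff_id, fun x => ?_⟩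
    have : deriv (⇑(1 : ℝ ≃o ℝ)) x = 1 := deriv_id x
    rw [this]; exact one_pos
  mul_mem' := by
    rintro g h ⟨hg, hg'⟩ ⟨hh, hh'⟩
    refine ⟨hg.comp hh, fun x => ?_⟩
    have hd : deriv (⇑(g * h)) x = deriv g (h x) * deriv h x :=
      deriv_comp x (hg.differentiable one_ne_zero _) (hh.differentiable one_ne_zero _)
    rw [hd]
    exact mul_pos (hg' _) (hh' _)
  inv_mem' := by
    rintro g ⟨hg, hg'⟩
    have hd : ∀ x, HasDerivAt (⇑(g⁻¹)) (deriv g (g⁻¹ x))⁻¹ x := by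
      intro x
      refine HasDerivAt.of_local_left_inverse (f := g) (g := ⇑(g⁻¹)) ?_ ?_ (hg' _).ne' ?_
      · exact (OrderIso.continuous g⁻¹).continuousAt
      · exact (hg.differentiable one_ne_zero _).hasDerivAt
      · exact Eventually.of_forall fun y => g.apply_symm_apply y
    have hdd : deriv (⇑(g⁻¹)) = fun x => (deriv g (g⁻¹ x))⁻¹ := funext fun x => (hd x).deriv
    refine ⟨?_, fun x => ?_⟩
    · rw [contDiff_one_iff_deriv]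
      refine ⟨fun x => (hd x).differentiableAt, ?_⟩
      rw [hdd]
      exact ((hg.continuous_deriv le_rfl).comp (OrderIso.continuous g⁻¹)).inv₀
        fun x => (hg' _).ne'
    · rw [hdd]
      exact inv_pos.2 (hg' _)

theorem mem_Dd {g : ℝ ≃o ℝ} : g ∈ Dd ↔ ContDiff ℝ 1 g ∧ ∀ x, 0 < deriv g x := Iff.rfl

/-- The logarithm of the derivative. -/
noncomputable def LD (g : ℝ ≃o ℝ) (x : ℝ) : ℝ := Real.log (deriv g x)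

/-- `x` is fixed by `a₁, b₁, a₂, b₂`. -/
def CFix (a₁ b₁ a₂ b₂ : ℝ ≃o ℝ) (x : ℝ) : Prop := a₁ x = x ∧ b₁ x = x ∧ a₂ x = x ∧ b₂ x = x

/-- **Theorem G** (statement). -/
def TheoremG : Prop :=
  ∀ a₁ ∈ Dd, ∀ b₁ ∈ Dd, ∀ a₂ ∈ Dd, ∀ b₂ ∈ Dd, CFix a₁ b₁ a₂ b₂ 0 → ∀ r : ℝ, 0 < r →
    ∃ α β : ℝ, -r < α ∧ α < β ∧ β < r ∧ (∃ p, α < p ∧ p < β ∧ CFix a₁ b₁ a₂ b₂ p) ∧
      ∀ ε : ℝ, 0 < ε → ∃ a₁' ∈ Dd, ∃ b₁' ∈ Dd, ∃ a₂' ∈ Dd, ∃ b₂' ∈ Dd,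
        (∀ x, r ≤ |x| → a₁' x = a₁ x ∧ b₁' x = b₁ x ∧ a₂' x = a₂ x ∧ b₂' x = b₂ x) ∧
        (∀ x, |a₁' x - a₁ x| ≤ ε ∧ |b₁' x - b₁ x| ≤ ε ∧ |a₂' x - a₂ x| ≤ ε ∧ |b₂' x - b₂ x| ≤ ε) ∧
        (∀ x, |deriv a₁' x - deriv a₁ x| ≤ ε ∧ |deriv b₁' x - deriv b₁ x| ≤ ε ∧
          |deriv a₂' x - deriv a₂ x| ≤ ε ∧ |deriv b₂' x - deriv b₂ x| ≤ ε) ∧
        ⁅a₁', b₁'⁆ * ⁅a₂', b₂'⁆ = ⁅a₁, b₁⁆ * ⁅a₂, b₂⁆ ∧
        ∀ x, α ≤ x → x ≤ β → ¬ CFix a₁' b₁' a₂' b₂' x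

end Pool.Agent.helper35.FOL
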