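import Pool.Agent.helper35.FOL.P01

/-!
# FOL-P05: inverse in the fibre variable

Proof. For `z ∈ U` the function `t ↦ G (z, t)` is strictly increasing on `(-δ, δ)` (positive
derivative), so the solution `c (z, x)` is unique; it is `C¹` by the implicit function theorem
applied at each point (or: `HasStrictFDerivAt.toOpenPartialHomeomorph` /
`ContDiffAt.toOpenPartialHomeomorph` for `(z, t) ↦ (z, G (z, t))`), and the derivatives are computed by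
differentiating `G (z, c (z, x)) = x`.
-/

open Set Filter Topology
open scoped ContDiff commutatorElement

namespace Pool.Agent.helper35.FOL

/-- The linear equivalence `(ζ, s) ↦ (ζ, L (ζ, s))` if `L (0, 1) ≠ 0`. -/
noncomputable def fibEquiv (L : ℂ × ℝ →L[ℝ] ℝ) (h : L (0, 1) ≠ 0) : (ℂ × ℝ) ≃L[ℝ] (ℂ × ℝ) :=
  ContinuousLinearEquiv.equivOfInverse
    ((ContinuousLinearMap.fst ℝ ℂ ℝ).prod L)
    ((ContinuousLinearMap.fst ℝ ℂ ℝ).prod
      ((L (0, 1))⁻¹ • (ContinuousLinearMap.snd ℝ ℂ ℝ -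
        L.comp ((ContinuousLinearMap.inl ℝ ℂ ℝ).comp (ContinuousLinearMap.fst ℝ ℂ ℝ)))))
    (by
      rintro ⟨ζ, s⟩
      have h1 : L (ζ, s) = L (ζ, 0) + s * L (0, 1) := by
        have : ((ζ, s) : ℂ × ℝ) = (ζ, 0) + s • ((0, 1) : ℂ × ℝ) := by simp
        rw [this, map_add, map_smul, smul_eq_mul]
      simp only [ContinuousLinearMap.prod_apply, ContinuousLinearMap.coe_fst',
        ContinuousLinearMap.smul_apply, ContinuousLinearMap.sub_apply,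
        ContinuousLinearMap.coe_snd', ContinuousLinearMap.comp_apply,
        ContinuousLinearMap.inl_apply, smul_eq_mul, h1, Prod.mk.injEq, true_and]
      field_simp
      ring)
    (by
      rintro ⟨ζ, s⟩
      have h1 : ∀ r : ℝ, L (ζ, r) = L (ζ, 0) + r * L (0, 1) := by
        intro r
        have : ((ζ, r) : ℂ × ℝ) = (ζ, 0) + r • ((0, 1) : ℂ × ℝ) := by simp
        rw [this, map_add, map_smul, smul_eq_mul]
      simp only [ContinuousLinearMap.prod_apply, ContinuousLinearMap.coe_fst',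
        ContinuousLinearMap.smul_apply, ContinuousLinearMap.sub_apply,
        ContinuousLinearMap.coe_snd', ContinuousLinearMap.comp_apply,
        ContinuousLinearMap.inl_apply, smul_eq_mul, Prod.mk.injEq, true_and]
      rw [h1]
      field_simp
      ring)

theorem fibEquiv_coe (L : ℂ × ℝ →L[ℝ] ℝ) (h : L (0, 1) ≠ 0) :
    (fibEquiv L h : (ℂ × ℝ) →L[ℝ] (ℂ × ℝ)) = (ContinuousLinearMap.fst ℝ ℂ ℝ).prod L := rfl

theorem fib_hasDerivAt {U : Set ℂ} (hU : IsOpen U) {δ : ℝ} {G : ℂ × ℝ → ℝ}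
    (hG : ContDiffOn ℝ 1 G (U ×ˢ Ioo (-δ) δ)) {z : ℂ} (hz : z ∈ U) {t : ℝ} (ht : |t| < δ) :
    HasDerivAt (fun t => G (z, t)) (fderiv ℝ G (z, t) (0, 1)) t := by
  have hmem : (z, t) ∈ U ×ˢ Ioo (-δ) δ := ⟨hz, abs_lt.1 ht⟩
  have h1 : DifferentiableAt ℝ G (z, t) :=
    (hG.contDiffAt ((hU.prod isOpen_Ioo).mem_nhds hmem)).differentiableAt one_ne_zero
  have h2 : HasDerivAt (fun t : ℝ => ((z, t) : ℂ × ℝ)) (0, 1) t :=
    (hasDerivAt_const t z).prodMk (hasDerivAt_id t)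
  exact h1.hasFDerivAt.comp_hasDerivAt t h2

theorem fib_inj {U : Set ℂ} (hU : IsOpen U) {δ : ℝ} {G : ℂ × ℝ → ℝ}
    (hG : ContDiffOn ℝ 1 G (U ×ˢ Ioo (-δ) δ))
    (hpos : ∀ y ∈ U ×ˢ Ioo (-δ) δ, 0 < fderiv ℝ G y (0, 1)) {z : ℂ} (hz : z ∈ U) {t t' : ℝ}
    (ht : |t| < δ) (ht' : |t'| < δ) (h : G (z, t) = G (z, t')) : t = t' := by
  have hm : StrictMonoOn (fun t => G (z, t)) (Ioo (-δ) δ) := by
    refine strictMonoOn_of_deriv_pos (convex_Ioo _ _) ?_ ?_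
    · intro t ht
      exact (fib_hasDerivAt hU hG hz (abs_lt.2 ht)).continuousAt.continuousWithinAt
    · intro t ht
      rw [interior_Ioo] at ht
      rw [(fib_hasDerivAt hU hG hz (abs_lt.2 ht)).deriv]
      exact hpos _ ⟨hz, ht⟩
  exact hm.injOn (abs_lt.1 ht) (abs_lt.1 ht') h

theorem inv_fiber {U : Set ℂ} (hU : IsOpen U) {δ d2 : ℝ} {G : ℂ × ℝ → ℝ}
    (hG : ContDiffOn ℝ 1 G (U ×ˢ Ioo (-δ) δ))
    (hpos : ∀ y ∈ U ×ˢ Ioo (-δ) δ, 0 < fderiv ℝ G y (0, 1))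
    (hsurj : ∀ z ∈ U, ∀ x, |x| < d2 → ∃ t, |t| < δ ∧ G (z, t) = x) :
    ∃ c : ℂ × ℝ → ℝ, ContDiffOn ℝ 1 c (U ×ˢ Ioo (-d2) d2) ∧
      (∀ y ∈ U ×ˢ Ioo (-d2) d2, |c y| < δ ∧ G (y.1, c y) = y.2) ∧
      (∀ z ∈ U, ∀ t, |t| < δ → |G (z, t)| < d2 → c (z, G (z, t)) = t) ∧
      ∀ y ∈ U ×ˢ Ioo (-d2) d2, ∀ (ζ : ℂ) (s : ℝ), fderiv ℝ c y (ζ, s) =
        (s - fderiv ℝ G (y.1, c y) (ζ, 0)) / fderiv ℝ G (y.1, c y) (0, 1) := by
  classical
  have hch : ∀ y : ℂ × ℝ, ∃ t : ℝ, y ∈ U ×ˢ Ioo (-d2) d2 → |t| < δ ∧ G (y.1, t) = y.2 := by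
    intro y
    by_cases hy : y ∈ U ×ˢ Ioo (-d2) d2
    · obtain ⟨t, ht, ht'⟩ := hsurj y.1 hy.1 y.2 (abs_lt.2 hy.2)
      exact ⟨t, fun _ => ⟨ht, ht'⟩⟩
    · exact ⟨0, fun h => absurd h hy⟩
  choose c hc using hch
  have hopen : IsOpen (U ×ˢ Ioo (-d2) d2) := hU.prod isOpen_Ioo
  have hopenG : IsOpen (U ×ˢ Ioo (-δ) δ) := hU.prod isOpen_Ioo
  have hcd : ∀ y ∈ U ×ˢ Ioo (-d2) d2, ContDiffAt ℝ 1 c y := by
    intro y hy
    obtain ⟨h1, h2⟩ := hc y hy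
    have hmem : (y.1, c y) ∈ U ×ˢ Ioo (-δ) δ := ⟨hy.1, abs_lt.1 h1⟩
    have hGat : ContDiffAt ℝ 1 G (y.1, c y) := hG.contDiffAt (hopenG.mem_nhds hmem)
    have hΦ : ContDiffAt ℝ 1 (fun p : ℂ × ℝ => (p.1, G p)) (y.1, c y) :=
      contDiffAt_fst.prodMk hGat
    have hne : fderiv ℝ G (y.1, c y) (0, 1) ≠ 0 := (hpos _ hmem).ne'
    have hΦ' : HasFDerivAt (fun p : ℂ × ℝ => (p.1, G p))
        (fibEquiv (fderiv ℝ G (y.1, c y)) hne : (ℂ × ℝ) →L[ℝ] (ℂ × ℝ)) (y.1, c y) := by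
      rw [fibEquiv_coe]
      exact hasFDerivAt_fst.prodMk (hGat.differentiableAt one_ne_zero).hasFDerivAt
    have hn : (1 : WithTop ℕ∞) ≠ 0 := one_ne_zero
    have hy' : (fun p : ℂ × ℝ => (p.1, G p)) (y.1, c y) = y := by
      simp only [h2]
    have hloc := hΦ.to_localInverse hΦ' hn
    have hS := hΦ.hasStrictFDerivAt' hΦ' hn
    have hright := hS.eventually_right_inverse
    have htend := hS.localInverse_tendsto
    have hy2 : ((y.1, G (y.1, c y)) : ℂ × ℝ) = y := hy'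
    simp only [hy2] at hloc hright htend
    have hin : ∀ᶠ w in 𝓝 y, hS.localInverse _ _ _ w ∈ U ×ˢ Ioo (-δ) δ :=
      htend (hopenG.mem_nhds hmem)
    have heq : c =ᶠ[𝓝 y] fun w => (hΦ.localInverse hΦ' hn w).2 := by
      filter_upwards [hright, hin, hopen.mem_nhds hy] with w hw1 hw2 hw3
      have e1 := congrArg (Prod.fst : ℂ × ℝ → ℂ) hw1
      have e2 := congrArg (Prod.snd : ℂ × ℝ → ℝ) hw1
      dsimp only at e1 e2
      obtain ⟨h3, h4⟩ := hc w hw3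
      have e3 : hS.localInverse _ _ _ w = (w.1, (hS.localInverse _ _ _ w).2) := by
        rw [← e1]
      refine fib_inj hU hG hpos hw3.1 h3 (abs_lt.2 hw2.2) ?_
      rw [h4, ← e2]
      exact congrArg G e3
    exact (contDiffAt_snd.comp y hloc).congr_of_eventuallyEq heq
  refine ⟨c, fun y hy => (hcd y hy).contDiffWithinAt, hc, ?_, ?_⟩
  · intro z hz t ht hGt
    obtain ⟨h1, h2⟩ := hc (z, G (z, t)) ⟨hz, abs_lt.1 hGt⟩
    exact fib_inj hU hG hpos hz h1 ht h2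
  · intro y hy ζ s
    obtain ⟨h1, h2⟩ := hc y hy
    have hmem : (y.1, c y) ∈ U ×ˢ Ioo (-δ) δ := ⟨hy.1, abs_lt.1 h1⟩
    have hGat : HasFDerivAt G (fderiv ℝ G (y.1, c y)) (y.1, c y) :=
      ((hG.contDiffAt (hopenG.mem_nhds hmem)).differentiableAt one_ne_zero).hasFDerivAt
    have hcat : HasFDerivAt c (fderiv ℝ c y) y :=
      ((hcd y hy).differentiableAt one_ne_zero).hasFDerivAt
    have hcomp : HasFDerivAt (fun w : ℂ × ℝ => G (w.1, c w))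
        ((fderiv ℝ G (y.1, c y)).comp ((ContinuousLinearMap.fst ℝ ℂ ℝ).prod (fderiv ℝ c y))) y :=
      HasFDerivAt.comp y (f := fun w : ℂ × ℝ => (w.1, c w)) hGat (hasFDerivAt_fst.prodMk hcat)
    have hsnd : HasFDerivAt (fun w : ℂ × ℝ => G (w.1, c w)) (ContinuousLinearMap.snd ℝ ℂ ℝ) y := by
      refine hasFDerivAt_snd.congr_of_eventuallyEq ?_
      filter_upwards [hopen.mem_nhds hy] with w hw
      exact (hc w hw).2
    have huniq := hcomp.unique hsnd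
    have h3 := congrArg (fun L : ℂ × ℝ →L[ℝ] ℝ => L (ζ, s)) huniq
    simp only [ContinuousLinearMap.comp_apply, ContinuousLinearMap.prod_apply,
      ContinuousLinearMap.coe_fst', ContinuousLinearMap.coe_snd'] at h3
    have hdec : ((ζ, fderiv ℝ c y (ζ, s)) : ℂ × ℝ) =
        (ζ, 0) + fderiv ℝ c y (ζ, s) • ((0, 1) : ℂ × ℝ) := by simp
    rw [hdec, map_add, map_smul, smul_eq_mul] at h3
    have hne : fderiv ℝ G (y.1, c y) (0, 1) ≠ 0 := (hpos _ hmem).ne'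
    rw [eq_div_iff hne]
    linarith

end Pool.Agent.helper35.FOL
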