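import Pool.Agent.helper35.FOL.P01
import Pool.Agent.helper35.FOL.P05

/-!
# FOL-P03: local transport along the leaves of the plane field

`P (z, w, t)` is the height over `w` of the leaf through `(z, t)`, for `‖w - z‖ < r`, `|t| < δ`.

Proof. For every `z*` in the compact set `K = closure (combM (1/80))` (contained in
`combM (1/100)`) take a first integral `u` near `(z*, 0)` (`hA.integrable`), defined, `C¹`, with
`∂ₓu > 0` and `Du (ζ, A ζ) = 0` on a product neighbourhood `ball z* (2 r*) × (-δ*, δ*)`; shrink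
`δ*` and `r*` so that for `z, w ∈ ball z* (2 r*)`, `|t| < δ'*`, the equation `u (w, x) = u (z, t)`
has a unique solution `x ∈ (-δ*, δ*)`: it depends `C¹` on `(z, w, t)` (implicit function theorem,
`∂ₓu > 0`), and `u (z, 0) = u (w, 0)` because `A (·, 0) = 0`.  Finite subcover / Lebesgue number
give uniform `r` and `δ`.  Independence of the chosen `u`: if `u, u'` are two first integrals on a
product (ball × interval), then `w ↦ u' (w, P (z, w, t))` has derivative zero (chain rule and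
`∂_w P = A (w, P)`) on the ball (convex), so it is `u' (z, t)`.  Cocycle: same argument (all three
points lie in one ball of the cover).  Note that `ball z (1/80 - 1/100) ⊆ combM (1/100)` for
`z ∈ combM (1/80)` (`ball_subset_combM`), so segments from `z` to `w` are harmless.
-/

open Set Filter Topology
open scoped ContDiff commutatorElement

namespace Pool.Agent.helper35.FOL

theorem P03_hasDerivAt_snd_of {u : ℂ × ℝ → ℝ} {v : ℂ} {x : ℝ} (h : DifferentiableAt ℝ u (v, x)) :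
    HasDerivAt (fun x => u (v, x)) (fderiv ℝ u (v, x) (0, 1)) x := by
  have h1 : HasDerivAt (fun x : ℝ => ((v, x) : ℂ × ℝ)) (0, 1) x :=
    (hasDerivAt_const x v).prodMk (hasDerivAt_id x)
  exact h.hasFDerivAt.comp_hasDerivAt x h1

/-- Near a point there is a first integral with uniform bounds on its vertical derivative. -/
theorem P03_exists_good_ball {d : ℝ} {A : ℂ × ℝ → ℂ →L[ℝ] ℝ} (hA : PlaneData d A) {y : ℂ × ℝ}
    (hy : y ∈ box (1 / 100) d) :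
    ∃ (u : ℂ × ℝ → ℝ) (ε a : ℝ), 0 < ε ∧ 0 < a ∧ ∀ y' ∈ Metric.ball y ε,
      ContDiffAt ℝ 1 u y' ∧ y' ∈ box (1 / 100) d ∧ (∀ ζ, fderiv ℝ u y' (ζ, A y' ζ) = 0) ∧
      a / 2 < fderiv ℝ u y' (0, 1) ∧ fderiv ℝ u y' (0, 1) < 2 * a := by
  obtain ⟨u, hu, hev⟩ := hA.integrable y hy
  have ha : 0 < fderiv ℝ u y (0, 1) := hev.self_of_nhds.1
  have h1 : ∀ᶠ y' in 𝓝 y, ContDiffAt ℝ 1 u y' := hu.eventually (by simp)
  have h2 : ∀ᶠ y' in 𝓝 y, y' ∈ box (1 / 100) d := (isOpen_box _ _).mem_nhds hy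
  have hc : ContinuousAt (fderiv ℝ u) y := by
    have := hu.fderiv_right (m := 0) (by simp)
    exact this.continuousAt
  have hc2 : ContinuousAt (fun y' => fderiv ℝ u y' (0, 1)) y := hc.clm_apply continuousAt_const
  have h3 : ∀ᶠ y' in 𝓝 y, fderiv ℝ u y (0, 1) / 2 < fderiv ℝ u y' (0, 1) :=
    hc2.eventually_const_lt (by linarith)
  have h4 : ∀ᶠ y' in 𝓝 y, fderiv ℝ u y' (0, 1) < 2 * fderiv ℝ u y (0, 1) :=
    hc2.eventually_lt_const (by linarith)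
  obtain ⟨ε, hε, hball⟩ := Metric.eventually_nhds_iff_ball.1
    (h1.and (h2.and (hev.and (h3.and h4))))
  refine ⟨u, ε, fderiv ℝ u y (0, 1), hε, ha, fun y' hy' => ?_⟩
  obtain ⟨k1, k2, k3, k4, k5⟩ := hball y' hy'
  exact ⟨k1, k2, k3.2, k4, k5⟩

theorem P03_mem_ball_prod {y : ℂ × ℝ} {ε : ℝ} {v : ℂ} {x : ℝ} :
    (v, x) ∈ Metric.ball y ε ↔ v ∈ Metric.ball y.1 ε ∧ x ∈ Metric.ball y.2 ε := by
  obtain ⟨y1, y2⟩ := y
  rw [← ball_prod_same, mem_prod]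

/-- Bounds for the vertical increments. -/
theorem P03_incr_bounds {u : ℂ × ℝ → ℝ} {y : ℂ × ℝ} {ε m M : ℝ}
    (hu : ∀ y' ∈ Metric.ball y ε, ContDiffAt ℝ 1 u y' ∧ m < fderiv ℝ u y' (0, 1) ∧
      fderiv ℝ u y' (0, 1) < M) {v : ℂ} {x1 x2 : ℝ} (h1 : (v, x1) ∈ Metric.ball y ε)
    (h2 : (v, x2) ∈ Metric.ball y ε) (h12 : x1 ≤ x2) :
    m * (x2 - x1) ≤ u (v, x2) - u (v, x1) ∧ u (v, x2) - u (v, x1) ≤ M * (x2 - x1) := by
  have hmem : ∀ x ∈ Icc x1 x2, (v, x) ∈ Metric.ball y ε := by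
    intro x hx
    rw [P03_mem_ball_prod] at h1 h2 ⊢
    refine ⟨h1.1, ?_⟩
    rw [Real.ball_eq_Ioo] at h1 h2 ⊢
    exact ⟨lt_of_lt_of_le h1.2.1 hx.1, lt_of_le_of_lt hx.2 h2.2.2⟩
  have hd : ∀ x ∈ Icc x1 x2, HasDerivAt (fun x => u (v, x)) (fderiv ℝ u (v, x) (0, 1)) x :=
    fun x hx => P03_hasDerivAt_snd_of ((hu _ (hmem x hx)).1.differentiableAt one_ne_zero)
  have hcont : ContinuousOn (fun x => u (v, x)) (Icc x1 x2) :=
    fun x hx => (hd x hx).continuousAt.continuousWithinAt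
  have hdiff : DifferentiableOn ℝ (fun x => u (v, x)) (interior (Icc x1 x2)) :=
    fun x hx => (hd x (interior_subset hx)).differentiableAt.differentiableWithinAt
  constructor
  · exact (convex_Icc x1 x2).mul_sub_le_image_sub_of_le_deriv hcont hdiff
      (fun x hx => by rw [(hd x (interior_subset hx)).deriv]; exact (hu _ (hmem x (interior_subset hx))).2.1.le)
      x1 ⟨le_rfl, h12⟩ x2 ⟨h12, le_rfl⟩ h12
  · exact (convex_Icc x1 x2).image_sub_le_mul_sub_of_deriv_le hcont hdiff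
      (fun x hx => by rw [(hd x (interior_subset hx)).deriv]; exact (hu _ (hmem x (interior_subset hx))).2.2.le)
      x1 ⟨le_rfl, h12⟩ x2 ⟨h12, le_rfl⟩ h12

/-- A first integral is constant along a graph solution. -/
theorem P03_const_along {A : ℂ × ℝ → ℂ →L[ℝ] ℝ} {u : ℂ × ℝ → ℝ} {y : ℂ × ℝ} {ε : ℝ}
    (hu : ∀ y' ∈ Metric.ball y ε, ContDiffAt ℝ 1 u y' ∧ ∀ ζ, fderiv ℝ u y' (ζ, A y' ζ) = 0)
    {f : ℂ → ℝ} {B : Set ℂ} (hB : IsOpen B) (hBc : Convex ℝ B)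
    (hf : ∀ v ∈ B, HasFDerivAt f (A (v, f v)) v) (hm : ∀ v ∈ B, (v, f v) ∈ Metric.ball y ε)
    {v w : ℂ} (hv : v ∈ B) (hw : w ∈ B) : u (v, f v) = u (w, f w) := by
  have hd : ∀ v ∈ B, HasFDerivAt (fun v => u (v, f v)) (0 : ℂ →L[ℝ] ℝ) v := by
    intro v hv
    have h1 : HasFDerivAt (fun v => (v, f v)) ((ContinuousLinearMap.id ℝ ℂ).prod (A (v, f v))) v :=
      (hasFDerivAt_id v).prodMk (hf v hv)
    have h2 := ((hu _ (hm v hv)).1.differentiableAt one_ne_zero).hasFDerivAt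
    have h3 := h2.comp v h1
    have h4 : (fderiv ℝ u (v, f v)).comp ((ContinuousLinearMap.id ℝ ℂ).prod (A (v, f v))) = 0 := by
      refine ContinuousLinearMap.ext fun ζ => ?_
      simpa using (hu _ (hm v hv)).2 ζ
    rw [h4] at h3
    exact h3
  exact hB.is_const_of_fderiv_eq_zero hBc.isPreconnected
    (fun v hv => (hd v hv).differentiableAt.differentiableWithinAt)
    (fun v hv => (hd v hv).fderiv) hv hw

theorem P03_local_unique {d : ℝ} {A : ℂ × ℝ → ℂ →L[ℝ] ℝ} (hA : PlaneData d A) {f g : ℂ → ℝ}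
    {B : Set ℂ} (hB : IsOpen B) (hBc : B ⊆ combM (1 / 100))
    (hf : ∀ v ∈ B, HasFDerivAt f (A (v, f v)) v) (hg : ∀ v ∈ B, HasFDerivAt g (A (v, g v)) v)
    (hfd : ∀ v ∈ B, |f v| < d) {v0 : ℂ} (hv0 : v0 ∈ B) (h0 : f v0 = g v0) :
    ∀ᶠ v in 𝓝 v0, f v = g v := by
  have hy : (v0, f v0) ∈ box (1 / 100) d := ⟨hBc hv0, abs_lt.1 (hfd v0 hv0)⟩
  obtain ⟨u, ε, a, hε, ha, hu⟩ := P03_exists_good_ball hA hy
  have hcf : ContinuousAt (fun v => (v, f v)) v0 := continuousAt_id.prodMk (hf v0 hv0).continuousAt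
  have hcg : ContinuousAt (fun v => (v, g v)) v0 := continuousAt_id.prodMk (hg v0 hv0).continuousAt
  have e1 : ∀ᶠ v in 𝓝 v0, (v, f v) ∈ Metric.ball (v0, f v0) ε :=
    hcf (Metric.ball_mem_nhds _ hε)
  have e2 : ∀ᶠ v in 𝓝 v0, (v, g v) ∈ Metric.ball (v0, f v0) ε := by
    rw [h0]
    exact hcg (Metric.ball_mem_nhds _ hε)
  have e3 : ∀ᶠ v in 𝓝 v0, v ∈ B := hB.mem_nhds hv0
  obtain ⟨δ, hδ, hball⟩ := Metric.eventually_nhds_iff_ball.1 (e1.and (e2.and e3))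
  refine Metric.eventually_nhds_iff_ball.2 ⟨δ, hδ, fun v hv => ?_⟩
  have k0 : v0 ∈ Metric.ball v0 δ := Metric.mem_ball_self hδ
  have k1 : u (v, f v) = u (v0, f v0) :=
    P03_const_along (A := A) (fun y' hy' => ⟨(hu y' hy').1, (hu y' hy').2.2.1⟩) Metric.isOpen_ball
      (convex_ball v0 δ) (fun v hv => hf v (hball v hv).2.2) (fun v hv => (hball v hv).1) hv k0
  have k2 : u (v, g v) = u (v0, g v0) :=
    P03_const_along (A := A) (fun y' hy' => ⟨(hu y' hy').1, (hu y' hy').2.2.1⟩) Metric.isOpen_ball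
      (convex_ball v0 δ) (fun v hv => hg v (hball v hv).2.2) (fun v hv => (hball v hv).2.1) hv k0
  have k3 : u (v, f v) = u (v, g v) := by rw [k1, k2, h0]
  have hu' : ∀ y' ∈ Metric.ball (v0, f v0) ε, ContDiffAt ℝ 1 u y' ∧ a / 2 < fderiv ℝ u y' (0, 1) ∧
      fderiv ℝ u y' (0, 1) < 2 * a := fun y' hy' => ⟨(hu y' hy').1, (hu y' hy').2.2.2⟩
  rcases le_total (f v) (g v) with h | h
  · have := (P03_incr_bounds hu' (hball v hv).1 (hball v hv).2.1 h).1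
    nlinarith
  · have := (P03_incr_bounds hu' (hball v hv).2.1 (hball v hv).1 h).1
    nlinarith

/-- Uniqueness of graph solutions on convex sets. -/
theorem P03_graph_unique {d : ℝ} {A : ℂ × ℝ → ℂ →L[ℝ] ℝ} (hA : PlaneData d A) {f g : ℂ → ℝ}
    {B : Set ℂ} (hB : IsOpen B) (hBv : Convex ℝ B) (hBc : B ⊆ combM (1 / 100))
    (hf : ∀ v ∈ B, HasFDerivAt f (A (v, f v)) v) (hg : ∀ v ∈ B, HasFDerivAt g (A (v, g v)) v)
    (hfd : ∀ v ∈ B, |f v| < d) {v0 v1 : ℂ} (hv0 : v0 ∈ B) (hv1 : v1 ∈ B) (h0 : f v0 = g v0) :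
    f v1 = g v1 := by
  have hγ : Continuous (fun s : ℝ => v0 + s • (v1 - v0)) := by fun_prop
  have hγB : ∀ s ∈ Icc (0 : ℝ) 1, v0 + s • (v1 - v0) ∈ B := by
    intro s hs
    exact hBv.add_smul_sub_mem hv0 hv1 hs
  have hcf : ContinuousOn (fun s : ℝ => f (v0 + s • (v1 - v0)) - g (v0 + s • (v1 - v0)))
      (Icc 0 1) := by
    intro s hs
    have h1 := (hf _ (hγB s hs)).continuousAt
    have h2 := (hg _ (hγB s hs)).continuousAt
    have h3 : ContinuousAt (fun s : ℝ => f (v0 + s • (v1 - v0))) s :=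
      ContinuousAt.comp (g := f) (f := fun s : ℝ => v0 + s • (v1 - v0)) h1 hγ.continuousAt
    have h4 : ContinuousAt (fun s : ℝ => g (v0 + s • (v1 - v0))) s :=
      ContinuousAt.comp (g := g) (f := fun s : ℝ => v0 + s • (v1 - v0)) h2 hγ.continuousAt
    exact (h3.sub h4).continuousWithinAt
  have hclosed : IsClosed ({s : ℝ | f (v0 + s • (v1 - v0)) = g (v0 + s • (v1 - v0))} ∩
      Icc (0 : ℝ) 1) := by
    have := hcf.preimage_isClosed_of_isClosed isClosed_Icc (isClosed_singleton (x := (0 : ℝ)))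
    convert this using 1
    ext s
    simp [sub_eq_zero, and_comm]
  have := hclosed.Icc_subset_of_forall_mem_nhdsWithin (by simpa using h0) (fun s hs => by
    have h1 := P03_local_unique hA hB hBc hf hg hfd (hγB s ⟨hs.2.1, hs.2.2.le⟩) hs.1
    have h2 : ∀ᶠ s' in 𝓝 s, f (v0 + s' • (v1 - v0)) = g (v0 + s' • (v1 - v0)) :=
      hγ.continuousAt.eventually h1
    exact mem_nhdsWithin_of_mem_nhds h2)
  have h1 := this ⟨zero_le_one, le_rfl⟩
  simpa using h1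


/-- Local transport. -/
theorem P03_local_transport {d : ℝ} {A : ℂ × ℝ → ℂ →L[ℝ] ℝ} (hA : PlaneData d A) {zs : ℂ}
    (hz : zs ∈ combM (1 / 100)) :
    ∃ (ρ δ : ℝ) (P : ℂ × ℂ × ℝ → ℝ), 0 < ρ ∧ 0 < δ ∧ Metric.ball zs ρ ⊆ combM (1 / 100) ∧
      ∀ z ∈ Metric.ball zs ρ, ∀ w ∈ Metric.ball zs ρ, ∀ t, |t| < δ →
        ContDiffAt ℝ 1 P (z, w, t) ∧ |P (z, w, t)| < d ∧ |P (z, w, t)| ≤ 4 * |t| ∧
        (∀ ζ : ℂ, fderiv ℝ P (z, w, t) (0, ζ, 0) = A (w, P (z, w, t)) ζ) ∧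
        0 < fderiv ℝ P (z, w, t) (0, 0, 1) ∧ P (z, z, t) = t := by
  have hd := hA.pos
  have hy : (zs, (0 : ℝ)) ∈ box (1 / 100) d := ⟨hz, by constructor <;> simp [hd]⟩
  obtain ⟨u, ε, a, hε, ha, hu⟩ := P03_exists_good_ball hA hy
  have hmem : ∀ v ∈ Metric.ball zs ε, ∀ x, |x| < ε → (v, x) ∈ Metric.ball (zs, (0 : ℝ)) ε := by
    intro v hv x hx
    rw [P03_mem_ball_prod]
    exact ⟨hv, by simpa [Real.norm_eq_abs] using hx⟩
  have hsub : Metric.ball zs ε ⊆ combM (1 / 100) := fun v hv =>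
    (hu _ (hmem v hv 0 (by simpa using hε))).2.1.1
  set c0 : ℝ := u (zs, 0) with hc0
  set G : ℂ × ℝ → ℝ := fun y => u y - c0 with hG
  have hGd : ∀ y ∈ Metric.ball (zs, (0 : ℝ)) ε, ContDiffAt ℝ 1 G y ∧ fderiv ℝ G y = fderiv ℝ u y := by
    intro y hy
    refine ⟨(hu y hy).1.sub contDiffAt_const, ?_⟩
    rw [hG, fderiv_sub_const]
  have hzero : ∀ v ∈ Metric.ball zs ε, G (v, 0) = 0 := by
    intro v hv
    have := P03_const_along (A := A) (f := fun _ => 0) (y := (zs, (0 : ℝ))) (ε := ε)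
      (fun y' hy' => ⟨(hu y' hy').1, (hu y' hy').2.2.1⟩) Metric.isOpen_ball
      (convex_ball zs ε) (fun v hv => by
        rw [hA.zero v (hsub hv)]; exact hasFDerivAt_const _ _)
      (fun v hv => hmem v hv 0 (by simpa using hε)) hv (Metric.mem_ball_self hε)
    simp only [hG]
    rw [hc0, this, sub_self]
  have hinc : ∀ v ∈ Metric.ball zs ε, ∀ x1 x2, |x1| < ε → |x2| < ε → x1 ≤ x2 →
      a / 2 * (x2 - x1) ≤ G (v, x2) - G (v, x1) ∧ G (v, x2) - G (v, x1) ≤ 2 * a * (x2 - x1) := by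
    intro v hv x1 x2 h1 h2 h12
    have := P03_incr_bounds (u := u) (y := (zs, (0 : ℝ))) (ε := ε) (m := a / 2) (M := 2 * a)
      (fun y' hy' => ⟨(hu y' hy').1, (hu y' hy').2.2.2⟩) (hmem v hv x1 h1) (hmem v hv x2 h2) h12
    simp only [hG]
    constructor <;> linarith [this.1, this.2]
  have habs : ∀ v ∈ Metric.ball zs ε, ∀ x, |x| < ε →
      a / 2 * |x| ≤ |G (v, x)| ∧ |G (v, x)| ≤ 2 * a * |x| := by
    intro v hv x hx
    have h0 := hzero v hv
    rcases le_total 0 x with h | h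
    · have := hinc v hv 0 x (by simpa using hε) hx h
      rw [h0] at this
      rw [abs_of_nonneg h]
      have h5 : 0 ≤ G (v, x) := by nlinarith [this.1]
      rw [abs_of_nonneg h5]
      constructor <;> linarith [this.1, this.2]
    · have := hinc v hv x 0 hx (by simpa using hε) h
      rw [h0] at this
      rw [abs_of_nonpos h]
      have h5 : G (v, x) ≤ 0 := by nlinarith [this.1]
      rw [abs_of_nonpos h5]
      constructor <;> linarith [this.1, this.2]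
  have hbox : ∀ y, y ∈ Metric.ball zs ε ×ˢ Ioo (-ε) ε ↔ y ∈ Metric.ball (zs, (0 : ℝ)) ε := by
    intro y
    obtain ⟨v, x⟩ := y
    rw [P03_mem_ball_prod, mem_prod, Real.ball_eq_Ioo]
    simp
  have hGc : ContDiffOn ℝ 1 G (Metric.ball zs ε ×ˢ Ioo (-ε) ε) := fun y hy =>
    (hGd y ((hbox y).1 hy)).1.contDiffWithinAt
  obtain ⟨c, hc1, hc2, hc3, hc4⟩ := inv_fiber (U := Metric.ball zs ε) (δ := ε) (d2 := a * ε / 4)
    (G := G) Metric.isOpen_ball hGc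
    (fun y hy => by
      rw [(hGd y ((hbox y).1 hy)).2]
      have := (hu y ((hbox y).1 hy)).2.2.2.1
      linarith)
    (fun v hv x hx => by
      have hcont : ContinuousOn (fun t => G (v, t)) (Icc (-(ε / 2)) (ε / 2)) := by
        intro t ht
        have h1 := (hGd (v, t) (hmem v hv t (by rw [abs_lt]; constructor <;> linarith [ht.1, ht.2]))).1
        have h2 := (P03_hasDerivAt_snd_of (h1.differentiableAt one_ne_zero)).continuousAt
        exact h2.continuousWithinAt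
      have h1 := (hinc v hv 0 (ε / 2) (by simpa using hε)
        (by rw [abs_of_pos (by linarith)]; linarith) (by linarith)).1
      have h2 := (hinc v hv (-(ε / 2)) 0 (by rw [abs_neg, abs_of_pos (by linarith)]; linarith)
        (by simpa using hε) (by linarith)).1
      rw [hzero v hv] at h1 h2
      rw [abs_lt] at hx
      have h3 : x ∈ Icc (G (v, -(ε / 2))) (G (v, ε / 2)) := by
        constructor <;> nlinarith [hx.1, hx.2]
      obtain ⟨t, ht, hGt⟩ := intermediate_value_Icc (by linarith) hcont h3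
      exact ⟨t, by rw [abs_lt]; constructor <;> linarith [ht.1, ht.2], hGt⟩)
  refine ⟨ε, ε / 8, fun q => c (q.2.1, G (q.1, q.2.2)), hε, by linarith, hsub, ?_⟩
  intro z hz w hw t ht
  have htε : |t| < ε := by linarith [abs_nonneg t]
  have hGt := habs z hz t htε
  have hGt2 : |G (z, t)| < a * ε / 4 := by nlinarith [hGt.2]
  have hmw : (w, G (z, t)) ∈ Metric.ball zs ε ×ˢ Ioo (-(a * ε / 4)) (a * ε / 4) :=
    ⟨hw, abs_lt.1 hGt2⟩
  have hopen : IsOpen (Metric.ball zs ε ×ˢ Ioo (-(a * ε / 4)) (a * ε / 4)) :=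
    Metric.isOpen_ball.prod isOpen_Ioo
  have hcAt : ContDiffAt ℝ 1 c (w, G (z, t)) := hc1.contDiffAt (hopen.mem_nhds hmw)
  have hGAt : ContDiffAt ℝ 1 G (z, t) := (hGd _ (hmem z hz t htε)).1
  have hcw := hc2 _ hmw
  have hcw1 : |c (w, G (z, t))| < ε := hcw.1
  have hcw2 : G (w, c (w, G (z, t))) = G (z, t) := hcw.2
  have hmw2 := hmem w hw _ hcw1
  have hin : ContDiffAt ℝ 1 (fun q : ℂ × ℂ × ℝ => (q.2.1, G (q.1, q.2.2))) (z, w, t) := by
    have h1 : ContDiffAt ℝ 1 (fun q : ℂ × ℂ × ℝ => (q.1, q.2.2)) (z, w, t) := by fun_prop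
    have h2 : ContDiffAt ℝ 1 (fun q : ℂ × ℂ × ℝ => G (q.1, q.2.2)) (z, w, t) :=
      ContDiffAt.comp (g := G) (f := fun q : ℂ × ℂ × ℝ => (q.1, q.2.2)) (z, w, t) hGAt h1
    have h3 : ContDiffAt ℝ 1 (fun q : ℂ × ℂ × ℝ => q.2.1) (z, w, t) := by fun_prop
    exact h3.prodMk h2
  have hP : ContDiffAt ℝ 1 (fun q : ℂ × ℂ × ℝ => c (q.2.1, G (q.1, q.2.2))) (z, w, t) :=
    ContDiffAt.comp (g := c) (f := fun q : ℂ × ℂ × ℝ => (q.2.1, G (q.1, q.2.2))) (z, w, t) hcAt hin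
  have hfd : ∀ (ζ : ℂ) (s : ℝ), fderiv ℝ (fun q : ℂ × ℂ × ℝ => c (q.2.1, G (q.1, q.2.2)))
      (z, w, t) (0, ζ, s) = fderiv ℝ c (w, G (z, t)) (ζ, fderiv ℝ G (z, t) (0, s)) := by
    intro ζ s
    have k1 : HasFDerivAt (fun q : ℂ × ℂ × ℝ => (q.1, q.2.2))
        ((ContinuousLinearMap.fst ℝ ℂ (ℂ × ℝ)).prod
          ((ContinuousLinearMap.snd ℝ ℂ ℝ).comp (ContinuousLinearMap.snd ℝ ℂ (ℂ × ℝ)))) (z, w, t) := by
      exact hasFDerivAt_fst.prodMk
        ((ContinuousLinearMap.snd ℝ ℂ ℝ).hasFDerivAt.comp (z, w, t) hasFDerivAt_snd)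
    have k2 : HasFDerivAt (fun q : ℂ × ℂ × ℝ => G (q.1, q.2.2)) _ (z, w, t) :=
      HasFDerivAt.comp (g := G) (z, w, t) (hGAt.differentiableAt one_ne_zero).hasFDerivAt k1
    have k3 : HasFDerivAt (fun q : ℂ × ℂ × ℝ => q.2.1)
        ((ContinuousLinearMap.fst ℝ ℂ ℝ).comp (ContinuousLinearMap.snd ℝ ℂ (ℂ × ℝ))) (z, w, t) :=
      (ContinuousLinearMap.fst ℝ ℂ ℝ).hasFDerivAt.comp (z, w, t) hasFDerivAt_snd
    have k4 : HasFDerivAt (fun q : ℂ × ℂ × ℝ => c (q.2.1, G (q.1, q.2.2))) _ (z, w, t) :=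
      HasFDerivAt.comp (g := c) (f := fun q : ℂ × ℂ × ℝ => (q.2.1, G (q.1, q.2.2))) (z, w, t)
        (hcAt.differentiableAt one_ne_zero).hasFDerivAt (k3.prodMk k2)
    rw [k4.fderiv]
    simp
  refine ⟨hP, ?_, ?_, ?_, ?_, ?_⟩
  · exact abs_lt.2 (hu _ hmw2).2.1.2
  · have h1 := (habs w hw _ hcw1).1
    rw [hcw2] at h1
    have h2 : a / 2 * |c (w, G (z, t))| ≤ a / 2 * (4 * |t|) := by linarith [hGt.2]
    exact le_of_mul_le_mul_left h2 (by linarith)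
  · intro ζ
    rw [hfd]
    have e0 : ((0 : ℂ), (0 : ℝ)) = 0 := rfl
    rw [e0, map_zero, hc4 _ hmw]
    simp only
    rw [(hGd _ hmw2).2]
    have h1 := (hu _ hmw2).2.2.1 ζ
    have h2 := (hu _ hmw2).2.2.2.1
    have h3 : fderiv ℝ u (w, c (w, G (z, t))) (ζ, A (w, c (w, G (z, t))) ζ) =
        fderiv ℝ u (w, c (w, G (z, t))) (ζ, 0) +
        A (w, c (w, G (z, t))) ζ * fderiv ℝ u (w, c (w, G (z, t))) (0, 1) := by
      have : ((ζ, A (w, c (w, G (z, t))) ζ) : ℂ × ℝ) = (ζ, 0) + A (w, c (w, G (z, t))) ζ • (0, 1) := by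
        simp
      rw [this, map_add, map_smul, smul_eq_mul]
    rw [h3] at h1
    rw [div_eq_iff (by linarith)]
    linarith
  · rw [hfd, hc4 _ hmw]
    simp only
    rw [(hGd _ hmw2).2, (hGd _ (hmem z hz t htε)).2]
    have h1 := (hu _ hmw2).2.2.2.1
    have h2 := (hu _ (hmem z hz t htε)).2.2.2.1
    have e0 : ((0 : ℂ), (0 : ℝ)) = 0 := rfl
    rw [e0, map_zero, sub_zero]
    exact div_pos (by linarith) (by linarith)
  · exact hc3 z hz t htε hGt2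


theorem P03_exists_pos_le {ι : Type*} (t : Finset ι) (f : ι → ℝ) (hf : ∀ x ∈ t, 0 < f x) {b : ℝ}
    (hb : 0 < b) : ∃ r : ℝ, 0 < r ∧ r ≤ b ∧ ∀ x ∈ t, r ≤ f x := by
  classical
  induction t using Finset.induction_on with
  | empty => exact ⟨b, hb, le_rfl, by simp⟩
  | insert x t hx ih =>
    obtain ⟨r, h1, h2, h3⟩ := ih (fun y hy => hf y (Finset.mem_insert_of_mem hy))
    refine ⟨min r (f x), lt_min h1 (hf x (Finset.mem_insert_self _ _)), (min_le_left _ _).trans h2, ?_⟩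
    intro y hy
    rcases Finset.mem_insert.1 hy with h | h
    · rw [h]; exact min_le_right _ _
    · exact (min_le_left _ _).trans (h3 y h)

theorem P03_hasFDerivAt_slice {P : ℂ × ℂ × ℝ → ℝ} {z w : ℂ} {t : ℝ} {L : ℂ →L[ℝ] ℝ}
    (hP : DifferentiableAt ℝ P (z, w, t)) (hL : ∀ ζ : ℂ, fderiv ℝ P (z, w, t) (0, ζ, 0) = L ζ) :
    HasFDerivAt (fun w => P (z, w, t)) L w := by
  have h1 : HasFDerivAt (fun w : ℂ => ((z, w, t) : ℂ × ℂ × ℝ))
      ((0 : ℂ →L[ℝ] ℂ).prod ((ContinuousLinearMap.id ℝ ℂ).prod (0 : ℂ →L[ℝ] ℝ))) w :=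
    (hasFDerivAt_const z w).prodMk ((hasFDerivAt_id w).prodMk (hasFDerivAt_const t w))
  have h2 := HasFDerivAt.comp (g := P) w hP.hasFDerivAt h1
  have h3 : (fderiv ℝ P (z, w, t)).comp
      ((0 : ℂ →L[ℝ] ℂ).prod ((ContinuousLinearMap.id ℝ ℂ).prod (0 : ℂ →L[ℝ] ℝ))) = L := by
    refine ContinuousLinearMap.ext fun ζ => ?_
    simpa using hL ζ
  rw [h3] at h2
  exact h2

theorem exists_transport {d : ℝ} {A : ℂ × ℝ → ℂ →L[ℝ] ℝ} (hA : PlaneData d A) :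
    ∃ r δ C : ℝ, 0 < r ∧ r ≤ 1 / 1000 ∧ 0 < δ ∧ δ ≤ d ∧ 1 ≤ C ∧ ∃ P : ℂ × ℂ × ℝ → ℝ,
      ContDiffOn ℝ 1 P {q | q.1 ∈ combM (1 / 80) ∧ ‖q.2.1 - q.1‖ < r ∧ |q.2.2| < δ} ∧
      (∀ z ∈ combM (1 / 80), ∀ w, ‖w - z‖ < r → ∀ t, |t| < δ →
        |P (z, w, t)| < d ∧ |P (z, w, t)| ≤ C * |t| ∧
        (∀ ζ : ℂ, fderiv ℝ P (z, w, t) (0, ζ, 0) = A (w, P (z, w, t)) ζ) ∧
        0 < fderiv ℝ P (z, w, t) (0, 0, 1)) ∧
      (∀ z ∈ combM (1 / 80), ∀ t, |t| < δ → P (z, z, t) = t) ∧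
      (∀ z ∈ combM (1 / 80), ∀ w ∈ combM (1 / 80), ∀ v, ‖w - z‖ < r → ‖v - z‖ < r → ‖v - w‖ < r →
        ∀ t, |t| < δ → |P (z, w, t)| < δ → P (w, v, P (z, w, t)) = P (z, v, t)) := by
  classical
  have hloc : ∀ zs : ℂ, zs ∈ combM (1 / 100) → ∃ (ρ δ : ℝ) (P : ℂ × ℂ × ℝ → ℝ), 0 < ρ ∧ 0 < δ ∧
      Metric.ball zs ρ ⊆ combM (1 / 100) ∧
      ∀ z ∈ Metric.ball zs ρ, ∀ w ∈ Metric.ball zs ρ, ∀ t, |t| < δ →
        ContDiffAt ℝ 1 P (z, w, t) ∧ |P (z, w, t)| < d ∧ |P (z, w, t)| ≤ 4 * |t| ∧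
        (∀ ζ : ℂ, fderiv ℝ P (z, w, t) (0, ζ, 0) = A (w, P (z, w, t)) ζ) ∧
        0 < fderiv ℝ P (z, w, t) (0, 0, 1) ∧ P (z, z, t) = t := fun zs hz => P03_local_transport hA hz
  choose! ρ δs Ps hρ hδs hsub hPs using hloc
  have hK : IsCompact (closure (combM (1 / 80))) := isCompact_closure_combM _
  have hKs : closure (combM (1 / 80)) ⊆ combM (1 / 100) :=
    closure_combM_subset (by norm_num) (by norm_num) (by norm_num)
  obtain ⟨T, hT1, hT2⟩ := hK.elim_nhds_subcover (fun z => Metric.ball z (ρ z / 2))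
    (fun z hz => Metric.ball_mem_nhds _ (by have := hρ z (hKs hz); linarith))
  obtain ⟨r, hr0, hr1, hr2⟩ := P03_exists_pos_le T (fun z => ρ z / 2)
    (fun z hz => by have := hρ z (hKs (hT1 z hz)); linarith) (b := 1 / 1000) (by norm_num)
  obtain ⟨δ, hδ0, hδ1, hδ2⟩ := P03_exists_pos_le T δs (fun z hz => hδs z (hKs (hT1 z hz))) hA.pos
  have hcov : ∀ z : ℂ, z ∈ combM (1 / 80) → ∃ s : ℂ, s ∈ T ∧ z ∈ Metric.ball s (ρ s / 2) := by
    intro z hz
    have := hT2 (subset_closure hz)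
    simp only [mem_iUnion, exists_prop] at this
    exact this
  choose! i hi1 hi2 using hcov
  have hballr : ∀ z ∈ combM (1 / 80), Metric.ball z r ⊆ combM (1 / 100) := by
    intro z hz
    refine (Metric.ball_subset_ball ?_).trans
      (ball_subset_combM (h := 1 / 100) (h' := 1 / 80) (by norm_num) (by norm_num) (by norm_num) hz)
    linarith
  -- membership
  have hm : ∀ z ∈ combM (1 / 80), ∀ s ∈ T, z ∈ Metric.ball s (ρ s / 2) → ∀ w, ‖w - z‖ < r →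
      z ∈ Metric.ball s (ρ s) ∧ w ∈ Metric.ball s (ρ s) := by
    intro z hz s hs hzs w hw
    rw [Metric.mem_ball] at hzs ⊢
    rw [Metric.mem_ball]
    have h1 := hρ s (hKs (hT1 s hs))
    have h2 := hr2 s hs
    constructor
    · linarith
    · have := dist_triangle w z s
      rw [dist_eq_norm w z] at this
      linarith
  -- agreement of the local transports
  have hagree : ∀ z ∈ combM (1 / 80), ∀ s ∈ T, ∀ s' ∈ T, z ∈ Metric.ball s (ρ s / 2) →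
      z ∈ Metric.ball s' (ρ s' / 2) → ∀ w, ‖w - z‖ < r → ∀ t, |t| < δ →
      Ps s (z, w, t) = Ps s' (z, w, t) := by
    intro z hz s hs s' hs' h1 h2 w hw t ht
    have m1 := hm z hz s hs h1 w hw
    have m2 := hm z hz s' hs' h2 w hw
    have p1 := hPs s (hKs (hT1 s hs)) z m1.1
    have p2 := hPs s' (hKs (hT1 s' hs')) z m2.1
    have t1 : |t| < δs s := lt_of_lt_of_le ht (hδ2 s hs)
    have t2 : |t| < δs s' := lt_of_lt_of_le ht (hδ2 s' hs')
    exact P03_graph_unique hA (f := fun v => Ps s (z, v, t)) (g := fun v => Ps s' (z, v, t))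
      (B := Metric.ball s (ρ s) ∩ Metric.ball s' (ρ s')) (Metric.isOpen_ball.inter Metric.isOpen_ball)
      ((convex_ball _ _).inter (convex_ball _ _))
      (inter_subset_left.trans (hsub s (hKs (hT1 s hs))))
      (fun v hv => P03_hasFDerivAt_slice ((p1 v hv.1 t t1).1.differentiableAt one_ne_zero)
        (p1 v hv.1 t t1).2.2.2.1)
      (fun v hv => P03_hasFDerivAt_slice ((p2 v hv.2 t t2).1.differentiableAt one_ne_zero)
        (p2 v hv.2 t t2).2.2.2.1)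
      (fun v hv => (p1 v hv.1 t t1).2.1) (v0 := z) (v1 := w) ⟨m1.1, m2.1⟩ ⟨m1.2, m2.2⟩
      (by
        show Ps s (z, z, t) = Ps s' (z, z, t)
        rw [(p1 z m1.1 t t1).2.2.2.2.2, (p2 z m2.1 t t2).2.2.2.2.2])
  set P : ℂ × ℂ × ℝ → ℝ := fun q => Ps (i q.1) q with hPdef
  have hev : ∀ z ∈ combM (1 / 80), ∀ w, ‖w - z‖ < r → ∀ t, |t| < δ →
      P =ᶠ[𝓝 (z, w, t)] Ps (i z) := by
    intro z hz w hw t ht
    have c1 : ContinuousAt (fun q : ℂ × ℂ × ℝ => q.1) (z, w, t) := by fun_prop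
    have c2 : ContinuousAt (fun q : ℂ × ℂ × ℝ => ‖q.2.1 - q.1‖) (z, w, t) := by fun_prop
    have c3 : ContinuousAt (fun q : ℂ × ℂ × ℝ => |q.2.2|) (z, w, t) := by fun_prop
    have e1 : ∀ᶠ q : ℂ × ℂ × ℝ in 𝓝 (z, w, t), q.1 ∈ combM (1 / 80) :=
      c1.eventually ((isOpen_combM _).mem_nhds hz)
    have e2 : ∀ᶠ q : ℂ × ℂ × ℝ in 𝓝 (z, w, t), q.1 ∈ Metric.ball (i z) (ρ (i z) / 2) :=
      c1.eventually (Metric.isOpen_ball.mem_nhds (hi2 z hz))
    have e3 : ∀ᶠ q : ℂ × ℂ × ℝ in 𝓝 (z, w, t), ‖q.2.1 - q.1‖ < r := c2.eventually_lt_const hw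
    have e4 : ∀ᶠ q : ℂ × ℂ × ℝ in 𝓝 (z, w, t), |q.2.2| < δ := c3.eventually_lt_const ht
    filter_upwards [e1, e2, e3, e4] with q h1 h2 h3 h4
    exact hagree q.1 h1 (i q.1) (hi1 q.1 h1) (i z) (hi1 z hz) (hi2 q.1 h1) h2 q.2.1 h3 q.2.2 h4
  have hall : ∀ z ∈ combM (1 / 80), ∀ w, ‖w - z‖ < r → ∀ t, |t| < δ →
      ContDiffAt ℝ 1 P (z, w, t) ∧ |P (z, w, t)| < d ∧ |P (z, w, t)| ≤ 4 * |t| ∧
        (∀ ζ : ℂ, fderiv ℝ P (z, w, t) (0, ζ, 0) = A (w, P (z, w, t)) ζ) ∧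
        0 < fderiv ℝ P (z, w, t) (0, 0, 1) := by
    intro z hz w hw t ht
    have m := hm z hz (i z) (hi1 z hz) (hi2 z hz) w hw
    have p := hPs (i z) (hKs (hT1 _ (hi1 z hz))) z m.1 w m.2 t (lt_of_lt_of_le ht (hδ2 _ (hi1 z hz)))
    have he := hev z hz w hw t ht
    have he0 : P (z, w, t) = Ps (i z) (z, w, t) := rfl
    rw [he.fderiv_eq, he0]
    exact ⟨p.1.congr_of_eventuallyEq he, p.2.1, p.2.2.1, p.2.2.2.1, p.2.2.2.2.1⟩
  have hdiag : ∀ z ∈ combM (1 / 80), ∀ t, |t| < δ → P (z, z, t) = t := by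
    intro z hz t ht
    have m := hm z hz (i z) (hi1 z hz) (hi2 z hz) z (by simpa using hr0)
    exact (hPs (i z) (hKs (hT1 _ (hi1 z hz))) z m.1 z m.1 t
      (lt_of_lt_of_le ht (hδ2 _ (hi1 z hz)))).2.2.2.2.2
  refine ⟨r, δ, 4, hr0, hr1, hδ0, hδ1, by norm_num, P, ?_, ?_, hdiag, ?_⟩
  · rintro ⟨z, w, t⟩ ⟨h1, h2, h3⟩
    exact (hall z h1 w h2 t h3).1.contDiffWithinAt
  · intro z hz w hw t ht
    exact (hall z hz w hw t ht).2
  · intro z hz w hw v hwz hvz hvw t ht hPt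
    have hself : w ∈ Metric.ball w r := Metric.mem_ball_self hr0
    refine (P03_graph_unique hA (f := fun v => P (z, v, t)) (g := fun v => P (w, v, P (z, w, t)))
      (B := Metric.ball z r ∩ Metric.ball w r) (Metric.isOpen_ball.inter Metric.isOpen_ball)
      ((convex_ball _ _).inter (convex_ball _ _)) (inter_subset_left.trans (hballr z hz))
      (fun v hv => ?_) (fun v hv => ?_) (fun v hv => ?_) (v0 := w) (v1 := v) ⟨?_, hself⟩ ⟨?_, ?_⟩ ?_).symm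
    · have h1 : ‖v - z‖ < r := by rw [← dist_eq_norm]; exact hv.1
      have h2 := hall z hz v h1 t ht
      exact P03_hasFDerivAt_slice (h2.1.differentiableAt one_ne_zero) h2.2.2.2.1
    · have h1 : ‖v - w‖ < r := by rw [← dist_eq_norm]; exact hv.2
      have h2 := hall w hw v h1 _ hPt
      exact P03_hasFDerivAt_slice (h2.1.differentiableAt one_ne_zero) h2.2.2.2.1
    · have h1 : ‖v - z‖ < r := by rw [← dist_eq_norm]; exact hv.1
      exact (hall z hz v h1 t ht).2.1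
    · rw [Metric.mem_ball, dist_eq_norm]; exact hwz
    · rw [Metric.mem_ball, dist_eq_norm]; exact hvz
    · rw [Metric.mem_ball, dist_eq_norm]; exact hvw
    · exact (hdiag w hw _ hPt).symm

end Pool.Agent.helper35.FOL
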