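import Pool.Agent.helper35.FOL.P02
import Pool.Agent.helper35.FOL.P03

/-!
# FOL-P04: the height function over the comb

`G (z, t)` = height over `z` of the leaf through `(z0, t)`.

Proof. Take `r, δ', C, P` from `exists_transport`, `N` with `20 / N < r / 3`.  For `z` in the comb
let `w_0 = z0, w_1, …, w_{2N} = z` be the points `w_i = (7/2 + (i/N) (z.re - 7/2), -9/10)` for
`i ≤ N` and `w_i = (z.re, -9/10 + ((i-N)/N) (z.im + 9/10))` for `N ≤ i ≤ 2N` (all in
`combM (1/80)` for `z ∈ combM (1/80)`, `path_mem`; consecutive distance `< r`).  Put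
`y_0 = t`, `y_{i+1} = P (w_i, w_{i+1}, y_i)`, `G (z, t) = y_{2N}`, for `|t| < δ := δ' / C ^ (2N+1)`
(so `|y_i| ≤ C ^ i |t| < δ'`).  `G` is `C¹` (composition; the `w_i` are affine in `z`).
`G (z0, t) = t`, `G (z, 0) = 0` are clear.  For `z'` near `z`: by induction and the cocycle
property `y_i(z') = P (w_i(z), w_i(z'), y_i(z))` for all `i`, so `G (z', t) = P (z, z', G (z, t))`
for `z'` near `z`, which gives `∂_z G (z, t) = A (z, G (z, t))`.  `∂_t G > 0`: product of positive
numbers (chain rule).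
-/

open Set Filter Topology
open scoped ContDiff commutatorElement

namespace Pool.Agent.helper35.FOL

/-- The linear part of the path points. -/
noncomputable def pathL (N i : ℕ) : ℂ →L[ℝ] ℂ :=
  (min 1 ((i : ℝ) / N)) • (Complex.ofRealCLM.comp Complex.reCLM) +
    (max 0 ((i : ℝ) / N - 1)) • (Complex.I • (Complex.ofRealCLM.comp Complex.imCLM))

/-- The points of the L-shaped path from `z0` to `z`. -/
noncomputable def pathPt (N i : ℕ) (z : ℂ) : ℂ := z0 + pathL N i (z - z0)

theorem pathL_re (N i : ℕ) (ζ : ℂ) : (pathL N i ζ).re = min 1 ((i : ℝ) / N) * ζ.re := by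
  simp [pathL]

theorem pathL_im (N i : ℕ) (ζ : ℂ) : (pathL N i ζ).im = max 0 ((i : ℝ) / N - 1) * ζ.im := by
  simp [pathL]

theorem pathPt_eq (N i : ℕ) (z : ℂ) : pathPt N i z =
    ⟨7 / 2 + min 1 ((i : ℝ) / N) * (z.re - 7 / 2),
      -9 / 10 + max 0 ((i : ℝ) / N - 1) * (z.im + 9 / 10)⟩ := by
  apply Complex.ext
  · simp only [pathPt, Complex.add_re, pathL_re, Complex.sub_re]
    simp [z0]
  · simp only [pathPt, Complex.add_im, pathL_im, Complex.sub_im]
    simp only [z0]
    ring

theorem pathPt_z0 (N i : ℕ) : pathPt N i z0 = z0 := by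
  simp [pathPt]

theorem pathPt_zero (N : ℕ) (z : ℂ) : pathPt N 0 z = z0 := by
  rw [pathPt_eq]
  simp [z0]

theorem pathPt_last {N : ℕ} (hN : 0 < N) (z : ℂ) : pathPt N (2 * N) z = z := by
  have hN' : (N : ℝ) ≠ 0 := by positivity
  have h2 : ((2 * N : ℕ) : ℝ) / N = 2 := by
    push_cast
    field_simp
  rw [pathPt_eq, h2]
  apply Complex.ext
  · simp only
    rw [min_eq_left (by norm_num)]
    ring
  · simp only
    rw [max_eq_right (by norm_num)]
    ring

theorem pathPt_mem {N i : ℕ} (hN : 0 < N) (hi : i ≤ 2 * N) {z : ℂ} (hz : z ∈ combM (1 / 80)) :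
    pathPt N i z ∈ combM (1 / 80) := by
  have hN' : (0 : ℝ) < N := by positivity
  rw [pathPt_eq]
  rcases le_total i N with h | h
  · have h1 : (i : ℝ) / N ≤ 1 := by
      rw [div_le_one hN']
      exact_mod_cast h
    rw [min_eq_right h1, max_eq_left (by linarith)]
    have := (path_mem (by norm_num) (by norm_num) hz (s := (i : ℝ) / N) (by positivity) h1).1
    simpa using this
  · have h1 : (1 : ℝ) ≤ (i : ℝ) / N := by
      rw [le_div_iff₀ hN', one_mul]
      exact_mod_cast h
    have h2 : (i : ℝ) / N ≤ 2 := by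
      rw [div_le_iff₀ hN']
      exact_mod_cast hi
    rw [min_eq_left h1, max_eq_right (by linarith)]
    have := (path_mem (by norm_num) (by norm_num) hz (s := (i : ℝ) / N - 1) (by linarith)
      (by linarith)).2
    simpa using this

theorem combM80_bounds {z : ℂ} (hz : z ∈ combM (1 / 80)) :
    |z.re - 7 / 2| ≤ 5 ∧ |z.im + 9 / 10| ≤ 3 := by
  rcases hz with h | ⟨k, hk, h1, h2, h3⟩
  · obtain ⟨h1, h2, h3, h4⟩ := h
    constructor
    · rw [abs_le]
      constructor <;> linarith
    · rw [abs_le]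
      constructor <;> linarith
  · have hk' : (k : ℝ) ≤ 7 := by
      have : k ≤ 7 := by omega
      exact_mod_cast this
    have hk0 : (0 : ℝ) ≤ k := Nat.cast_nonneg k
    rw [abs_lt] at h1
    constructor
    · rw [abs_le]
      constructor <;> linarith
    · rw [abs_le]
      constructor <;> linarith

theorem pathPt_step {N : ℕ} (hN : 0 < N) (i : ℕ) {z : ℂ} (hz : z ∈ combM (1 / 80)) :
    ‖pathPt N (i + 1) z - pathPt N i z‖ ≤ 8 / N := by
  have hN' : (0 : ℝ) < N := by positivity
  obtain ⟨hb1, hb2⟩ := combM80_bounds hz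
  have hstep : ((i + 1 : ℕ) : ℝ) / N = (i : ℝ) / N + 1 / N := by
    push_cast
    ring
  have hN1 : (0 : ℝ) ≤ 1 / N := by positivity
  have ha : |min 1 (((i + 1 : ℕ) : ℝ) / N) - min 1 ((i : ℝ) / N)| ≤ 1 / N := by
    rw [hstep, abs_le]
    constructor
    · rcases le_total 1 ((i : ℝ) / N) with h | h
      · rw [min_eq_left h, min_eq_left (by linarith)]
        linarith
      · rw [min_eq_right h]
        rcases le_total 1 ((i : ℝ) / N + 1 / N) with h' | h'
        · rw [min_eq_left h']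
          linarith
        · rw [min_eq_right h']
          linarith
    · rcases le_total 1 ((i : ℝ) / N) with h | h
      · rw [min_eq_left h, min_eq_left (by linarith)]
        linarith
      · rw [min_eq_right h]
        rcases le_total 1 ((i : ℝ) / N + 1 / N) with h' | h'
        · rw [min_eq_left h']
          linarith
        · rw [min_eq_right h']
          linarith
  have hb : |max 0 (((i + 1 : ℕ) : ℝ) / N - 1) - max 0 ((i : ℝ) / N - 1)| ≤ 1 / N := by
    rw [hstep, abs_le]
    constructor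
    · rcases le_total 0 ((i : ℝ) / N - 1) with h | h
      · rw [max_eq_right h, max_eq_right (by linarith)]
        linarith
      · rw [max_eq_left h]
        rcases le_total 0 ((i : ℝ) / N + 1 / N - 1) with h' | h'
        · rw [max_eq_right h']
          linarith
        · rw [max_eq_left h']
          linarith
    · rcases le_total 0 ((i : ℝ) / N - 1) with h | h
      · rw [max_eq_right h, max_eq_right (by linarith)]
        linarith
      · rw [max_eq_left h]
        rcases le_total 0 ((i : ℝ) / N + 1 / N - 1) with h' | h'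
        · rw [max_eq_right h']
          linarith
        · rw [max_eq_left h']
          linarith
  have hre : (pathPt N (i + 1) z - pathPt N i z).re =
      (min 1 (((i + 1 : ℕ) : ℝ) / N) - min 1 ((i : ℝ) / N)) * (z.re - 7 / 2) := by
    rw [pathPt_eq, pathPt_eq, Complex.sub_re]
    ring
  have him : (pathPt N (i + 1) z - pathPt N i z).im =
      (max 0 (((i + 1 : ℕ) : ℝ) / N - 1) - max 0 ((i : ℝ) / N - 1)) * (z.im + 9 / 10) := by
    rw [pathPt_eq, pathPt_eq, Complex.sub_im]
    ring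
  refine (Complex.norm_le_abs_re_add_abs_im _).trans ?_
  rw [hre, him, abs_mul, abs_mul]
  have e1 := mul_le_mul ha hb1 (abs_nonneg _) hN1
  have e2 := mul_le_mul hb hb2 (abs_nonneg _) hN1
  have e3 : (8 : ℝ) / N = 1 / N * 5 + 1 / N * 3 := by ring
  rw [e3]
  exact add_le_add e1 e2

theorem pathPt_lip {N i : ℕ} (hN : 0 < N) (hi : i ≤ 2 * N) (z z' : ℂ) :
    ‖pathPt N i z' - pathPt N i z‖ ≤ 2 * ‖z' - z‖ := by
  have hN' : (0 : ℝ) < N := by positivity
  have h2 : (i : ℝ) / N ≤ 2 := by
    rw [div_le_iff₀ hN']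
    exact_mod_cast hi
  have h0 : (0 : ℝ) ≤ (i : ℝ) / N := by positivity
  have heq : pathPt N i z' - pathPt N i z = pathL N i (z' - z) := by
    simp only [pathPt, add_sub_add_left_eq_sub, ← map_sub]
    congr 1
    ring
  rw [heq]
  refine (Complex.norm_le_abs_re_add_abs_im _).trans ?_
  rw [pathL_re, pathL_im, abs_mul, abs_mul]
  have ha : |min 1 ((i : ℝ) / N)| ≤ 1 := by
    rw [abs_le]
    exact ⟨by rw [le_min_iff]; constructor <;> linarith, min_le_left _ _⟩
  have hb : |max 0 ((i : ℝ) / N - 1)| ≤ 1 := by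
    rw [abs_le]
    exact ⟨by linarith [le_max_left 0 ((i : ℝ) / N - 1)], max_le (by norm_num) (by linarith)⟩
  have e1 := mul_le_mul ha (Complex.abs_re_le_norm (z' - z)) (abs_nonneg _) zero_le_one
  have e2 := mul_le_mul hb (Complex.abs_im_le_norm (z' - z)) (abs_nonneg _) zero_le_one
  linarith

/-- The heights along the path. -/
noncomputable def pathY (P : ℂ × ℂ × ℝ → ℝ) (N : ℕ) : ℕ → ℂ × ℝ → ℝ
  | 0 => fun y => y.2
  | i + 1 => fun y => P (pathPt N i y.1, pathPt N (i + 1) y.1, pathY P N i y)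

theorem hasFDerivAt_pathPt (N i : ℕ) (z : ℂ) : HasFDerivAt (pathPt N i) (pathL N i) z := by
  unfold pathPt
  have h1 : HasFDerivAt (fun z : ℂ => z - z0) (ContinuousLinearMap.id ℝ ℂ) z :=
    (hasFDerivAt_id z).sub_const z0
  have h2 := ((pathL N i).hasFDerivAt (x := z - z0)).comp z h1
  have h3 := h2.const_add z0
  simpa using h3

theorem contDiff_pathPt (N i : ℕ) : ContDiff ℝ 1 (pathPt N i) := by
  unfold pathPt
  exact contDiff_const.add ((pathL N i).contDiff.comp (contDiff_id.sub contDiff_const))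

theorem exists_G {d : ℝ} {A : ℂ × ℝ → ℂ →L[ℝ] ℝ} (hA : PlaneData d A) :
    ∃ δ > 0, ∃ G : ℂ × ℝ → ℝ, ContDiffOn ℝ 1 G (box (1 / 70) δ) ∧
      (∀ y ∈ box (1 / 70) δ, |G y| < d) ∧ (∀ t, |t| < δ → G (z0, t) = t) ∧
      (∀ z ∈ combM (1 / 70), G (z, 0) = 0) ∧
      (∀ y ∈ box (1 / 70) δ, 0 < fderiv ℝ G y (0, 1)) ∧
      ∀ y ∈ box (1 / 70) δ, ∀ ζ : ℂ, fderiv ℝ G y (ζ, 0) = A (y.1, G y) ζ := by
  obtain ⟨r, δ', C, hr0, hr1, hδ', hδd, hC, P, hP1, hP2, hP3, hP4⟩ := exists_transport hA
  obtain ⟨N, hNr⟩ : ∃ N : ℕ, 24 / r < N := exists_nat_gt _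
  have hN' : (0 : ℝ) < N := lt_trans (by positivity) hNr
  have hN : 0 < N := by exact_mod_cast hN'
  have hstep : (8 : ℝ) / N < r / 3 := by
    rw [div_lt_iff₀ hr0] at hNr
    rw [div_lt_div_iff₀ hN' (by norm_num)]
    linarith
  have hCpos : (0 : ℝ) < C := by linarith
  set δ : ℝ := δ' / C ^ (2 * N + 1) with hδdef
  have hδ : 0 < δ := by positivity
  set D : Set (ℂ × ℂ × ℝ) :=
    {q | q.1 ∈ combM (1 / 80) ∧ ‖q.2.1 - q.1‖ < r ∧ |q.2.2| < δ'} with hDdef
  have hDo : IsOpen D := by
    have h1 : IsOpen {q : ℂ × ℂ × ℝ | q.1 ∈ combM (1 / 80)} :=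
      (isOpen_combM _).preimage continuous_fst
    have h2 : IsOpen {q : ℂ × ℂ × ℝ | ‖q.2.1 - q.1‖ < r} :=
      isOpen_lt (by fun_prop) continuous_const
    have h3 : IsOpen {q : ℂ × ℂ × ℝ | |q.2.2| < δ'} :=
      isOpen_lt (by fun_prop) continuous_const
    exact h1.inter (h2.inter h3)
  set Y := pathY P N with hY
  have hY0 : ∀ y, Y 0 y = y.2 := fun y => rfl
  have hYs : ∀ i y, Y (i + 1) y = P (pathPt N i y.1, pathPt N (i + 1) y.1, Y i y) := fun i y => rfl
  have hpow : ∀ i ≤ 2 * N + 1, ∀ t : ℝ, |t| < δ → C ^ i * |t| < δ' := by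
    intro i hi t ht
    have h1 : C ^ i ≤ C ^ (2 * N + 1) := pow_le_pow_right₀ hC hi
    calc C ^ i * |t| ≤ C ^ (2 * N + 1) * |t| := mul_le_mul_of_nonneg_right h1 (abs_nonneg _)
      _ < C ^ (2 * N + 1) * δ := by
        exact mul_lt_mul_of_pos_left ht (by positivity)
      _ = δ' := by
        rw [hδdef]
        field_simp
  have hst : ∀ i z, z ∈ combM (1 / 80) → ‖pathPt N (i + 1) z - pathPt N i z‖ < r / 3 :=
    fun i z hz => (pathPt_step hN i hz).trans_lt hstep
  -- sizes
  have hsize : ∀ i ≤ 2 * N, ∀ z ∈ combM (1 / 80), ∀ t, |t| < δ → |Y i (z, t)| ≤ C ^ i * |t| := by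
    intro i
    induction i with
    | zero =>
      intro _ z hz t ht
      rw [hY0]
      simp
    | succ i ih =>
      intro hi z hz t ht
      have h1 := ih (by omega) z hz t ht
      have h2 : |Y i (z, t)| < δ' := h1.trans_lt (hpow i (by omega) t ht)
      rw [hYs]
      have h3 := (hP2 _ (pathPt_mem hN (by omega : i ≤ 2 * N) hz) (pathPt N (i + 1) z)
        ((hst i z hz).trans (by linarith)) _ h2).2.1
      refine h3.trans ?_
      rw [pow_succ', mul_assoc]
      exact mul_le_mul_of_nonneg_left h1 hCpos.le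
  have hsize' : ∀ i ≤ 2 * N, ∀ z ∈ combM (1 / 80), ∀ t, |t| < δ → |Y i (z, t)| < δ' :=
    fun i hi z hz t ht => (hsize i hi z hz t ht).trans_lt (hpow i (by omega) t ht)
  have hmemD : ∀ i < 2 * N, ∀ z ∈ combM (1 / 80), ∀ t, |t| < δ →
      (pathPt N i z, pathPt N (i + 1) z, Y i (z, t)) ∈ D := by
    intro i hi z hz t ht
    exact ⟨pathPt_mem hN hi.le hz, (hst i z hz).trans (by linarith), hsize' i hi.le z hz t ht⟩
  -- smoothness and derivative in t
  have hbox : ∀ y ∈ box (1 / 80) δ, y.1 ∈ combM (1 / 80) ∧ |y.2| < δ := by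
    rintro ⟨z, t⟩ ⟨hz, ht⟩
    exact ⟨hz, abs_lt.2 ht⟩
  have hsm : ∀ i ≤ 2 * N, ContDiffOn ℝ 1 (Y i) (box (1 / 80) δ) := by
    intro i
    induction i with
    | zero =>
      intro _
      exact contDiff_snd.contDiffOn
    | succ i ih =>
      intro hi
      have h1 := ih (by omega)
      have h2 : ContDiffOn ℝ 1 (fun y : ℂ × ℝ => (pathPt N i y.1, pathPt N (i + 1) y.1, Y i y))
          (box (1 / 80) δ) :=
        (((contDiff_pathPt N i).comp contDiff_fst).contDiffOn).prodMk
          ((((contDiff_pathPt N (i + 1)).comp contDiff_fst).contDiffOn).prodMk h1)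
      refine ContDiffOn.comp (g := P) hP1 h2 fun y hy => ?_
      obtain ⟨hz, ht⟩ := hbox y hy
      exact hmemD i (by omega) y.1 hz y.2 ht
  have hboxo : IsOpen (box (1 / 80) δ) := isOpen_box _ _
  have hdt : ∀ i ≤ 2 * N, ∀ y ∈ box (1 / 80) δ, 0 < fderiv ℝ (Y i) y (0, 1) := by
    intro i
    induction i with
    | zero =>
      intro _ y hy
      have h1 : HasFDerivAt (Y 0) (ContinuousLinearMap.snd ℝ ℂ ℝ) y := hasFDerivAt_snd
      rw [h1.fderiv]
      simp
    | succ i ih =>
      intro hi y hy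
      obtain ⟨hz, ht⟩ := hbox y hy
      have h1 := ih (by omega) y hy
      have hmem := hmemD i (by omega) y.1 hz y.2 ht
      have hPd : HasFDerivAt P (fderiv ℝ P (pathPt N i y.1, pathPt N (i + 1) y.1, Y i y))
          (pathPt N i y.1, pathPt N (i + 1) y.1, Y i y) :=
        ((hP1.differentiableOn (by norm_num)).differentiableAt (hDo.mem_nhds hmem)).hasFDerivAt
      have hYd : HasFDerivAt (Y i) (fderiv ℝ (Y i) y) y :=
        (((hsm i (by omega)).differentiableOn (by norm_num)).differentiableAt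
          (hboxo.mem_nhds hy)).hasFDerivAt
      have hw : ∀ j, HasFDerivAt (fun y : ℂ × ℝ => pathPt N j y.1)
          ((pathL N j).comp (ContinuousLinearMap.fst ℝ ℂ ℝ)) y := fun j =>
        HasFDerivAt.comp (f := Prod.fst) (g := pathPt N j) y (hasFDerivAt_pathPt N j y.1)
          hasFDerivAt_fst
      have h2 := (hw i).prodMk ((hw (i + 1)).prodMk hYd)
      have h3 : HasFDerivAt (Y (i + 1)) _ y :=
        HasFDerivAt.comp (f := fun y : ℂ × ℝ => (pathPt N i y.1, pathPt N (i + 1) y.1, Y i y))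
          (g := P) y hPd h2
      rw [h3.fderiv]
      have h4 := (hP2 _ (pathPt_mem hN (by omega : i ≤ 2 * N) hz) (pathPt N (i + 1) y.1)
        ((hst i y.1 hz).trans (by linarith)) _ hmem.2.2).2.2.2
      have h5 : ((fderiv ℝ P (pathPt N i y.1, pathPt N (i + 1) y.1, Y i y)).comp
          (((pathL N i).comp (ContinuousLinearMap.fst ℝ ℂ ℝ)).prod
            (((pathL N (i + 1)).comp (ContinuousLinearMap.fst ℝ ℂ ℝ)).prod
              (fderiv ℝ (Y i) y)))) (0, 1) = (fderiv ℝ (Y i) y (0, 1)) *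
            fderiv ℝ P (pathPt N i y.1, pathPt N (i + 1) y.1, Y i y) (0, 0, 1) := by
        rw [← smul_eq_mul, ← map_smul]
        simp
      rw [h5]
      exact mul_pos h1 h4
  -- cocycle
  have hcoc : ∀ i ≤ 2 * N, ∀ z ∈ combM (1 / 80), ∀ z' ∈ combM (1 / 80), ‖z' - z‖ < r / 6 →
      ∀ t, |t| < δ → Y i (z', t) = P (pathPt N i z, pathPt N i z', Y i (z, t)) := by
    intro i
    induction i with
    | zero =>
      intro _ z hz z' hz' hzz t ht
      rw [hY0, hY0, pathPt_zero, pathPt_zero]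
      have hz0 : z0 ∈ combM (1 / 80) := z0_mem (by norm_num) (by norm_num)
      have ht' : |t| < δ' := by
        have := hpow 0 (by omega) t ht
        simpa using this
      exact (hP3 z0 hz0 t ht').symm
    | succ i ih =>
      intro hi z hz z' hz' hzz t ht
      have h1 := ih (by omega) z hz z' hz' hzz t ht
      have hm1 := pathPt_mem hN (by omega : i ≤ 2 * N) hz
      have hm1' := pathPt_mem hN (by omega : i ≤ 2 * N) hz'
      have hm2 := pathPt_mem hN hi hz
      have hl1 := pathPt_lip hN (by omega : i ≤ 2 * N) z z'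
      have hl2 := pathPt_lip hN hi z z'
      have hs1 := hst i z hz
      have hs2 := hst i z' hz'
      have hn1 : ‖pathPt N (i + 1) z' - pathPt N i z‖ < r := by
        have := norm_sub_le_norm_sub_add_norm_sub (pathPt N (i + 1) z') (pathPt N i z')
          (pathPt N i z)
        linarith
      have hb1 := hsize' i (by omega) z hz t ht
      have hb2 := hsize' i (by omega) z' hz' t ht
      have hb3 := hsize' (i + 1) hi z hz t ht
      have e1 : Y (i + 1) (z', t) = P (pathPt N i z, pathPt N (i + 1) z', Y i (z, t)) := by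
        rw [hYs]
        simp only
        rw [h1]
        refine hP4 _ hm1 _ hm1' _ (by linarith) hn1 (by linarith) _ hb1 ?_
        rw [← h1]
        exact hb2
      have e2 : P (pathPt N (i + 1) z, pathPt N (i + 1) z', Y (i + 1) (z, t)) =
          P (pathPt N i z, pathPt N (i + 1) z', Y i (z, t)) := by
        rw [hYs]
        simp only
        refine hP4 _ hm1 _ hm2 _ (by linarith) hn1 (by linarith) _ hb1 ?_
        rw [hYs] at hb3
        exact hb3
      rw [e1, e2]
  have hsub : box (1 / 70) δ ⊆ box (1 / 80) δ := fun y hy =>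
    ⟨combM_mono (by norm_num) hy.1, hy.2⟩
  refine ⟨δ, hδ, Y (2 * N), (hsm _ le_rfl).mono hsub, ?_, ?_, ?_, ?_, ?_⟩
  · intro y hy
    obtain ⟨hz, ht⟩ := hbox y (hsub hy)
    exact (hsize' _ le_rfl y.1 hz y.2 ht).trans_le hδd
  · intro t ht
    have hz0 : z0 ∈ combM (1 / 80) := z0_mem (by norm_num) (by norm_num)
    have hall : ∀ i ≤ 2 * N, Y i (z0, t) = t := by
      intro i
      induction i with
      | zero => intro _; rfl
      | succ i ih =>
        intro hi
        have ht' : |t| < δ' := by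
          have := hpow 0 (by omega) t ht
          simpa using this
        rw [hYs, ih (by omega)]
        simp only [pathPt_z0]
        exact hP3 z0 hz0 t ht'
    exact hall _ le_rfl
  · intro z hz
    have h1 := hsize (2 * N) le_rfl z (combM_mono (by norm_num) hz) 0 (by simpa using hδ)
    simpa using h1
  · exact fun y hy => hdt _ le_rfl y (hsub hy)
  · rintro ⟨z, t⟩ hy ζ
    obtain ⟨hz, ht⟩ := hbox _ (hsub hy)
    simp only at hz ht
    have hG := hsize' (2 * N) le_rfl z hz t ht
    have hYd : HasFDerivAt (Y (2 * N)) (fderiv ℝ (Y (2 * N)) (z, t)) (z, t) :=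
      (((hsm _ le_rfl).differentiableOn (by norm_num)).differentiableAt
        (hboxo.mem_nhds (hsub hy))).hasFDerivAt
    have hmem : (z, z, Y (2 * N) (z, t)) ∈ D := by
      refine ⟨hz, ?_, hG⟩
      simpa using hr0
    have hPd : HasFDerivAt P (fderiv ℝ P (z, z, Y (2 * N) (z, t))) (z, z, Y (2 * N) (z, t)) :=
      ((hP1.differentiableOn (by norm_num)).differentiableAt (hDo.mem_nhds hmem)).hasFDerivAt
    -- the two one-variable functions
    have hi1 : HasFDerivAt (fun z' : ℂ => (z', t)) (ContinuousLinearMap.inl ℝ ℂ ℝ) z :=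
      hasFDerivAt_prodMk_left z t
    have hc1 : HasFDerivAt (fun z' : ℂ => Y (2 * N) (z', t))
        ((fderiv ℝ (Y (2 * N)) (z, t)).comp (ContinuousLinearMap.inl ℝ ℂ ℝ)) z :=
      HasFDerivAt.comp (f := fun z' : ℂ => (z', t)) (g := Y (2 * N)) z hYd hi1
    have hi2 : HasFDerivAt (fun z' : ℂ => (z, z', Y (2 * N) (z, t)))
        ((0 : ℂ →L[ℝ] ℂ).prod (ContinuousLinearMap.inl ℝ ℂ ℝ)) z :=
      (hasFDerivAt_const z z).prodMk (hasFDerivAt_prodMk_left z (Y (2 * N) (z, t)))
    have hc2 : HasFDerivAt (fun z' : ℂ => P (z, z', Y (2 * N) (z, t)))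
        ((fderiv ℝ P (z, z, Y (2 * N) (z, t))).comp
          ((0 : ℂ →L[ℝ] ℂ).prod (ContinuousLinearMap.inl ℝ ℂ ℝ))) z :=
      HasFDerivAt.comp (f := fun z' : ℂ => (z, z', Y (2 * N) (z, t))) (g := P) z hPd hi2
    have hev : (fun z' : ℂ => Y (2 * N) (z', t)) =ᶠ[𝓝 z]
        fun z' : ℂ => P (z, z', Y (2 * N) (z, t)) := by
      have hn1 : combM (1 / 80) ∈ 𝓝 z := (isOpen_combM _).mem_nhds hz
      have hn2 : Metric.ball z (r / 6) ∈ 𝓝 z := Metric.ball_mem_nhds z (by positivity)
      filter_upwards [hn1, hn2] with z' h1 h2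
      rw [Metric.mem_ball, dist_eq_norm] at h2
      have h3 := hcoc (2 * N) le_rfl z hz z' h1 h2 t ht
      rw [pathPt_last hN, pathPt_last hN] at h3
      exact h3
    have hc2' := hc2.congr_of_eventuallyEq hev
    have heq := hc1.unique hc2'
    have h5 := congrArg (fun L : ℂ →L[ℝ] ℝ => L ζ) heq
    simp only [ContinuousLinearMap.comp_apply, ContinuousLinearMap.inl_apply,
      ContinuousLinearMap.prod_apply, _root_.zero_apply] at h5
    rw [h5]
    have h6 := (hP2 z hz z (by simpa using hr0) _ hG).2.2.1 ζ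
    rw [h6, hP3 z hz _ hG]

end Pool.Agent.helper35.FOL
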