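import Pool.Agent.helper35.FOL.P04
import Pool.Agent.helper35.FOL.P05

/-!
# FOL-P06: the chart `(G, c)` and uniform smallness

`exists_chart`: take `G` on `box (1/70) δ'` from `exists_G`, `δ = δ' / 2`; `K = closure (combM (1/60))`
is a compact subset of `combM (1/70)`, and `t ↦ G (z, t)` is strictly increasing with
`G (z, 0) = 0`, so `d2 := min over z ∈ K of min (G (z, δ/2)) (-G (z, -δ/2))` (also `≤ d`) is
positive; apply `inv_fiber` with `U = combM (1/60)`.

`chart_small_c`, `chart_small_G`: compactness of `closure (combM (1/50)) ⊆ combM (1/60)` and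
`c (z, 0) = 0`, `G (z, 0) = 0` (monotonicity in the second variable makes it elementary).
-/

open Set Filter Topology
open scoped ContDiff commutatorElement

namespace Pool.Agent.helper35.FOL

private theorem p06_mono {h δ : ℝ} {G : ℂ × ℝ → ℝ}
    (hG : ContDiffOn ℝ 1 G (box h δ))
    (hpos : ∀ y ∈ box h δ, 0 < fderiv ℝ G y (0, 1)) {z : ℂ} (hz : z ∈ combM h) :
    StrictMonoOn (fun t => G (z, t)) (Ioo (-δ) δ) := by
  have hd : ∀ t ∈ Ioo (-δ) δ, HasDerivAt (fun t => G (z, t)) (fderiv ℝ G (z, t) (0, 1)) t := by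
    intro t ht
    have hm : (z, t) ∈ box h δ := ⟨hz, ht⟩
    have h1 : HasFDerivAt G (fderiv ℝ G (z, t)) (z, t) :=
      ((hG.differentiableOn (by norm_num)).differentiableAt
        ((isOpen_box h δ).mem_nhds hm)).hasFDerivAt
    have h2 : HasDerivAt (fun t : ℝ => (z, t)) (0, 1) t :=
      (hasDerivAt_const t z).prodMk (hasDerivAt_id t)
    exact h1.comp_hasDerivAt t h2
  refine strictMonoOn_of_deriv_pos (convex_Ioo _ _) ?_ ?_
  · intro t ht
    exact (hd t ht).continuousAt.continuousWithinAt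
  · intro t ht
    rw [interior_Ioo] at ht
    rw [(hd t ht).deriv]
    exact hpos _ ⟨hz, ht⟩

private theorem p06_min {h h' δ s : ℝ} {G : ℂ × ℝ → ℝ} (h0 : 0 ≤ h) (hh : h < h')
    (h1 : h' < 1 / 20)
    (hG : ContDiffOn ℝ 1 G (box h δ))
    (hpos : ∀ y ∈ box h δ, 0 < fderiv ℝ G y (0, 1)) (hzero : ∀ z ∈ combM h, G (z, 0) = 0)
    (hs : 0 < s) (hsδ : s < δ) :
    ∃ m > 0, ∀ z ∈ closure (combM h'), m ≤ G (z, s) ∧ G (z, -s) ≤ -m := by
  have hsub : closure (combM h') ⊆ combM h := closure_combM_subset h0 hh (by linarith)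
  have hc : ContinuousOn G (box h δ) := hG.continuousOn
  have hcf : ContinuousOn (fun z => min (G (z, s)) (-G (z, -s))) (closure (combM h')) := by
    refine ContinuousOn.inf ?_ (ContinuousOn.neg ?_)
    · refine hc.comp (by fun_prop) ?_
      intro z hz
      exact ⟨hsub hz, by constructor <;> linarith⟩
    · refine hc.comp (by fun_prop) ?_
      intro z hz
      exact ⟨hsub hz, by constructor <;> linarith⟩
  obtain ⟨z1, hz1, hmin⟩ := (isCompact_closure_combM h').exists_isMinOn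
    ⟨z0, subset_closure (z0_mem (by linarith) h1)⟩ hcf
  refine ⟨min (G (z1, s)) (-G (z1, -s)), ?_, ?_⟩
  · have hm := p06_mono hG hpos (hsub hz1)
    have h2 : G (z1, 0) < G (z1, s) :=
      hm (show (0 : ℝ) ∈ Ioo (-δ) δ by constructor <;> linarith)
        (show s ∈ Ioo (-δ) δ by constructor <;> linarith) hs
    have h3 : G (z1, -s) < G (z1, 0) :=
      hm (show -s ∈ Ioo (-δ) δ by constructor <;> linarith)
        (show (0 : ℝ) ∈ Ioo (-δ) δ by constructor <;> linarith) (by linarith)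
    rw [hzero z1 (hsub hz1)] at h2 h3
    exact lt_min h2 (by linarith)
  · intro z hz
    have h4 := hmin hz
    simp only [mem_ofPred_eq] at h4
    have h5 := h4.trans (min_le_left _ _)
    have h6 := h4.trans (min_le_right _ _)
    exact ⟨h5, by linarith⟩

theorem exists_chart {d : ℝ} {A : ℂ × ℝ → ℂ →L[ℝ] ℝ} (hA : PlaneData d A) :
    ∃ (δ d2 : ℝ) (G c : ℂ × ℝ → ℝ), IsChart A d δ d2 G c := by
  obtain ⟨δ', hδ', G, hG, hGd, hGz0, hG0, hGpos, hGA⟩ := exists_G hA
  obtain ⟨m, hm, hmin⟩ := p06_min (h := 1 / 70) (h' := 1 / 60) (δ := δ') (s := δ' / 4)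
    (by norm_num) (by norm_num) (by norm_num) hG hGpos hG0 (by linarith) (by linarith)
  have hsub : box (1 / 60) (δ' / 2) ⊆ box (1 / 70) δ' :=
    prod_mono (combM_mono (by norm_num)) (Ioo_subset_Ioo (by linarith) (by linarith))
  have hG1 : ContDiffOn ℝ 1 G (box (1 / 60) (δ' / 2)) := hG.mono hsub
  have hsurj : ∀ z ∈ combM (1 / 60), ∀ x, |x| < min d m → ∃ t, |t| < δ' / 2 ∧ G (z, t) = x := by
    intro z hz x hx
    have hx' := abs_lt.1 (hx.trans_le (min_le_right _ _))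
    obtain ⟨h1, h2⟩ := hmin z (subset_closure hz)
    have hcont : ContinuousOn (fun t => G (z, t)) (Icc (-(δ' / 4)) (δ' / 4)) := by
      refine hG.continuousOn.comp (by fun_prop) ?_
      intro t ht
      exact ⟨combM_mono (by norm_num) hz, by constructor <;> linarith [ht.1, ht.2]⟩
    have h3 := intermediate_value_Icc (by linarith : -(δ' / 4) ≤ δ' / 4) hcont
    obtain ⟨t, ht, htx⟩ := h3 (show x ∈ Icc (G (z, -(δ' / 4))) (G (z, δ' / 4)) by
      constructor <;> linarith [hx'.1, hx'.2])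
    exact ⟨t, abs_lt.2 (by constructor <;> linarith [ht.1, ht.2]), htx⟩
  obtain ⟨c, hc1, hc2, hc3, -⟩ := inv_fiber (isOpen_combM (1 / 60)) (δ := δ' / 2)
    (d2 := min d m) hG1 (fun y hy => hGpos y (hsub hy)) hsurj
  exact ⟨δ' / 2, min d m, G, c, {
    δpos := by linarith
    d2pos := lt_min hA.pos hm
    d2le := min_le_left _ _
    G1 := hG1
    Gd := fun y hy => hGd y (hsub hy)
    Gz0 := fun t ht => hGz0 t (by linarith)
    G0 := fun z hz => hG0 z (combM_mono (by norm_num) hz)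
    Gpos := fun y hy => hGpos y (hsub hy)
    GA := fun y hy => hGA y (hsub hy)
    c1 := hc1
    cd := hc2
    cG := hc3 }⟩

theorem IsChart.isFI {d δ d2 : ℝ} {A : ℂ × ℝ → ℂ →L[ℝ] ℝ} {G c : ℂ × ℝ → ℝ}
    (hC : IsChart A d δ d2 G c) : IsFI A c (box (1 / 60) d2) := by
  have key : ∀ y ∈ box (1 / 60) d2, 0 < fderiv ℝ G (y.1, c y) (0, 1) ∧ ∀ (ζ : ℂ) (s : ℝ),
      fderiv ℝ c y (ζ, s) * fderiv ℝ G (y.1, c y) (0, 1) = s - A y ζ := by
    intro y hy
    obtain ⟨h1, h2⟩ := hC.cd y hy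
    have hm : (y.1, c y) ∈ box (1 / 60) δ := ⟨hy.1, abs_lt.1 h1⟩
    refine ⟨hC.Gpos _ hm, ?_⟩
    intro ζ s
    have hcd : HasFDerivAt c (fderiv ℝ c y) y :=
      ((hC.c1.differentiableOn (by norm_num)).differentiableAt
        ((isOpen_box _ _).mem_nhds hy)).hasFDerivAt
    have hGd : HasFDerivAt G (fderiv ℝ G (y.1, c y)) (y.1, c y) :=
      ((hC.G1.differentiableOn (by norm_num)).differentiableAt
        ((isOpen_box _ _).mem_nhds hm)).hasFDerivAt
    have h3 : HasFDerivAt (fun y => (y.1, c y))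
        ((ContinuousLinearMap.fst ℝ ℂ ℝ).prod (fderiv ℝ c y)) y :=
      hasFDerivAt_fst.prodMk hcd
    have h4 : HasFDerivAt (fun y => G (y.1, c y))
        ((fderiv ℝ G (y.1, c y)).comp ((ContinuousLinearMap.fst ℝ ℂ ℝ).prod (fderiv ℝ c y))) y :=
      HasFDerivAt.comp y hGd h3
    have h5 : HasFDerivAt (fun y : ℂ × ℝ => y.2)
        ((fderiv ℝ G (y.1, c y)).comp ((ContinuousLinearMap.fst ℝ ℂ ℝ).prod (fderiv ℝ c y))) y := by
      refine h4.congr_of_eventuallyEq ?_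
      filter_upwards [(isOpen_box _ _).mem_nhds hy] with y' hy'
      exact (hC.cd y' hy').2.symm
    have h6 := h5.unique hasFDerivAt_snd
    have h7 := congrArg (fun L : ℂ × ℝ →L[ℝ] ℝ => L (ζ, s)) h6
    simp only [ContinuousLinearMap.comp_apply, ContinuousLinearMap.prod_apply,
      ContinuousLinearMap.coe_fst', ContinuousLinearMap.coe_snd'] at h7
    have h8 : ((ζ, fderiv ℝ c y (ζ, s)) : ℂ × ℝ) =
        (ζ, 0) + fderiv ℝ c y (ζ, s) • ((0, 1) : ℂ × ℝ) := by
      ext <;> simp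
    rw [h8, map_add, map_smul, hC.GA _ hm ζ, smul_eq_mul] at h7
    simp only [h2] at h7
    have h9 : ((y.1, y.2) : ℂ × ℝ) = y := rfl
    rw [h9] at h7
    linarith
  refine ⟨hC.c1, ?_, ?_⟩
  · intro y hy
    obtain ⟨h1, h2⟩ := key y hy
    have h3 := h2 0 1
    rw [map_zero, sub_zero] at h3
    by_contra hneg
    have h4 := mul_nonpos_of_nonpos_of_nonneg (not_lt.1 hneg) h1.le
    linarith
  · intro y hy ζ
    obtain ⟨h1, h2⟩ := key y hy
    have h3 := h2 ζ (A y ζ)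
    rw [sub_self] at h3
    exact (mul_eq_zero.1 h3).resolve_right h1.ne'

theorem chart_small_c {d δ d2 : ℝ} {A : ℂ × ℝ → ℂ →L[ℝ] ℝ} {G c : ℂ × ℝ → ℝ}
    (hC : IsChart A d δ d2 G c) {δ1 : ℝ} (h1 : 0 < δ1) :
    ∃ d3 > 0, d3 < d2 ∧ ∀ z ∈ combM (1 / 50), ∀ x, |x| ≤ d3 → |c (z, x)| < δ1 := by
  have hδ := hC.δpos
  have hd2 := hC.d2pos
  set s : ℝ := min δ1 (δ / 2) with hs
  have hspos : 0 < s := lt_min h1 (by linarith)
  have hsδ : s < δ := (min_le_right _ _).trans_lt (by linarith)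
  have hs1 : s ≤ δ1 := min_le_left _ _
  obtain ⟨m, hm, hmin⟩ := p06_min (h := 1 / 60) (h' := 1 / 50) (δ := δ) (s := s)
    (by norm_num) (by norm_num) (by norm_num) hC.G1 hC.Gpos hC.G0 hspos hsδ
  refine ⟨min (m / 2) (d2 / 2), lt_min (by linarith) (by linarith),
    (min_le_right _ _).trans_lt (by linarith), ?_⟩
  intro z hz x hx
  have hz' : z ∈ combM (1 / 60) := combM_mono (by norm_num) hz
  have hx1 := abs_le.1 (hx.trans (min_le_left _ _))
  have hx2 := abs_le.1 (hx.trans (min_le_right _ _))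
  obtain ⟨h2, h3⟩ := hC.cd (z, x) ⟨hz', by constructor <;> simp only <;> linarith [hx2.1, hx2.2]⟩
  simp only at h3
  obtain ⟨h4, h5⟩ := hmin z (subset_closure hz)
  have hmono := (p06_mono hC.G1 hC.Gpos hz').monotoneOn
  have h2' := abs_lt.1 h2
  refine (abs_lt.2 ⟨?_, ?_⟩ : |c (z, x)| < s).trans_le hs1
  · by_contra hneg
    have h6 := hmono (show c (z, x) ∈ Ioo (-δ) δ from h2')
      (show -s ∈ Ioo (-δ) δ by constructor <;> linarith) (not_lt.1 hneg)
    simp only at h6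
    rw [h3] at h6
    linarith [hx1.1]
  · by_contra hneg
    have h6 := hmono (show s ∈ Ioo (-δ) δ by constructor <;> linarith)
      (show c (z, x) ∈ Ioo (-δ) δ from h2') (not_lt.1 hneg)
    simp only at h6
    rw [h3] at h6
    linarith [hx1.2]

theorem chart_small_G {d δ d2 : ℝ} {A : ℂ × ℝ → ℂ →L[ℝ] ℝ} {G c : ℂ × ℝ → ℝ}
    (hC : IsChart A d δ d2 G c) {d3 : ℝ} (h3 : 0 < d3) :
    ∃ r1 > 0, r1 < δ ∧ ∀ z ∈ combM (1 / 50), ∀ t, |t| ≤ r1 → |G (z, t)| ≤ d3 := by
  have hδ := hC.δpos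
  have hsub : closure (combM (1 / 50)) ⊆ combM (1 / 60) :=
    closure_combM_subset (by norm_num) (by norm_num) (by norm_num)
  have hopen : IsOpen (box (1 / 60) δ ∩ G ⁻¹' (Ioo (-d3) d3)) :=
    hC.G1.continuousOn.isOpen_inter_preimage (isOpen_box _ _) isOpen_Ioo
  obtain ⟨u, v, -, hv, hu1, hv1, huv⟩ := generalized_tube_lemma
    (isCompact_closure_combM (1 / 50)) (isCompact_singleton (x := (0 : ℝ))) hopen (by
      rintro ⟨z, t⟩ ⟨hz, ht⟩
      have ht' : t = 0 := ht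
      subst ht'
      refine ⟨⟨hsub hz, by constructor <;> simp only <;> linarith⟩, ?_⟩
      have h4 := hC.G0 z (hsub hz)
      simp only [mem_preimage, h4]
      constructor <;> linarith)
  obtain ⟨ε, hε, hball⟩ := Metric.isOpen_iff.1 hv 0 (hv1 rfl)
  refine ⟨min (ε / 2) (δ / 2), lt_min (by linarith) (by linarith),
    (min_le_right _ _).trans_lt (by linarith), ?_⟩
  intro z hz t ht
  have ht1 := ht.trans (min_le_left _ _)
  have h5 : t ∈ v := by
    apply hball
    rw [Metric.mem_ball, Real.dist_eq, sub_zero]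
    linarith
  have h6 := huv (show (z, t) ∈ u ×ˢ v from ⟨hu1 (subset_closure hz), h5⟩)
  have h7 : G (z, t) ∈ Ioo (-d3) d3 := h6.2
  exact (abs_lt.2 h7).le

end Pool.Agent.helper35.FOL
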