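import Pool.Agent.helper35.FOL.PDefs

/-!
# FOL-P07: extension of a local diffeomorphism to an element of `Dd`

Proof. `f` is `C¹` with positive derivative on `(-δ, δ)`; on `[-δ', δ']` keep `f`; outside extend
by affine functions with the derivatives `f' (± δ')`: the result is `C¹` on `ℝ` with positive
derivative and unbounded on both sides, so it is an increasing bijection
(`StrictMono.orderIsoOfSurjective`).
-/

open Set Filter Topology
open scoped ContDiff commutatorElement

namespace Pool.Agent.helper35.FOL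

/-- A function with a continuous derivative which is bounded below by a positive constant is an
element of `Dd`. -/
theorem P07_mk {G D : ℝ → ℝ} (hG : ∀ t, HasDerivAt G (D t) t) (hD : Continuous D) {m : ℝ}
    (hm : 0 < m) (hmD : ∀ t, m ≤ D t) : ∃ g ∈ Dd, ∀ t, g t = G t := by
  have hderiv : deriv G = D := funext fun t => (hG t).deriv
  have hdiff : Differentiable ℝ G := fun t => (hG t).differentiableAt
  have hc1 : ContDiff ℝ 1 G := by
    rw [contDiff_one_iff_deriv, hderiv]
    exact ⟨hdiff, hD⟩
  have hmono : StrictMono G := by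
    refine strictMono_of_deriv_pos fun t => ?_
    rw [hderiv]
    exact lt_of_lt_of_le hm (hmD t)
  have hmono2 : Monotone fun t => G t - m * t := by
    refine monotone_of_deriv_nonneg (hdiff.sub (differentiable_id.const_mul m)) fun t => ?_
    have h := ((hG t).sub ((hasDerivAt_id t).const_mul m)).deriv
    simp only [id_eq, mul_one] at h
    have h2 : deriv (fun t => G t - m * t) t = D t - m := h
    rw [h2]
    linarith [hmD t]
  have htop : Tendsto G atTop atTop := by
    refine tendsto_atTop_mono' atTop (f₁ := fun t => G 0 + m * t) ?_ ?_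
    · filter_upwards [eventually_ge_atTop 0] with t ht
      have := hmono2 ht
      simp only [mul_zero, sub_zero] at this
      linarith
    · exact tendsto_atTop_add_const_left _ _ (tendsto_id.const_mul_atTop hm)
  have hbot : Tendsto G atBot atBot := by
    refine tendsto_atBot_mono' atBot (f₁ := fun t => G 0 + m * t) ?_ ?_
    · filter_upwards [eventually_le_atBot 0] with t ht
      have := hmono2 ht
      simp only [mul_zero, sub_zero] at this
      linarith
    · exact tendsto_atBot_add_const_left _ _ (tendsto_id.const_mul_atBot hm)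
  have hsurj : Function.Surjective G := hdiff.continuous.surjective htop hbot
  refine ⟨hmono.orderIsoOfSurjective G hsurj, ?_, fun t => rfl⟩
  refine ⟨hc1, fun t => ?_⟩
  show 0 < deriv G t
  rw [hderiv]
  exact lt_of_lt_of_le hm (hmD t)

theorem extend_Dd {δ δ' : ℝ} (h0 : 0 < δ') (h1 : δ' < δ) {f : ℝ → ℝ}
    (hf : ContDiffOn ℝ 1 f (Ioo (-δ) δ)) (hpos : ∀ t ∈ Ioo (-δ) δ, 0 < deriv f t) :
    ∃ g ∈ Dd, ∀ t, |t| ≤ δ' → g t = f t := by
  have hclamp : ∀ t : ℝ, max (-δ') (min t δ') ∈ Icc (-δ') δ' := fun t =>
    ⟨le_max_left _ _, max_le (by linarith) (min_le_right _ _)⟩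
  have hsub : Icc (-δ') δ' ⊆ Ioo (-δ) δ := fun t ht =>
    ⟨by linarith [ht.1], by linarith [ht.2]⟩
  have hderc : ContinuousOn (deriv f) (Ioo (-δ) δ) :=
    hf.continuousOn_deriv_of_isOpen isOpen_Ioo le_rfl
  set D : ℝ → ℝ := fun t => deriv f (max (-δ') (min t δ')) with hDdef
  have hD : Continuous D := hderc.comp_continuous (by fun_prop) fun t => hsub (hclamp t)
  have hne : (Icc (-δ') δ').Nonempty := ⟨0, by constructor <;> linarith⟩
  obtain ⟨t1, ht1, hmin⟩ := isCompact_Icc.exists_isMinOn hne (hderc.mono hsub)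
  have hmD : ∀ t, deriv f t1 ≤ D t := fun t => hmin (hclamp t)
  have hG : ∀ t, HasDerivAt (fun t => f 0 + ∫ s in (0 : ℝ)..t, D s) (D t) t := fun t =>
    (hD.integral_hasStrictDerivAt 0 t).hasDerivAt.const_add _
  obtain ⟨g, hg, hgG⟩ := P07_mk hG hD (hpos t1 (hsub ht1)) hmD
  refine ⟨g, hg, fun t ht => ?_⟩
  rw [abs_le] at ht
  have hfd : ∀ s ∈ uIcc 0 t, HasDerivAt f (D s) s := by
    intro s hs
    have hs1 : s ∈ Icc (-δ') δ' := by
      rcases le_total 0 t with h | h
      · rw [uIcc_of_le h] at hs
        exact ⟨by linarith [hs.1], hs.2.trans ht.2⟩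
      · rw [uIcc_of_ge h] at hs
        exact ⟨ht.1.trans hs.1, by linarith [hs.2]⟩
    have hs2 : D s = deriv f s := by
      rw [hDdef]
      simp only
      rw [min_eq_left hs1.2, max_eq_right hs1.1]
    rw [hs2]
    have h3 : DifferentiableAt ℝ f s :=
      (hf.differentiableOn one_ne_zero).differentiableAt (isOpen_Ioo.mem_nhds (hsub hs1))
    exact h3.hasDerivAt
  rw [hgG, intervalIntegral.integral_eq_sub_of_hasDerivAt hfd (hD.intervalIntegrable _ _)]
  ring

end Pool.Agent.helper35.FOL
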