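import Pool.Agent.helper35.FOL.P06
import Pool.Agent.helper35.FOL.P07

/-!
# FOL-P08: the holonomy maps of the gluings

Proof. For `z ∈ tabM (1/60) j` put `H (z, t) = c (rho j z, G (z, t))`, defined and `C¹` for
`|t| < δ2` (where `δ2` is such that `|G (z, t)| < d2` for all `z ∈ tabM (1/60) j`, `|t| < δ2`:
`closure (tabM (1/60) j)` is compact in `combM (1/70)`, or use `exists_G` again; simplest: use
`|G (z,t)| < d2` as the definition of the domain and a compactness argument).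
`∂_z H = 0`: `D_z [c (rho j z, G (z,t))] ζ = - ∂_z c (ρ z, ·) ζ + ∂ₓ c · A (z, G) ζ`, and
`∂_z c (w, x) = - ∂ₓ c (w, x) A (w, x)` (`isFI.ker`), and `A (ρ z, x) = - A (z, x)` (`hA.refl`).  `tabM (1/60) j` is
convex, so `H (z, t) = α_j (t)` does not depend on `z`; `α_j` is `C¹`, `α_j 0 = 0`, `α_j' > 0`.
`G (rho j z, α_j t) = G (z, t)` by `hC.cd`.  Extend `α_j` to an element of `Dd` (`extend_Dd`).

CAUTION: a chart on `combM (1/60)` gives no uniform bound up to the boundary of the comb; this is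
why the conclusion is only stated for `tabM (1/55) j` (compactness of
`closure (tabM (1/55) j) ⊆ tabM (1/60) j`).
-/

open Set Filter Topology
open scoped ContDiff commutatorElement

namespace Pool.Agent.helper35.FOL

/-- Uniform smallness of `G` on the compact closure of the end of an arm. -/
private theorem small_G_tab {d δ d2 : ℝ} {A : ℂ × ℝ → ℂ →L[ℝ] ℝ} {G c : ℂ × ℝ → ℝ}
    (hC : IsChart A d δ d2 G c) {j : ℕ} (hj : j < 8) :
    ∃ ε > 0, ∀ z ∈ tabM (1 / 55) j, ∀ t : ℝ, |t| < ε → |t| < δ ∧ |G (z, t)| < d2 := by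
  have hGc : ContinuousOn G (box (1 / 60) δ) := hC.G1.continuousOn
  have hW : IsOpen (box (1 / 60) δ ∩ G ⁻¹' (Ioo (-d2) d2)) :=
    hGc.isOpen_inter_preimage (isOpen_box _ _) isOpen_Ioo
  set K : Set ℂ := Icc ((j : ℝ) - (1 / 4 - 1 / 55)) ((j : ℝ) + (1 / 4 - 1 / 55)) ×ℂ
    Icc (1 + 1 / 55 : ℝ) (2 - 1 / 55) with hK
  have hKc : IsCompact K := isCompact_Icc.reProdIm isCompact_Icc
  have hKsub : K ⊆ combM (1 / 60) := by
    intro z hz
    rw [hK, Complex.mem_reProdIm] at hz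
    obtain ⟨⟨h1, h2⟩, h3, h4⟩ := hz
    apply tabM_subset (by norm_num) hj
    refine ⟨?_, ?_, ?_⟩
    · rw [abs_lt]; constructor <;> linarith
    · linarith
    · linarith
  have hsub : K ×ˢ ({0} : Set ℝ) ⊆ box (1 / 60) δ ∩ G ⁻¹' (Ioo (-d2) d2) := by
    rintro ⟨z, t⟩ ⟨hz, ht⟩
    simp only [mem_singleton_iff] at ht
    subst ht
    have h1 := hC.δpos
    have h2 := hC.d2pos
    refine ⟨⟨hKsub hz, ?_⟩, ?_⟩
    · exact ⟨by simpa using h1, h1⟩
    · rw [mem_preimage, hC.G0 z (hKsub hz)]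
      exact ⟨by linarith, h2⟩
  obtain ⟨u, v, hu, hv, hKu, h0v, huv⟩ :=
    generalized_tube_lemma hKc isCompact_singleton hW hsub
  have h0 : (0 : ℝ) ∈ v := h0v rfl
  obtain ⟨ε, hε, hball⟩ := Metric.isOpen_iff.1 hv 0 h0
  refine ⟨ε, hε, fun z hz t ht => ?_⟩
  have hzK : z ∈ K := by
    rw [hK, Complex.mem_reProdIm]
    obtain ⟨h1, h2, h3⟩ := hz
    rw [abs_lt] at h1
    exact ⟨⟨by linarith, by linarith⟩, by linarith, by linarith⟩
  have htv : t ∈ v := hball (by simpa [Metric.mem_ball, dist_zero_right] using ht)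
  have hmem := huv (mk_mem_prod (hKu hzK) htv)
  obtain ⟨⟨_, h2⟩, h3⟩ := hmem
  exact ⟨abs_lt.2 h2, abs_lt.2 h3⟩

private theorem rho_hasFDerivAt (j : ℕ) (z : ℂ) :
    HasFDerivAt (rho j) (-(ContinuousLinearMap.id ℝ ℂ)) z := by
  have h : HasFDerivAt (fun z : ℂ => (2 * j + 2 : ℂ) + 3 * Complex.I - z)
      (-(ContinuousLinearMap.id ℝ ℂ)) z := (hasFDerivAt_id z).const_sub _
  exact h

private theorem handles_lt {j : ℕ} (hj : j ∈ handles) : j < 8 ∧ j + 2 < 8 := by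
  simp only [handles, Finset.mem_insert, Finset.mem_singleton] at hj
  omega

private theorem tab_mono {h h' : ℝ} (hh : h ≤ h') {j : ℕ} : tabM h' j ⊆ tabM h j := by
  intro z hz
  obtain ⟨h1, h2, h3⟩ := hz
  exact ⟨by linarith, by linarith, by linarith⟩

/-- The local holonomy of one gluing. -/
private theorem holonomy_aux {d δ d2 : ℝ} {A : ℂ × ℝ → ℂ →L[ℝ] ℝ} {G c : ℂ × ℝ → ℝ}
    (hA : PlaneData d A) (hC : IsChart A d δ d2 G c) {j : ℕ} (hj : j ∈ handles) :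
    ∃ δ1 > 0, δ1 < δ ∧ ∃ a : ℝ ≃o ℝ, a ∈ Dd ∧ a 0 = 0 ∧
      ∀ t, |t| < δ1 → |a t| < δ ∧ ∀ z ∈ tabM (1 / 55) j, |G (z, t)| < d2 ∧
        G (rho j z, a t) = G (z, t) := by
  obtain ⟨hj8, hj28⟩ := handles_lt hj
  obtain ⟨ε, hε, hsmall⟩ := small_G_tab hC hj8
  have hfi := hC.isFI
  set T := tabM (1 / 55) j with hT
  have hTo : IsOpen T := isOpen_tabM _ _
  have hTc : Convex ℝ T := convex_tabM _ _
  set H : ℂ × ℝ → ℝ := fun y => c (rho j y.1, G y) with hH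
  have hTsub : ∀ z ∈ T, z ∈ combM (1 / 60) := fun z hz =>
    tabM_subset (by norm_num) hj8 (tab_mono (by norm_num) hz)
  have hρsub : ∀ z ∈ T, rho j z ∈ combM (1 / 60) := fun z hz =>
    tabM_subset (by norm_num) hj28 (tab_mono (by norm_num) (rho_mem_tabM hz))
  have hbox : ∀ z ∈ T, ∀ t : ℝ, |t| < ε → ((z, t) : ℂ × ℝ) ∈ box (1 / 60) δ := fun z hz t ht =>
    ⟨hTsub z hz, abs_lt.1 (hsmall z hz t ht).1⟩
  have hbox2 : ∀ z ∈ T, ∀ t : ℝ, |t| < ε → ((rho j z, G (z, t)) : ℂ × ℝ) ∈ box (1 / 60) d2 :=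
    fun z hz t ht => ⟨hρsub z hz, abs_lt.1 (hsmall z hz t ht).2⟩
  -- derivative of `H`
  have hdH : ∀ z ∈ T, ∀ t : ℝ, |t| < ε → HasFDerivAt H
      ((fderiv ℝ c (rho j z, G (z, t))).comp
        (((-(ContinuousLinearMap.id ℝ ℂ)).comp (ContinuousLinearMap.fst ℝ ℂ ℝ)).prod
          (fderiv ℝ G (z, t)))) (z, t) := by
    intro z hz t ht
    have hG : HasFDerivAt G (fderiv ℝ G (z, t)) (z, t) :=
      ((hC.G1.contDiffAt ((isOpen_box _ _).mem_nhds (hbox z hz t ht))).differentiableAt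
        one_ne_zero).hasFDerivAt
    have hc : HasFDerivAt c (fderiv ℝ c (rho j z, G (z, t))) (rho j z, G (z, t)) :=
      ((hC.c1.contDiffAt ((isOpen_box _ _).mem_nhds (hbox2 z hz t ht))).differentiableAt
        one_ne_zero).hasFDerivAt
    have hr : HasFDerivAt (fun y : ℂ × ℝ => rho j y.1)
        ((-(ContinuousLinearMap.id ℝ ℂ)).comp (ContinuousLinearMap.fst ℝ ℂ ℝ)) (z, t) :=
      (rho_hasFDerivAt j z).comp (z, t) hasFDerivAt_fst
    exact hc.comp (z, t) (hr.prodMk hG)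
  have hzero : ∀ z ∈ T, ∀ t : ℝ, |t| < ε → ∀ ζ : ℂ, fderiv ℝ H (z, t) (ζ, 0) = 0 := by
    intro z hz t ht ζ
    rw [(hdH z hz t ht).fderiv]
    simp only [ContinuousLinearMap.comp_apply, ContinuousLinearMap.prod_apply,
      _root_.neg_apply, ContinuousLinearMap.id_apply, ContinuousLinearMap.coe_fst']
    rw [hC.GA (z, t) (hbox z hz t ht) ζ]
    have hGd : |G (z, t)| < d := hC.Gd _ (hbox z hz t ht)
    have hr := hA.refl j hj z (tab_mono (by norm_num) hz) (G (z, t)) hGd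
    have hk := hfi.ker _ (hbox2 z hz t ht) (-ζ)
    rw [hr] at hk
    simpa using hk
  have hconst : ∀ z ∈ T, ∀ w ∈ T, ∀ t : ℝ, |t| < ε → H (z, t) = H (w, t) := by
    intro z hz w hw t ht
    have hder : ∀ x ∈ T, HasFDerivAt (fun x : ℂ => H (x, t)) (0 : ℂ →L[ℝ] ℝ) x := by
      intro x hx
      have h1 : HasFDerivAt (fun x : ℂ => ((x, t) : ℂ × ℝ))
          (ContinuousLinearMap.inl ℝ ℂ ℝ) x := hasFDerivAt_prodMk_left x t
      have h2 := (hdH x hx t ht).comp x h1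
      have h3 : (((fderiv ℝ c (rho j x, G (x, t))).comp
        (((-(ContinuousLinearMap.id ℝ ℂ)).comp (ContinuousLinearMap.fst ℝ ℂ ℝ)).prod
          (fderiv ℝ G (x, t)))).comp (ContinuousLinearMap.inl ℝ ℂ ℝ)) = 0 := by
        ext ζ <;>
        · have := hzero x hx t ht ζ
          have h4 := hzero x hx t ht
          rw [(hdH x hx t ht).fderiv] at h4
          simpa using h4 _
      rw [h3] at h2
      exact h2
    refine hTc.is_const_of_fderivWithin_eq_zero (𝕜 := ℝ) (f := fun x : ℂ => H (x, t)) ?_ ?_ hz hw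
    · intro x hx
      exact (hder x hx).differentiableAt.differentiableWithinAt
    · intro x hx
      rw [fderivWithin_of_isOpen hTo hx]
      exact (hder x hx).fderiv
  -- the base point of the end of the arm
  set w0 : ℂ := ⟨j, 3 / 2⟩ with hw0
  have hw0T : w0 ∈ T := by
    refine ⟨?_, ?_, ?_⟩
    · simp [hw0]; norm_num
    · simp [hw0]; norm_num
    · simp [hw0]; norm_num
  set f : ℝ → ℝ := fun t => H (w0, t) with hf
  have hmk : ContDiff ℝ 1 (fun t : ℝ => ((w0, t) : ℂ × ℝ)) := contDiff_const.prodMk contDiff_id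
  have hρ : ContDiff ℝ 1 (rho j) := contDiff_const.sub contDiff_id
  have hfC : ContDiffOn ℝ 1 f (Ioo (-ε) ε) := by
    have h1 : ContDiffOn ℝ 1 (fun t : ℝ => G (w0, t)) (Ioo (-ε) ε) :=
      hC.G1.comp hmk.contDiffOn (fun t ht => hbox w0 hw0T t (abs_lt.2 ht))
    have h2 : ContDiffOn ℝ 1 (fun t : ℝ => ((rho j w0, G (w0, t)) : ℂ × ℝ)) (Ioo (-ε) ε) :=
      contDiffOn_const.prodMk h1
    exact hC.c1.comp h2 (fun t ht => hbox2 w0 hw0T t (abs_lt.2 ht))
  have hfpos : ∀ t ∈ Ioo (-ε) ε, 0 < deriv f t := by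
    intro t ht
    have ht' : |t| < ε := abs_lt.2 ht
    have h1 : HasDerivAt (fun t : ℝ => ((w0, t) : ℂ × ℝ)) ((0, 1) : ℂ × ℝ) t :=
      (hasDerivAt_const t w0).prodMk (hasDerivAt_id t)
    have h2 := (hdH w0 hw0T t ht').comp_hasDerivAt t h1
    have h3 : deriv f t = _ := h2.deriv
    rw [h3]
    simp only [ContinuousLinearMap.comp_apply, ContinuousLinearMap.prod_apply,
      _root_.neg_apply, ContinuousLinearMap.id_apply, ContinuousLinearMap.coe_fst',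
      neg_zero]
    have h4 : ((0, fderiv ℝ G (w0, t) (0, 1)) : ℂ × ℝ) =
        (fderiv ℝ G (w0, t) (0, 1)) • ((0, 1) : ℂ × ℝ) := by
      simp
    rw [h4, map_smul, smul_eq_mul]
    exact mul_pos (hC.Gpos _ (hbox w0 hw0T t ht')) (hfi.pos _ (hbox2 w0 hw0T t ht'))
  have hδ := hC.δpos
  set δ1 : ℝ := min (ε / 2) (δ / 2) with hδ1
  have hδ1pos : 0 < δ1 := lt_min (by linarith) (by linarith)
  have hδ1ε : δ1 < ε := lt_of_le_of_lt (min_le_left _ _) (by linarith)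
  obtain ⟨g, hg, hgf⟩ := extend_Dd hδ1pos hδ1ε hfC hfpos
  refine ⟨δ1, hδ1pos, lt_of_le_of_lt (min_le_right _ _) (by linarith), g, hg, ?_, ?_⟩
  · rw [hgf 0 (by simpa using hδ1pos.le)]
    have h1 : G (w0, 0) = 0 := hC.G0 w0 (hTsub w0 hw0T)
    have h2 := hC.cG (rho j w0) (hρsub w0 hw0T) 0 (by simpa using hδ)
      (by rw [hC.G0 _ (hρsub w0 hw0T)]; simpa using hC.d2pos)
    rw [hC.G0 _ (hρsub w0 hw0T)] at h2
    simp only [hf, hH]
    rw [h1, h2]
  · intro t ht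
    have htε : |t| < ε := ht.trans hδ1ε
    rw [hgf t ht.le]
    refine ⟨(hC.cd _ (hbox2 w0 hw0T t htε)).1, fun z hz => ⟨(hsmall z hz t htε).2, ?_⟩⟩
    have h1 : f t = H (z, t) := hconst w0 hw0T z hz t htε
    rw [h1]
    exact (hC.cd _ (hbox2 z hz t htε)).2

theorem exists_holonomy {d δ d2 : ℝ} {A : ℂ × ℝ → ℂ →L[ℝ] ℝ} {G c : ℂ × ℝ → ℝ}
    (hA : PlaneData d A) (hC : IsChart A d δ d2 G c) :
    ∃ δ1 > 0, δ1 < δ ∧ ∃ a : ℕ → ℝ ≃o ℝ, ∀ j ∈ handles, a j ∈ Dd ∧ a j 0 = 0 ∧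
      ∀ t, |t| < δ1 → |a j t| < δ ∧ ∀ z ∈ tabM (1 / 55) j, |G (z, t)| < d2 ∧
        G (rho j z, a j t) = G (z, t) := by
  have h := fun (j : ℕ) (hj : j ∈ handles) => holonomy_aux hA hC hj
  have h0 : (0 : ℕ) ∈ handles := by simp [handles]
  have h1 : (1 : ℕ) ∈ handles := by simp [handles]
  have h4 : (4 : ℕ) ∈ handles := by simp [handles]
  have h5 : (5 : ℕ) ∈ handles := by simp [handles]
  obtain ⟨e0, he0, he0', a0, ha0⟩ := h 0 h0
  obtain ⟨e1, he1, he1', a1, ha1⟩ := h 1 h1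
  obtain ⟨e4, he4, he4', a4, ha4⟩ := h 4 h4
  obtain ⟨e5, he5, he5', a5, ha5⟩ := h 5 h5
  refine ⟨min (min e0 e1) (min e4 e5), lt_min (lt_min he0 he1) (lt_min he4 he5),
    lt_of_le_of_lt ((min_le_left _ _).trans (min_le_left _ _)) he0',
    fun j => if j = 0 then a0 else if j = 1 then a1 else if j = 4 then a4 else a5, ?_⟩
  intro j hj
  simp only [handles, Finset.mem_insert, Finset.mem_singleton] at hj
  rcases hj with rfl | rfl | rfl | rfl
  · refine ⟨ha0.1, ha0.2.1, fun t ht => ha0.2.2 t (lt_of_lt_of_le ht ?_)⟩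
    exact (min_le_left _ _).trans (min_le_left _ _)
  · refine ⟨ha1.1, ha1.2.1, fun t ht => ha1.2.2 t (lt_of_lt_of_le ht ?_)⟩
    exact (min_le_left _ _).trans (min_le_right _ _)
  · refine ⟨ha4.1, ha4.2.1, fun t ht => ha4.2.2 t (lt_of_lt_of_le ht ?_)⟩
    exact (min_le_right _ _).trans (min_le_left _ _)
  · refine ⟨ha5.1, ha5.2.1, fun t ht => ha5.2.2 t (lt_of_lt_of_le ht ?_)⟩
    exact (min_le_right _ _).trans (min_le_right _ _)

end Pool.Agent.helper35.FOL
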