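import Pool.Agent.helper35.FOL.PDefs

/-!
# FOL-P09: convergence in the group `Dd`

`DTend f g r`: `f m → g` in `C¹`, uniformly on the line, and all `f m` agree with `g` outside `[-r, r]`.
Products and inverses are easy: outside a large interval everything agrees, on compact intervals
use uniform continuity of `g`, `deriv g`, `g⁻¹`, `deriv g⁻¹`.
For `mul`: `f m (f' m x)`, `deriv = deriv (f m) (f' m x) * deriv (f' m) x`.
The support radius: if `f m = g` outside `[-r, r]`, `f' m = g'` outside `[-r, r]` then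
`f m * f' m = g * g'` outside `[-r', r']` where `r' = max r (max |g'⁻¹ r| |g'⁻¹ (-r)|)`; for the inverse
`r' = max |g r| |g (-r)|`.
-/

open Set Filter Topology
open scoped ContDiff commutatorElement

namespace Pool.Agent.helper35.FOL

/-- `C¹` convergence `f m → g`, with `f m = g` outside `[-r, r]`. -/
structure DTend (f : ℕ → ℝ ≃o ℝ) (g : ℝ ≃o ℝ) (r : ℝ) : Prop where
  memf : ∀ m, f m ∈ Dd
  memg : g ∈ Dd
  out : ∀ m x, r ≤ |x| → f m x = g x
  conv : ∀ ε : ℝ, 0 < ε → ∃ m0, ∀ m ≥ m0, ∀ x, |f m x - g x| ≤ ε ∧ |deriv (f m) x - deriv g x| ≤ ε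

theorem DTend.mono {f : ℕ → ℝ ≃o ℝ} {g : ℝ ≃o ℝ} {r r' : ℝ} (h : DTend f g r) (hr : r ≤ r') :
    DTend f g r' :=
  ⟨h.memf, h.memg, fun m x hx => h.out m x (hr.trans hx), h.conv⟩

theorem DTend.const {g : ℝ ≃o ℝ} (hg : g ∈ Dd) (r : ℝ) : DTend (fun _ => g) g r :=
  ⟨fun _ => hg, hg, fun _ _ _ => rfl, fun ε hε => ⟨0, fun m _ x => by simp [hε.le]⟩⟩

/-! ### Auxiliary facts -/

theorem P09_deriv_out {F G : ℝ → ℝ} {r : ℝ} (h : ∀ x, r ≤ |x| → F x = G x) {x : ℝ}
    (hx : r < |x|) : deriv F x = deriv G x := by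
  apply Filter.EventuallyEq.deriv_eq
  filter_upwards [(isOpen_lt continuous_const continuous_abs).mem_nhds hx] with y hy
  exact h y (le_of_lt hy)

theorem P09_unif {φ : ℝ → ℝ} (hφ : Continuous φ) (R : ℝ) {ε : ℝ} (hε : 0 < ε) :
    ∃ δ > 0, δ ≤ 1 ∧ ∀ x y, |x| ≤ R → |y - x| ≤ δ → |φ y - φ x| ≤ ε := by
  have h1 : UniformContinuousOn φ (Icc (-(R + 1)) (R + 1)) :=
    isCompact_Icc.uniformContinuousOn_of_continuous hφ.continuousOn
  rw [Metric.uniformContinuousOn_iff_le] at h1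
  obtain ⟨δ, hδ, h2⟩ := h1 ε hε
  refine ⟨min δ 1, lt_min hδ one_pos, min_le_right _ _, fun x y hx hy => ?_⟩
  have h3 := hy.trans (min_le_left _ _)
  have h4 := hy.trans (min_le_right _ _)
  rw [abs_le] at hx h4
  have h5 := h2 y ⟨by linarith, by linarith⟩ x ⟨by linarith, by linarith⟩
    (by rw [Real.dist_eq]; exact h3)
  rwa [Real.dist_eq] at h5

theorem P09_bdd {φ : ℝ → ℝ} (hφ : Continuous φ) (R : ℝ) :
    ∃ D > 0, ∀ x, |x| ≤ R → |φ x| ≤ D := by
  obtain ⟨D, hD⟩ := (isCompact_Icc (a := -R) (b := R)).exists_bound_of_continuousOn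
    hφ.continuousOn
  exact ⟨max D 1, by positivity, fun x hx => (hD x (abs_le.1 hx)).trans (le_max_left _ _)⟩

theorem P09_diff {g : ℝ ≃o ℝ} (hg : g ∈ Dd) : Differentiable ℝ g :=
  hg.1.differentiable one_ne_zero

theorem P09_dcont {g : ℝ ≃o ℝ} (hg : g ∈ Dd) : Continuous (deriv g) :=
  hg.1.continuous_deriv le_rfl

theorem P09_apply_inv (g : ℝ ≃o ℝ) (x : ℝ) : g (g⁻¹ x) = x := g.apply_symm_apply x

theorem P09_inv_apply (g : ℝ ≃o ℝ) (x : ℝ) : g⁻¹ (g x) = x := g.symm_apply_apply x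

theorem P09_deriv_inv {g : ℝ ≃o ℝ} (hg : g ∈ Dd) (x : ℝ) :
    deriv (⇑(g⁻¹)) x = (deriv g (g⁻¹ x))⁻¹ := by
  refine (HasDerivAt.of_local_left_inverse (f := g) (g := ⇑(g⁻¹)) ?_ ?_ (hg.2 _).ne' ?_).deriv
  · exact (OrderIso.continuous g⁻¹).continuousAt
  · exact (P09_diff hg _).hasDerivAt
  · exact Eventually.of_forall fun y => P09_apply_inv g y

theorem P09_deriv_mul {g h : ℝ ≃o ℝ} (hg : g ∈ Dd) (hh : h ∈ Dd) (x : ℝ) :
    deriv (⇑(g * h)) x = deriv g (h x) * deriv h x :=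
  deriv_comp x (P09_diff hg _) (P09_diff hh _)

theorem P09_inv_sub {a b D δ ε : ℝ} (ha : 0 < a) (hb : 0 < b) (hD : 0 < D) (hbD : b⁻¹ ≤ D)
    (hab : |a - b| ≤ δ) (h1 : δ ≤ D⁻¹ / 2) (h2 : δ * (2 * D * D) ≤ ε) :
    |a⁻¹ - b⁻¹| ≤ ε := by
  have h3 : D⁻¹ ≤ b := inv_le_of_inv_le₀ hb hbD
  have h4 : D⁻¹ / 2 ≤ a := by
    have := (abs_le.1 hab).1
    linarith
  have h5 : a⁻¹ ≤ 2 * D := by
    have h6 : 0 < D⁻¹ / 2 := by positivity
    have h7 := inv_anti₀ h6 h4
    have h8 : (D⁻¹ / 2)⁻¹ = 2 * D := by field_simp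
    linarith
  have h6 : a⁻¹ - b⁻¹ = (b - a) * (a⁻¹ * b⁻¹) := by
    field_simp
  have h7 : |a⁻¹ * b⁻¹| ≤ 2 * D * D := by
    rw [abs_of_pos (by positivity)]
    exact mul_le_mul h5 hbD (by positivity) (by positivity)
  rw [h6, abs_mul, abs_sub_comm b a]
  exact (mul_le_mul hab h7 (abs_nonneg _) ((abs_nonneg _).trans hab)).trans h2

/-- Product: for every `r'` there is `r` such that the supports stay in `[-r', r']`. -/
theorem DTend.mul {g g' : ℝ ≃o ℝ} (hg : g ∈ Dd) (hg' : g' ∈ Dd) (h0 : g' 0 = 0) {r' : ℝ}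
    (hr' : 0 < r') : ∃ r > 0, r ≤ r' ∧ ∀ f f' : ℕ → ℝ ≃o ℝ, DTend f g r → DTend f' g' r →
      DTend (fun m => f m * f' m) (g * g') r' := by
  have hp : 0 < g' r' := by
    have := g'.strictMono hr'
    rwa [h0] at this
  have hn : g' (-r') < 0 := by
    have := g'.strictMono (neg_lt_zero.2 hr')
    rwa [h0] at this
  refine ⟨min r' (min (g' r') (-g' (-r'))), lt_min hr' (lt_min hp (neg_pos.2 hn)),
    min_le_left _ _, ?_⟩
  intro f f' hf hf'
  have key : ∀ x, r' ≤ |x| → min r' (min (g' r') (-g' (-r'))) ≤ |g' x| := by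
    intro x hx
    rcases le_abs.1 hx with h | h
    · have h1 : g' r' ≤ g' x := g'.monotone h
      exact (min_le_right _ _).trans ((min_le_left _ _).trans (h1.trans (le_abs_self _)))
    · have h1 : g' x ≤ g' (-r') := g'.monotone (by linarith)
      exact (min_le_right _ _).trans ((min_le_right _ _).trans
        ((neg_le_neg h1).trans (neg_le_abs _)))
  have hout : ∀ m x, r' ≤ |x| → (f m * f' m) x = (g * g') x := by
    intro m x hx
    have h1 : f' m x = g' x := hf'.out m x ((min_le_left _ _).trans hx)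
    have h2 : f m (g' x) = g (g' x) := hf.out m _ (key x hx)
    show f m (f' m x) = g (g' x)
    rw [h1, h2]
  refine ⟨fun m => Dd.mul_mem (hf.memf m) (hf'.memf m), Dd.mul_mem hg hg', hout, ?_⟩
  intro ε hε
  obtain ⟨D', hD'p, hD'⟩ := P09_bdd (P09_dcont hg') r'
  obtain ⟨R, -, hR⟩ := P09_bdd (OrderIso.continuous g') r'
  obtain ⟨D, hDp, hD⟩ := P09_bdd (P09_dcont hg) R
  obtain ⟨δ1, hδ1, -, h1⟩ := P09_unif (OrderIso.continuous g) R (half_pos hε)
  obtain ⟨δ2, hδ2, -, h2⟩ := P09_unif (P09_dcont hg) R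
    (div_pos hε (by positivity : 0 < 3 * (D' + 1)))
  obtain ⟨m1, hm1⟩ := hf.conv (min (ε / 2) (ε / (3 * (D' + 1))))
    (lt_min (half_pos hε) (div_pos hε (by positivity)))
  obtain ⟨m2, hm2⟩ := hf'.conv (min (min δ1 δ2) (min 1 (ε / (3 * D))))
    (lt_min (lt_min hδ1 hδ2) (lt_min one_pos (div_pos hε (by positivity))))
  refine ⟨max m1 m2, fun m hm x => ?_⟩
  rcases lt_or_ge r' |x| with hx | hx
  · have e1 := hout m x hx.le
    have e2 := P09_deriv_out (hout m) hx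
    rw [e1, e2]
    simp [hε.le]
  · obtain ⟨a1, a2⟩ := hm1 m ((le_max_left _ _).trans hm) (f' m x)
    obtain ⟨b1, b2⟩ := hm2 m ((le_max_right _ _).trans hm) x
    have c1 := hR x hx
    have d1 := h1 (g' x) (f' m x) c1 (b1.trans ((min_le_left _ _).trans (min_le_left _ _)))
    have d2 := h2 (g' x) (f' m x) c1 (b1.trans ((min_le_left _ _).trans (min_le_right _ _)))
    have a1' := a1.trans (min_le_left _ _)
    have a2' := a2.trans (min_le_right _ _)
    have b2' := b2.trans ((min_le_right _ _).trans (min_le_left _ _))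
    have b2'' := b2.trans ((min_le_right _ _).trans (min_le_right _ _))
    refine ⟨?_, ?_⟩
    · show |f m (f' m x) - g (g' x)| ≤ ε
      have e : f m (f' m x) - g (g' x) =
          (f m (f' m x) - g (f' m x)) + (g (f' m x) - g (g' x)) := by ring
      rw [e]
      refine (abs_add_le _ _).trans ?_
      linarith
    · rw [P09_deriv_mul (hf.memf m) (hf'.memf m), P09_deriv_mul hg hg']
      have e : deriv (f m) (f' m x) * deriv (f' m) x - deriv g (g' x) * deriv g' x =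
          (deriv (f m) (f' m x) - deriv g (f' m x)) * deriv (f' m) x +
          (deriv g (f' m x) - deriv g (g' x)) * deriv (f' m) x +
          deriv g (g' x) * (deriv (f' m) x - deriv g' x) := by ring
      have k1 : |deriv (f' m) x| ≤ D' + 1 := by
        have e3 : deriv (f' m) x = deriv g' x + (deriv (f' m) x - deriv g' x) := by ring
        rw [e3]
        exact (abs_add_le _ _).trans (add_le_add (hD' x hx) b2')
      have k2 : ε / (3 * (D' + 1)) * (D' + 1) = ε / 3 := by field_simp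
      have k3 : D * (ε / (3 * D)) = ε / 3 := by field_simp
      have g1 : |(deriv (f m) (f' m x) - deriv g (f' m x)) * deriv (f' m) x| ≤ ε / 3 := by
        rw [abs_mul, ← k2]
        exact mul_le_mul a2' k1 (abs_nonneg _) (by positivity)
      have g2 : |(deriv g (f' m x) - deriv g (g' x)) * deriv (f' m) x| ≤ ε / 3 := by
        rw [abs_mul, ← k2]
        exact mul_le_mul d2 k1 (abs_nonneg _) (by positivity)
      have g3 : |deriv g (g' x) * (deriv (f' m) x - deriv g' x)| ≤ ε / 3 := by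
        rw [abs_mul, ← k3]
        exact mul_le_mul (hD _ c1) b2'' (abs_nonneg _) hDp.le
      rw [e]
      refine (abs_add_three _ _ _).trans ?_
      linarith

theorem DTend.inv {g : ℝ ≃o ℝ} (hg : g ∈ Dd) (h0 : g 0 = 0) {r' : ℝ} (hr' : 0 < r') :
    ∃ r > 0, r ≤ r' ∧ ∀ f : ℕ → ℝ ≃o ℝ, DTend f g r → DTend (fun m => (f m)⁻¹) g⁻¹ r' := by
  have hi0 : g⁻¹ 0 = 0 := by
    have := P09_inv_apply g 0
    rwa [h0] at this
  have hp : 0 < g⁻¹ r' := by
    have := (g⁻¹).strictMono hr'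
    rwa [hi0] at this
  have hn : g⁻¹ (-r') < 0 := by
    have := (g⁻¹).strictMono (neg_lt_zero.2 hr')
    rwa [hi0] at this
  have hgi : g⁻¹ ∈ Dd := Dd.inv_mem hg
  refine ⟨min r' (min (g⁻¹ r') (-g⁻¹ (-r'))), lt_min hr' (lt_min hp (neg_pos.2 hn)),
    min_le_left _ _, ?_⟩
  intro f hf
  have key : ∀ x, r' ≤ |x| → min r' (min (g⁻¹ r') (-g⁻¹ (-r'))) ≤ |g⁻¹ x| := by
    intro x hx
    rcases le_abs.1 hx with h | h
    · have h1 : g⁻¹ r' ≤ g⁻¹ x := (g⁻¹).monotone h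
      exact (min_le_right _ _).trans ((min_le_left _ _).trans (h1.trans (le_abs_self _)))
    · have h1 : g⁻¹ x ≤ g⁻¹ (-r') := (g⁻¹).monotone (by linarith)
      exact (min_le_right _ _).trans ((min_le_right _ _).trans
        ((neg_le_neg h1).trans (neg_le_abs _)))
  have hout : ∀ m x, r' ≤ |x| → (f m)⁻¹ x = g⁻¹ x := by
    intro m x hx
    have h1 : f m (g⁻¹ x) = x := by rw [hf.out m _ (key x hx), P09_apply_inv]
    have h2 := P09_inv_apply (f m) (g⁻¹ x)
    rwa [h1] at h2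
  refine ⟨fun m => Dd.inv_mem (hf.memf m), hgi, hout, ?_⟩
  intro ε hε
  obtain ⟨δ1, hδ1, -, h1⟩ := P09_unif (OrderIso.continuous g⁻¹) r' hε
  obtain ⟨δ2, hδ2, -, h2⟩ := P09_unif (P09_dcont hgi) r' (half_pos hε)
  obtain ⟨D, hDp, hD⟩ := P09_bdd (P09_dcont hgi) (r' + 1)
  obtain ⟨m0, hm0⟩ := hf.conv (min (min δ1 δ2) (min 1 (min (D⁻¹ / 2) (ε / 2 / (2 * D * D)))))
    (lt_min (lt_min hδ1 hδ2) (lt_min one_pos (lt_min (by positivity) (by positivity))))
  refine ⟨m0, fun m hm x => ?_⟩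
  rcases lt_or_ge r' |x| with hx | hx
  · have e1 := hout m x hx.le
    have e2 := P09_deriv_out (hout m) hx
    rw [e1, e2]
    simp [hε.le]
  · obtain ⟨a1, a2⟩ := hm0 m hm ((f m)⁻¹ x)
    rw [P09_apply_inv, abs_sub_comm] at a1
    have b1 := a1.trans ((min_le_left _ _).trans (min_le_left _ _))
    have b2 := a1.trans ((min_le_left _ _).trans (min_le_right _ _))
    have b3 := a1.trans ((min_le_right _ _).trans (min_le_left _ _))
    have c1 := h1 x (g ((f m)⁻¹ x)) hx b1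
    have c2 := h2 x (g ((f m)⁻¹ x)) hx b2
    have hz : |g ((f m)⁻¹ x)| ≤ r' + 1 := by
      have e : g ((f m)⁻¹ x) = x + (g ((f m)⁻¹ x) - x) := by ring
      rw [e]
      exact (abs_add_le _ _).trans (add_le_add hx b3)
    have d1 := hD _ hz
    rw [P09_deriv_inv hg, P09_inv_apply] at d1 c2
    rw [P09_inv_apply] at c1
    refine ⟨c1, ?_⟩
    rw [P09_deriv_inv (hf.memf m)]
    have ha := (hf.memf m).2 ((f m)⁻¹ x)
    have hb := hg.2 ((f m)⁻¹ x)
    have e1 := P09_inv_sub (ε := ε / 2) ha hb hDp ((le_abs_self _).trans d1) a2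
      ((min_le_right _ _).trans ((min_le_right _ _).trans (min_le_left _ _))) (by
        have := (min_le_right (min δ1 δ2) (min 1 (min (D⁻¹ / 2) (ε / 2 / (2 * D * D))))).trans
          ((min_le_right _ _).trans (min_le_right _ _))
        rwa [le_div_iff₀ (by positivity)] at this)
    have e2 : (deriv (f m) ((f m)⁻¹ x))⁻¹ - deriv (⇑(g⁻¹)) x =
        ((deriv (f m) ((f m)⁻¹ x))⁻¹ - (deriv g ((f m)⁻¹ x))⁻¹) +
        ((deriv g ((f m)⁻¹ x))⁻¹ - deriv (⇑(g⁻¹)) x) := by ring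
    rw [e2]
    refine (abs_add_le _ _).trans ?_
    linarith

end Pool.Agent.helper35.FOL
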