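import Pool.Agent.helper35.FOL.P09

/-!
# FOL-P10: the perturbed holonomies `a'` and the relabelings `φ`

Apply `hG : TheoremG` to `(A₁, B₁, A₂, B₂) = (a 5, (a 4)⁻¹, a 1, (a 0)⁻¹)` (they fix `0`) and
`ε = 1 / (m + 1)`, with a radius `r` so small that all words below are supported in `[-r1, r1]`
(`DTend.mul`, `DTend.inv`).  With `a' m 5 = A₁'`, `a' m 4 = B₁'⁻¹`, `a' m 1 = A₂'`, `a' m 0 = B₂'⁻¹` define
(dropping `m`; words `w * w'⁻¹`)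
`φ 7 = 1`, `φ 2 = a₀ φ 7 a₀'⁻¹`, `φ 1 = a₁⁻¹ (φ 2) a₁'`, `φ 0 = a₀⁻¹ (φ 1) a₀'`, `φ 3 = a₁ (φ 0) a₁'⁻¹`,
`φ 6 = a₄ (φ 3) a₄'⁻¹`, `φ 5 = a₅⁻¹ (φ 6) a₅'`, `φ 4 = a₄⁻¹ (φ 5) a₄'`; `φ k = 1` for `k ≥ 8`.
The relations are: `j = 0`: `φ 1 a₀' = a₀ φ 0`, `φ 2 a₀' = a₀ φ 7`; `j = 1`: `φ 2 a₁' = a₁ φ 1`,
`φ 3 a₁' = a₁ φ 0`; `j = 4`: `φ 5 a₄' = a₄ φ 4`, `φ 6 a₄' = a₄ φ 3`; `j = 5`: `φ 6 a₅' = a₅ φ 5` and
`φ 7 a₅' = a₅ φ 4`.  All hold by definition except the last one, `a₅ (φ 4) a₅'⁻¹ = 1`: by substitution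
`a₅ φ 4 a₅'⁻¹ = [a₅, a₄⁻¹] [a₁, a₀⁻¹] ([a₅', a₄'⁻¹] [a₁', a₀'⁻¹])⁻¹ = 1` (`group`).
Common fixed points of `A₁, B₁, A₂, B₂` are the common fixed points of `a j`, `j ∈ handles`.
-/

open Set Filter Topology
open scoped ContDiff commutatorElement

namespace Pool.Agent.helper35.FOL

/-- the words `φ k` in `a j` and `a' j` -/
def P10_w {G : Type*} [Group G] (a b : ℕ → G) : ℕ → G
  | 7 => 1
  | 2 => a 0 * (b 0)⁻¹
  | 1 => (a 1)⁻¹ * (a 0 * (b 0)⁻¹) * b 1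
  | 0 => (a 0)⁻¹ * ((a 1)⁻¹ * (a 0 * (b 0)⁻¹) * b 1) * b 0
  | 3 => a 1 * ((a 0)⁻¹ * ((a 1)⁻¹ * (a 0 * (b 0)⁻¹) * b 1) * b 0) * (b 1)⁻¹
  | 6 => a 4 * (a 1 * ((a 0)⁻¹ * ((a 1)⁻¹ * (a 0 * (b 0)⁻¹) * b 1) * b 0) * (b 1)⁻¹) * (b 4)⁻¹
  | 5 => (a 5)⁻¹ * (a 4 * (a 1 * ((a 0)⁻¹ * ((a 1)⁻¹ * (a 0 * (b 0)⁻¹) * b 1) * b 0) *
      (b 1)⁻¹) * (b 4)⁻¹) * b 5
  | 4 => (a 4)⁻¹ * ((a 5)⁻¹ * (a 4 * (a 1 * ((a 0)⁻¹ * ((a 1)⁻¹ * (a 0 * (b 0)⁻¹) * b 1) *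
      b 0) * (b 1)⁻¹) * (b 4)⁻¹) * b 5) * b 4
  | _ => 1

theorem P10_w_map {G H : Type*} [Group G] [Group H] (F : G →* H) (a b : ℕ → G) (k : ℕ) :
    F (P10_w a b k) = P10_w (fun j => F (a j)) (fun j => F (b j)) k := by
  match k with
  | 0 | 1 | 2 | 3 | 4 | 5 | 6 | 7 => simp [P10_w]
  | k + 8 => simp [P10_w]

theorem P10_w_self {G : Type*} [Group G] (a b : ℕ → G) (h : ∀ j ∈ handles, b j = a j) (k : ℕ) :
    P10_w a b k = 1 := by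
  have h0 := h 0 (by decide)
  have h1 := h 1 (by decide)
  have h4 := h 4 (by decide)
  have h5 := h 5 (by decide)
  match k with
  | 0 | 1 | 2 | 3 | 4 | 5 | 6 | 7 => simp [P10_w, h0, h1, h4, h5]
  | k + 8 => simp [P10_w]

theorem P10_rel {G : Type*} [Group G] (a b : ℕ → G)
    (h : ⁅b 5, (b 4)⁻¹⁆ * ⁅b 1, (b 0)⁻¹⁆ = ⁅a 5, (a 4)⁻¹⁆ * ⁅a 1, (a 0)⁻¹⁆) :
    ∀ j ∈ handles, P10_w a b (j + 1) * b j = a j * P10_w a b j ∧
      P10_w a b (j + 2) * b j = a j * P10_w a b ((j + 7) % 8) := by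
  intro j hj
  simp only [handles, Finset.mem_insert, Finset.mem_singleton] at hj
  rcases hj with rfl | rfl | rfl | rfl
  · constructor
    · simp only [P10_w]; group
    · simp only [P10_w]; simp
  · constructor
    · simp only [P10_w]; group
    · simp only [P10_w]; group
  · constructor
    · simp only [P10_w]; group
    · simp only [P10_w]; group
  · constructor
    · simp only [P10_w]; group
    · have e1 : a 5 * P10_w a b 4 * (b 5)⁻¹ = (⁅a 5, (a 4)⁻¹⁆ * ⁅a 1, (a 0)⁻¹⁆) *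
          (⁅b 5, (b 4)⁻¹⁆ * ⁅b 1, (b 0)⁻¹⁆)⁻¹ := by
        simp only [P10_w, commutatorElement_def]
        group
      rw [h, mul_inv_cancel, mul_inv_eq_one] at e1
      show P10_w a b 7 * b 5 = a 5 * P10_w a b 4
      rw [e1]
      simp [P10_w]

/-- convergence of words -/
theorem P10_word {ι : Type*} {g : ι → ℝ ≃o ℝ} (hg : ∀ i, g i ∈ Dd ∧ g i 0 = 0)
    (w : FreeGroup ι) : (FreeGroup.lift g w ∈ Dd ∧ FreeGroup.lift g w 0 = 0) ∧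
      ∀ {r' : ℝ}, 0 < r' → ∃ r > 0, r ≤ r' ∧ ∀ f : ℕ → ι → ℝ ≃o ℝ,
        (∀ i, DTend (fun m => f m i) (g i) r) →
          DTend (fun m => FreeGroup.lift (f m) w) (FreeGroup.lift g w) r' := by
  induction w using FreeGroup.induction_on with
  | C1 =>
    refine ⟨⟨by rw [map_one]; exact Dd.one_mem, by rw [map_one]; rfl⟩, fun {r'} hr' =>
      ⟨r', hr', le_rfl, fun f _ => ?_⟩⟩
    simp only [map_one]
    exact DTend.const Dd.one_mem r'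
  | of i =>
    simp only [FreeGroup.lift_apply_of]
    exact ⟨hg i, fun {r'} hr' => ⟨r', hr', le_rfl, fun f hf => hf i⟩⟩
  | inv_of i ih =>
    obtain ⟨⟨h1, h2⟩, h3⟩ := ih
    refine ⟨⟨by rw [map_inv]; exact Dd.inv_mem h1, ?_⟩, fun {r'} hr' => ?_⟩
    · rw [map_inv]
      have := P09_inv_apply (FreeGroup.lift g (FreeGroup.of i)) 0
      rwa [h2] at this
    · obtain ⟨r1, hr1, hr1', k1⟩ := DTend.inv h1 h2 hr'
      obtain ⟨r2, hr2, hr2', k2⟩ := h3 hr1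
      refine ⟨r2, hr2, hr2'.trans hr1', fun f hf => ?_⟩
      simp only [map_inv]
      exact k1 _ (k2 f hf)
  | mul x y ihx ihy =>
    obtain ⟨⟨h1, h2⟩, h3⟩ := ihx
    obtain ⟨⟨h4, h5⟩, h6⟩ := ihy
    refine ⟨⟨by rw [map_mul]; exact Dd.mul_mem h1 h4, ?_⟩, fun {r'} hr' => ?_⟩
    · rw [map_mul]
      show FreeGroup.lift g x (FreeGroup.lift g y 0) = 0
      rw [h5, h2]
    · obtain ⟨r1, hr1, hr1', k1⟩ := DTend.mul h1 h4 h5 hr'
      obtain ⟨r2, hr2, hr2', k2⟩ := h3 hr1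
      obtain ⟨r3, hr3, hr3', k3⟩ := h6 hr1
      refine ⟨min r2 r3, lt_min hr2 hr3, (min_le_left _ _).trans (hr2'.trans hr1'),
        fun f hf => ?_⟩
      simp only [map_mul]
      refine k1 (fun m => FreeGroup.lift (f m) x) (fun m => FreeGroup.lift (f m) y) ?_ ?_
      · exact k2 f fun i => (hf i).mono (min_le_left _ _)
      · exact k3 f fun i => (hf i).mono (min_le_right _ _)

/-- the letters -/
def P10_x {G : Type*} [Group G] (u v w z : G) (j : ℕ) : G :=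
  if j = 5 then u else if j = 4 then v⁻¹ else if j = 1 then w else if j = 0 then z⁻¹ else 1

theorem P10_x_map {G H : Type*} [Group G] [Group H] (F : G →* H) (u v w z : G) (j : ℕ) :
    F (P10_x u v w z j) = P10_x (F u) (F v) (F w) (F z) j := by
  unfold P10_x
  split_ifs <;> simp

theorem P10_x_id {G : Type*} [Group G] (a : ℕ → G) (j : ℕ) (hj : j ∈ handles) :
    P10_x (a 5) (a 4)⁻¹ (a 1) (a 0)⁻¹ j = a j := by
  simp only [handles, Finset.mem_insert, Finset.mem_singleton] at hj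
  rcases hj with rfl | rfl | rfl | rfl <;> simp [P10_x]

theorem P10_w_congr {G : Type*} [Group G] {a b a' b' : ℕ → G} (ha : ∀ j ∈ handles, a j = a' j)
    (hb : ∀ j ∈ handles, b j = b' j) (k : ℕ) : P10_w a b k = P10_w a' b' k := by
  have h0 := ha 0 (by decide)
  have h1 := ha 1 (by decide)
  have h4 := ha 4 (by decide)
  have h5 := ha 5 (by decide)
  have g0 := hb 0 (by decide)
  have g1 := hb 1 (by decide)
  have g4 := hb 4 (by decide)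
  have g5 := hb 5 (by decide)
  match k with
  | 0 | 1 | 2 | 3 | 4 | 5 | 6 | 7 => simp [P10_w, h0, h1, h4, h5, g0, g1, g4, g5]
  | k + 8 => simp [P10_w]

/-- the words of all maps: `φ k` for `i = k < 8`, `a' j` for `i = j + 8` -/
def P10_Z (i : ℕ) : FreeGroup (Fin 8) :=
  if i < 8 then
    P10_w (P10_x (FreeGroup.of 0) (FreeGroup.of 1) (FreeGroup.of 2) (FreeGroup.of 3))
      (P10_x (FreeGroup.of 4) (FreeGroup.of 5) (FreeGroup.of 6) (FreeGroup.of 7)) i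
  else P10_x (FreeGroup.of 4) (FreeGroup.of 5) (FreeGroup.of 6) (FreeGroup.of 7) (i - 8)

theorem pert_seq (hG : TheoremG) (a : ℕ → ℝ ≃o ℝ) (ha : ∀ j ∈ handles, a j ∈ Dd ∧ a j 0 = 0)
    {r1 : ℝ} (hr1 : 0 < r1) :
    ∃ α β p : ℝ, -r1 < α ∧ α < p ∧ p < β ∧ β < r1 ∧ (∀ j ∈ handles, a j p = p) ∧
      ∃ a' φ : ℕ → ℕ → ℝ ≃o ℝ,
        (∀ m, ∀ j ∈ handles, a' m j ∈ Dd) ∧ (∀ m k, φ m k ∈ Dd) ∧ (∀ m, φ m 7 = 1) ∧
        (∀ m, ∀ j ∈ handles, φ m (j + 1) * a' m j = a j * φ m j ∧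
          φ m (j + 2) * a' m j = a j * φ m ((j + 7) % 8)) ∧
        (∀ m k t, r1 ≤ |t| → φ m k t = t) ∧
        (∀ m, ∀ j ∈ handles, ∀ t, r1 ≤ |t| → a' m j t = a j t) ∧
        (∀ ε : ℝ, 0 < ε → ∃ m0, ∀ m ≥ m0, ∀ k t, |φ m k t - t| ≤ ε ∧ |deriv (φ m k) t - 1| ≤ ε) ∧
        ∀ m t, α ≤ t → t ≤ β → ¬ ∀ j ∈ handles, a' m j t = t := by
  obtain ⟨h0m, h00⟩ := ha 0 (by decide)
  obtain ⟨h1m, h10⟩ := ha 1 (by decide)
  obtain ⟨h4m, h40⟩ := ha 4 (by decide)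
  obtain ⟨h5m, h50⟩ := ha 5 (by decide)
  have hinv0 : ∀ {g : ℝ ≃o ℝ} {p : ℝ}, g p = p → g⁻¹ p = p := by
    intro g p hp
    have := P09_inv_apply g p
    rwa [hp] at this
  have hinv0' : ∀ {g : ℝ ≃o ℝ} {p : ℝ}, g⁻¹ p = p → g p = p := by
    intro g p hp
    have := P09_apply_inv g p
    rwa [hp] at this
  -- the limit letters
  obtain ⟨g, hgdef⟩ : ∃ g : Fin 8 → ℝ ≃o ℝ,
      g = ![a 5, (a 4)⁻¹, a 1, (a 0)⁻¹, a 5, (a 4)⁻¹, a 1, (a 0)⁻¹] := ⟨_, rfl⟩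
  have hg : ∀ i, g i ∈ Dd ∧ g i 0 = 0 := by
    intro i
    rw [hgdef]
    fin_cases i
    · exact ⟨h5m, h50⟩
    · exact ⟨Dd.inv_mem h4m, hinv0 h40⟩
    · exact ⟨h1m, h10⟩
    · exact ⟨Dd.inv_mem h0m, hinv0 h00⟩
    · exact ⟨h5m, h50⟩
    · exact ⟨Dd.inv_mem h4m, hinv0 h40⟩
    · exact ⟨h1m, h10⟩
    · exact ⟨Dd.inv_mem h0m, hinv0 h00⟩
  have hrad : ∀ i : ℕ, ∃ r > 0, r ≤ r1 ∧ ∀ f : ℕ → Fin 8 → ℝ ≃o ℝ,
      (∀ i, DTend (fun m => f m i) (g i) r) →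
        DTend (fun m => FreeGroup.lift (f m) (P10_Z i)) (FreeGroup.lift g (P10_Z i)) r1 :=
    fun i => (P10_word hg (P10_Z i)).2 hr1
  choose rad hrad0 hrad1 hrad2 using hrad
  obtain ⟨i0, -, hi0⟩ := Finset.exists_min_image (Finset.range 14) rad ⟨0, by simp⟩
  obtain ⟨r, hr⟩ : ∃ r, r = rad i0 := ⟨_, rfl⟩
  have hr0 : 0 < r := hr ▸ hrad0 i0
  have hrr : r ≤ r1 := hr ▸ hrad1 i0
  obtain ⟨α, β, hα, hαβ, hβ, ⟨p, hp1, hp2, hp3⟩, hG2⟩ := hG (a 5) h5m (a 4)⁻¹ (Dd.inv_mem h4m)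
    (a 1) h1m (a 0)⁻¹ (Dd.inv_mem h0m) ⟨h50, hinv0 h40, h10, hinv0 h00⟩ r hr0
  have hseq : ∀ m : ℕ, ∃ a₁' ∈ Dd, ∃ b₁' ∈ Dd, ∃ a₂' ∈ Dd, ∃ b₂' ∈ Dd,
        (∀ x, r ≤ |x| → a₁' x = a 5 x ∧ b₁' x = (a 4)⁻¹ x ∧ a₂' x = a 1 x ∧
          b₂' x = (a 0)⁻¹ x) ∧
        (∀ x, |a₁' x - a 5 x| ≤ 1 / ((m : ℝ) + 1) ∧ |b₁' x - (a 4)⁻¹ x| ≤ 1 / ((m : ℝ) + 1) ∧
          |a₂' x - a 1 x| ≤ 1 / ((m : ℝ) + 1) ∧ |b₂' x - (a 0)⁻¹ x| ≤ 1 / ((m : ℝ) + 1)) ∧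
        (∀ x, |deriv a₁' x - deriv (a 5) x| ≤ 1 / ((m : ℝ) + 1) ∧
          |deriv b₁' x - deriv (⇑(a 4)⁻¹) x| ≤ 1 / ((m : ℝ) + 1) ∧
          |deriv a₂' x - deriv (a 1) x| ≤ 1 / ((m : ℝ) + 1) ∧
          |deriv b₂' x - deriv (⇑(a 0)⁻¹) x| ≤ 1 / ((m : ℝ) + 1)) ∧
        ⁅a₁', b₁'⁆ * ⁅a₂', b₂'⁆ = ⁅a 5, (a 4)⁻¹⁆ * ⁅a 1, (a 0)⁻¹⁆ ∧
        ∀ x, α ≤ x → x ≤ β → ¬ CFix a₁' b₁' a₂' b₂' x := fun m => hG2 _ (by positivity)
  choose A1 hA1 B1 hB1 A2 hA2 B2 hB2 hout hval hder hcomm hfix using hseq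
  have hsmall : ∀ ε : ℝ, 0 < ε → ∃ m0 : ℕ, ∀ m ≥ m0, 1 / ((m : ℝ) + 1) ≤ ε := by
    intro ε hε
    obtain ⟨m0, hm0⟩ := exists_nat_one_div_lt hε
    refine ⟨m0, fun m hm => (one_div_le_one_div_of_le (by positivity) ?_).trans hm0.le⟩
    have : (m0 : ℝ) ≤ m := by exact_mod_cast hm
    linarith
  obtain ⟨f, hfdef⟩ : ∃ f : ℕ → Fin 8 → ℝ ≃o ℝ,
      f = fun m => ![a 5, (a 4)⁻¹, a 1, (a 0)⁻¹, A1 m, B1 m, A2 m, B2 m] := ⟨_, rfl⟩
  have hf : ∀ i, DTend (fun m => f m i) (g i) r := by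
    intro i
    rw [hgdef, hfdef]
    fin_cases i
    · exact DTend.const h5m r
    · exact DTend.const (Dd.inv_mem h4m) r
    · exact DTend.const h1m r
    · exact DTend.const (Dd.inv_mem h0m) r
    · refine ⟨hA1, h5m, fun m x hx => (hout m x hx).1, fun ε hε => ?_⟩
      obtain ⟨m0, hm0⟩ := hsmall ε hε
      exact ⟨m0, fun m hm x => ⟨(hval m x).1.trans (hm0 m hm), (hder m x).1.trans (hm0 m hm)⟩⟩
    · refine ⟨hB1, Dd.inv_mem h4m, fun m x hx => (hout m x hx).2.1, fun ε hε => ?_⟩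
      obtain ⟨m0, hm0⟩ := hsmall ε hε
      exact ⟨m0, fun m hm x => ⟨(hval m x).2.1.trans (hm0 m hm), (hder m x).2.1.trans (hm0 m hm)⟩⟩
    · refine ⟨hA2, h1m, fun m x hx => (hout m x hx).2.2.1, fun ε hε => ?_⟩
      obtain ⟨m0, hm0⟩ := hsmall ε hε
      exact ⟨m0, fun m hm x => ⟨(hval m x).2.2.1.trans (hm0 m hm),
        (hder m x).2.2.1.trans (hm0 m hm)⟩⟩
    · refine ⟨hB2, Dd.inv_mem h0m, fun m x hx => (hout m x hx).2.2.2, fun ε hε => ?_⟩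
      obtain ⟨m0, hm0⟩ := hsmall ε hε
      exact ⟨m0, fun m hm x => ⟨(hval m x).2.2.2.trans (hm0 m hm),
        (hder m x).2.2.2.trans (hm0 m hm)⟩⟩
  have hZ : ∀ i < 14, DTend (fun m => FreeGroup.lift (f m) (P10_Z i))
      (FreeGroup.lift g (P10_Z i)) r1 := by
    intro i hi
    refine hrad2 i f fun j => (hf j).mono ?_
    rw [hr]
    exact hi0 i (Finset.mem_range.2 hi)
  -- the perturbed holonomies
  obtain ⟨a', ha'⟩ : ∃ a' : ℕ → ℕ → ℝ ≃o ℝ, ∀ m j, a' m j = P10_x (A1 m) (B1 m) (A2 m) (B2 m) j :=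
    ⟨_, fun _ _ => rfl⟩
  have ha'5 : ∀ m, a' m 5 = A1 m := fun m => by rw [ha']; simp [P10_x]
  have ha'4 : ∀ m, a' m 4 = (B1 m)⁻¹ := fun m => by rw [ha']; simp [P10_x]
  have ha'1 : ∀ m, a' m 1 = A2 m := fun m => by rw [ha']; simp [P10_x]
  have ha'0 : ∀ m, a' m 0 = (B2 m)⁻¹ := fun m => by rw [ha']; simp [P10_x]
  have hZa : ∀ m j, FreeGroup.lift (f m) (P10_Z (j + 8)) = a' m j := by
    intro m j
    have e : P10_Z (j + 8) =
        P10_x (FreeGroup.of 4) (FreeGroup.of 5) (FreeGroup.of 6) (FreeGroup.of 7) j := by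
      unfold P10_Z
      rw [if_neg (by omega), Nat.add_sub_cancel]
    rw [e, P10_x_map, ha']
    simp only [FreeGroup.lift_apply_of]
    rw [hfdef]
    rfl
  have hZga : ∀ j ∈ handles, FreeGroup.lift g (P10_Z (j + 8)) = a j := by
    intro j hj
    have e : P10_Z (j + 8) =
        P10_x (FreeGroup.of 4) (FreeGroup.of 5) (FreeGroup.of 6) (FreeGroup.of 7) j := by
      unfold P10_Z
      rw [if_neg (by omega), Nat.add_sub_cancel]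
    rw [e, P10_x_map, ← P10_x_id a j hj]
    simp only [FreeGroup.lift_apply_of]
    rw [hgdef]
    rfl
  have hZw : ∀ m, ∀ k < 8, FreeGroup.lift (f m) (P10_Z k) = P10_w a (a' m) k := by
    intro m k hk
    unfold P10_Z
    rw [if_pos hk, P10_w_map]
    refine P10_w_congr (fun j hj => ?_) (fun j _ => ?_) k
    · rw [P10_x_map, ← P10_x_id a j hj]
      simp only [FreeGroup.lift_apply_of]
      rw [hfdef]
      rfl
    · rw [P10_x_map, ha']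
      simp only [FreeGroup.lift_apply_of]
      rw [hfdef]
      rfl
  have hZg : ∀ k < 8, FreeGroup.lift g (P10_Z k) = 1 := by
    intro k hk
    unfold P10_Z
    rw [if_pos hk, P10_w_map]
    refine P10_w_self _ _ (fun j _ => ?_) k
    rw [P10_x_map, P10_x_map]
    simp only [FreeGroup.lift_apply_of]
    rw [hgdef]
    rfl
  have hφ : ∀ k < 8, DTend (fun m => P10_w a (a' m) k) 1 r1 := by
    intro k hk
    have h1 := hZ k (by omega)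
    rw [hZg k hk] at h1
    have h2 : (fun m => FreeGroup.lift (f m) (P10_Z k)) = fun m => P10_w a (a' m) k :=
      funext fun m => hZw m k hk
    rwa [h2] at h1
  have hφ8 : ∀ m k, 8 ≤ k → P10_w a (a' m) k = 1 := by
    intro m k hk
    obtain ⟨k, rfl⟩ := Nat.exists_eq_add_of_le' hk
    rfl
  have haT : ∀ j ∈ handles, DTend (fun m => a' m j) (a j) r1 := by
    intro j hj
    have hj6 : j < 6 := by
      simp only [handles, Finset.mem_insert, Finset.mem_singleton] at hj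
      omega
    have h1 := hZ (j + 8) (by omega)
    rw [hZga j hj] at h1
    have h2 : (fun m => FreeGroup.lift (f m) (P10_Z (j + 8))) = fun m => a' m j :=
      funext fun m => hZa m j
    rwa [h2] at h1
  refine ⟨α, β, p, by linarith, hp1, hp2, by linarith, ?_, a', fun m => P10_w a (a' m),
    fun m j hj => (haT j hj).memf m, fun m k => ?_, fun m => rfl, fun m => ?_, fun m k t ht => ?_,
    fun m j hj t ht => (haT j hj).out m t ht, fun ε hε => ?_, fun m t h1 h2 h3 => ?_⟩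
  · intro j hj
    obtain ⟨q1, q2, q3, q4⟩ := hp3
    simp only [handles, Finset.mem_insert, Finset.mem_singleton] at hj
    rcases hj with rfl | rfl | rfl | rfl
    · exact hinv0' q4
    · exact q3
    · exact hinv0' q2
    · exact q1
  · rcases lt_or_ge k 8 with hk | hk
    · exact (hφ k hk).memf m
    · show P10_w a (a' m) k ∈ Dd
      rw [hφ8 m k hk]
      exact Dd.one_mem
  · refine P10_rel a (a' m) ?_
    rw [ha'5, ha'4, ha'1, ha'0, inv_inv, inv_inv]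
    exact hcomm m
  · rcases lt_or_ge k 8 with hk | hk
    · exact (hφ k hk).out m t ht
    · show (P10_w a (a' m) k) t = t
      rw [hφ8 m k hk]
      rfl
  · have hk : ∀ k < 8, ∃ m0, ∀ m ≥ m0, ∀ x, |P10_w a (a' m) k x - (1 : ℝ ≃o ℝ) x| ≤ ε ∧
        |deriv (⇑(P10_w a (a' m) k)) x - deriv (⇑(1 : ℝ ≃o ℝ)) x| ≤ ε := fun k hk =>
      (hφ k hk).conv ε hε
    choose! M hM using hk
    have hd1 : ∀ t, deriv (⇑(1 : ℝ ≃o ℝ)) t = 1 := fun t => deriv_id t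
    refine ⟨(Finset.range 8).sup M, fun m hm k t => ?_⟩
    rcases lt_or_ge k 8 with hk | hk
    · have h1 := hM k hk m ((Finset.le_sup (Finset.mem_range.2 hk)).trans hm) t
      rw [hd1] at h1
      exact h1
    · show |(P10_w a (a' m) k) t - t| ≤ ε ∧ |deriv (⇑(P10_w a (a' m) k)) t - 1| ≤ ε
      rw [hφ8 m k hk, hd1]
      constructor
      · show |t - t| ≤ ε
        rw [sub_self, abs_zero]
        exact hε.le
      · rw [sub_self, abs_zero]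
        exact hε.le
  · refine hfix m t h1 h2 ⟨?_, ?_, ?_, ?_⟩
    · have := h3 5 (by decide)
      rwa [ha'5] at this
    · have := h3 4 (by decide)
      rw [ha'4] at this
      exact hinv0' this
    · have := h3 1 (by decide)
      rwa [ha'1] at this
    · have := h3 0 (by decide)
      rw [ha'0] at this
      exact hinv0' this

end Pool.Agent.helper35.FOL
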