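import Pool.Agent.helper35.FOL.P01

/-!
author: helper41
# FOL-P11: the partition of unity `lam`

`Real.smoothTransition (1 - x) = 1 - Real.smoothTransition x` (from the definition
`expNegInvGlue x / (expNegInvGlue x + expNegInvGlue (1 - x))`), hence `mu (-s) = 1 - mu s`.
`lam_off`: for `z ∉ Ssupp` one of the following open conditions holds: `z.im < -3/4` (`nu = 0`,
`lam 7 = 1`), or `z.re < -1/8` (all `mu (re - k) = 0`, `lam 7 = 1`), or `z.re > 7 + 1/8` (all `mu = 1`,
`lam 7 = 1`), or `z.im > -1/4` and `k + 1/8 < z.re < k + 7/8` for some `k < 7` (`nu = 1`, `lam k = 1`).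
-/

open Set Filter Topology
open scoped ContDiff commutatorElement

namespace Pool.Agent.helper35.FOL

private theorem st_symm (x : ℝ) : Real.smoothTransition (1 - x) = 1 - Real.smoothTransition x := by
  unfold Real.smoothTransition
  have h1 : 1 - (1 - x) = x := by ring
  rw [h1]
  have h2 := Real.smoothTransition.pos_denom x
  rw [add_comm (expNegInvGlue (1 - x)) (expNegInvGlue x)]
  field_simp
  ring

theorem mu_neg (s : ℝ) : mu (-s) = 1 - mu s := by
  unfold mu
  rw [← st_symm]
  congr 1
  ring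

private theorem mu0 {s : ℝ} (h : s ≤ -1 / 8) : mu s = 0 :=
  Real.smoothTransition.zero_of_nonpos (by linarith)

private theorem mu1 {s : ℝ} (h : 1 / 8 ≤ s) : mu s = 1 :=
  Real.smoothTransition.one_of_one_le (by linarith)

private theorem nu0 {s : ℝ} (h : s ≤ -3 / 4) : nu s = 0 :=
  Real.smoothTransition.zero_of_nonpos (by linarith)

private theorem nu1 {s : ℝ} (h : -1 / 4 ≤ s) : nu s = 1 :=
  Real.smoothTransition.one_of_one_le (by linarith)

private theorem mu_nonneg' (s : ℝ) : 0 ≤ mu s := Real.smoothTransition.nonneg _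

private theorem mu_le_one' (s : ℝ) : mu s ≤ 1 := Real.smoothTransition.le_one _

private theorem nu_nonneg' (s : ℝ) : 0 ≤ nu s := Real.smoothTransition.nonneg _

private theorem nu_le_one' (s : ℝ) : nu s ≤ 1 := Real.smoothTransition.le_one _

private theorem mu_diff {s t : ℝ} (h : t ≤ s - 1 / 2) : 0 ≤ mu s - mu t ∧ mu s - mu t ≤ 1 := by
  have h1 := mu_nonneg' s
  have h2 := mu_le_one' s
  have h3 := mu_nonneg' t
  have h4 := mu_le_one' t
  rcases le_total t (-1 / 8) with h5 | h5
  · rw [mu0 h5]
    constructor <;> linarith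
  · rw [mu1 (s := s) (by linarith)]
    constructor <;> linarith

private theorem lam_lt {k : ℕ} (hk : k < 7) (z : ℂ) :
    lam k z = nu z.im * (mu (z.re - k) - mu (z.re - k - 1)) := by
  unfold lam
  rw [if_pos hk]

private theorem lam_seven (z : ℂ) : lam 7 z = 1 - nu z.im * (mu z.re - mu (z.re - 7)) := by
  unfold lam
  rw [if_neg (by norm_num)]

theorem contDiff_lam (k : ℕ) : ContDiff ℝ ∞ (lam k) := by
  have hre : ContDiff ℝ ∞ (fun z : ℂ => z.re) := Complex.reCLM.contDiff
  have him : ContDiff ℝ ∞ (fun z : ℂ => z.im) := Complex.imCLM.contDiff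
  have hmu : ContDiff ℝ ∞ mu :=
    Real.smoothTransition.contDiff.comp ((contDiff_const.mul contDiff_id).add contDiff_const)
  have hnu : ContDiff ℝ ∞ nu :=
    Real.smoothTransition.contDiff.comp ((contDiff_const.mul contDiff_id).add contDiff_const)
  by_cases hk : k < 7
  · have : lam k = fun z : ℂ => nu z.im * (mu (z.re - k) - mu (z.re - k - 1)) :=
      funext fun z => lam_lt hk z
    rw [this]
    exact (hnu.comp him).mul ((hmu.comp (hre.sub contDiff_const)).sub
      (hmu.comp ((hre.sub contDiff_const).sub contDiff_const)))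
  · have : lam k = fun z : ℂ => 1 - nu z.im * (mu z.re - mu (z.re - 7)) := by
      funext z
      unfold lam
      rw [if_neg hk]
    rw [this]
    exact contDiff_const.sub ((hnu.comp him).mul ((hmu.comp hre).sub
      (hmu.comp (hre.sub contDiff_const))))

theorem lam_nonneg {k : ℕ} (hk : k < 8) (z : ℂ) : 0 ≤ lam k z := by
  by_cases h7 : k < 7
  · rw [lam_lt h7]
    exact mul_nonneg (nu_nonneg' _) (mu_diff (by linarith)).1
  · have : k = 7 := by omega
    subst this
    rw [lam_seven]
    have h1 := mu_diff (s := z.re) (t := z.re - 7) (by linarith)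
    have h2 := mul_le_one₀ (nu_le_one' z.im) h1.1 h1.2
    linarith

theorem sum_lam (z : ℂ) : ∑ k ∈ Finset.range 8, lam k z = 1 := by
  rw [Finset.sum_range_succ, lam_seven]
  have h : ∀ k ∈ Finset.range 7, lam k z =
      nu z.im * (fun i : ℕ => mu (z.re - i)) k - nu z.im * (fun i : ℕ => mu (z.re - i)) (k + 1) := by
    intro k hk
    rw [lam_lt (Finset.mem_range.1 hk)]
    have : z.re - k - 1 = z.re - ((k + 1 : ℕ) : ℝ) := by push_cast; ring
    rw [this]
    ring
  rw [Finset.sum_congr rfl h]
  have h2 := Finset.sum_range_sub' (fun i : ℕ => nu z.im * mu (z.re - i)) 7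
  simp only at h2 ⊢
  rw [h2]
  simp
  ring

theorem sum_fderiv_lam (z : ℂ) : ∑ k ∈ Finset.range 8, fderiv ℝ (lam k) z = 0 := by
  have h1 : ∀ k ∈ Finset.range 8, HasFDerivAt (lam k) (fderiv ℝ (lam k) z) z := fun k _ =>
    ((contDiff_lam k).differentiable (by simp) z).hasFDerivAt
  have h2 := HasFDerivAt.fun_sum h1
  have h3 : (fun w => ∑ k ∈ Finset.range 8, lam k w) = fun _ : ℂ => (1 : ℝ) :=
    funext fun w => sum_lam w
  rw [h3] at h2
  exact h2.unique (hasFDerivAt_const (1 : ℝ) z)

/-- On the end of the arm `j`: only `lam j` and `lam (j - 1)` are non-zero. -/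
theorem lam_tab {j : ℕ} (hj : j < 8) {z : ℂ} (hz : z ∈ tabM 0 j) {k : ℕ} (hk : k < 8)
    (h1 : k ≠ j) (h2 : k ≠ (j + 7) % 8) : lam k z = 0 := by
  obtain ⟨ha, hb, hc⟩ := hz
  obtain ⟨ha1, ha2⟩ := abs_lt.1 ha
  by_cases h7 : k < 7
  · rw [lam_lt h7]
    rcases lt_or_gt_of_ne h1 with h | h
    · have : k + 2 ≤ j := by
        rcases Nat.lt_or_ge (k + 1) j with h3 | h3
        · omega
        · exfalso
          have : j = k + 1 := by omega
          subst this
          omega
      have h3 : (k : ℝ) + 2 ≤ j := by exact_mod_cast this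
      rw [mu1 (s := z.re - k) (by linarith), mu1 (s := z.re - k - 1) (by linarith)]
      ring
    · have h3 : (j : ℝ) + 1 ≤ k := by exact_mod_cast h
      rw [mu0 (s := z.re - k) (by linarith), mu0 (s := z.re - k - 1) (by linarith)]
      ring
  · have hk7 : k = 7 := by omega
    subst hk7
    have h3 : 1 ≤ j := by omega
    have h4 : j ≤ 6 := by omega
    have h3' : (1 : ℝ) ≤ j := by exact_mod_cast h3
    have h4' : (j : ℝ) ≤ 6 := by exact_mod_cast h4
    rw [lam_seven, nu1 (by linarith), mu1 (s := z.re) (by linarith),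
      mu0 (s := z.re - 7) (by linarith)]
    ring

theorem lam_rho {j : ℕ} (hj : j ∈ handles) {z : ℂ} (hz : z ∈ tabM 0 j) :
    lam (j + 1) (rho j z) = lam j z ∧ lam (j + 2) (rho j z) = lam ((j + 7) % 8) z := by
  obtain ⟨ha, hb, hc⟩ := hz
  obtain ⟨ha1, ha2⟩ := abs_lt.1 ha
  have hre : (rho j z).re = 2 * j + 2 - z.re := by
    simp [rho]
  have him : (rho j z).im = 3 - z.im := by
    simp [rho]
  have hj7 : j < 6 := by
    simp only [handles, Finset.mem_insert, Finset.mem_singleton] at hj
    omega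
  have hn1 : nu z.im = 1 := nu1 (by linarith)
  have hn2 : nu (3 - z.im) = 1 := nu1 (by linarith)
  have hm : mu (j - z.re) = 1 - mu (z.re - j) := by
    rw [← mu_neg]
    congr 1
    ring
  constructor
  · rw [lam_lt (by omega), lam_lt (by omega), hre, him, hn1, hn2]
    have e1 : 2 * (j : ℝ) + 2 - z.re - ((j + 1 : ℕ) : ℝ) = j - z.re + 1 := by push_cast; ring
    have e2 : (j : ℝ) - z.re + 1 - 1 = j - z.re := by ring
    rw [e1, e2, hm, mu1 (s := (j : ℝ) - z.re + 1) (by linarith),
      mu0 (s := z.re - j - 1) (by linarith)]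
    ring
  · have hR : lam ((j + 7) % 8) z = 1 - mu (z.re - j) := by
      rcases Nat.eq_zero_or_pos j with h0 | h0
      · subst h0
        have : (0 + 7) % 8 = 7 := rfl
        rw [this, lam_seven, hn1, mu0 (s := z.re - 7) (by push_cast at ha2; linarith)]
        simp
      · have h1 : (j + 7) % 8 = j - 1 := by omega
        have h2 : ((j - 1 : ℕ) : ℝ) = j - 1 := by
          rw [Nat.cast_sub h0]
          simp
        rw [h1, lam_lt (by omega), hn1, h2]
        have e1 : z.re - ((j : ℝ) - 1) = z.re - j + 1 := by ring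
        have e2 : z.re - (j : ℝ) + 1 - 1 = z.re - j := by ring
        rw [e1, e2, mu1 (s := z.re - j + 1) (by linarith)]
        ring
    rw [hR]
    by_cases h5 : j = 5
    · subst h5
      rw [lam_seven, hre, him, hn2]
      push_cast at *
      have e1 : 2 * (5 : ℝ) + 2 - z.re - 7 = 5 - z.re := by ring
      rw [e1, hm, mu1 (s := 2 * (5 : ℝ) + 2 - z.re) (by linarith)]
      ring
    · rw [lam_lt (by omega), hre, him, hn2]
      have e1 : 2 * (j : ℝ) + 2 - z.re - ((j + 2 : ℕ) : ℝ) = j - z.re := by push_cast; ring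
      rw [e1, hm, mu0 (s := (j : ℝ) - z.re - 1) (by linarith)]
      ring

private theorem lam_bottom' {z : ℂ} (hz : z.im < -3 / 4) :
    ∀ i < 8, lam i z = if i = 7 then 1 else 0 := by
  intro i hi
  by_cases h7 : i < 7
  · rw [if_neg (by omega), lam_lt h7, nu0 hz.le, zero_mul]
  · have : i = 7 := by omega
    subst this
    rw [if_pos rfl, lam_seven, nu0 hz.le, zero_mul, sub_zero]

private theorem lam_left {z : ℂ} (hz : z.re < -1 / 8) :
    ∀ i < 8, lam i z = if i = 7 then 1 else 0 := by
  intro i hi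
  have hi0 : (0 : ℝ) ≤ i := Nat.cast_nonneg i
  by_cases h7 : i < 7
  · rw [if_neg (by omega), lam_lt h7, mu0 (s := z.re - i) (by linarith),
      mu0 (s := z.re - i - 1) (by linarith), sub_zero, mul_zero]
  · have : i = 7 := by omega
    subst this
    rw [if_pos rfl, lam_seven, mu0 (s := z.re) hz.le, mu0 (s := z.re - 7) (by linarith),
      sub_zero, mul_zero, sub_zero]

private theorem lam_right {z : ℂ} (hz : 7 + 1 / 8 < z.re) :
    ∀ i < 8, lam i z = if i = 7 then 1 else 0 := by
  intro i hi
  by_cases h7 : i < 7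
  · have hi0 : (i : ℝ) + 1 ≤ 7 := by exact_mod_cast h7
    rw [if_neg (by omega), lam_lt h7, mu1 (s := z.re - i) (by linarith),
      mu1 (s := z.re - i - 1) (by linarith), sub_self, mul_zero]
  · have : i = 7 := by omega
    subst this
    rw [if_pos rfl, lam_seven, mu1 (s := z.re) (by linarith), mu1 (s := z.re - 7) (by linarith),
      sub_self, mul_zero, sub_zero]

private theorem lam_mid {z : ℂ} {k : ℕ} (hk : k < 7) (hz : -1 / 4 < z.im) (h1 : k + 1 / 8 < z.re)
    (h2 : z.re < k + 7 / 8) : ∀ i < 8, lam i z = if i = k then 1 else 0 := by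
  intro i hi
  have hk0 : (0 : ℝ) ≤ k := Nat.cast_nonneg k
  have hk7 : (k : ℝ) + 1 ≤ 7 := by exact_mod_cast hk
  by_cases h7 : i < 7
  · rw [lam_lt h7, nu1 hz.le, one_mul]
    rcases lt_trichotomy i k with h | h | h
    · have h3 : (i : ℝ) + 1 ≤ k := by exact_mod_cast h
      rw [if_neg (by omega), mu1 (s := z.re - i) (by linarith),
        mu1 (s := z.re - i - 1) (by linarith), sub_self]
    · subst h
      rw [if_pos rfl, mu1 (s := z.re - i) (by linarith), mu0 (s := z.re - i - 1) (by linarith),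
        sub_zero]
    · have h3 : (k : ℝ) + 1 ≤ i := by exact_mod_cast h
      rw [if_neg (by omega), mu0 (s := z.re - i) (by linarith),
        mu0 (s := z.re - i - 1) (by linarith), sub_self]
  · have : i = 7 := by omega
    subst this
    rw [if_neg (by omega), lam_seven, nu1 hz.le, mu1 (s := z.re) (by linarith),
      mu0 (s := z.re - 7) (by linarith)]
    ring

/-- Off `Ssupp` one of the functions is `1` near the point, the others are `0`. -/
theorem lam_off {z : ℂ} (hz : z ∉ Ssupp) :
    ∃ k < 8, ∀ᶠ w in 𝓝 z, ∀ i < 8, lam i w = if i = k then 1 else 0 := by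
  have hre : Tendsto (fun w : ℂ => w.re) (𝓝 z) (𝓝 z.re) := Complex.continuous_re.tendsto z
  have him : Tendsto (fun w : ℂ => w.im) (𝓝 z) (𝓝 z.im) := Complex.continuous_im.tendsto z
  by_cases hA : z.im < -3 / 4
  · exact ⟨7, by norm_num, (him.eventually_lt_const hA).mono fun w hw => lam_bottom' hw⟩
  by_cases hB : z.re < -1 / 8
  · exact ⟨7, by norm_num, (hre.eventually_lt_const hB).mono fun w hw => lam_left hw⟩
  by_cases hC : 7 + 1 / 8 < z.re
  · exact ⟨7, by norm_num, (hre.eventually_const_lt hC).mono fun w hw => lam_right hw⟩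
  push Not at hA hB hC
  have hS : ¬ ((∃ k : ℕ, k < 8 ∧ |z.re - k| ≤ 1 / 8) ∨
    (z.im ≤ -1 / 4 ∧ -1 / 8 ≤ z.re ∧ z.re ≤ 7 + 1 / 8)) := fun h => hz ⟨hA, h⟩
  push Not at hS
  obtain ⟨hS1, hS2⟩ := hS
  have hD : -1 / 4 < z.im := by
    by_contra h
    push Not at h
    have := hS2 h hB
    linarith
  have h0 := hS1 0 (by norm_num)
  have hpos : 1 / 8 < z.re := by
    rcases lt_abs.1 h0 with h | h
    · simpa using h
    · simp only [Nat.cast_zero, sub_zero] at h
      linarith
  set k := ⌊z.re⌋₊ with hkd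
  have hk1 : (k : ℝ) ≤ z.re := Nat.floor_le (by linarith)
  have hk2 : z.re < k + 1 := Nat.lt_floor_add_one z.re
  have hk8 : k < 8 := by
    have : (k : ℝ) < 8 := by linarith
    exact_mod_cast this
  have hk3 : k + 1 / 8 < z.re := by
    rcases lt_abs.1 (hS1 k hk8) with h | h
    · linarith
    · linarith
  have hk7 : k < 7 := by
    by_contra h
    have h7 : k = 7 := by omega
    rw [h7] at hk3
    push_cast at hk3
    linarith
  have hk4 : z.re < k + 7 / 8 := by
    rcases lt_abs.1 (hS1 (k + 1) (by omega)) with h | h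
    · push_cast at h
      linarith
    · push_cast at h
      linarith
  refine ⟨k, hk8, ?_⟩
  filter_upwards [him.eventually_const_lt hD, hre.eventually_const_lt hk3,
    hre.eventually_lt_const hk4] with w h1 h2 h3
  exact lam_mid hk7 h1 h2 h3

theorem lam_bottom {z : ℂ} (hz : z.im < -3 / 4) : ∀ i < 8, lam i z = if i = 7 then 1 else 0 :=
  lam_bottom' hz


end Pool.Agent.helper35.FOL
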