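import Pool.Agent.helper35.FOL.P11
import Pool.Agent.helper35.FOL.P12
import Pool.Agent.helper35.FOL.P06

/-!
# FOL-P13: the perturbed height function `Gp`

`Gp G φ (z, t) = Σ_k lam k z * G (z, φ k t)`; the maps `φ k` map `(-δ, δ)` onto itself because
`φ k t = t` for `r1 ≤ |t|` and `r1 < δ`.  (1), (2) composition of `C¹` maps.  (3) product rule and
`hC.GA`.  (4) `Σ lam k * ∂_t G (z, φ k t) * (φ k)' t > 0` (the `lam k` are `≥ 0` with sum `1`).  (5) `φ k t = t`,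
`sum_lam`, `sum_fderiv_lam`.  (6) `lam_bottom`, `φ 7 = 1` (the derivatives of the `lam k` vanish for
`im < -3/4`).  (7) `lam_off`.  (8) `lam_tab`, `lam_rho`: on `tabM (1/55) j`
`Gp (rho j z, a' t) = lam (j+2) (ρ z) G (ρ z, φ (j+2) (a' t)) + lam (j+1) (ρ z) G (ρ z, φ (j+1) (a' t))`
`= lam (j-1) z G (ρ z, a (φ (j-1) t)) + lam j z G (ρ z, a (φ j t)) = Gp (z, t)`
(the other `lam k (rho j z)` vanish by `lam_tab` for the arm `j + 2`; `(j + 2 + 7) % 8 = j + 1`).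
-/

open Set Filter Topology
open scoped ContDiff commutatorElement

namespace Pool.Agent.helper35.FOL

/-- Hypotheses on the relabelings `φ`. -/
structure IsRelabel (φ : ℕ → ℝ ≃o ℝ) (r1 : ℝ) : Prop where
  mem : ∀ k, φ k ∈ Dd
  seven : φ 7 = 1
  out : ∀ k t, r1 ≤ |t| → φ k t = t

variable {d δ d2 r1 : ℝ} {A : ℂ × ℝ → ℂ →L[ℝ] ℝ} {G c : ℂ × ℝ → ℝ} {φ : ℕ → ℝ ≃o ℝ}

/-- The relabelings map `(-δ, δ)` into itself. -/
theorem IsRelabel.absLt (hφ : IsRelabel φ r1) {δ : ℝ} (h1 : r1 < δ) (k : ℕ) {t : ℝ}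
    (ht : |t| < δ) : |φ k t| < δ := by
  rcases le_or_gt r1 |t| with h | h
  · rw [hφ.out k t h]; exact ht
  · have hr : 0 < r1 := lt_of_le_of_lt (abs_nonneg t) h
    have h2 : φ k r1 = r1 := hφ.out k r1 (by rw [abs_of_pos hr])
    have h3 : φ k (-r1) = -r1 := hφ.out k (-r1) (by rw [abs_neg, abs_of_pos hr])
    have h4 := abs_lt.1 h
    have h5 : φ k t < φ k r1 := (φ k).strictMono h4.2
    have h6 : φ k (-r1) < φ k t := (φ k).strictMono h4.1
    rw [h2] at h5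
    rw [h3] at h6
    exact lt_trans (abs_lt.2 ⟨h6, h5⟩) h1

theorem IsRelabel.mapsTo (hφ : IsRelabel φ r1) (h1 : r1 < δ) (k : ℕ) {y : ℂ × ℝ}
    (hy : y ∈ box (1 / 60) δ) : (y.1, φ k y.2) ∈ box (1 / 60) δ := by
  refine ⟨hy.1, ?_⟩
  have := hφ.absLt h1 k (abs_lt.2 hy.2)
  exact abs_lt.1 this

theorem IsRelabel.contDiff (hφ : IsRelabel φ r1) (k : ℕ) :
    ContDiff ℝ 1 (fun y : ℂ × ℝ => (y.1, φ k y.2)) :=
  contDiff_fst.prodMk ((hφ.mem k).1.comp contDiff_snd)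

theorem P13_Gk_contDiffOn (hC : IsChart A d δ d2 G c) (hφ : IsRelabel φ r1) (h1 : r1 < δ) (k : ℕ) :
    ContDiffOn ℝ 1 (fun y : ℂ × ℝ => G (y.1, φ k y.2)) (box (1 / 60) δ) :=
  hC.G1.comp (hφ.contDiff k).contDiffOn fun _ hy => hφ.mapsTo h1 k hy

theorem Gp_contDiffOn (hC : IsChart A d δ d2 G c) (hφ : IsRelabel φ r1) (h1 : r1 < δ) :
    ContDiffOn ℝ 1 (Gp G φ) (box (1 / 60) δ) := by
  unfold Gp
  refine ContDiffOn.sum fun k _ => ?_
  refine ContDiffOn.mul ?_ (P13_Gk_contDiffOn hC hφ h1 k)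
  exact (((contDiff_lam k).of_le (by exact_mod_cast le_top)).comp contDiff_fst).contDiffOn

theorem Bp_contDiffOn (hA : PlaneData d A) (hC : IsChart A d δ d2 G c) (hφ : IsRelabel φ r1)
    (h1 : r1 < δ) : ContDiffOn ℝ 1 (Bp A G φ) (box (1 / 60) δ) := by
  unfold Bp
  refine ContDiffOn.sum fun k _ => ?_
  refine ContDiffOn.add ?_ ?_
  · have e1 : ContDiffOn ℝ 1 (fun y : ℂ × ℝ => lam k y.1) (box (1 / 60) δ) :=
      (((contDiff_lam k).of_le (by exact_mod_cast le_top)).comp contDiff_fst).contDiffOn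
    have e2 : ContDiffOn ℝ 1 (fun y : ℂ × ℝ => A (y.1, G (y.1, φ k y.2))) (box (1 / 60) δ) := by
      refine hA.c1.comp (contDiff_fst.contDiffOn.prodMk (P13_Gk_contDiffOn hC hφ h1 k)) ?_
      intro y hy
      refine ⟨combM_mono (by norm_num) hy.1, ?_⟩
      exact abs_lt.1 (hC.Gd _ (hφ.mapsTo h1 k hy))
    exact e1.smul e2
  · have h2 : ContDiff ℝ 1 (fderiv ℝ (lam k)) :=
      ((contDiff_lam k).fderiv_right (m := 1) (by norm_cast))
    have h3 : ContDiffOn ℝ 1 (fun y : ℂ × ℝ => fderiv ℝ (lam k) y.1) (box (1 / 60) δ) :=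
      (h2.comp contDiff_fst).contDiffOn
    exact (P13_Gk_contDiffOn hC hφ h1 k).smul h3

theorem P13_Gk_hasFDerivAt (hC : IsChart A d δ d2 G c) (hφ : IsRelabel φ r1) (h1 : r1 < δ)
    {y : ℂ × ℝ} (hy : y ∈ box (1 / 60) δ) (k : ℕ) :
    HasFDerivAt (fun y : ℂ × ℝ => lam k y.1 * G (y.1, φ k y.2))
      (lam k y.1 • ((fderiv ℝ G (y.1, φ k y.2)).comp ((ContinuousLinearMap.fst ℝ ℂ ℝ).prod
        (deriv (φ k) y.2 • ContinuousLinearMap.snd ℝ ℂ ℝ))) +
        G (y.1, φ k y.2) • ((fderiv ℝ (lam k) y.1).comp (ContinuousLinearMap.fst ℝ ℂ ℝ))) y := by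
  have hG : HasFDerivAt G (fderiv ℝ G (y.1, φ k y.2)) (y.1, φ k y.2) :=
    ((hC.G1.contDiffAt ((isOpen_box _ _).mem_nhds (hφ.mapsTo h1 k hy))).differentiableAt
      one_ne_zero).hasFDerivAt
  have hl : HasFDerivAt (lam k) (fderiv ℝ (lam k) y.1) y.1 :=
    ((contDiff_lam k).differentiable (by simp) _).hasFDerivAt
  have hph : HasDerivAt (φ k) (deriv (φ k) y.2) y.2 :=
    ((hφ.mem k).1.differentiable one_ne_zero _).hasDerivAt
  have h2 : HasFDerivAt (fun y : ℂ × ℝ => φ k y.2)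
      (deriv (φ k) y.2 • ContinuousLinearMap.snd ℝ ℂ ℝ) y :=
    hph.comp_hasFDerivAt y (hasFDerivAt_snd)
  have h3 : HasFDerivAt (fun y : ℂ × ℝ => (y.1, φ k y.2)) _ y :=
    (hasFDerivAt_fst (𝕜 := ℝ) (p := y)).prodMk h2
  have h4 := HasFDerivAt.comp y hG h3
  have h5 := HasFDerivAt.comp y hl (hasFDerivAt_fst (𝕜 := ℝ) (p := y))
  exact h5.mul h4

theorem P13_Gp_fderiv (hC : IsChart A d δ d2 G c) (hφ : IsRelabel φ r1) (h1 : r1 < δ)
    {y : ℂ × ℝ} (hy : y ∈ box (1 / 60) δ) :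
    fderiv ℝ (Gp G φ) y = ∑ k ∈ Finset.range 8,
      (lam k y.1 • ((fderiv ℝ G (y.1, φ k y.2)).comp ((ContinuousLinearMap.fst ℝ ℂ ℝ).prod
        (deriv (φ k) y.2 • ContinuousLinearMap.snd ℝ ℂ ℝ))) +
        G (y.1, φ k y.2) • ((fderiv ℝ (lam k) y.1).comp (ContinuousLinearMap.fst ℝ ℂ ℝ))) := by
  have h := HasFDerivAt.fun_sum (u := Finset.range 8)
    (fun k _ => P13_Gk_hasFDerivAt hC hφ h1 hy k)
  exact h.fderiv

theorem Gp_fderiv_z (hC : IsChart A d δ d2 G c) (hφ : IsRelabel φ r1) (h1 : r1 < δ)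
    {y : ℂ × ℝ} (hy : y ∈ box (1 / 60) δ) (ζ : ℂ) :
    fderiv ℝ (Gp G φ) y (ζ, 0) = Bp A G φ y ζ := by
  rw [P13_Gp_fderiv hC hφ h1 hy]
  unfold Bp
  rw [_root_.sum_apply, _root_.sum_apply]
  refine Finset.sum_congr rfl fun k _ => ?_
  have h2 := hC.GA _ (hφ.mapsTo h1 k hy) ζ
  simp only [_root_.add_apply, _root_.smul_apply,
    ContinuousLinearMap.comp_apply, ContinuousLinearMap.prod_apply,
    ContinuousLinearMap.coe_fst', ContinuousLinearMap.coe_snd', smul_eq_mul, mul_zero, h2]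

theorem Gp_fderiv_t (hC : IsChart A d δ d2 G c) (hφ : IsRelabel φ r1) (h1 : r1 < δ)
    {y : ℂ × ℝ} (hy : y ∈ box (1 / 60) δ) : 0 < fderiv ℝ (Gp G φ) y (0, 1) := by
  rw [P13_Gp_fderiv hC hφ h1 hy, _root_.sum_apply]
  have h2 : ∀ k ∈ Finset.range 8, (lam k y.1 • ((fderiv ℝ G (y.1, φ k y.2)).comp
      ((ContinuousLinearMap.fst ℝ ℂ ℝ).prod
        (deriv (φ k) y.2 • ContinuousLinearMap.snd ℝ ℂ ℝ))) +
        G (y.1, φ k y.2) • ((fderiv ℝ (lam k) y.1).comp (ContinuousLinearMap.fst ℝ ℂ ℝ))) (0, 1) =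
      lam k y.1 * (deriv (φ k) y.2 * fderiv ℝ G (y.1, φ k y.2) (0, 1)) := by
    intro k _
    have h3 : ((0 : ℂ), deriv (φ k) y.2 * (1 : ℝ)) = deriv (φ k) y.2 • ((0 : ℂ), (1 : ℝ)) := by
      simp
    simp only [_root_.add_apply, _root_.smul_apply,
      ContinuousLinearMap.comp_apply, ContinuousLinearMap.prod_apply,
      ContinuousLinearMap.coe_fst', ContinuousLinearMap.coe_snd', smul_eq_mul, map_zero, mul_zero,
      add_zero]
    rw [h3, map_smul, smul_eq_mul]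
  rw [Finset.sum_congr rfl h2]
  have hpos : ∀ k, 0 < deriv (φ k) y.2 * fderiv ℝ G (y.1, φ k y.2) (0, 1) := fun k =>
    mul_pos ((hφ.mem k).2 _) (hC.Gpos _ (hφ.mapsTo h1 k hy))
  have hnn : ∀ k ∈ Finset.range 8,
      0 ≤ lam k y.1 * (deriv (φ k) y.2 * fderiv ℝ G (y.1, φ k y.2) (0, 1)) := fun k hk =>
    mul_nonneg (lam_nonneg (Finset.mem_range.1 hk) _) (hpos k).le
  by_contra hcon
  have h0 := le_antisymm (not_lt.1 hcon) (Finset.sum_nonneg hnn)
  have h4 := (Finset.sum_eq_zero_iff_of_nonneg hnn).1 h0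
  have h5 : ∑ k ∈ Finset.range 8, lam k y.1 = 0 := by
    refine Finset.sum_eq_zero fun k hk => ?_
    have := h4 k hk
    rcases mul_eq_zero.1 this with h | h
    · exact h
    · exact absurd h (hpos k).ne'
  rw [sum_lam] at h5
  exact one_ne_zero h5

theorem Gp_out (hφ : IsRelabel φ r1) {y : ℂ × ℝ} (hy : r1 ≤ |y.2|) :
    Gp G φ y = G y ∧ Bp A G φ y = A (y.1, G y) := by
  have h2 : ∀ k, (y.1, φ k y.2) = y := fun k => by rw [hφ.out k _ hy]
  constructor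
  · unfold Gp
    simp only [h2]
    rw [← Finset.sum_mul, sum_lam, one_mul]
  · unfold Bp
    simp only [h2]
    rw [Finset.sum_add_distrib, ← Finset.sum_smul, sum_lam, ← Finset.smul_sum, sum_fderiv_lam]
    simp

/-- If the partition of unity is locally constant, `Gp` and `Bp` are simple. -/
theorem P13_Gp_of_const {z : ℂ} {k : ℕ} (hk : k < 8)
    (h : ∀ᶠ w in 𝓝 z, ∀ i < 8, lam i w = if i = k then 1 else 0) (t : ℝ) :
    Gp G φ (z, t) = G (z, φ k t) ∧ Bp A G φ (z, t) = A (z, G (z, φ k t)) := by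
  have h0 := h.self_of_nhds
  have hd : ∀ i ∈ Finset.range 8, fderiv ℝ (lam i) z = 0 := by
    intro i hi
    have : lam i =ᶠ[𝓝 z] fun _ => (if i = k then 1 else 0 : ℝ) := by
      filter_upwards [h] with w hw using hw i (Finset.mem_range.1 hi)
    rw [this.fderiv_eq]
    simp
  constructor
  · unfold Gp
    rw [Finset.sum_eq_single_of_mem k (Finset.mem_range.2 hk)]
    · simp [h0 k hk]
    · intro i hi hik
      simp [h0 i (Finset.mem_range.1 hi), hik]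
  · unfold Bp
    rw [Finset.sum_eq_single_of_mem k (Finset.mem_range.2 hk)]
    · simp [h0 k hk, hd k (Finset.mem_range.2 hk)]
    · intro i hi hik
      simp [h0 i (Finset.mem_range.1 hi), hik, hd i hi]

theorem Gp_bottom (hφ : IsRelabel φ r1) {y : ℂ × ℝ} (hy : y.1.im < -3 / 4) :
    Gp G φ y = G y ∧ Bp A G φ y = A (y.1, G y) := by
  obtain ⟨z, t⟩ := y
  have h : ∀ᶠ w in 𝓝 z, ∀ i < 8, lam i w = if i = 7 then 1 else 0 := by
    have : ∀ᶠ w in 𝓝 z, w.im < -3 / 4 :=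
      (isOpen_lt Complex.continuous_im continuous_const).mem_nhds hy
    filter_upwards [this] with w hw using lam_bottom hw
  have h2 := P13_Gp_of_const (A := A) (G := G) (φ := φ) (by norm_num) h t
  rw [hφ.seven] at h2
  exact h2

theorem Gp_off {z : ℂ} (hz : z ∉ Ssupp) (t : ℝ) :
    Bp A G φ (z, t) = A (z, Gp G φ (z, t)) := by
  obtain ⟨k, hk, h⟩ := lam_off hz
  have h2 := P13_Gp_of_const (A := A) (G := G) (φ := φ) hk h t
  rw [h2.1, h2.2]

theorem Gp_glue {j : ℕ} (hj : j ∈ handles) {a a' : ℝ ≃o ℝ} {δ1 : ℝ}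
    (h1 : φ (j + 1) * a' = a * φ j) (h2 : φ (j + 2) * a' = a * φ ((j + 7) % 8))
    (hφ : IsRelabel φ r1) (hr : r1 < δ1)
    (ha : ∀ t, |t| < δ1 → ∀ z ∈ tabM (1 / 55) j, G (rho j z, a t) = G (z, t))
    {z : ℂ} (hz : z ∈ tabM (1 / 55) j) {t : ℝ} (ht : |t| < δ1) :
    Gp G φ (rho j z, a' t) = Gp G φ (z, t) := by
  have hz0 : z ∈ tabM 0 j := ⟨by linarith [hz.1], by linarith [hz.2.1], by linarith [hz.2.2]⟩
  have hre : (rho j z).re = 2 * j + 2 - z.re := by simp [rho]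
  have him : (rho j z).im = 3 - z.im := by simp [rho]
  have hz2 : rho j z ∈ tabM 0 (j + 2) := by
    refine ⟨?_, ?_, ?_⟩
    · rw [hre]
      have : (2 * j + 2 - z.re - ((j + 2 : ℕ) : ℝ)) = -(z.re - j) := by push_cast; ring
      rw [this, abs_neg]
      exact hz0.1
    · rw [him]; linarith [hz0.2.2]
    · rw [him]; linarith [hz0.2.1]
  have hlr := lam_rho hj hz0
  have e1 : G (rho j z, φ (j + 1) (a' t)) = G (z, φ j t) := by
    have : φ (j + 1) (a' t) = a (φ j t) := DFunLike.congr_fun h1 t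
    rw [this]
    exact ha _ (hφ.absLt hr j ht) z hz
  have e2 : G (rho j z, φ (j + 2) (a' t)) = G (z, φ ((j + 7) % 8) t) := by
    have : φ (j + 2) (a' t) = a (φ ((j + 7) % 8) t) := DFunLike.congr_fun h2 t
    rw [this]
    exact ha _ (hφ.absLt hr _ ht) z hz
  have hj8 : j < 8 ∧ j + 2 < 8 ∧ (j + 2 + 7) % 8 = j + 1 ∧ (j + 7) % 8 < 8 ∧ (j + 7) % 8 ≠ j := by
    simp only [handles, Finset.mem_insert, Finset.mem_singleton] at hj
    rcases hj with rfl | rfl | rfl | rfl <;> norm_num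
  obtain ⟨g1, g2, g3, g4, g5⟩ := hj8
  have s1 : Gp G φ (rho j z, a' t) = lam (j + 1) (rho j z) * G (rho j z, φ (j + 1) (a' t)) +
      lam (j + 2) (rho j z) * G (rho j z, φ (j + 2) (a' t)) := by
    unfold Gp
    rw [← Finset.sum_subset (s₁ := {j + 1, j + 2}) (s₂ := Finset.range 8)]
    · rw [Finset.sum_pair (by omega)]
    · intro k hk
      simp only [Finset.mem_insert, Finset.mem_singleton] at hk
      rw [Finset.mem_range]; omega
    · intro k hk hk2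
      simp only [Finset.mem_insert, Finset.mem_singleton, not_or] at hk2
      rw [lam_tab g2 hz2 (Finset.mem_range.1 hk) hk2.2 (by rw [g3]; exact hk2.1), zero_mul]
  have s2 : Gp G φ (z, t) = lam j z * G (z, φ j t) +
      lam ((j + 7) % 8) z * G (z, φ ((j + 7) % 8) t) := by
    unfold Gp
    rw [← Finset.sum_subset (s₁ := {j, (j + 7) % 8}) (s₂ := Finset.range 8)]
    · rw [Finset.sum_pair (by omega)]
    · intro k hk
      simp only [Finset.mem_insert, Finset.mem_singleton] at hk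
      rw [Finset.mem_range]; omega
    · intro k hk hk2
      simp only [Finset.mem_insert, Finset.mem_singleton, not_or] at hk2
      rw [lam_tab g1 hz0 (Finset.mem_range.1 hk) hk2.1 hk2.2, zero_mul]
  rw [s1, s2, e1, e2, hlr.1, hlr.2]

end Pool.Agent.helper35.FOL
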