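import Pool.Agent.helper35.FOL.P13

/-!
# FOL-P14: convergence of `Gp`, `Bp` when `φ m k → id` in `C¹`

`Gp G (φ m) = Σ lam k * G ∘ (z, t) ↦ (z, φ m k t)`: use `C1T.comp`, `C1T.prodMk`, `C1T.sum`, `C1T.const`
(multiplication is the composition with the fixed smooth map `(a, b) ↦ a * b`), and
`Σ lam k * G = G`, `Σ (lam k • A (z, G) + G • fderiv lam k) = A (z, G)` (`sum_lam`, `sum_fderiv_lam`).
It may be easier to prove the estimates directly.
-/

open Set Filter Topology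
open scoped ContDiff commutatorElement

namespace Pool.Agent.helper35.FOL

variable {d δ d2 r1 : ℝ} {A : ℂ × ℝ → ℂ →L[ℝ] ℝ} {G c : ℂ × ℝ → ℝ} {φ : ℕ → ℕ → ℝ ≃o ℝ}

private theorem P14_open (h d : ℝ) : IsOpen (box h d) := isOpen_box h d

/-- The relabeling maps `(z, t) ↦ (z, φ m k t)` converge to the identity. -/
private theorem P14_id (hφ : ∀ m, IsRelabel (φ m) r1)
    (hconv : ∀ ε : ℝ, 0 < ε → ∃ m0, ∀ m ≥ m0, ∀ k t, |φ m k t - t| ≤ ε ∧
      |deriv (φ m k) t - 1| ≤ ε) (k : ℕ) (K : Set (ℂ × ℝ)) :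
    (∀ m y, DifferentiableAt ℝ (fun y : ℂ × ℝ => (y.1, φ m k y.2)) y) ∧
      C1T (fun m (y : ℂ × ℝ) => (y.1, φ m k y.2)) (fun y => y) K := by
  have hd : ∀ m (y : ℂ × ℝ), HasFDerivAt (fun y : ℂ × ℝ => (y.1, φ m k y.2))
      ((ContinuousLinearMap.fst ℝ ℂ ℝ).prod
        ((deriv (φ m k) y.2) • ContinuousLinearMap.snd ℝ ℂ ℝ)) y := by
    intro m y
    have h1 : HasDerivAt (φ m k) (deriv (φ m k) y.2) y.2 :=
      ((mem_Dd.mp ((hφ m).mem k)).1.differentiable one_ne_zero _).hasDerivAt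
    have h2 : HasFDerivAt (fun y : ℂ × ℝ => φ m k y.2)
        ((deriv (φ m k) y.2) • ContinuousLinearMap.snd ℝ ℂ ℝ) y :=
      HasDerivAt.comp_hasFDerivAt y h1 hasFDerivAt_snd
    exact hasFDerivAt_fst.prodMk h2
  refine ⟨fun m y => (hd m y).differentiableAt, ?_, ?_⟩
  · rw [Metric.tendstoUniformlyOn_iff]
    intro ε hε
    obtain ⟨m0, hm0⟩ := hconv (ε / 2) (half_pos hε)
    filter_upwards [eventually_ge_atTop m0] with m hm y _
    have h3 := (hm0 m hm k y.2).1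
    rw [Prod.dist_eq, dist_self, max_lt_iff]
    refine ⟨hε, ?_⟩
    rw [dist_comm, Real.dist_eq]
    linarith
  · rw [Metric.tendstoUniformlyOn_iff]
    intro ε hε
    obtain ⟨m0, hm0⟩ := hconv (ε / 2) (half_pos hε)
    filter_upwards [eventually_ge_atTop m0] with m hm y _
    have h3 := (hm0 m hm k y.2).2
    rw [(hd m y).fderiv, dist_comm, dist_eq_norm]
    refine lt_of_le_of_lt (ContinuousLinearMap.opNorm_le_bound _ (half_pos hε).le ?_)
      (half_lt_self hε)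
    intro v
    have e : ((ContinuousLinearMap.fst ℝ ℂ ℝ).prod
        ((deriv (φ m k) y.2) • ContinuousLinearMap.snd ℝ ℂ ℝ) -
        fderiv ℝ (fun y : ℂ × ℝ => y) y) v = (0, (deriv (φ m k) y.2 - 1) * v.2) := by
      rw [fderiv_fun_id]
      ext1
      · simp
      · simp [sub_mul]
    rw [e, Prod.norm_mk, norm_zero, max_eq_right (norm_nonneg _), norm_mul, Real.norm_eq_abs]
    exact mul_le_mul h3 (norm_snd_le v) (norm_nonneg _) (half_pos hε).le

/-- Composition of a fixed `C¹` map with the relabelings. -/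
private theorem P14_aux {Y : Type*} [NormedAddCommGroup Y] [NormedSpace ℝ Y]
    (hφ : ∀ m, IsRelabel (φ m) r1)
    (hconv : ∀ ε : ℝ, 0 < ε → ∃ m0, ∀ m ≥ m0, ∀ k t, |φ m k t - t| ≤ ε ∧
      |deriv (φ m k) t - 1| ≤ ε) (k : ℕ) {K : Set (ℂ × ℝ)} (hK : IsCompact K)
    (hKs : K ⊆ box (1 / 60) δ) {H : ℂ × ℝ → Y} (hH : ContDiffOn ℝ 1 H (box (1 / 60) δ)) :
    C1T (fun m y => H (y.1, φ m k y.2)) H K := by
  obtain ⟨hd, hid⟩ := P14_id hφ hconv k K
  obtain ⟨K', hK', hKK', hK's⟩ := exists_compact_between hK (P14_open _ _) hKs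
  have hcd : ∀ y ∈ K', ContDiffAt ℝ 1 H y := fun y hy =>
    hH.contDiffAt ((P14_open _ _).mem_nhds (hK's hy))
  exact C1T.comp (f := fun _ => H) (g := H) (h := fun m (y : ℂ × ℝ) => (y.1, φ m k y.2))
    (k := fun y => y) (U := univ) isOpen_univ (subset_univ _) isOpen_interior interior_subset hK hK'
    (fun y hy => hKK' hy)
    (fun _ y hy => (hcd y (interior_subset hy)).differentiableAt one_ne_zero)
    (fun m y _ => hd m y) hcd (fun y _ => contDiffAt_id) (C1T.const H K') hid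

/-- The relabelings map the interval onto itself. -/
private theorem P14_range {ψ : ℕ → ℝ ≃o ℝ} (hψ : IsRelabel ψ r1) (h1 : r1 < δ) (k : ℕ) {t : ℝ}
    (ht : t ∈ Ioo (-δ) δ) : ψ k t ∈ Ioo (-δ) δ := by
  have hδ : 0 < δ := by
    have := ht.1.trans ht.2
    linarith
  have e1 : ψ k δ = δ := hψ.out k δ (by rw [abs_of_pos hδ]; exact h1.le)
  have e2 : ψ k (-δ) = -δ := hψ.out k (-δ) (by rw [abs_neg, abs_of_pos hδ]; exact h1.le)
  constructor
  · rw [← e2]
    exact (ψ k).strictMono ht.1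
  · rw [← e1]
    exact (ψ k).strictMono ht.2

theorem Gp_tendsto (hA : PlaneData d A) (hC : IsChart A d δ d2 G c)
    (hφ : ∀ m, IsRelabel (φ m) r1) (h1 : r1 < δ)
    (hconv : ∀ ε : ℝ, 0 < ε → ∃ m0, ∀ m ≥ m0, ∀ k t, |φ m k t - t| ≤ ε ∧
      |deriv (φ m k) t - 1| ≤ ε)
    {K : Set (ℂ × ℝ)} (hK : IsCompact K) (hKs : K ⊆ box (1 / 60) δ) :
    C1T (fun m => Gp G (φ m)) G K ∧
      C1T (fun m => Bp A G (φ m)) (fun y => A (y.1, G y)) K := by
  have hbm : ∀ y ∈ box (1 / 60) δ, ((y.1, G y) : ℂ × ℝ) ∈ box (1 / 100) d := by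
    intro y hy
    refine ⟨combM_mono (by norm_num) hy.1, ?_⟩
    have h2 := abs_lt.mp (hC.Gd y hy)
    exact ⟨h2.1, h2.2⟩
  have hlam1 : ∀ k, ContDiff ℝ 1 (fun y : ℂ × ℝ => lam k y.1) := fun k =>
    ((contDiff_lam k).of_le (mod_cast le_top)).comp contDiff_fst
  have hlam2 : ∀ k, ContDiff ℝ 1 (fun y : ℂ × ℝ => fderiv ℝ (lam k) y.1) := fun k =>
    (((contDiff_lam k).of_le (n := ∞) (m := 2) (WithTop.coe_le_coe.mpr le_top)).fderiv_right
      (m := 1) (le_of_eq one_add_one_eq_two)).comp contDiff_fst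
  have hAG : ContDiffOn ℝ 1 (fun y : ℂ × ℝ => A (y.1, G y)) (box (1 / 60) δ) :=
    hA.c1.comp (contDiffOn_fst.prodMk hC.G1) hbm
  constructor
  · have hH : ∀ k, ContDiffOn ℝ 1 (fun y : ℂ × ℝ => lam k y.1 * G y) (box (1 / 60) δ) :=
      fun k => (hlam1 k).contDiffOn.mul hC.G1
    have h3 := C1T.sum (Finset.range 8) (K := K)
      (f := fun k m (y : ℂ × ℝ) => lam k y.1 * G (y.1, φ m k y.2))
      (g := fun k (y : ℂ × ℝ) => lam k y.1 * G y)
      (fun k _ => P14_aux hφ hconv k hK hKs (hH k))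
      (fun k _ m y hy => ?_) (fun k _ y hy => ?_)
    · have e : (fun y : ℂ × ℝ => ∑ k ∈ Finset.range 8, lam k y.1 * G y) = G := by
        funext y
        rw [← Finset.sum_mul, sum_lam, one_mul]
      rw [e] at h3
      exact h3
    · have hmem : ((y.1, φ m k y.2) : ℂ × ℝ) ∈ box (1 / 60) δ := ⟨(hKs hy).1, ?_⟩
      · exact (((hH k).contDiffAt ((P14_open _ _).mem_nhds hmem)).differentiableAt
          one_ne_zero).comp (g := fun y : ℂ × ℝ => lam k y.1 * G y) y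
          ((P14_id hφ hconv k K).1 m y)
      · exact P14_range (hφ m) h1 k (hKs hy).2
    · exact ((hH k).contDiffAt ((P14_open _ _).mem_nhds (hKs hy))).differentiableAt one_ne_zero
  · have hH : ∀ k, ContDiffOn ℝ 1 (fun y : ℂ × ℝ => lam k y.1 • A (y.1, G y) +
        G y • fderiv ℝ (lam k) y.1) (box (1 / 60) δ) :=
      fun k => ((hlam1 k).contDiffOn.smul hAG).add (hC.G1.smul (hlam2 k).contDiffOn)
    have h3 := C1T.sum (Finset.range 8) (K := K)
      (f := fun k m (y : ℂ × ℝ) => lam k y.1 • A (y.1, G (y.1, φ m k y.2)) +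
        G (y.1, φ m k y.2) • fderiv ℝ (lam k) y.1)
      (g := fun k (y : ℂ × ℝ) => lam k y.1 • A (y.1, G y) + G y • fderiv ℝ (lam k) y.1)
      (fun k _ => P14_aux hφ hconv k hK hKs (hH k))
      (fun k _ m y hy => ?_) (fun k _ y hy => ?_)
    · have e : (fun y : ℂ × ℝ => ∑ k ∈ Finset.range 8, (lam k y.1 • A (y.1, G y) +
          G y • fderiv ℝ (lam k) y.1)) = fun y => A (y.1, G y) := by
        funext y
        rw [Finset.sum_add_distrib, ← Finset.sum_smul, sum_lam, one_smul, ← Finset.smul_sum,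
          sum_fderiv_lam, smul_zero, add_zero]
      rw [e] at h3
      exact h3
    · have hmem : ((y.1, φ m k y.2) : ℂ × ℝ) ∈ box (1 / 60) δ := ⟨(hKs hy).1, ?_⟩
      · exact (((hH k).contDiffAt ((P14_open _ _).mem_nhds hmem)).differentiableAt
          one_ne_zero).comp (g := fun y : ℂ × ℝ => lam k y.1 • A (y.1, G y) +
            G y • fderiv ℝ (lam k) y.1) y ((P14_id hφ hconv k K).1 m y)
      · exact P14_range (hφ m) h1 k (hKs hy).2
    · exact ((hH k).contDiffAt ((P14_open _ _).mem_nhds (hKs hy))).differentiableAt one_ne_zero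

end Pool.Agent.helper35.FOL
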