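import Pool.Agent.helper35.FOL.P13

/-!
# FOL-P15: the perturbed first integral `c'` and the perturbed slope `A'` (one `m`)

`c'` from `inv_fiber` for `Gp G φ` on `U = combM (1/60)`; surjectivity: for `z ∈ combM (1/60)`, `|x| < d2`
there is `t = c (z, x)` with `|t| < δ`, `G (z, t) = x`; if `r1 ≤ |t|` then `Gp (z, t) = x`; otherwise use
the intermediate value theorem on `[-r1, r1]` (`Gp = G` at `± r1`, `G (z, -r1) < x < G (z, r1)`).
`A' y = Bp A G φ (y.1, c' y)`.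
Facts for `y = (z, x)` in `box (1/50) d2`:
* `c1`: composition.  * `IsFI A' c'`: formula for `fderiv c'` in `inv_fiber`, `Gp_fderiv_z`.
* if `d3 < |x|` then `r1 < |c' y|` (otherwise `|x| = |Gp (z, c' y)| ≤ d3` by monotonicity in `t` and
  `Gp = G` at `± r1`, hypothesis `hd3`), so `Gp = G`, `A' y = A y` and `c' y = c y` near there.
* if `z ∉ Ssupp` then `A' y = A (z, Gp (z, c' y)) = A y` (`Gp_off`).
* `im < -3/4`: `Gp (z, ·) = G (z, ·)`, so `c' y = c y`.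
* gluing: for `z ∈ tabM (1/50) j`, `|x| < d2`, `|c' (z, x)| < δ1`: `Gp (rho j z, a' (c' (z,x))) = x`, so
  `c' (rho j z, x) = a' (c' (z, x))` provided `|a' (c' (z, x))| < δ` (`hb`).
* `refl`: if `|x| > d3`: `A' = A` at both points, `hA.refl`.  If `|x| ≤ d3`: `|c' (z, x)| < δ1` (either
  `|c'| ≤ r1 < δ1` or `c' y = c y` and `hc3`); differentiate `Gp (rho j z, a' t) = Gp (z, t)` with respect to
  `z` at fixed `t = c' (z, x)`: `- Bp (ρ z, a' t) = Bp (z, t)`.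

(author: helper96)
-/

open Set Filter Topology
open scoped ContDiff commutatorElement

namespace Pool.Agent.helper35.FOL

variable {d δ d2 d3 r1 δ1 : ℝ} {A : ℂ × ℝ → ℂ →L[ℝ] ℝ} {G c : ℂ × ℝ → ℝ} {φ : ℕ → ℝ ≃o ℝ}

/-- Relabelings preserve the interval `[-r, r]`, `r1 ≤ r`. -/
theorem P15_phi_le (hφ : IsRelabel φ r1) {r : ℝ} (hr : r1 ≤ r) (h0 : 0 ≤ r) (k : ℕ) {t : ℝ}
    (ht : |t| ≤ r) : |φ k t| ≤ r := by
  have e1 : φ k r = r := hφ.out k r (by rw [abs_of_nonneg h0]; exact hr)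
  have e2 : φ k (-r) = -r := hφ.out k (-r) (by rw [abs_neg, abs_of_nonneg h0]; exact hr)
  rw [abs_le] at ht ⊢
  constructor
  · rw [← e2]
    exact (φ k).monotone ht.1
  · rw [← e1]
    exact (φ k).monotone ht.2

theorem P15_phi_lt (hφ : IsRelabel φ r1) {r : ℝ} (hr : r1 ≤ r) (h0 : 0 ≤ r) (k : ℕ) {t : ℝ}
    (ht : |t| < r) : |φ k t| < r := by
  have e1 : φ k r = r := hφ.out k r (by rw [abs_of_nonneg h0]; exact hr)
  have e2 : φ k (-r) = -r := hφ.out k (-r) (by rw [abs_neg, abs_of_nonneg h0]; exact hr)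
  rw [abs_lt] at ht ⊢
  constructor
  · rw [← e2]
    exact (φ k).strictMono ht.1
  · rw [← e1]
    exact (φ k).strictMono ht.2

theorem P15_mono {U : Set ℂ} (hU : IsOpen U) {H : ℂ × ℝ → ℝ}
    (hH : ContDiffOn ℝ 1 H (U ×ˢ Ioo (-δ) δ))
    (hpos : ∀ y ∈ U ×ˢ Ioo (-δ) δ, 0 < fderiv ℝ H y (0, 1)) {z : ℂ} (hz : z ∈ U) :
    StrictMonoOn (fun t => H (z, t)) (Ioo (-δ) δ) ∧
      ContinuousOn (fun t => H (z, t)) (Ioo (-δ) δ) := by
  have hd : ∀ t ∈ Ioo (-δ) δ, HasDerivAt (fun t => H (z, t)) (fderiv ℝ H (z, t) (0, 1)) t := by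
    intro t ht
    have h1 : DifferentiableAt ℝ H (z, t) :=
      ((hH.contDiffAt ((hU.prod isOpen_Ioo).mem_nhds ⟨hz, ht⟩)).differentiableAt one_ne_zero)
    have h2 : HasDerivAt (fun t : ℝ => (z, t)) (0, 1) t :=
      (hasDerivAt_const t z).prodMk (hasDerivAt_id t)
    exact h1.hasFDerivAt.comp_hasDerivAt t h2
  have hc : ContinuousOn (fun t => H (z, t)) (Ioo (-δ) δ) :=
    fun t ht => (hd t ht).continuousAt.continuousWithinAt
  refine ⟨strictMonoOn_of_deriv_pos (convex_Ioo _ _) hc fun t ht => ?_, hc⟩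
  rw [interior_Ioo] at ht
  rw [(hd t ht).deriv]
  exact hpos _ ⟨hz, ht⟩

/-- Surjectivity of the perturbed height function in the fibres. -/
theorem P15_surj (hC : IsChart A d δ d2 G c) (hφ : IsRelabel φ r1) (h0 : 0 < r1) (h1 : r1 < δ)
    {z : ℂ} (hz : z ∈ combM (1 / 60)) {x : ℝ} (hx : |x| < d2) :
    ∃ t, |t| < δ ∧ Gp G φ (z, t) = x := by
  obtain ⟨c1, c2⟩ := hC.cd (z, x) ⟨hz, abs_lt.1 hx⟩
  simp only at c1 c2
  by_cases h : r1 ≤ |c (z, x)|
  · exact ⟨c (z, x), c1, by rw [(Gp_out (A := A) (G := G) hφ (y := (z, c (z, x))) h).1]; exact c2⟩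
  · push Not at h
    obtain ⟨hG, -⟩ := P15_mono (isOpen_combM _) hC.G1 hC.Gpos hz
    obtain ⟨-, hGp⟩ := P15_mono (isOpen_combM _) (Gp_contDiffOn hC hφ h1)
      (fun y hy => Gp_fderiv_t hC hφ h1 hy) hz
    have hsub : Icc (-r1) r1 ⊆ Ioo (-δ) δ := fun t ht => ⟨by linarith [ht.1], by linarith [ht.2]⟩
    have hm : ∀ t, r1 ≤ |t| → Gp G φ (z, t) = G (z, t) := fun t ht =>
      (Gp_out (A := A) (G := G) hφ (y := (z, t)) ht).1
    have hr : |r1| = r1 := abs_of_pos h0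
    rw [abs_lt] at h
    have a1 : Gp G φ (z, -r1) ≤ x := by
      rw [hm _ (by rw [abs_neg, hr])]
      have := hG (hsub ⟨le_rfl, by linarith⟩) (abs_lt.1 c1) h.1
      simp only [c2] at this
      exact this.le
    have a2 : x ≤ Gp G φ (z, r1) := by
      rw [hm _ (by rw [hr])]
      have := hG (abs_lt.1 c1) (hsub ⟨by linarith, le_rfl⟩) h.2
      simp only [c2] at this
      exact this.le
    obtain ⟨t, ht, htx⟩ := intermediate_value_Icc (by linarith : -r1 ≤ r1) (hGp.mono hsub)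
      ⟨a1, a2⟩
    exact ⟨t, abs_lt.2 (hsub ht), htx⟩

/-- The perturbed height function at heights `≤ r1`. -/
theorem P15_small (hφ : IsRelabel φ r1) (h0 : 0 < r1) {z : ℂ}
    (hd : ∀ t, |t| ≤ r1 → |G (z, t)| ≤ d3) {t : ℝ} (ht : |t| ≤ r1) : |Gp G φ (z, t)| ≤ d3 := by
  unfold Gp
  refine (Finset.abs_sum_le_sum_abs _ _).trans ?_
  have h1 : ∑ k ∈ Finset.range 8, |lam k z * G (z, φ k t)| ≤
      ∑ k ∈ Finset.range 8, lam k z * d3 := by
    refine Finset.sum_le_sum fun k hk => ?_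
    have h2 := lam_nonneg (Finset.mem_range.1 hk) z
    rw [abs_mul, abs_of_nonneg h2]
    exact mul_le_mul_of_nonneg_left (hd _ (P15_phi_le hφ le_rfl h0.le k ht)) h2
  rw [← Finset.sum_mul, sum_lam, one_mul] at h1
  exact h1

theorem P15_handles {j : ℕ} (hj : j ∈ handles) : j + 2 < 8 := by
  simp only [handles, Finset.mem_insert, Finset.mem_singleton] at hj
  omega

theorem P15_tab_mono {h h' : ℝ} (hh : h ≤ h') {j : ℕ} : tabM h' j ⊆ tabM h j := by
  rintro z ⟨h1, h2, h3⟩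
  exact ⟨by linarith, by linarith, by linarith⟩

theorem exists_pertA (hA : PlaneData d A) (hC : IsChart A d δ d2 G c) (hφ : IsRelabel φ r1)
    (h0 : 0 < r1) (h1 : r1 < δ1) (h1' : δ1 < δ) (h3 : 0 < d3) (h32 : d3 < d2)
    (hd3 : ∀ z ∈ combM (1 / 50), ∀ t, |t| ≤ r1 → |G (z, t)| ≤ d3)
    (hc3 : ∀ z ∈ combM (1 / 50), ∀ x, |x| ≤ d3 → |c (z, x)| < δ1)
    (a a' : ℕ → ℝ ≃o ℝ)
    (ha : ∀ j ∈ handles, ∀ t, |t| < δ1 → |a j t| < δ ∧
      ∀ z ∈ tabM (1 / 55) j, G (rho j z, a j t) = G (z, t))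
    (hout : ∀ j ∈ handles, ∀ t, r1 ≤ |t| → a' j t = a j t)
    (hrel : ∀ j ∈ handles, φ (j + 1) * a' j = a j * φ j ∧
      φ (j + 2) * a' j = a j * φ ((j + 7) % 8)) :
    ∃ c' : ℂ × ℝ → ℝ,
      ContDiffOn ℝ 1 c' (box (1 / 60) d2) ∧
      (∀ y ∈ box (1 / 60) d2, |c' y| < δ ∧ Gp G φ (y.1, c' y) = y.2) ∧
      (∀ y ∈ box (1 / 60) d2, ∀ (ζ : ℂ) (s : ℝ), fderiv ℝ c' y (ζ, s) =
        (s - fderiv ℝ (Gp G φ) (y.1, c' y) (ζ, 0)) / fderiv ℝ (Gp G φ) (y.1, c' y) (0, 1)) ∧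
      ContDiffOn ℝ 1 (fun y => Bp A G φ (y.1, c' y)) (box (1 / 50) d2) ∧
      IsFI (fun y => Bp A G φ (y.1, c' y)) c' (box (1 / 50) d2) ∧
      (∀ y ∈ box (1 / 50) d2, (y.1 ∉ Ssupp ∨ d3 < |y.2|) → Bp A G φ (y.1, c' y) = A y) ∧
      (∀ y ∈ box (1 / 50) d2, y.1.im < -3 / 4 → c' y = c y) ∧
      (∀ j ∈ handles, ∀ z ∈ tabM (1 / 50) j, ∀ x, |x| < d2 → |c' (z, x)| < δ1 →
        c' (rho j z, x) = a' j (c' (z, x))) ∧
      ∀ j ∈ handles, ∀ z ∈ tabM (1 / 50) j, ∀ x, |x| < d2 →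
        Bp A G φ (rho j z, c' (rho j z, x)) = -Bp A G φ (z, c' (z, x)) := by
  have h1δ : r1 < δ := h1.trans h1'
  have hGp1 := Gp_contDiffOn hC hφ h1δ
  obtain ⟨c', hc1, hc2, hc4, hc3'⟩ := inv_fiber (isOpen_combM (1 / 60)) hGp1
    (fun y hy => Gp_fderiv_t hC hφ h1δ hy) (fun z hz x hx => P15_surj hC hφ h0 h1δ hz hx)
  have hsub : box (1 / 50) d2 ⊆ box (1 / 60) d2 :=
    prod_mono (combM_mono (by norm_num)) Subset.rfl
  -- uniqueness
  have huniq : ∀ z ∈ combM (1 / 60), ∀ x, |x| < d2 → ∀ t, |t| < δ → Gp G φ (z, t) = x →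
      c' (z, x) = t := by
    intro z hz x hx t ht e
    have := hc4 z hz t ht (by rw [e]; exact hx)
    rwa [e] at this
  have hmem : ∀ y ∈ box (1 / 50) d2, (y.1, c' y) ∈ box (1 / 60) δ := fun y hy =>
    ⟨(hsub hy).1, abs_lt.1 (hc2 y (hsub hy)).1⟩
  -- the slope above `d3`
  have hbig : ∀ y ∈ box (1 / 50) d2, r1 ≤ |c' y| → Bp A G φ (y.1, c' y) = A y := by
    intro y hy h
    obtain ⟨e1, e2⟩ := Gp_out (A := A) (G := G) hφ (y := (y.1, c' y)) h
    rw [e2, ← e1, (hc2 y (hsub hy)).2]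
  have hsix : ∀ y ∈ box (1 / 50) d2, (y.1 ∉ Ssupp ∨ d3 < |y.2|) →
      Bp A G φ (y.1, c' y) = A y := by
    rintro y hy (h | h)
    · rw [Gp_off h, (hc2 y (hsub hy)).2]
    · refine hbig y hy ?_
      by_contra hcon
      push Not at hcon
      have := P15_small hφ h0 (hd3 y.1 hy.1) hcon.le
      rw [(hc2 y (hsub hy)).2] at this
      linarith
  -- the values of `a'`
  have hb : ∀ j ∈ handles, ∀ t, |t| < δ1 → |a' j t| < δ := by
    intro j hj t ht
    by_contra hcon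
    push Not at hcon
    have e1 : φ (j + 1) (a' j t) = a j (φ j t) := by
      have := congrArg (fun g : ℝ ≃o ℝ => g t) (hrel j hj).1
      exact this
    rw [hφ.out (j + 1) (a' j t) (h1δ.le.trans hcon)] at e1
    have e2 := (ha j hj (φ j t) (P15_phi_lt hφ h1.le (h0.trans h1).le j ht)).1
    rw [← e1] at e2
    linarith
  have hrho : ∀ j ∈ handles, ∀ z ∈ tabM (1 / 50) j, rho j z ∈ combM (1 / 50) :=
    fun j hj z hz => tabM_subset (by norm_num) (P15_handles hj) (rho_mem_tabM hz)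
  have hzc : ∀ j ∈ handles, ∀ z ∈ tabM (1 / 50) j, z ∈ combM (1 / 50) :=
    fun j hj z hz => tabM_subset (by norm_num) (by have := P15_handles hj; omega) hz
  have hGlue : ∀ j ∈ handles, ∀ z ∈ tabM (1 / 50) j, ∀ t, |t| < δ1 →
      Gp G φ (rho j z, a' j t) = Gp G φ (z, t) := by
    intro j hj z hz t ht
    exact Gp_glue hj (hrel j hj).1 (hrel j hj).2 hφ h1 (fun t ht => (ha j hj t ht).2)
      (P15_tab_mono (by norm_num) hz) ht
  have height : ∀ j ∈ handles, ∀ z ∈ tabM (1 / 50) j, ∀ x, |x| < d2 → |c' (z, x)| < δ1 →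
      c' (rho j z, x) = a' j (c' (z, x)) := by
    intro j hj z hz x hx ht
    refine huniq _ (combM_mono (by norm_num) (hrho j hj z hz)) x hx _ (hb j hj _ ht) ?_
    rw [hGlue j hj z hz _ ht]
    exact (hc2 (z, x) ⟨combM_mono (by norm_num) (hzc j hj z hz), abs_lt.1 hx⟩).2
  refine ⟨c', hc1, hc2, hc3', ?_, ?_, hsix, ?_, height, ?_⟩
  · exact (Bp_contDiffOn hA hC hφ h1δ).comp (contDiffOn_fst.prodMk (hc1.mono hsub)) hmem
  · refine ⟨hc1.mono hsub, fun y hy => ?_, fun y hy ζ => ?_⟩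
    · have e := hc3' y (hsub hy) 0 1
      rw [e]
      have e2 : ((0 : ℂ), (0 : ℝ)) = 0 := rfl
      rw [e2, map_zero, sub_zero]
      exact div_pos one_pos (Gp_fderiv_t hC hφ h1δ (hmem y hy))
    · have e := hc3' y (hsub hy) ζ (Bp A G φ (y.1, c' y) ζ)
      rw [e, Gp_fderiv_z hC hφ h1δ (hmem y hy), sub_self, zero_div]
  · intro y hy him
    obtain ⟨c1, c2⟩ := hC.cd y (hsub hy)
    refine huniq y.1 (hsub hy).1 y.2 (abs_lt.2 hy.2) _ c1 ?_
    rw [(Gp_bottom (A := A) (G := G) hφ (y := (y.1, c y)) him).1]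
    exact c2
  · intro j hj z hz x hx
    have hy1 : (z, x) ∈ box (1 / 50) d2 := ⟨hzc j hj z hz, abs_lt.1 hx⟩
    have hy2 : (rho j z, x) ∈ box (1 / 50) d2 := ⟨hrho j hj z hz, abs_lt.1 hx⟩
    by_cases hx3 : d3 < |x|
    · have e1 := hsix (z, x) hy1 (Or.inr hx3)
      have e2 := hsix (rho j z, x) hy2 (Or.inr hx3)
      simp only at e1 e2
      rw [e1, e2]
      exact hA.refl j hj z (P15_tab_mono (by norm_num) hz) x (lt_of_lt_of_le hx hC.d2le)
    · push Not at hx3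
      have ht : |c' (z, x)| < δ1 := by
        by_cases h : r1 ≤ |c' (z, x)|
        · obtain ⟨e1, -⟩ := Gp_out (A := A) (G := G) hφ (y := (z, c' (z, x))) h
          obtain ⟨e2, e3⟩ := hc2 (z, x) (hsub hy1)
          simp only at e3
          rw [e1] at e3
          have e4 := hC.cG z (hsub hy1).1 _ e2 (by rw [e3]; exact hx)
          rw [e3] at e4
          rw [← e4]
          exact hc3 z (hzc j hj z hz) x hx3
        · push Not at h
          exact h.trans h1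
      have e0 := height j hj z hz x hx ht
      rw [e0]
      set t0 := c' (z, x) with ht0
      have hz1 : (z, t0) ∈ box (1 / 60) δ := hmem (z, x) hy1
      have hz2 : (rho j z, a' j t0) ∈ box (1 / 60) δ :=
        ⟨combM_mono (by norm_num) (hrho j hj z hz), abs_lt.1 (hb j hj t0 ht)⟩
      have hopen := isOpen_box (1 / 60) δ
      have d1 : DifferentiableAt ℝ (Gp G φ) (z, t0) :=
        (hGp1.contDiffAt (hopen.mem_nhds hz1)).differentiableAt one_ne_zero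
      have d2' : DifferentiableAt ℝ (Gp G φ) (rho j z, a' j t0) :=
        (hGp1.contDiffAt (hopen.mem_nhds hz2)).differentiableAt one_ne_zero
      have f1 : HasFDerivAt (fun w : ℂ => (w, t0)) ((ContinuousLinearMap.id ℝ ℂ).prod 0) z :=
        (hasFDerivAt_id z).prodMk (hasFDerivAt_const t0 z)
      have f2 : HasFDerivAt (fun w : ℂ => (rho j w, a' j t0))
          ((-ContinuousLinearMap.id ℝ ℂ).prod 0) z := by
        refine HasFDerivAt.prodMk ?_ (hasFDerivAt_const (a' j t0) z)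
        unfold rho
        exact (hasFDerivAt_id z).const_sub _
      have g1 := d1.hasFDerivAt.comp z f1
      have g2 := d2'.hasFDerivAt.comp z f2
      have hev : (fun w : ℂ => Gp G φ (rho j w, a' j t0)) =ᶠ[𝓝 z]
          fun w : ℂ => Gp G φ (w, t0) := by
        filter_upwards [(isOpen_tabM (1 / 50) j).mem_nhds hz] with w hw
        exact hGlue j hj w hw t0 ht
      have g3 := g2.congr_of_eventuallyEq (f₁ := fun w : ℂ => Gp G φ (w, t0)) hev.symm
      have g4 := g1.unique g3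
      ext ζ
      have g5 := congrArg (fun L : ℂ →L[ℝ] ℝ => L ζ) g4
      simp only [ContinuousLinearMap.comp_apply, ContinuousLinearMap.prod_apply,
        ContinuousLinearMap.id_apply, ContinuousLinearMap.zero_apply,
        ContinuousLinearMap.neg_apply] at g5
      rw [Gp_fderiv_z hC hφ h1δ hz1, Gp_fderiv_z hC hφ h1δ hz2, map_neg] at g5
      rw [ContinuousLinearMap.neg_apply, g5, neg_neg]

end Pool.Agent.helper35.FOL
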