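import Pool.Agent.helper35.FOL.P14
import Pool.Agent.helper35.FOL.P05

/-!
# FOL-P16: convergence of the perturbed slopes

First `c' m → c` in `C¹` on `K`: uniform convergence of the values from
`|Gp m (z, c' m y) - G (z, c y)| = 0`, the uniform convergence `Gp m → G` and the lower bound of `∂_t G`
on a compact set `L × [-δ'', δ'']`; derivatives by the formula for `fderiv (c' m)` (`hfd`) and the
formula for `fderiv c`, which follows by differentiating `hC.cd`.  Then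
`Bp m (y.1, c' m y) → A (y.1, G (y.1, c y)) = A y` by `C1T.comp`, `Gp_tendsto`.
-/

open Set Filter Topology
open scoped ContDiff commutatorElement Uniformity

namespace Pool.Agent.helper35.FOL

/-- Composition of a uniformly convergent sequence with a fixed map. -/
theorem P16_tuo_comp {X Y Z : Type*} [TopologicalSpace X] [UniformSpace Y] [UniformSpace Z]
    {f : ℕ → X → Y} {g : X → Y} {Φ : Y → Z} {K : Set X} (hK : IsCompact K)
    (hg : ContinuousOn g K) (hΦ : ∀ x ∈ K, ContinuousAt Φ (g x))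
    (h : TendstoUniformlyOn f g atTop K) :
    TendstoUniformlyOn (fun m x => Φ (f m x)) (fun x => Φ (g x)) atTop K := by
  intro u hu
  have h1 : {x : Y × Y | x.1 ∈ g '' K → (Φ x.1, Φ x.2) ∈ u} ∈ 𝓤 Y :=
    (hK.image_of_continuousOn hg).uniformContinuousAt_of_continuousAt Φ
      (by rintro _ ⟨x, hx, rfl⟩; exact hΦ x hx) hu
  filter_upwards [h _ h1] with m hm x hx
  exact hm x hx (mem_image_of_mem g hx)

/-- Composition of two uniformly convergent sequences. -/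
theorem P16_tuo_comp2 {X Y Z : Type*} [TopologicalSpace X] [UniformSpace Y] [UniformSpace Z]
    {F : ℕ → Y → Z} {G : Y → Z} {f : ℕ → X → Y} {g : X → Y} {K : Set X} {K' : Set Y}
    (hK : IsCompact K) (hg : ContinuousOn g K) (hG : ∀ x ∈ K, ContinuousAt G (g x))
    (hm : ∀ m, ∀ x ∈ K, f m x ∈ K') (hF : TendstoUniformlyOn F G atTop K')
    (h : TendstoUniformlyOn f g atTop K) :
    TendstoUniformlyOn (fun m x => F m (f m x)) (fun x => G (g x)) atTop K := by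
  intro u hu
  obtain ⟨v, hv, hvu⟩ := comp_mem_uniformity_sets hu
  have h1 := P16_tuo_comp hK hg hG h v hv
  filter_upwards [h1, hF v hv] with m hm1 hm2 x hx
  exact hvu (SetRel.prodMk_mem_comp (hm1 x hx) (hm2 _ (hm m x hx)))

/-- The map which gives the derivative of the inverse in the fibre variable. -/
noncomputable def P16_Phi (T : ℂ × ℝ →L[ℝ] ℝ) : ℂ × ℝ →L[ℝ] ℝ :=
  (T (0, 1))⁻¹ • (ContinuousLinearMap.snd ℝ ℂ ℝ -
    T.comp ((ContinuousLinearMap.inl ℝ ℂ ℝ).comp (ContinuousLinearMap.fst ℝ ℂ ℝ)))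

theorem P16_Phi_apply (T : ℂ × ℝ →L[ℝ] ℝ) (ζ : ℂ) (s : ℝ) :
    P16_Phi T (ζ, s) = (s - T (ζ, 0)) / T (0, 1) := by
  simp [P16_Phi, div_eq_inv_mul]

theorem P16_Phi_cont {T : ℂ × ℝ →L[ℝ] ℝ} (hT : T (0, 1) ≠ 0) : ContinuousAt P16_Phi T := by
  unfold P16_Phi
  have h1 : ContinuousAt (fun T : ℂ × ℝ →L[ℝ] ℝ => (T (0, 1))⁻¹) T := by
    refine ContinuousAt.inv₀ ?_ hT
    exact (ContinuousLinearMap.apply ℝ ℝ ((0, 1) : ℂ × ℝ)).continuous.continuousAt
  refine h1.smul (ContinuousAt.sub continuousAt_const ?_)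
  exact ((ContinuousLinearMap.compL ℝ (ℂ × ℝ) (ℂ × ℝ) ℝ).flip
    ((ContinuousLinearMap.inl ℝ ℂ ℝ).comp
      (ContinuousLinearMap.fst ℝ ℂ ℝ))).continuous.continuousAt

variable {d δ d2 r1 : ℝ} {A : ℂ × ℝ → ℂ →L[ℝ] ℝ} {G c : ℂ × ℝ → ℝ} {φ : ℕ → ℕ → ℝ ≃o ℝ}

theorem P16_fderiv_c (hC : IsChart A d δ d2 G c) {y : ℂ × ℝ} (hy : y ∈ box (1 / 60) d2) :
    fderiv ℝ c y = P16_Phi (fderiv ℝ G (y.1, c y)) := by
  have ho := isOpen_box (1 / 60) d2
  have hcy := hC.cd y hy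
  have hz : (y.1, c y) ∈ box (1 / 60) δ := ⟨hy.1, abs_lt.1 hcy.1⟩
  have hGd : DifferentiableAt ℝ G (y.1, c y) :=
    (hC.G1.contDiffAt ((isOpen_box _ _).mem_nhds hz)).differentiableAt one_ne_zero
  have hcd : DifferentiableAt ℝ c y :=
    (hC.c1.contDiffAt (ho.mem_nhds hy)).differentiableAt one_ne_zero
  have h1 : HasFDerivAt (fun y : ℂ × ℝ => (y.1, c y))
      ((ContinuousLinearMap.fst ℝ ℂ ℝ).prod (fderiv ℝ c y)) y :=
    hasFDerivAt_fst.prodMk hcd.hasFDerivAt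
  have h2 : HasFDerivAt (fun y : ℂ × ℝ => G (y.1, c y))
      ((fderiv ℝ G (y.1, c y)).comp
        ((ContinuousLinearMap.fst ℝ ℂ ℝ).prod (fderiv ℝ c y))) y :=
    HasFDerivAt.comp y hGd.hasFDerivAt h1
  have h3 : HasFDerivAt (fun y : ℂ × ℝ => G (y.1, c y)) (ContinuousLinearMap.snd ℝ ℂ ℝ) y := by
    refine (hasFDerivAt_snd (𝕜 := ℝ) (E := ℂ) (F := ℝ)).congr_of_eventuallyEq ?_
    filter_upwards [ho.mem_nhds hy] with w hw
    exact (hC.cd w hw).2
  have h4 := h2.unique h3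
  have hpos := hC.Gpos _ hz
  refine ContinuousLinearMap.ext fun v => ?_
  obtain ⟨ζ, s⟩ := v
  rw [P16_Phi_apply, eq_div_iff hpos.ne']
  have h5 := congrArg (fun T : ℂ × ℝ →L[ℝ] ℝ => T (ζ, s)) h4
  simp only [ContinuousLinearMap.comp_apply, ContinuousLinearMap.prod_apply,
    ContinuousLinearMap.coe_fst', ContinuousLinearMap.coe_snd'] at h5
  have h6 : ((ζ, fderiv ℝ c y (ζ, s)) : ℂ × ℝ) = (ζ, 0) + fderiv ℝ c y (ζ, s) • ((0, 1) : ℂ × ℝ) := by
    ext <;> simp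
  rw [h6, map_add, map_smul, smul_eq_mul] at h5
  linarith

theorem pertA_tendsto (hA : PlaneData d A) (hC : IsChart A d δ d2 G c)
    (hφ : ∀ m, IsRelabel (φ m) r1) (h1 : r1 < δ)
    (hconv : ∀ ε : ℝ, 0 < ε → ∃ m0, ∀ m ≥ m0, ∀ k t, |φ m k t - t| ≤ ε ∧
      |deriv (φ m k) t - 1| ≤ ε)
    (c' : ℕ → ℂ × ℝ → ℝ) (hc1 : ∀ m, ContDiffOn ℝ 1 (c' m) (box (1 / 60) d2))
    (hcd : ∀ m, ∀ y ∈ box (1 / 60) d2, |c' m y| < δ ∧ Gp G (φ m) (y.1, c' m y) = y.2)
    (hfd : ∀ m, ∀ y ∈ box (1 / 60) d2, ∀ (ζ : ℂ) (s : ℝ), fderiv ℝ (c' m) y (ζ, s) =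
        (s - fderiv ℝ (Gp G (φ m)) (y.1, c' m y) (ζ, 0)) /
          fderiv ℝ (Gp G (φ m)) (y.1, c' m y) (0, 1))
    {K : Set (ℂ × ℝ)} (hK : IsCompact K) (hKs : K ⊆ box (1 / 60) d2) :
    C1T c' c K ∧ C1T (fun m y => Bp A G (φ m) (y.1, c' m y)) A K := by
  -- bound for the values of `c`
  have hcK : ContinuousOn c K := hC.c1.continuousOn.mono hKs
  obtain ⟨δ1, hδ1, hδ1'⟩ : ∃ δ1, δ1 < δ ∧ ∀ y ∈ K, |c y| ≤ δ1 := by
    rcases K.eq_empty_or_nonempty with rfl | hne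
    · exact ⟨δ - 1, by linarith, by simp⟩
    · obtain ⟨y0, hy0, hmax⟩ := hK.exists_isMaxOn hne hcK.abs
      exact ⟨|c y0|, (hC.cd y0 (hKs hy0)).1, fun y hy => hmax hy⟩
  set δ2 : ℝ := max (max r1 δ1) 0 with hδ2
  have hδ2δ : δ2 < δ := max_lt (max_lt h1 hδ1) hC.δpos
  have hc2 : ∀ y ∈ K, |c y| ≤ δ2 := fun y hy =>
    (hδ1' y hy).trans ((le_max_right _ _).trans (le_max_left _ _))
  have hc'2 : ∀ m, ∀ y ∈ K, |c' m y| ≤ δ2 := by
    intro m y hy
    rcases le_total |c' m y| r1 with h | h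
    · exact h.trans ((le_max_left _ _).trans (le_max_left _ _))
    · have hy' := hKs hy
      obtain ⟨e1, e2⟩ := hcd m y hy'
      have e3 := (Gp_out (G := G) (A := A) (hφ m) (y := (y.1, c' m y)) h).1
      rw [e3] at e2
      have e4 := hC.cG y.1 hy'.1 (c' m y) e1 (by rw [e2]; exact abs_lt.2 hy'.2)
      rw [e2] at e4
      have : c' m y = c y := e4.symm
      rw [this]; exact hc2 y hy
  obtain ⟨δ3, hδ23, hδ3⟩ := exists_between hδ2δ
  -- the compact set in the parameter space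
  have hK1 : IsCompact (Prod.fst '' K) := hK.image continuous_fst
  have hK1s : Prod.fst '' K ⊆ combM (1 / 60) := by
    rintro _ ⟨y, hy, rfl⟩; exact (hKs hy).1
  obtain ⟨L, hL, hKL, hLs⟩ := exists_compact_between hK1 (isOpen_combM (1 / 60)) hK1s
  set K' : Set (ℂ × ℝ) := L ×ˢ Icc (-δ3) δ3 with hK'
  set U' : Set (ℂ × ℝ) := interior L ×ˢ Ioo (-δ3) δ3 with hU'
  have hK'c : IsCompact K' := hL.prod isCompact_Icc
  have hU'o : IsOpen U' := isOpen_interior.prod isOpen_Ioo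
  have hU'K' : U' ⊆ K' := prod_mono interior_subset Ioo_subset_Icc_self
  have hK's : K' ⊆ box (1 / 60) δ := by
    rintro ⟨z, t⟩ ⟨hz, ht⟩
    exact ⟨hLs hz, by linarith [ht.1], by linarith [ht.2]⟩
  have hmemU : ∀ y ∈ K, ∀ t, |t| ≤ δ2 → (y.1, t) ∈ U' := by
    intro y hy t ht
    exact ⟨hKL ⟨y, hy, rfl⟩, abs_lt.1 (ht.trans_lt hδ23)⟩
  obtain ⟨hGp, hBp⟩ := Gp_tendsto hA hC hφ h1 hconv hK'c hK's
  -- regularity of `G`
  have hobox := isOpen_box (1 / 60) δ
  have hoB := isOpen_box (1 / 60) d2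
  have hGat : ∀ y ∈ box (1 / 60) δ, ContDiffAt ℝ 1 G y := fun y hy =>
    hC.G1.contDiffAt (hobox.mem_nhds hy)
  have hdG : ContinuousOn (fderiv ℝ G) (box (1 / 60) δ) :=
    hC.G1.continuousOn_fderiv_of_isOpen hobox le_rfl
  -- lower bound of the derivative
  obtain ⟨κ, hκ, hκ'⟩ : ∃ κ : ℝ, 0 < κ ∧ ∀ y ∈ K', κ ≤ fderiv ℝ G y (0, 1) := by
    have hcont : ContinuousOn (fun y => fderiv ℝ G y (0, 1)) K' :=
      (ContinuousLinearMap.apply ℝ ℝ ((0, 1) : ℂ × ℝ)).continuous.comp_continuousOn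
        (hdG.mono hK's)
    rcases K'.eq_empty_or_nonempty with he | hne
    · exact ⟨1, one_pos, by simp [he]⟩
    · obtain ⟨y0, hy0, hmin⟩ := hK'c.exists_isMinOn hne hcont
      exact ⟨_, hC.Gpos y0 (hK's hy0), fun y hy => hmin hy⟩
  have hmono : ∀ z ∈ L, ∀ s ∈ Icc (-δ3) δ3, ∀ t ∈ Icc (-δ3) δ3, s ≤ t →
      κ * (t - s) ≤ G (z, t) - G (z, s) := by
    intro z hz s hs t ht hst
    have hder : ∀ x ∈ Icc (-δ3) δ3, HasDerivAt (fun x => G (z, x))
        (fderiv ℝ G (z, x) (0, 1)) x := by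
      intro x hx
      have hzx : (z, x) ∈ box (1 / 60) δ := hK's ⟨hz, hx⟩
      have e1 := ((hGat _ hzx).differentiableAt one_ne_zero).hasFDerivAt
      have e2 : HasDerivAt (fun x : ℝ => ((z, x) : ℂ × ℝ)) (0, 1) x :=
        (hasDerivAt_const x z).prodMk (hasDerivAt_id x)
      exact e1.comp_hasDerivAt x e2
    refine Convex.mul_sub_le_image_sub_of_le_deriv (convex_Icc (-δ3) δ3)
      (fun x hx => (hder x hx).continuousAt.continuousWithinAt)
      (fun x hx => (hder x (interior_subset hx)).differentiableAt.differentiableWithinAt)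
      (fun x hx => ?_) s hs t ht hst
    rw [(hder x (interior_subset hx)).deriv]
    exact hκ' _ ⟨hz, interior_subset hx⟩
  have hlow : ∀ z ∈ L, ∀ s ∈ Icc (-δ3) δ3, ∀ t ∈ Icc (-δ3) δ3,
      κ * |t - s| ≤ |G (z, t) - G (z, s)| := by
    intro z hz s hs t ht
    rcases le_total s t with hst | hst
    · rw [abs_of_nonneg (sub_nonneg.2 hst)]
      exact (hmono z hz s hs t ht hst).trans (le_abs_self _)
    · rw [abs_sub_comm, abs_of_nonneg (sub_nonneg.2 hst), abs_sub_comm]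
      exact (hmono z hz t ht s hs hst).trans (le_abs_self _)
  -- uniform convergence of the values
  have hval : TendstoUniformlyOn c' c atTop K := by
    rw [Metric.tendstoUniformlyOn_iff]
    intro ε hε
    have h2 := hGp.1
    rw [Metric.tendstoUniformlyOn_iff] at h2
    filter_upwards [h2 (κ * ε) (mul_pos hκ hε)] with m hm y hy
    have hy' := hKs hy
    have u1 := hmemU y hy _ (hc2 y hy)
    have u2 := hmemU y hy _ (hc'2 m y hy)
    have e1 := hm _ (hU'K' u2)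
    rw [(hcd m y hy').2, Real.dist_eq] at e1
    have e2 := hlow y.1 (interior_subset u1.1) (c y) (Ioo_subset_Icc_self u1.2) (c' m y)
      (Ioo_subset_Icc_self u2.2)
    rw [(hC.cd y hy').2] at e2
    rw [Real.dist_eq, abs_sub_comm]
    exact lt_of_mul_lt_mul_left (e2.trans_lt e1) hκ.le
  -- convergence of the graph maps
  have hgraph : TendstoUniformlyOn (fun m (y : ℂ × ℝ) => ((y.1, c' m y) : ℂ × ℝ))
      (fun y => (y.1, c y)) atTop K := by
    rw [Metric.tendstoUniformlyOn_iff] at hval ⊢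
    intro ε hε
    filter_upwards [hval ε hε] with m hm y hy
    rw [Prod.dist_eq, dist_self]
    exact max_lt hε (hm y hy)
  have hgc : ContinuousOn (fun y : ℂ × ℝ => ((y.1, c y) : ℂ × ℝ)) K :=
    continuousOn_fst.prodMk hcK
  have hcbox : ∀ y ∈ K, (y.1, c y) ∈ box (1 / 60) δ := fun y hy =>
    hK's (hU'K' (hmemU y hy _ (hc2 y hy)))
  -- convergence of the derivatives
  have hT : TendstoUniformlyOn (fun m y => fderiv ℝ (Gp G (φ m)) (y.1, c' m y))
      (fun y => fderiv ℝ G (y.1, c y)) atTop K :=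
    P16_tuo_comp2 (F := fun m => fderiv ℝ (Gp G (φ m))) (G := fderiv ℝ G) (K' := K') hK hgc
      (fun y hy => hdG.continuousAt (hobox.mem_nhds (hcbox y hy)))
      (fun m y hy => hU'K' (hmemU y hy _ (hc'2 m y hy))) hGp.2 hgraph
  have hTc : ContinuousOn (fun y : ℂ × ℝ => fderiv ℝ G (y.1, c y)) K :=
    ContinuousOn.comp (t := box (1 / 60) δ) hdG hgc (fun y hy => hcbox y hy)
  have hder : TendstoUniformlyOn (fun m => fderiv ℝ (c' m)) (fderiv ℝ c) atTop K := by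
    have h2 := P16_tuo_comp (Φ := P16_Phi) hK hTc
      (fun y hy => P16_Phi_cont (hC.Gpos _ (hcbox y hy)).ne') hT
    have h3 : TendstoUniformlyOn (fun m => fderiv ℝ (c' m))
        (fun y => P16_Phi (fderiv ℝ G (y.1, c y))) atTop K := by
      refine h2.congr ?_
      filter_upwards with m y hy
      refine ContinuousLinearMap.ext fun v => ?_
      obtain ⟨ζ, s⟩ := v
      change P16_Phi _ (ζ, s) = _
      rw [P16_Phi_apply, hfd m y (hKs hy)]
    refine h3.congr_right ?_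
    intro y hy
    exact (P16_fderiv_c hC (hKs hy)).symm
  have hC1 : C1T c' c K := ⟨hval, hder⟩
  refine ⟨hC1, ?_⟩
  have hc'd : ∀ m, ∀ y ∈ K, DifferentiableAt ℝ (c' m) y := fun m y hy =>
    ((hc1 m).contDiffAt (hoB.mem_nhds (hKs hy))).differentiableAt one_ne_zero
  have hcat : ∀ y ∈ box (1 / 60) d2, ContDiffAt ℝ 1 c y := fun y hy =>
    hC.c1.contDiffAt (hoB.mem_nhds hy)
  have hpair : C1T (fun m (y : ℂ × ℝ) => ((y.1, c' m y) : ℂ × ℝ)) (fun y => (y.1, c y)) K :=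
    C1T.prodMk (C1T.const _ K) hC1 (fun _ _ _ => differentiableAt_fst)
      (fun _ _ => differentiableAt_fst) hc'd
      (fun y hy => (hcat y (hKs hy)).differentiableAt one_ne_zero)
  have hbox100 : ∀ y ∈ box (1 / 60) δ, (y.1, G y) ∈ box (1 / 100) d := fun y hy =>
    ⟨combM_mono (by norm_num) hy.1, abs_lt.1 (hC.Gd y hy)⟩
  have hcomp := C1T.comp (f := fun m => Bp A G (φ m)) (g := fun y => A (y.1, G y))
    (h := fun m (y : ℂ × ℝ) => ((y.1, c' m y) : ℂ × ℝ)) (k := fun y => (y.1, c y))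
    (K := K) (U' := U') (K' := K') (U := box (1 / 60) d2) hoB hKs hU'o hU'K' hK hK'c
    (fun y hy => hmemU y hy _ (hc2 y hy))
    (fun m y hy => ((Bp_contDiffOn hA hC (hφ m) h1).contDiffAt
      (hobox.mem_nhds (hK's (hU'K' hy)))).differentiableAt one_ne_zero)
    (fun m y hy => differentiableAt_fst.prodMk (hc'd m y hy))
    (fun y hy => by
      have hy' := hK's hy
      have e1 : ContDiffAt ℝ 1 A (y.1, G y) :=
        hA.c1.contDiffAt ((isOpen_box _ _).mem_nhds (hbox100 y hy'))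
      have e2 : ContDiffAt ℝ 1 (fun y : ℂ × ℝ => ((y.1, G y) : ℂ × ℝ)) y :=
        contDiffAt_fst.prodMk (hGat y hy')
      exact ContDiffAt.comp y e1 e2)
    (fun y hy => contDiffAt_fst.prodMk (hcat y hy)) hBp hpair
  refine C1T.congr hoB hKs hcomp (fun _ _ _ => rfl) ?_
  intro y hy
  change A (y.1, G (y.1, c y)) = A y
  rw [(hC.cd y hy).2]

end Pool.Agent.helper35.FOL
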