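import Pool.Agent.helper35.FOL.P08
import Pool.Agent.helper35.FOL.P10
import Pool.Agent.helper35.FOL.P15
import Pool.Agent.helper35.FOL.P16

/-!
# FOL-P17: the planar theorem

author of the proof: helper56

Assembly: `exists_chart`, `exists_holonomy` (gives `δ1 < δ`, `a`), `chart_small_c` with `δ1` (gives `d3`;
shrink so that `d3 < d2`), `chart_small_G` with `d3` (gives `r1`; take also `r1 < δ1`), `pert_seq` with
`min r1 δ1 / 2` … (gives `α, β, p, a', φ`), `exists_pertA` for every `m` (gives `c' m`), `A' m y = Bp A G (φ m) (y.1, c' m y)`,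
`pertA_tendsto` on `K = Scpt2 ×ˢ Icc (-d3) d3`.
`X z = G (z, p)` (`|p| < r1`, so `|X z| ≤ d3 < d2`): `c (z, X z) = p`, `∂ X = A (z, X z)` (`hC.GA`), and
`X (rho j z) = X z` because `a j p = p`.
Key: if `c' m (z, x) = c0 = c' m (rho j z, x)` with `c0 ∈ [α, β]`, then `|c0| < r1 < δ1`, so
`c0 = a' m j c0`; for all `j ∈ handles` this contradicts `pert_seq`.
-/

open Set Filter Topology
open scoped ContDiff commutatorElement

namespace Pool.Agent.helper35.FOL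

theorem planar (hG : TheoremG) {d : ℝ} {A : ℂ × ℝ → ℂ →L[ℝ] ℝ} (hA : PlaneData d A) :
    ∃ (d2 d3 α β p : ℝ) (X : ℂ → ℝ) (c : ℂ × ℝ → ℝ) (A' : ℕ → ℂ × ℝ → ℂ →L[ℝ] ℝ)
      (c' : ℕ → ℂ × ℝ → ℝ),
      0 < d3 ∧ d3 < d2 ∧ d2 ≤ d ∧ α < p ∧ p < β ∧
      ContDiffOn ℝ 1 X (combM (1 / 50)) ∧
      (∀ z ∈ combM (1 / 50), |X z| < d2 ∧ c (z, X z) = p ∧ ∀ ζ : ℂ, fderiv ℝ X z ζ = A (z, X z) ζ) ∧
      (∀ j ∈ handles, ∀ z ∈ tabM (1 / 50) j, X (rho j z) = X z) ∧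
      ContDiffOn ℝ 1 c (box (1 / 50) d2) ∧
      (∀ m, ContDiffOn ℝ 1 (A' m) (box (1 / 50) d2)) ∧
      (∀ m, ∀ j ∈ handles, ∀ z ∈ tabM (1 / 50) j, ∀ x, |x| < d2 →
        A' m (rho j z, x) = -A' m (z, x)) ∧
      (∀ m, ∀ y ∈ box (1 / 50) d2, (y.1 ∉ Ssupp ∨ d3 < |y.2|) → A' m y = A y) ∧
      (∀ m, IsFI (A' m) (c' m) (box (1 / 50) d2)) ∧
      (∀ m, ∀ y ∈ box (1 / 50) d2, y.1.im < -3 / 4 → c' m y = c y) ∧
      (∀ m, ∀ c0, α ≤ c0 → c0 ≤ β → ¬ ∀ j ∈ handles, ∃ z ∈ tabM (1 / 50) j, ∃ x, |x| < d2 ∧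
        c' m (z, x) = c0 ∧ c' m (rho j z, x) = c0) ∧
      C1T A' A (Scpt2 ×ˢ Icc (-d3) d3) := by
  obtain ⟨δ, d2, G, c, hC⟩ := exists_chart hA
  obtain ⟨δ1, hδ1, hδ1', a, ha⟩ := exists_holonomy hA hC
  obtain ⟨d3, hd3, hd32, hc3⟩ := chart_small_c hC hδ1
  obtain ⟨r1, hr1, hr1δ, hG3⟩ := chart_small_G hC hd3
  obtain ⟨r, hr, hrr1, hrδ1⟩ : ∃ r : ℝ, 0 < r ∧ r ≤ r1 ∧ r < δ1 :=
    ⟨min r1 (δ1 / 2), lt_min hr1 (by linarith), min_le_left _ _,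
      lt_of_le_of_lt (min_le_right _ _) (by linarith)⟩
  have hrδ : r < δ := lt_of_le_of_lt hrr1 hr1δ
  obtain ⟨α, β, p, hα, hαp, hpβ, hβ, hap, a', φ, hmem, hφm, hφ7, hrel, hφout, hout, hconv, hno⟩ :=
    pert_seq hG a (fun j hj => ⟨(ha j hj).1, (ha j hj).2.1⟩) hr
  have hφ : ∀ m, IsRelabel (φ m) r := fun m => ⟨hφm m, hφ7 m, hφout m⟩
  have hex := fun m => exists_pertA hA hC (hφ m) hr hrδ1 hδ1' hd3 hd32
    (fun z hz t ht => hG3 z hz t (ht.trans hrr1)) hc3 a (a' m)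
    (fun j hj t ht => ⟨((ha j hj).2.2 t ht).1, fun z hz => (((ha j hj).2.2 t ht).2 z hz).2⟩)
    (hout m) (hrel m)
  choose c' hc1 hcd hfd hAc1 hFI hAeq hceq hglue hrefl using hex
  have hpr : |p| < r := by
    rw [abs_lt]
    constructor <;> linarith
  have hpδ : |p| < δ := hpr.trans hrδ
  have hmono : combM (1 / 50) ⊆ combM (1 / 60) := combM_mono (by norm_num)
  have hbox : box (1 / 50) d2 ⊆ box (1 / 60) d2 := Set.prod_mono hmono (Subset.refl _)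
  have htab : ∀ j : ℕ, tabM (1 / 50) j ⊆ tabM (1 / 55) j := by
    rintro j z ⟨h1, h2, h3⟩
    exact ⟨by linarith, by linarith, by linarith⟩
  have hpbox : ∀ z ∈ combM (1 / 50), ((z, p) : ℂ × ℝ) ∈ box (1 / 60) δ := fun z hz =>
    ⟨hmono hz, abs_lt.1 hpδ⟩
  have hXsmall : ∀ z ∈ combM (1 / 50), |G (z, p)| < d2 := fun z hz =>
    lt_of_le_of_lt (hG3 z hz p (hpr.le.trans hrr1)) hd32
  refine ⟨d2, d3, α, β, p, fun z => G (z, p), c, fun m y => Bp A G (φ m) (y.1, c' m y), c',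
    hd3, hd32, hC.d2le, hαp, hpβ, ?_, ?_, ?_, hC.c1.mono hbox, hAc1, ?_, hAeq, hFI, hceq, ?_, ?_⟩
  · exact hC.G1.comp (contDiff_id.prodMk contDiff_const).contDiffOn fun z hz => hpbox z hz
  · intro z hz
    refine ⟨hXsmall z hz, hC.cG z (hmono hz) p hpδ (hXsmall z hz), fun ζ => ?_⟩
    have h1 : DifferentiableAt ℝ G (z, p) :=
      (hC.G1.contDiffAt ((isOpen_box _ _).mem_nhds (hpbox z hz))).differentiableAt (by norm_num)
    have h2 : HasFDerivAt (fun w : ℂ => ((w, p) : ℂ × ℝ))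
        ((ContinuousLinearMap.id ℝ ℂ).prod (0 : ℂ →L[ℝ] ℝ)) z :=
      (hasFDerivAt_id z).prodMk (hasFDerivAt_const p z)
    have h3 := h1.hasFDerivAt.comp z h2
    have h4 : fderiv ℝ (fun w : ℂ => G (w, p)) z =
        (fderiv ℝ G (z, p)).comp ((ContinuousLinearMap.id ℝ ℂ).prod (0 : ℂ →L[ℝ] ℝ)) := h3.fderiv
    rw [h4]
    have h5 := hC.GA (z, p) (hpbox z hz) ζ
    simpa using h5
  · intro j hj z hz
    have h1 := (((ha j hj).2.2 p (hpr.trans hrδ1)).2 z (htab j hz)).2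
    rw [hap j hj] at h1
    exact h1
  · intro m j hj z hz x hx
    exact hrefl m j hj z hz x hx
  · intro m c0 h1 h2 hcon
    refine hno m c0 h1 h2 fun j hj => ?_
    obtain ⟨z, hz, x, hx, h3, h4⟩ := hcon j hj
    have h5 : |c' m (z, x)| < δ1 := by
      rw [h3, abs_lt]
      constructor <;> linarith
    have h6 := hglue m j hj z hz x hx h5
    rw [h3, h4] at h6
    exact h6.symm
  · refine (pertA_tendsto hA hC hφ hrδ hconv c' hc1 hcd hfd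
      (isCompact_Scpt2.prod isCompact_Icc) ?_).2
    rintro ⟨z, x⟩ ⟨hz, hx⟩
    exact ⟨hmono (Scpt2_subset hz), by linarith [hx.1], by linarith [hx.2]⟩

end Pool.Agent.helper35.FOL
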