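import Pool.Agent.helper35.FOL.Defs
import Pool.Agent.helper35.FOL.GDefs

/-!
# FOL: definitions of the planar part

Everything here takes place in `ℂ × ℝ` (a point `z` of the comb and a height `x`).
A plane field transverse to the `x`-direction is written `dx = A(z,x) dz`, with
`A : ℂ × ℝ → ℂ →L[ℝ] ℝ`.
-/

open Set Filter Topology
open scoped ContDiff

namespace Pool.Agent.helper35.FOL

/-- The open box of height `d` over the open comb with margin `h`. -/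
def box (h d : ℝ) : Set (ℂ × ℝ) := combM h ×ˢ Ioo (-d) d

/-- The end of the arm `j` with margin `h`. -/
def tabM (h : ℝ) (j : ℕ) : Set ℂ := {z | |z.re - j| < 1 / 4 - h ∧ 1 + h < z.im ∧ z.im < 2 - h}

/-- The base point. -/
noncomputable def z0 : ℂ := ⟨7 / 2, -9 / 10⟩

/-- The plane field `dx = A dz` on the box over the comb with margin `1/100`: it is `C¹`, invariant
under the gluings, has `x = 0` as a leaf and is locally given by `C¹` first integrals. -/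
structure PlaneData (d : ℝ) (A : ℂ × ℝ → ℂ →L[ℝ] ℝ) : Prop where
  pos : 0 < d
  c1 : ContDiffOn ℝ 1 A (box (1 / 100) d)
  zero : ∀ z ∈ combM (1 / 100), A (z, 0) = 0
  refl : ∀ j ∈ handles, ∀ z ∈ tabM (1 / 100) j, ∀ x, |x| < d → A (rho j z, x) = -A (z, x)
  integrable : ∀ y ∈ box (1 / 100) d, ∃ u : ℂ × ℝ → ℝ, ContDiffAt ℝ 1 u y ∧
    ∀ᶠ y' in 𝓝 y, 0 < fderiv ℝ u y' (0, 1) ∧ ∀ ζ : ℂ, fderiv ℝ u y' (ζ, A y' ζ) = 0

/-- `c` is a first integral of the plane field `dx = A dz` on `W`, increasing in `x`. -/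
structure IsFI (A : ℂ × ℝ → ℂ →L[ℝ] ℝ) (c : ℂ × ℝ → ℝ) (W : Set (ℂ × ℝ)) : Prop where
  c1 : ContDiffOn ℝ 1 c W
  pos : ∀ y ∈ W, 0 < fderiv ℝ c y (0, 1)
  ker : ∀ y ∈ W, ∀ ζ : ℂ, fderiv ℝ c y (ζ, A y ζ) = 0

/-- `G (z, t)` is the height over `z` of the leaf through `(z0, t)`; `c` is its inverse in the
second variable (so `c` is a first integral). -/
structure IsChart (A : ℂ × ℝ → ℂ →L[ℝ] ℝ) (d δ d2 : ℝ) (G c : ℂ × ℝ → ℝ) : Prop where
  δpos : 0 < δ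
  d2pos : 0 < d2
  d2le : d2 ≤ d
  G1 : ContDiffOn ℝ 1 G (box (1 / 60) δ)
  Gd : ∀ y ∈ box (1 / 60) δ, |G y| < d
  Gz0 : ∀ t, |t| < δ → G (z0, t) = t
  G0 : ∀ z ∈ combM (1 / 60), G (z, 0) = 0
  Gpos : ∀ y ∈ box (1 / 60) δ, 0 < fderiv ℝ G y (0, 1)
  GA : ∀ y ∈ box (1 / 60) δ, ∀ ζ : ℂ, fderiv ℝ G y (ζ, 0) = A (y.1, G y) ζ
  c1 : ContDiffOn ℝ 1 c (box (1 / 60) d2)
  cd : ∀ y ∈ box (1 / 60) d2, |c y| < δ ∧ G (y.1, c y) = y.2
  cG : ∀ z ∈ combM (1 / 60), ∀ t, |t| < δ → |G (z, t)| < d2 → c (z, G (z, t)) = t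

/-- Smooth step: `0` for `s ≤ -1/8`, `1` for `s ≥ 1/8`, `mu (-s) = 1 - mu s`. -/
noncomputable def mu (s : ℝ) : ℝ := Real.smoothTransition (4 * s + 1 / 2)

/-- Smooth step: `0` for `s ≤ -3/4`, `1` for `s ≥ -1/4`. -/
noncomputable def nu (s : ℝ) : ℝ := Real.smoothTransition (2 * s + 3 / 2)

/-- The partition of unity `lam 0, …, lam 7` on the comb: `lam k` is `1` near the `k`-th boundary
arc. -/
noncomputable def lam (k : ℕ) (z : ℂ) : ℝ :=
  if k < 7 then nu z.im * (mu (z.re - k) - mu (z.re - k - 1))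
  else 1 - nu z.im * (mu z.re - mu (z.re - 7))

/-- Outside this closed set the partition of unity is locally constant (one `lam k` is `1`). -/
def Ssupp : Set ℂ :=
  {z | -3 / 4 ≤ z.im ∧ ((∃ k : ℕ, k < 8 ∧ |z.re - k| ≤ 1 / 8) ∨
    (z.im ≤ -1 / 4 ∧ -1 / 8 ≤ z.re ∧ z.re ≤ 7 + 1 / 8))}

/-- The compact part of `Ssupp`; the rest of `Ssupp ∩ comb` is glued to it. -/
def Scpt : Set ℂ := Ssupp ∩ {z | z.im ≤ 3 / 2}

/-- A slightly larger compact part of `Ssupp`. -/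
def Scpt2 : Set ℂ := Ssupp ∩ {z | z.im ≤ 7 / 4}

/-- `C¹` convergence on `K`: uniform convergence of the maps and of their derivatives. -/
def C1T {X Y : Type*} [NormedAddCommGroup X] [NormedSpace ℝ X] [NormedAddCommGroup Y]
    [NormedSpace ℝ Y] (f : ℕ → X → Y) (g : X → Y) (K : Set X) : Prop :=
  TendstoUniformlyOn f g atTop K ∧
    TendstoUniformlyOn (fun m => fderiv ℝ (f m)) (fderiv ℝ g) atTop K

/-- A fence: a `C²` family of embedded copies of the comb surface, transverse direction `x`. -/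
structure IsFence {n : ℕ} (M : ClosedMfd n) (e : ℂ × ℝ → E n) (d : ℝ) : Prop where
  pos : 0 < d
  smooth : ContDiffOn ℝ 2 e (box (1 / 100) d)
  mem : ∀ y ∈ box (1 / 100) d, e y ∈ M.carrier
  imm : ∀ y ∈ box (1 / 100) d, Function.Injective (fderiv ℝ e y)
  inj : ∀ y ∈ box (1 / 100) d, ∀ y' ∈ box (1 / 100) d,
    (e y = e y' ↔ (y.2 = y'.2 ∧ glued y.1 y'.1))

/-- A curve in `M` which is `k`-Lipschitz and tangent to `F` up to second order, constant `k`. -/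
def KTan {n : ℕ} {M : ClosedMfd n} (F : Fol M) (k : ℕ) (g : C(unitInterval, E n)) : Prop :=
  ∀ s : unitInterval, g s ∈ M.carrier ∧ ∀ t : unitInterval,
    ‖g t - g s‖ ≤ k * |(t : ℝ) - s| ∧
    |inner ℝ (F.N (g s)) (g t - g s)| ≤ k * |(t : ℝ) - s| ^ 2

/-- The closed sets of the Baire argument: there are eight `k`-tangent curves with a common
starting point, `ε`-close to `φ`, and the end points of the curves `j` and `j + 2`,
`j = 0, 1, 4, 5`, agree. -/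
def ASet {n : ℕ} (M : ClosedMfd n) (φ : ℕ → C(unitInterval, E n)) (ε : ℝ) (k : ℕ) :
    Set (Fol M) :=
  {F | ∃ g : ℕ → C(unitInterval, E n), (∀ i < 8, KTan F k (g i)) ∧ (∀ i < 8, g i 0 = g 0 0) ∧
    (∀ j ∈ handles, g j 1 = g (j + 2) 1) ∧ ∀ i < 8, dist (g i) (φ i) ≤ ε}

/-- The smooth path in the comb from the base point `z0` to the middle of the end of the arm `i`:
first horizontally, then vertically. -/
noncomputable def gam (i : ℕ) (s : ℝ) : ℂ :=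
  ⟨7 / 2 + (i - 7 / 2) * Real.smoothTransition (2 * s),
    -9 / 10 + (12 / 5) * Real.smoothTransition (2 * s - 1)⟩

/-- The perturbed height function. -/
noncomputable def Gp (G : ℂ × ℝ → ℝ) (φ : ℕ → ℝ ≃o ℝ) (y : ℂ × ℝ) : ℝ :=
  ∑ k ∈ Finset.range 8, lam k y.1 * G (y.1, φ k y.2)

/-- The `z`-derivative of the perturbed height function. -/
noncomputable def Bp (A : ℂ × ℝ → ℂ →L[ℝ] ℝ) (G : ℂ × ℝ → ℝ) (φ : ℕ → ℝ ≃o ℝ) (y : ℂ × ℝ) :
    ℂ →L[ℝ] ℝ :=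
  ∑ k ∈ Finset.range 8, (lam k y.1 • A (y.1, G (y.1, φ k y.2)) +
    G (y.1, φ k y.2) • fderiv ℝ (lam k) y.1)

/-- `A` is the slope of the foliation `F` in the coordinates `e` on `W`. -/
def IsSlope {n : ℕ} {M : ClosedMfd n} (F : Fol M) (e : ℂ × ℝ → E n)
    (A : ℂ × ℝ → ℂ →L[ℝ] ℝ) (W : Set (ℂ × ℝ)) : Prop :=
  ∀ y ∈ W, 0 < inner ℝ (F.N (e y)) (fderiv ℝ e y (0, 1)) ∧ ∀ (ζ : ℂ) (s : ℝ),
    inner ℝ (F.N (e y)) (fderiv ℝ e y (ζ, s)) =
      inner ℝ (F.N (e y)) (fderiv ℝ e y (0, 1)) * (s - A y ζ)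

end Pool.Agent.helper35.FOL
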